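import Pool.Agent.Work.FiniteRankNormal.FE

/-!
# Block F: from monomials to smooth functions
-/

open Matrix MeasureTheory
open scoped ComplexOrder Nat SchwartzMap FourierTransform LineDeriv

namespace Pool.FR

namespace FAux

universe v

variable {H : Type v} [NormedAddCommGroup H] [InnerProductSpace ℂ H] [CompleteSpace H]

variable {ι : Type}

/-- The pair satisfies the hypotheses. -/
theorem mkPert {X₁ Y₁ X₂ Y₂ : H →L[ℂ] H} (hX₁ : IsSelfAdjoint X₁) (hY₁ : IsSelfAdjoint Y₁)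
    (hX₂ : IsSelfAdjoint X₂) (hY₂ : IsSelfAdjoint Y₂) (hc₁ : X₁ * Y₁ = Y₁ * X₁)
    (hc₂ : X₂ * Y₂ = Y₂ * X₂) {r : ℕ} {x y : Fin r → H}
    (hK : (X₂ + Complex.I • Y₂) - (X₁ + Complex.I • Y₁) =
      ∑ k, InnerProductSpace.rankOne ℂ (x k) (y k)) {e : ι → H} (he : Orthonormal ℂ e) :
    ∃ M R : ℝ, Pert e X₁ Y₁ X₂ Y₂ M R := by
  set M := ∑ k, ‖x k‖ * ‖y k‖ with hM
  have hM0 : 0 ≤ M := Finset.sum_nonneg fun k _ => by positivity
  set K := ∑ k, InnerProductSpace.rankOne ℂ (x k) (y k) with hKdef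
  have t1 : TB e K M := TB.sum _ _ _ fun k _ => TB.rankOne he (x k) (y k)
  have hstar : star K = ∑ k, InnerProductSpace.rankOne ℂ (y k) (x k) := by
    rw [hKdef, star_sum]
    refine Finset.sum_congr rfl fun k _ => ?_
    rw [ContinuousLinearMap.star_eq_adjoint, InnerProductSpace.adjoint_rankOne]
  have t2 : TB e (star K) M := by
    rw [hstar, hM]
    have := TB.sum Finset.univ (fun k => InnerProductSpace.rankOne ℂ (y k) (x k))
      (fun k => ‖y k‖ * ‖x k‖) fun k _ => TB.rankOne he (y k) (x k)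
    refine this.mono (le_of_eq ?_)
    exact Finset.sum_congr rfl fun k _ => mul_comm _ _
  have hs : star K = (X₂ - Complex.I • Y₂) - (X₁ - Complex.I • Y₁) := by
    rw [← hK, star_sub]
    have h1 := star_NN hX₂ hY₂
    have h2 := star_NN hX₁ hY₁
    unfold NN at h1 h2
    rw [h1, h2]
  have e1 : X₂ - X₁ = (1 / 2 : ℂ) • (K + star K) := by
    rw [hs, ← hK]
    module
  have e2 : Y₂ - Y₁ = (-Complex.I / 2) • (K + (-1 : ℂ) • star K) := by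
    rw [hs, ← hK]
    have h1 : (-Complex.I / 2) * (2 * Complex.I) = 1 := by
      linear_combination (-1 : ℂ) * Complex.I_mul_I
    have h2 : (X₂ + Complex.I • Y₂) - (X₁ + Complex.I • Y₁) +
        (-1 : ℂ) • ((X₂ - Complex.I • Y₂) - (X₁ - Complex.I • Y₁)) =
        (2 * Complex.I) • (Y₂ - Y₁) := by module
    rw [h2, smul_smul, h1, one_smul]
  have t3 : TB e (X₂ - X₁) M := by
    rw [e1]
    refine ((t1.add t2).smul (1 / 2)).mono (le_of_eq ?_)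
    norm_num
    ring
  have t4 : TB e (Y₂ - Y₁) M := by
    rw [e2]
    refine ((t1.add (t2.smul (-1))).smul (-Complex.I / 2)).mono (le_of_eq ?_)
    rw [norm_div, norm_neg, norm_neg, Complex.norm_I]
    norm_num
    ring
  refine ⟨M, max 1 (max (max ‖X₁‖ ‖Y₁‖) (max ‖X₂‖ ‖Y₂‖)), hX₁, hY₁, hX₂, hY₂, hc₁, hc₂, hM0,
    le_max_left _ _, ?_, ?_, ?_, ?_, t3, t4⟩
  · exact le_max_of_le_right (le_max_of_le_left (le_max_left _ _))
  · exact le_max_of_le_right (le_max_of_le_left (le_max_right _ _))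
  · exact le_max_of_le_right (le_max_of_le_right (le_max_left _ _))
  · exact le_max_of_le_right (le_max_of_le_right (le_max_right _ _))

/-- the functional of the exponential -/
noncomputable def LL (μ : Fin 4 → Measure ℂ) (a b : ℝ) : ℂ :=
  (∫ z : ℂ, Complex.I * a * ee a b z ∂(μ 0)) - (∫ z : ℂ, Complex.I * a * ee a b z ∂(μ 1)) +
    (∫ z : ℂ, Complex.I * b * ee a b z ∂(μ 2)) - (∫ z : ℂ, Complex.I * b * ee a b z ∂(μ 3))

theorem hs_LL {R : ℝ} (μ : Fin 4 → Measure ℂ) (hfin : ∀ i, IsFiniteMeasure (μ i))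
    (hμ : ∀ i, μ i (Metric.closedBall 0 R)ᶜ = 0) (a b : ℝ) :
    HasSum (fun p : ℕ × ℕ => cc a b p *
      (((∫ z : ℂ, (p.1 : ℝ) * z.re ^ (p.1 - 1) * z.im ^ p.2 ∂(μ 0)) -
            (∫ z : ℂ, (p.1 : ℝ) * z.re ^ (p.1 - 1) * z.im ^ p.2 ∂(μ 1)) +
            (∫ z : ℂ, (p.2 : ℝ) * z.re ^ p.1 * z.im ^ (p.2 - 1) ∂(μ 2)) -
            (∫ z : ℂ, (p.2 : ℝ) * z.re ^ p.1 * z.im ^ (p.2 - 1) ∂(μ 3)) : ℝ) : ℂ)) (LL μ a b) := by
  have hx : ∀ i (p : ℕ × ℕ), cc a b p *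
      ((∫ z : ℂ, (p.1 : ℝ) * z.re ^ (p.1 - 1) * z.im ^ p.2 ∂(μ i) : ℝ) : ℂ) =
      ∫ z : ℂ, cc a b p * ((p.1 : ℂ) * (z.re : ℂ) ^ (p.1 - 1) * (z.im : ℂ) ^ p.2) ∂(μ i) := by
    intro i p
    rw [← integral_complex_ofReal, ← integral_const_mul]
    refine integral_congr_ae (Filter.Eventually.of_forall fun z => ?_)
    simp only
    push_cast
    rfl
  have hy : ∀ i (p : ℕ × ℕ), cc a b p *
      ((∫ z : ℂ, (p.2 : ℝ) * z.re ^ p.1 * z.im ^ (p.2 - 1) ∂(μ i) : ℝ) : ℂ) =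
      ∫ z : ℂ, cc a b p * ((p.2 : ℂ) * (z.re : ℂ) ^ p.1 * (z.im : ℂ) ^ (p.2 - 1)) ∂(μ i) := by
    intro i p
    rw [← integral_complex_ofReal, ← integral_const_mul]
    refine integral_congr_ae (Filter.Eventually.of_forall fun z => ?_)
    simp only
    push_cast
    rfl
  have := hfin 0
  have := hfin 1
  have := hfin 2
  have := hfin 3
  have h := (((hs_x (hμ 0) a b).sub (hs_x (hμ 1) a b)).add (hs_y (hμ 2) a b)).sub
    (hs_y (hμ 3) a b)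
  unfold LL
  refine h.congr_fun ?_ |> id
  intro p
  rw [← hx, ← hx, ← hy, ← hy]
  push_cast
  ring

/-- Fubini -/
theorem fub {μ : Measure ℂ} [IsFiniteMeasure μ] (g : 𝓢(ℂ, ℂ)) (m : ℂ) (w : ℂ → ℝ)
    (hw : ∀ ξ, w ξ = 2 * Real.pi * inner ℝ ξ m) :
    Integrable (fun ξ : ℂ => (𝓕 g) ξ * ∫ z : ℂ, Complex.I * w ξ *
      ee (2 * Real.pi * ξ.re) (2 * Real.pi * ξ.im) z ∂μ) ∧
    ∫ ξ : ℂ, (𝓕 g) ξ * ∫ z : ℂ, Complex.I * w ξ *
      ee (2 * Real.pi * ξ.re) (2 * Real.pi * ξ.im) z ∂μ = ∫ z : ℂ, fderiv ℝ g z m ∂μ := by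
  set G : ℂ → ℂ → ℂ := fun ξ z => (𝓕 g) ξ * (2 * Real.pi * Complex.I * (inner ℝ ξ m : ℝ)) *
      ee (2 * Real.pi * ξ.re) (2 * Real.pi * ξ.im) z with hG
  have hcont : Continuous (Function.uncurry G) := by
    have h1 : Continuous (𝓕 g : 𝓢(ℂ, ℂ)) := (𝓕 g).continuous
    have h2 : Continuous fun p : ℂ × ℂ => (𝓕 g) p.1 := h1.comp continuous_fst
    rw [hG]
    unfold ee
    simp only [Function.uncurry_def]
    fun_prop
  have hbound : Integrable (fun ξ : ℂ => 2 * Real.pi * ‖m‖ * (‖ξ‖ ^ 1 * ‖(𝓕 g) ξ‖)) :=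
    ((𝓕 g).integrable_pow_mul volume 1).const_mul _
  have hle : ∀ ξ z, ‖G ξ z‖ ≤ 2 * Real.pi * ‖m‖ * (‖ξ‖ ^ 1 * ‖(𝓕 g) ξ‖) := by
    intro ξ z
    rw [hG]
    simp only
    rw [norm_mul, norm_ee, mul_one, norm_mul, norm_mul, norm_mul, norm_mul, Complex.norm_I,
      Complex.norm_real, Complex.norm_real, Real.norm_eq_abs, Real.norm_eq_abs,
      abs_of_pos Real.pi_pos]
    have := abs_real_inner_le_norm ξ m
    have h2 : ‖(2 : ℂ)‖ = 2 := by norm_num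
    rw [h2]
    calc ‖(𝓕 g) ξ‖ * (2 * Real.pi * 1 * |inner ℝ ξ m|)
        ≤ ‖(𝓕 g) ξ‖ * (2 * Real.pi * 1 * (‖ξ‖ * ‖m‖)) := by
          gcongr
      _ = _ := by ring
  have hint : Integrable (Function.uncurry G) (volume.prod μ) := by
    refine (hbound.comp_fst μ).mono' hcont.aestronglyMeasurable ?_
    exact Filter.Eventually.of_forall fun p => hle p.1 p.2
  have hinner : ∀ ξ : ℂ, (𝓕 g) ξ * ∫ z : ℂ, Complex.I * w ξ *
      ee (2 * Real.pi * ξ.re) (2 * Real.pi * ξ.im) z ∂μ = ∫ z : ℂ, G ξ z ∂μ := by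
    intro ξ
    rw [← integral_const_mul]
    refine integral_congr_ae (Filter.Eventually.of_forall fun z => ?_)
    rw [hG]
    simp only
    rw [hw]
    push_cast
    ring
  constructor
  · have := hint.integral_prod_left
    refine this.congr (Filter.Eventually.of_forall fun ξ => ?_)
    exact (hinner ξ).symm
  · rw [integral_congr_ae (Filter.Eventually.of_forall fun ξ => hinner ξ),
      integral_integral_swap hint]
    refine integral_congr_ae (Filter.Eventually.of_forall fun z => ?_)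
    exact (inv2 g m z).symm

end FAux

open FAux in
theorem stmt_F : Stmt_F := by
  intro H _ _ _ X₁ Y₁ X₂ Y₂ hX₁ hY₁ hX₂ hY₂ hc₁ hc₂ r x y hK R μ hfin hμ htr f hf hfc ι _ e
  obtain ⟨M, R', hP⟩ := mkPert hX₁ hY₁ hX₂ hY₂ hc₁ hc₂ hK e.orthonormal
  set fs : 𝓢(ℂ, ℂ) := hfc.toSchwartzMap hf with hfs
  have hfs' : (fs : ℂ → ℂ) = f := rfl
  set G : ℂ → ℂ → ℂ := fun ξ z => (𝓕 fs) ξ *
    ee (2 * Real.pi * ξ.re) (2 * Real.pi * ξ.im) z with hG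
  have hcont : Continuous (Function.uncurry G) := by
    have h1 : Continuous (𝓕 fs : 𝓢(ℂ, ℂ)) := (𝓕 fs).continuous
    have h2 : Continuous fun p : ℂ × ℂ => (𝓕 fs) p.1 := h1.comp continuous_fst
    rw [hG]
    unfold ee
    simp only [Function.uncurry_def]
    fun_prop
  have hnorm : ∀ ξ z, ‖G ξ z‖ = ‖(𝓕 fs) ξ‖ := by
    intro ξ z
    rw [hG]
    simp only
    rw [norm_mul, norm_ee, mul_one]
  have hint0 : Integrable (fun ξ : ℂ => ‖(𝓕 fs) ξ‖) := ((𝓕 fs).integrable (μ := volume)).norm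
  have hcfc : ∀ {X Y : H →L[ℂ] H}, IsSelfAdjoint X → IsSelfAdjoint Y → X * Y = Y * X →
      Integrable (fun ξ => cfc (G ξ) (NN X Y)) ∧
        cfc f (NN X Y) = ∫ ξ, cfc (G ξ) (NN X Y) := by
    intro X Y hX hY hc
    have hn := normal hX hY hc
    constructor
    · exact integrable_cfc G (fun ξ => ‖(𝓕 fs) ξ‖) (NN X Y) hcont.continuousOn
        (Filter.Eventually.of_forall fun ξ z _ => le_of_eq (hnorm ξ z)) hint0.2
    · rw [← cfc_integral G (fun ξ => ‖(𝓕 fs) ξ‖) (NN X Y) hcont.continuousOn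
        (Filter.Eventually.of_forall fun ξ z _ => le_of_eq (hnorm ξ z)) hint0.2]
      congr 1
      funext z
      rw [← hfs', hG]
      exact inv1 fs z
  have hGe : ∀ {X Y : H →L[ℂ] H}, IsSelfAdjoint X → IsSelfAdjoint Y → X * Y = Y * X → ∀ ξ : ℂ,
      cfc (G ξ) (NN X Y) = (𝓕 fs) ξ •
        cfc (ee (2 * Real.pi * ξ.re) (2 * Real.pi * ξ.im)) (NN X Y) := by
    intro X Y hX hY hc ξ
    have hn := normal hX hY hc
    rw [hG]
    exact cfc_const_mul ((𝓕 fs) ξ) (ee (2 * Real.pi * ξ.re) (2 * Real.pi * ξ.im)) (NN X Y)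
      (continuous_ee _ _).continuousOn
  obtain ⟨i1, c1⟩ := hcfc hX₁ hY₁ hc₁
  obtain ⟨i2, c2⟩ := hcfc hX₂ hY₂ hc₂
  set F : ι → ℂ → ℂ := fun i ξ => inner ℂ (e i)
    ((cfc (G ξ) (NN X₂ Y₂) - cfc (G ξ) (NN X₁ Y₁)) (e i)) with hF
  set Λ : ι → (H →L[ℂ] H) →L[ℂ] ℂ := fun i =>
    (innerSL ℂ (e i)).comp (ContinuousLinearMap.apply ℂ H (e i)) with hΛ
  have hΛF : ∀ i ξ, F i ξ = Λ i (cfc (G ξ) (NN X₂ Y₂) - cfc (G ξ) (NN X₁ Y₁)) := by
    intro i ξ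
    rfl
  have hFint : ∀ i, Integrable (F i) := by
    intro i
    have := (Λ i).integrable_comp (i2.sub i1)
    exact this
  have hFval : ∀ i, ∫ ξ, F i ξ = inner ℂ (e i)
      ((cfc f (NN X₂ Y₂) - cfc f (NN X₁ Y₁)) (e i)) := by
    intro i
    have h1 := (Λ i).integral_comp_comm (i2.sub i1)
    have h2 : ∫ ξ, (cfc (G ξ) (NN X₂ Y₂) - cfc (G ξ) (NN X₁ Y₁)) =
        cfc f (NN X₂ Y₂) - cfc f (NN X₁ Y₁) := by
      rw [integral_sub i2 i1, c1, c2]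
    have h3 : ∫ ξ, F i ξ = ∫ ξ, Λ i ((fun ξ => cfc (G ξ) (NN X₂ Y₂)) ξ -
      (fun ξ => cfc (G ξ) (NN X₁ Y₁)) ξ) := rfl
    rw [h3]
    refine h1.trans ?_
    have h4 : ∫ ξ, ((fun ξ => cfc (G ξ) (NN X₂ Y₂)) - fun ξ => cfc (G ξ) (NN X₁ Y₁)) ξ =
        cfc f (NN X₂ Y₂) - cfc f (NN X₁ Y₁) := h2
    rw [h4]
    rfl
  set a : ℂ → ℝ := fun ξ => 2 * Real.pi * ξ.re with ha
  set b : ℂ → ℝ := fun ξ => 2 * Real.pi * ξ.im with hb
  have hFE : ∀ i ξ, F i ξ = (𝓕 fs) ξ * inner ℂ (e i)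
      ((cfc (ee (a ξ) (b ξ)) (NN X₂ Y₂) - cfc (ee (a ξ) (b ξ)) (NN X₁ Y₁)) (e i)) := by
    intro i ξ
    rw [hF]
    simp only
    rw [hGe hX₁ hY₁ hc₁, hGe hX₂ hY₂ hc₂, ← smul_sub, ContinuousLinearMap.smul_apply,
      inner_smul_right]
  have hR' : 0 ≤ R' := by linarith [hP.hR]
  have hM' := hP.hM
  have hone : ‖(1 : H →L[ℂ] H)‖ ≤ 1 := ContinuousLinearMap.norm_id_le
  set C := R' * Real.exp R' * M with hC
  have hC0 : 0 ≤ C := by positivity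
  have hbd : ∀ (u : Finset ι) (ξ : ℂ), ∑ i ∈ u, ‖F i ξ‖ ≤
      4 * Real.pi * C * (‖ξ‖ ^ 1 * ‖(𝓕 fs) ξ‖) := by
    intro u ξ
    have h1 := hP.large (a ξ) (b ξ) 1 1 u
    have h2 : |a ξ| + |b ξ| ≤ 4 * Real.pi * ‖ξ‖ := by
      rw [ha, hb]
      simp only
      rw [abs_mul (2 * Real.pi) ξ.re, abs_mul (2 * Real.pi) ξ.im,
        abs_of_pos (by positivity : (0 : ℝ) < 2 * Real.pi)]
      have := Complex.abs_re_le_norm ξ
      have := Complex.abs_im_le_norm ξ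
      nlinarith [Real.pi_pos]
    calc ∑ i ∈ u, ‖F i ξ‖ = ‖(𝓕 fs) ξ‖ * ∑ i ∈ u, ‖(inner ℂ (e i)
          ((cfc (ee (a ξ) (b ξ)) (NN X₂ Y₂) - cfc (ee (a ξ) (b ξ)) (NN X₁ Y₁)) (e i)) : ℂ)‖ := by
          rw [Finset.mul_sum]
          refine Finset.sum_congr rfl fun i _ => ?_
          rw [hFE, norm_mul]
      _ ≤ ‖(𝓕 fs) ξ‖ * ((|a ξ| + |b ξ|) * C * ‖(1 : H →L[ℂ] H)‖ * ‖(1 : H →L[ℂ] H)‖) :=
          mul_le_mul_of_nonneg_left h1 (norm_nonneg _)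
      _ ≤ ‖(𝓕 fs) ξ‖ * ((4 * Real.pi * ‖ξ‖) * C * 1 * 1) := by gcongr
      _ = _ := by ring
  have hbint : Integrable (fun ξ : ℂ => 4 * Real.pi * C * (‖ξ‖ ^ 1 * ‖(𝓕 fs) ξ‖)) :=
    ((𝓕 fs).integrable_pow_mul volume 1).const_mul _
  have hsum : Summable fun i => ∫ ξ, ‖F i ξ‖ := by
    refine summable_of_sum_le (c := ∫ ξ : ℂ, 4 * Real.pi * C * (‖ξ‖ ^ 1 * ‖(𝓕 fs) ξ‖))
      (fun i => integral_nonneg fun ξ => norm_nonneg _) fun u => ?_
    rw [← integral_finset_sum u fun i _ => (hFint i).norm]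
    exact integral_mono (integrable_finset_sum u fun i _ => (hFint i).norm) hbint (hbd u)
  have hmain := hasSum_integral_of_summable_integral_norm hFint hsum
  have htr' : ∀ ξ, ∑' i, F i ξ = (𝓕 fs) ξ * LL μ (a ξ) (b ξ) := by
    intro ξ
    have h1 := hP.trace _ (fun k l => htr k l ι e) (a ξ) (b ξ) _ (hs_LL μ hfin hμ (a ξ) (b ξ))
    have h2 := h1.mul_left ((𝓕 fs) ξ)
    rw [← h2.tsum_eq]
    exact tsum_congr fun i => hFE i ξ
  have hre : ∀ ξ : ℂ, a ξ = 2 * Real.pi * inner ℝ ξ 1 := by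
    intro ξ
    rw [ha, Complex.inner]
    simp
  have him : ∀ ξ : ℂ, b ξ = 2 * Real.pi * inner ℝ ξ Complex.I := by
    intro ξ
    rw [hb, Complex.inner]
    simp
  have hL : ∫ ξ, ∑' i, F i ξ = (∫ z : ℂ, fderiv ℝ f z 1 ∂(μ 0)) -
      (∫ z : ℂ, fderiv ℝ f z 1 ∂(μ 1)) + (∫ z : ℂ, fderiv ℝ f z Complex.I ∂(μ 2)) -
      (∫ z : ℂ, fderiv ℝ f z Complex.I ∂(μ 3)) := by
    have := hfin 0
    have := hfin 1
    have := hfin 2
    have := hfin 3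
    obtain ⟨p0, q0⟩ := fub (μ := μ 0) fs 1 a hre
    obtain ⟨p1, q1⟩ := fub (μ := μ 1) fs 1 a hre
    obtain ⟨p2, q2⟩ := fub (μ := μ 2) fs Complex.I b him
    obtain ⟨p3, q3⟩ := fub (μ := μ 3) fs Complex.I b him
    have hadd : ∀ A0 A1 B2 B3 : ℂ → ℂ, Integrable A0 → Integrable A1 → Integrable B2 →
        Integrable B3 → (∫ ξ, A0 ξ) - (∫ ξ, A1 ξ) + (∫ ξ, B2 ξ) - (∫ ξ, B3 ξ) =
          ∫ ξ, (A0 ξ - A1 ξ + B2 ξ - B3 ξ) := by
      intro A0 A1 B2 B3 i0 i1 i2 i3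
      have s1 : Integrable (fun ξ => A0 ξ - A1 ξ) := i0.sub i1
      have s2 : Integrable (fun ξ => A0 ξ - A1 ξ + B2 ξ) := s1.add i2
      rw [integral_sub s2 i3, integral_add s1 i2, integral_sub i0 i1]
    rw [← hfs', ← q0, ← q1, ← q2, ← q3, hadd _ _ _ _ p0 p1 p2 p3]
    refine integral_congr_ae (Filter.Eventually.of_forall fun ξ => ?_)
    simp only
    rw [htr', LL]
    ring
  rw [hL] at hmain
  refine hmain.congr_fun ?_ |> id
  intro i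
  exact (hFval i).symm

end Pool.FR
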