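import Pool.Agent.Work.FiniteRankNormal.Interface

/-!
# Block F, part A: diagonal sums, functional calculus of monomials
-/

open Matrix MeasureTheory
open scoped ComplexOrder

namespace Pool.FR

namespace FAux

universe v

variable {H : Type v} [NormedAddCommGroup H] [InnerProductSpace ℂ H] [CompleteSpace H]

variable {ι : Type}

/-- diagonal sums of `S₁ T S₂` are at most `M ‖S₁‖ ‖S₂‖` -/
def TB (e : ι → H) (T : H →L[ℂ] H) (M : ℝ) : Prop :=
  ∀ (S₁ S₂ : H →L[ℂ] H) (s : Finset ι),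
    ∑ i ∈ s, ‖inner ℂ (e i) (S₁ (T (S₂ (e i))))‖ ≤ M * ‖S₁‖ * ‖S₂‖

theorem TB.zero (e : ι → H) : TB e 0 0 := by
  intro S₁ S₂ s
  simp

theorem TB.add {e : ι → H} {T T' : H →L[ℂ] H} {M M' : ℝ} (h : TB e T M) (h' : TB e T' M') :
    TB e (T + T') (M + M') := by
  intro S₁ S₂ s
  calc ∑ i ∈ s, ‖inner ℂ (e i) (S₁ ((T + T') (S₂ (e i))))‖
      ≤ ∑ i ∈ s, (‖inner ℂ (e i) (S₁ (T (S₂ (e i))))‖ + ‖inner ℂ (e i) (S₁ (T' (S₂ (e i))))‖) := by
        refine Finset.sum_le_sum fun i _ => ?_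
        rw [ContinuousLinearMap.add_apply, map_add, inner_add_right]
        exact norm_add_le _ _
    _ ≤ M * ‖S₁‖ * ‖S₂‖ + M' * ‖S₁‖ * ‖S₂‖ := by
        rw [Finset.sum_add_distrib]
        exact add_le_add (h _ _ _) (h' _ _ _)
    _ = _ := by ring

theorem TB.smul {e : ι → H} {T : H →L[ℂ] H} {M : ℝ} (c : ℂ) (h : TB e T M) :
    TB e (c • T) (‖c‖ * M) := by
  intro S₁ S₂ s
  calc ∑ i ∈ s, ‖inner ℂ (e i) (S₁ ((c • T) (S₂ (e i))))‖
      = ∑ i ∈ s, ‖c‖ * ‖inner ℂ (e i) (S₁ (T (S₂ (e i))))‖ := by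
        refine Finset.sum_congr rfl fun i _ => ?_
        rw [ContinuousLinearMap.smul_apply, map_smul, inner_smul_right, norm_mul]
    _ = ‖c‖ * ∑ i ∈ s, ‖inner ℂ (e i) (S₁ (T (S₂ (e i))))‖ := by rw [Finset.mul_sum]
    _ ≤ ‖c‖ * (M * ‖S₁‖ * ‖S₂‖) := mul_le_mul_of_nonneg_left (h _ _ _) (norm_nonneg _)
    _ = _ := by ring

theorem TB.mono {e : ι → H} {T : H →L[ℂ] H} {M M' : ℝ} (h : TB e T M) (hM : M ≤ M') :
    TB e T M' := by
  intro S₁ S₂ s
  refine (h S₁ S₂ s).trans ?_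
  gcongr

theorem TB.mul_left {e : ι → H} {T : H →L[ℂ] H} {M : ℝ} (S : H →L[ℂ] H) (h : TB e T M)
    (hM : 0 ≤ M) : TB e (S * T) (‖S‖ * M) := by
  intro S₁ S₂ s
  have h1 := h (S₁ * S) S₂ s
  refine le_trans (le_of_eq ?_) (h1.trans ?_)
  · rfl
  · calc M * ‖S₁ * S‖ * ‖S₂‖ ≤ M * (‖S₁‖ * ‖S‖) * ‖S₂‖ := by
          gcongr
          exact norm_mul_le _ _
      _ = _ := by ring

theorem TB.mul_right {e : ι → H} {T : H →L[ℂ] H} {M : ℝ} (S : H →L[ℂ] H) (h : TB e T M)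
    (hM : 0 ≤ M) : TB e (T * S) (M * ‖S‖) := by
  intro S₁ S₂ s
  have h1 := h S₁ (S * S₂) s
  refine le_trans (le_of_eq ?_) (h1.trans ?_)
  · rfl
  · calc M * ‖S₁‖ * ‖S * S₂‖ ≤ M * ‖S₁‖ * (‖S‖ * ‖S₂‖) := by
          gcongr
          exact norm_mul_le _ _
      _ = _ := by ring

theorem TB.sum {e : ι → H} {κ : Type} (t : Finset κ) (T : κ → H →L[ℂ] H) (M : κ → ℝ)
    (h : ∀ k ∈ t, TB e (T k) (M k)) : TB e (∑ k ∈ t, T k) (∑ k ∈ t, M k) := by
  classical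
  induction t using Finset.induction_on with
  | empty => simpa using TB.zero e
  | insert a t ha ih =>
    rw [Finset.sum_insert ha, Finset.sum_insert ha]
    exact (h a (Finset.mem_insert_self a t)).add (ih fun k hk => h k (Finset.mem_insert_of_mem hk))

theorem TB.hasSum {e : ι → H} {κ : Type} {T : κ → H →L[ℂ] H} {M : κ → ℝ} {T₀ : H →L[ℂ] H} {M₀ : ℝ}
    (h : ∀ k, TB e (T k) (M k)) (hM : ∀ k, 0 ≤ M k) (hT : HasSum T T₀) (hM₀ : HasSum M M₀) :
    TB e T₀ M₀ := by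
  intro S₁ S₂ s
  have hcont : Continuous fun T : H →L[ℂ] H => ∑ i ∈ s, ‖inner ℂ (e i) (S₁ (T (S₂ (e i))))‖ := by
    fun_prop
  refine le_of_tendsto ((hcont.tendsto T₀).comp hT) (Filter.Eventually.of_forall fun t => ?_)
  refine (TB.sum t T M (fun k _ => h k) S₁ S₂ s).trans ?_
  have := sum_le_hasSum t (fun k _ => hM k) hM₀
  gcongr

theorem TB.rankOne {e : ι → H} (he : Orthonormal ℂ e) (x y : H) :
    TB e (InnerProductSpace.rankOne ℂ x y) (‖x‖ * ‖y‖) := by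
  intro S₁ S₂ s
  have h1 : ∀ i, ‖inner ℂ (e i) (S₁ ((InnerProductSpace.rankOne ℂ x y) (S₂ (e i))))‖ =
      ‖inner ℂ (e i) (S₁ x)‖ * ‖inner ℂ (e i) ((ContinuousLinearMap.adjoint S₂) y)‖ := by
    intro i
    rw [InnerProductSpace.rankOne_apply, map_smul, inner_smul_right, norm_mul, mul_comm]
    congr 1
    rw [← ContinuousLinearMap.adjoint_inner_left, norm_inner_symm]
  calc ∑ i ∈ s, ‖inner ℂ (e i) (S₁ ((InnerProductSpace.rankOne ℂ x y) (S₂ (e i))))‖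
      = ∑ i ∈ s, ‖inner ℂ (e i) (S₁ x)‖ *
          ‖inner ℂ (e i) ((ContinuousLinearMap.adjoint S₂) y)‖ :=
        Finset.sum_congr rfl fun i _ => h1 i
    _ ≤ √(∑ i ∈ s, ‖inner ℂ (e i) (S₁ x)‖ ^ 2) *
          √(∑ i ∈ s, ‖inner ℂ (e i) ((ContinuousLinearMap.adjoint S₂) y)‖ ^ 2) :=
        Real.sum_mul_le_sqrt_mul_sqrt _ _ _
    _ ≤ ‖S₁ x‖ * ‖(ContinuousLinearMap.adjoint S₂) y‖ := by
        have b1 := he.sum_inner_products_le (S₁ x) (s := s)
        have b2 := he.sum_inner_products_le ((ContinuousLinearMap.adjoint S₂) y) (s := s)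
        gcongr
        · exact Real.sqrt_le_iff.mpr ⟨norm_nonneg _, b1⟩
        · exact Real.sqrt_le_iff.mpr ⟨norm_nonneg _, b2⟩
    _ ≤ (‖S₁‖ * ‖x‖) * (‖ContinuousLinearMap.adjoint S₂‖ * ‖y‖) := by
        gcongr
        · exact S₁.le_opNorm x
        · exact ContinuousLinearMap.le_opNorm _ _
    _ = _ := by
        rw [LinearIsometryEquiv.norm_map]
        ring

/-- the normal operator -/
noncomputable def NN (X Y : H →L[ℂ] H) : H →L[ℂ] H := X + Complex.I • Y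

theorem star_NN {X Y : H →L[ℂ] H} (hX : IsSelfAdjoint X) (hY : IsSelfAdjoint Y) :
    star (NN X Y) = X - Complex.I • Y := by
  rw [NN, star_add, star_smul, hX.star_eq, hY.star_eq]
  simp [sub_eq_add_neg]

theorem normal {X Y : H →L[ℂ] H} (hX : IsSelfAdjoint X) (hY : IsSelfAdjoint Y)
    (hc : X * Y = Y * X) : IsStarNormal (NN X Y) := by
  rw [isStarNormal_iff, star_NN hX hY, NN]
  rw [Commute, SemiconjBy]
  simp only [sub_mul, mul_add, mul_sub, add_mul, smul_mul_assoc, mul_smul_comm, hc]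
  module

theorem cfc_re {X Y : H →L[ℂ] H} (hX : IsSelfAdjoint X) (hY : IsSelfAdjoint Y)
    (hc : X * Y = Y * X) : cfc (fun z : ℂ => (z.re : ℂ)) (NN X Y) = X := by
  have := normal hX hY hc
  rw [cfc_re_id (NN X Y), realPart_apply_coe, star_NN hX hY, NN]
  have : X + Complex.I • Y + (X - Complex.I • Y) = (2 : ℝ) • X := by
    rw [two_smul]; abel
  rw [this, smul_smul]
  norm_num

theorem cfc_im {X Y : H →L[ℂ] H} (hX : IsSelfAdjoint X) (hY : IsSelfAdjoint Y)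
    (hc : X * Y = Y * X) : cfc (fun z : ℂ => (z.im : ℂ)) (NN X Y) = Y := by
  have := normal hX hY hc
  rw [cfc_im_id (NN X Y), imaginaryPart_apply_coe, star_NN hX hY, NN]
  have : X + Complex.I • Y - (X - Complex.I • Y) = (2 : ℝ) • (Complex.I • Y) := by
    rw [two_smul]; abel
  rw [this, smul_smul]
  norm_num
  rw [smul_smul, Complex.I_mul_I]
  norm_num

/-- monomials -/
theorem cfc_mono {X Y : H →L[ℂ] H} (hX : IsSelfAdjoint X) (hY : IsSelfAdjoint Y)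
    (hc : X * Y = Y * X) (c : ℂ) (k l : ℕ) :
    cfc (fun z : ℂ => c * ((z.re : ℂ) ^ k * (z.im : ℂ) ^ l)) (NN X Y) = c • (X ^ k * Y ^ l) := by
  have := normal hX hY hc
  have c1 : Continuous fun z : ℂ => (z.re : ℂ) := Complex.continuous_ofReal.comp Complex.continuous_re
  have c2 : Continuous fun z : ℂ => (z.im : ℂ) := Complex.continuous_ofReal.comp Complex.continuous_im
  rw [cfc_const_mul c (fun z : ℂ => (z.re : ℂ) ^ k * (z.im : ℂ) ^ l) (NN X Y)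
    ((c1.pow k).mul (c2.pow l)).continuousOn,
    cfc_mul (fun z : ℂ => (z.re : ℂ) ^ k) (fun z : ℂ => (z.im : ℂ) ^ l) (NN X Y)
      (c1.pow k).continuousOn (c2.pow l).continuousOn,
    cfc_pow (fun z : ℂ => (z.re : ℂ)) k (NN X Y) c1.continuousOn,
    cfc_pow (fun z : ℂ => (z.im : ℂ)) l (NN X Y) c2.continuousOn, cfc_re hX hY hc, cfc_im hX hY hc]

end FAux

end Pool.FR
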