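import Pool.Agent.Work.FiniteRankNormal.FA

/-!
# Block F, part B: exponentials
-/

open Matrix MeasureTheory
open scoped ComplexOrder Nat

namespace Pool.FR

namespace FAux

universe v

variable {H : Type v} [NormedAddCommGroup H] [InnerProductSpace ℂ H] [CompleteSpace H]

variable {ι : Type}

/-! ### Series -/

theorem hs_exp (z : ℂ) : HasSum (fun k : ℕ => z ^ k / (k ! : ℂ)) (Complex.exp z) := by
  have := NormedSpace.expSeries_div_hasSum_exp (𝔸 := ℂ) z
  rwa [← Complex.exp_eq_exp_ℂ] at this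

theorem hs_rexp (z : ℝ) : HasSum (fun k : ℕ => z ^ k / (k ! : ℝ)) (Real.exp z) := by
  have := NormedSpace.expSeries_div_hasSum_exp (𝔸 := ℝ) z
  rwa [← Real.exp_eq_exp_ℝ] at this

theorem hs_shift {α : Type} [NormedField α] {f : ℕ → α} {g : ℕ → α} {s c : α} (h : HasSum f s)
    (h0 : g 0 = 0) (h1 : ∀ k, g (k + 1) = c * f k) : HasSum g (c * s) := by
  rw [← hasSum_nat_add_iff' 1]
  simp only [Finset.range_one, Finset.sum_singleton, h0, sub_zero]
  have : (fun k => g (k + 1)) = fun k => c * f k := funext h1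
  rw [this]
  exact h.mul_left c

/-- the derivative of the exponential series -/
theorem hs_dexp (w x : ℂ) : HasSum (fun k : ℕ => w ^ k / (k ! : ℂ) * ((k : ℂ) * x ^ (k - 1)))
    (w * Complex.exp (w * x)) := by
  refine hs_shift (hs_exp (w * x)) (by simp) fun k => ?_
  rw [Nat.factorial_succ, Nat.add_sub_cancel, mul_pow]
  push_cast
  have h1 : ((k : ℂ) + 1) ≠ 0 := by exact_mod_cast Nat.succ_ne_zero k
  have h2 : (k ! : ℂ) ≠ 0 := by exact_mod_cast Nat.factorial_ne_zero k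
  field_simp
  ring

theorem hs_rdexp (u : ℝ) : HasSum (fun k : ℕ => u ^ k / (k ! : ℝ) * (k : ℝ))
    (u * Real.exp u) := by
  refine hs_shift (hs_rexp u) (by simp) fun k => ?_
  rw [Nat.factorial_succ]
  push_cast
  have h1 : ((k : ℝ) + 1) ≠ 0 := by exact_mod_cast Nat.succ_ne_zero k
  have h2 : (k ! : ℝ) ≠ 0 := by exact_mod_cast Nat.factorial_ne_zero k
  field_simp
  ring

/-- the weights -/
noncomputable def uu (u v : ℝ) (p : ℕ × ℕ) : ℝ := u ^ p.1 / (p.1 ! : ℝ) * (v ^ p.2 / (p.2 ! : ℝ))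

theorem uu_nonneg {u v : ℝ} (hu : 0 ≤ u) (hv : 0 ≤ v) (p : ℕ × ℕ) : 0 ≤ uu u v p := by
  unfold uu; positivity

theorem summable_uu {u v : ℝ} (hu : 0 ≤ u) (hv : 0 ≤ v) : Summable (uu u v) := by
  refine (hs_rexp u).summable.mul_of_nonneg (hs_rexp v).summable ?_ ?_
  · intro k; simp only [Pi.zero_apply]; positivity
  · intro k; simp only [Pi.zero_apply]; positivity

/-- the sum of the weighted series -/
theorem hs_uu {u v : ℝ} (hu : 0 ≤ u) (hv : 0 ≤ v) :
    HasSum (fun p : ℕ × ℕ => uu u v p * ((p.1 : ℝ) + p.2)) ((u + v) * Real.exp (u + v)) := by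
  have n1 : (0 : ℕ → ℝ) ≤ fun k : ℕ => u ^ k / (k ! : ℝ) := fun k => by
    simp only [Pi.zero_apply]; positivity
  have n2 : (0 : ℕ → ℝ) ≤ fun k : ℕ => v ^ k / (k ! : ℝ) := fun k => by
    simp only [Pi.zero_apply]; positivity
  have n3 : (0 : ℕ → ℝ) ≤ fun k : ℕ => u ^ k / (k ! : ℝ) * (k : ℝ) := fun k => by
    simp only [Pi.zero_apply]; positivity
  have n4 : (0 : ℕ → ℝ) ≤ fun k : ℕ => v ^ k / (k ! : ℝ) * (k : ℝ) := fun k => by
    simp only [Pi.zero_apply]; positivity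
  have h1 := (hs_rdexp u).mul (hs_rexp v)
    ((hs_rdexp u).summable.mul_of_nonneg (hs_rexp v).summable n3 n2)
  have h2 := (hs_rexp u).mul (hs_rdexp v)
    ((hs_rexp u).summable.mul_of_nonneg (hs_rdexp v).summable n1 n4)
  have h3 := h1.add h2
  have e1 : (u + v) * Real.exp (u + v) = u * Real.exp u * Real.exp v +
      Real.exp u * (v * Real.exp v) := by rw [Real.exp_add]; ring
  rw [e1]
  refine h3.congr_fun ?_ |> id
  intro p
  unfold uu
  ring

/-- the coefficients -/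
noncomputable def cc (a b : ℝ) (p : ℕ × ℕ) : ℂ :=
  (Complex.I * a) ^ p.1 / (p.1 ! : ℂ) * ((Complex.I * b) ^ p.2 / (p.2 ! : ℂ))

/-- the exponentials -/
noncomputable def ee (a b : ℝ) (z : ℂ) : ℂ :=
  Complex.exp (Complex.I * a * z.re) * Complex.exp (Complex.I * b * z.im)

theorem norm_cc (a b : ℝ) (p : ℕ × ℕ) : ‖cc a b p‖ = uu |a| |b| p := by
  unfold cc uu
  rw [norm_mul, norm_div, norm_div, norm_pow, norm_pow, norm_mul, norm_mul, Complex.norm_I,
    one_mul, one_mul, Complex.norm_real, Complex.norm_real, Real.norm_eq_abs, Real.norm_eq_abs]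
  simp

theorem norm_ee (a b : ℝ) (z : ℂ) : ‖ee a b z‖ = 1 := by
  unfold ee
  rw [norm_mul]
  have h : ∀ s t : ℝ, ‖Complex.exp (Complex.I * s * t)‖ = 1 := by
    intro s t
    have : Complex.I * s * t = ((s * t : ℝ) : ℂ) * Complex.I := by push_cast; ring
    rw [this, Complex.norm_exp_ofReal_mul_I]
  rw [h, h, one_mul]

theorem ee_pow (a b : ℝ) (m : ℕ) (hm : m ≠ 0) (z : ℂ) :
    ee (a / m) (b / m) z ^ m = ee a b z := by
  unfold ee
  have hm' : (m : ℂ) ≠ 0 := by exact_mod_cast hm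
  rw [mul_pow, ← Complex.exp_nat_mul, ← Complex.exp_nat_mul]
  push_cast
  congr 2
  · field_simp
  · field_simp

theorem continuous_ee (a b : ℝ) : Continuous (ee a b) := by
  unfold ee
  fun_prop

theorem summable_uuR (a b : ℝ) {R : ℝ} (hR : 0 ≤ R) :
    Summable fun p : ℕ × ℕ => uu (|a| * R) (|b| * R) p :=
  summable_uu (by positivity) (by positivity)

theorem uu_mul (u v R : ℝ) (p : ℕ × ℕ) : uu (u * R) (v * R) p = uu u v p * (R ^ p.1 * R ^ p.2) := by
  unfold uu
  rw [mul_pow, mul_pow]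
  ring

theorem term_bound (a b : ℝ) {R : ℝ} {z : ℂ} (hz : ‖z‖ ≤ R) (p : ℕ × ℕ) :
    ‖cc a b p * ((z.re : ℂ) ^ p.1 * (z.im : ℂ) ^ p.2)‖ ≤ uu (|a| * R) (|b| * R) p := by
  rw [norm_mul, norm_cc, uu_mul, norm_mul, norm_pow, norm_pow, Complex.norm_real,
    Complex.norm_real, Real.norm_eq_abs, Real.norm_eq_abs]
  have h1 : |z.re| ≤ R := (Complex.abs_re_le_norm z).trans hz
  have h2 : |z.im| ≤ R := (Complex.abs_im_le_norm z).trans hz
  have := uu_nonneg (abs_nonneg a) (abs_nonneg b) p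
  have hR : 0 ≤ R := (abs_nonneg _).trans h1
  gcongr

theorem hs_ee (a b : ℝ) (z : ℂ) :
    HasSum (fun p : ℕ × ℕ => cc a b p * ((z.re : ℂ) ^ p.1 * (z.im : ℂ) ^ p.2)) (ee a b z) := by
  have h1 := hs_exp (Complex.I * a * z.re)
  have h2 := hs_exp (Complex.I * b * z.im)
  have h3 := h1.mul h2 (by
    refine Summable.of_norm ?_
    refine Summable.of_nonneg_of_le (fun _ => norm_nonneg _) (fun p => ?_)
      (summable_uuR a b (norm_nonneg z))
    refine le_trans (le_of_eq ?_) (term_bound a b le_rfl p)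
    congr 1
    unfold cc
    rw [mul_pow, mul_pow (Complex.I * (b : ℂ))]
    ring)
  refine h3.congr_fun ?_ |> id
  intro p
  unfold cc
  rw [mul_pow, mul_pow (Complex.I * (b : ℂ))]
  ring

end FAux

end Pool.FR
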