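import Pool.Agent.Work.FiniteRankNormal.FB

/-!
# Block F, part C: bounds and traces for the exponentials
-/

open Matrix MeasureTheory
open scoped ComplexOrder Nat

namespace Pool.FR

namespace FAux

universe v

variable {H : Type v} [NormedAddCommGroup H] [InnerProductSpace ℂ H] [CompleteSpace H]

variable {ι : Type}

theorem norm_pow_le_pow {A : H →L[ℂ] H} {R : ℝ} (hA : ‖A‖ ≤ R) (k : ℕ) :
    ‖A ^ k‖ ≤ R ^ k := by
  have hR : 0 ≤ R := (norm_nonneg _).trans hA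
  induction k with
  | zero => rw [pow_zero, pow_zero]; exact ContinuousLinearMap.norm_id_le
  | succ k ih =>
    rw [pow_succ, pow_succ]
    exact (norm_mul_le _ _).trans (mul_le_mul ih hA (norm_nonneg _) (by positivity))

theorem TB.pow {e : ι → H} {A B : H →L[ℂ] H} {M R : ℝ} (h : TB e (B - A) M) (hM : 0 ≤ M)
    (hA : ‖A‖ ≤ R) (hB : ‖B‖ ≤ R) (hR : 1 ≤ R) (k : ℕ) :
    TB e (B ^ k - A ^ k) (k * R ^ k * M) := by
  have hR0 : 0 ≤ R := by linarith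
  induction k with
  | zero => simpa using TB.zero e
  | succ k ih =>
    have e1 : B ^ (k + 1) - A ^ (k + 1) = B ^ k * (B - A) + (B ^ k - A ^ k) * A := by
      rw [pow_succ, pow_succ]; noncomm_ring
    rw [e1]
    refine ((h.mul_left (B ^ k) hM).add (ih.mul_right A (by positivity))).mono ?_
    have h1 := norm_pow_le_pow hB k
    have h2 : R ^ k ≤ R ^ (k + 1) := pow_le_pow_right₀ hR (Nat.le_succ k)
    calc ‖B ^ k‖ * M + k * R ^ k * M * ‖A‖ ≤ R ^ (k + 1) * M + k * R ^ k * M * R := by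
          gcongr
          exact h1.trans h2
      _ = _ := by push_cast; ring

theorem TB.mono2 {e : ι → H} {X₁ Y₁ X₂ Y₂ : H →L[ℂ] H} {M R : ℝ} (hX : TB e (X₂ - X₁) M)
    (hY : TB e (Y₂ - Y₁) M) (hM : 0 ≤ M) (hR : 1 ≤ R) (n1 : ‖X₁‖ ≤ R) (n2 : ‖Y₁‖ ≤ R)
    (n3 : ‖X₂‖ ≤ R) (n4 : ‖Y₂‖ ≤ R) (k l : ℕ) :
    TB e (X₂ ^ k * Y₂ ^ l - X₁ ^ k * Y₁ ^ l) (((k : ℝ) + l) * (R ^ k * R ^ l) * M) := by
  have hR0 : 0 ≤ R := by linarith
  have e1 : X₂ ^ k * Y₂ ^ l - X₁ ^ k * Y₁ ^ l =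
      X₂ ^ k * (Y₂ ^ l - Y₁ ^ l) + (X₂ ^ k - X₁ ^ k) * Y₁ ^ l := by noncomm_ring
  rw [e1]
  refine (((hY.pow hM n2 n4 hR l).mul_left (X₂ ^ k) (by positivity)).add
    ((hX.pow hM n1 n3 hR k).mul_right (Y₁ ^ l) (by positivity))).mono ?_
  have h1 := norm_pow_le_pow n3 k
  have h2 := norm_pow_le_pow n2 l
  calc ‖X₂ ^ k‖ * (l * R ^ l * M) + k * R ^ k * M * ‖Y₁ ^ l‖
      ≤ R ^ k * (l * R ^ l * M) + k * R ^ k * M * R ^ l := by gcongr
    _ = _ := by ring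

theorem spec_bound {N : H →L[ℂ] H} {z : ℂ} (hz : z ∈ spectrum ℂ N) : ‖z‖ ≤ ‖N‖ := by
  refine (spectrum.norm_le_norm_mul_of_mem hz).trans ?_
  have : ‖(1 : H →L[ℂ] H)‖ ≤ 1 := ContinuousLinearMap.norm_id_le
  calc ‖N‖ * ‖(1 : H →L[ℂ] H)‖ ≤ ‖N‖ * 1 := by gcongr
    _ = _ := mul_one _

theorem hs_cfc {X Y : H →L[ℂ] H} (hX : IsSelfAdjoint X) (hY : IsSelfAdjoint Y)
    (hc : X * Y = Y * X) (a b : ℝ) :
    HasSum (fun p : ℕ × ℕ => cc a b p • (X ^ p.1 * Y ^ p.2)) (cfc (ee a b) (NN X Y)) := by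
  have := normal hX hY hc
  have c1 : Continuous fun z : ℂ => (z.re : ℂ) :=
    Complex.continuous_ofReal.comp Complex.continuous_re
  have c2 : Continuous fun z : ℂ => (z.im : ℂ) :=
    Complex.continuous_ofReal.comp Complex.continuous_im
  have hcont : ∀ p : ℕ × ℕ, Continuous fun z : ℂ => cc a b p *
      ((z.re : ℂ) ^ p.1 * (z.im : ℂ) ^ p.2) := fun p =>
    continuous_const.mul ((c1.pow p.1).mul (c2.pow p.2))
  have h1 : TendstoUniformlyOn (fun (t : Finset (ℕ × ℕ)) (z : ℂ) => ∑ p ∈ t, cc a b p *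
      ((z.re : ℂ) ^ p.1 * (z.im : ℂ) ^ p.2)) (ee a b) Filter.atTop (spectrum ℂ (NN X Y)) := by
    have h2 := tendstoUniformlyOn_tsum (f := fun (p : ℕ × ℕ) (z : ℂ) => cc a b p *
      ((z.re : ℂ) ^ p.1 * (z.im : ℂ) ^ p.2)) (s := spectrum ℂ (NN X Y))
      (summable_uuR a b (norm_nonneg (NN X Y))) (fun p z hz => term_bound a b (spec_bound hz) p)
    have h3 : (fun z : ℂ => ∑' p : ℕ × ℕ, cc a b p * ((z.re : ℂ) ^ p.1 * (z.im : ℂ) ^ p.2)) =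
        ee a b := by
      funext z
      exact (hs_ee a b z).tsum_eq
    rw [h3] at h2
    exact h2
  have h4 := tendsto_cfc_fun h1 (Filter.Eventually.of_forall fun t =>
    (continuous_finset_sum t fun p _ => hcont p).continuousOn)
  have h5 : ∀ t : Finset (ℕ × ℕ), cfc (fun z : ℂ => ∑ p ∈ t, cc a b p *
      ((z.re : ℂ) ^ p.1 * (z.im : ℂ) ^ p.2)) (NN X Y) = ∑ p ∈ t, cc a b p • (X ^ p.1 * Y ^ p.2) := by
    intro t
    have h6 := cfc_sum (R := ℂ) (fun (p : ℕ × ℕ) (z : ℂ) => cc a b p *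
      ((z.re : ℂ) ^ p.1 * (z.im : ℂ) ^ p.2)) (NN X Y) t (fun p _ => (hcont p).continuousOn)
    have h7 : (fun z : ℂ => ∑ p ∈ t, cc a b p * ((z.re : ℂ) ^ p.1 * (z.im : ℂ) ^ p.2)) =
        ∑ p ∈ t, fun z : ℂ => cc a b p * ((z.re : ℂ) ^ p.1 * (z.im : ℂ) ^ p.2) := by
      funext z
      rw [Finset.sum_apply]
    rw [h7, h6]
    exact Finset.sum_congr rfl fun p _ => cfc_mono hX hY hc _ _ _
  simp_rw [h5] at h4
  exact h4

/-- hypotheses on the pair -/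
structure Pert (e : ι → H) (X₁ Y₁ X₂ Y₂ : H →L[ℂ] H) (M R : ℝ) : Prop where
  hX₁ : IsSelfAdjoint X₁
  hY₁ : IsSelfAdjoint Y₁
  hX₂ : IsSelfAdjoint X₂
  hY₂ : IsSelfAdjoint Y₂
  hc₁ : X₁ * Y₁ = Y₁ * X₁
  hc₂ : X₂ * Y₂ = Y₂ * X₂
  hM : 0 ≤ M
  hR : 1 ≤ R
  n1 : ‖X₁‖ ≤ R
  n2 : ‖Y₁‖ ≤ R
  n3 : ‖X₂‖ ≤ R
  n4 : ‖Y₂‖ ≤ R
  tX : TB e (X₂ - X₁) M
  tY : TB e (Y₂ - Y₁) M

variable {e : ι → H} {X₁ Y₁ X₂ Y₂ : H →L[ℂ] H} {M R : ℝ}

theorem Pert.term (h : Pert e X₁ Y₁ X₂ Y₂ M R) (a b : ℝ) (p : ℕ × ℕ) :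
    TB e (cc a b p • (X₂ ^ p.1 * Y₂ ^ p.2 - X₁ ^ p.1 * Y₁ ^ p.2))
      (uu (|a| * R) (|b| * R) p * ((p.1 : ℝ) + p.2) * M) := by
  refine ((h.tX.mono2 h.tY h.hM h.hR h.n1 h.n2 h.n3 h.n4 p.1 p.2).smul (cc a b p)).mono
    (le_of_eq ?_)
  rw [norm_cc, uu_mul]
  ring

theorem Pert.hs (h : Pert e X₁ Y₁ X₂ Y₂ M R) (a b : ℝ) :
    HasSum (fun p : ℕ × ℕ => cc a b p • (X₂ ^ p.1 * Y₂ ^ p.2 - X₁ ^ p.1 * Y₁ ^ p.2))
      (cfc (ee a b) (NN X₂ Y₂) - cfc (ee a b) (NN X₁ Y₁)) := by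
  have h1 := (hs_cfc h.hX₂ h.hY₂ h.hc₂ a b).sub (hs_cfc h.hX₁ h.hY₁ h.hc₁ a b)
  refine h1.congr_fun ?_ |> id
  intro p
  rw [smul_sub]

theorem Pert.small (h : Pert e X₁ Y₁ X₂ Y₂ M R) (a b : ℝ) :
    TB e (cfc (ee a b) (NN X₂ Y₂) - cfc (ee a b) (NN X₁ Y₁))
      ((|a| * R + |b| * R) * Real.exp (|a| * R + |b| * R) * M) := by
  have hR0 : 0 ≤ R := by linarith [h.hR]
  have hM := h.hM
  refine TB.hasSum (h.term a b) (fun p => ?_) (h.hs a b)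
    ((hs_uu (by positivity) (by positivity)).mul_right M)
  have := uu_nonneg (u := |a| * R) (v := |b| * R) (by positivity) (by positivity) p
  positivity

/-- polynomial growth in the frequency -/
theorem Pert.large (h : Pert e X₁ Y₁ X₂ Y₂ M R) (a b : ℝ) :
    TB e (cfc (ee a b) (NN X₂ Y₂) - cfc (ee a b) (NN X₁ Y₁))
      ((|a| + |b|) * (R * Real.exp R * M)) := by
  have hR0 : 0 ≤ R := by linarith [h.hR]
  have hM := h.hM
  obtain ⟨m, hm⟩ := exists_nat_ge (|a| + |b| + 1)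
  have hm0 : (0 : ℝ) < m := by
    have := abs_nonneg a
    have := abs_nonneg b
    linarith
  have hmne : m ≠ 0 := by
    rintro rfl
    simp at hm0
  have hN : ∀ {X Y : H →L[ℂ] H}, IsSelfAdjoint X → IsSelfAdjoint Y → X * Y = Y * X →
      cfc (ee a b) (NN X Y) = cfc (ee (a / m) (b / m)) (NN X Y) ^ m ∧
        ‖cfc (ee (a / m) (b / m)) (NN X Y)‖ ≤ 1 := by
    intro X Y hX hY hc
    have := normal hX hY hc
    constructor
    · rw [← cfc_pow (ee (a / m) (b / m)) m (NN X Y) (continuous_ee _ _).continuousOn]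
      congr 1
      funext z
      rw [ee_pow a b m hmne]
    · exact norm_cfc_le (by norm_num) fun z _ => le_of_eq (norm_ee _ _ z)
  obtain ⟨a1, a2⟩ := hN h.hX₁ h.hY₁ h.hc₁
  obtain ⟨b1, b2⟩ := hN h.hX₂ h.hY₂ h.hc₂
  rw [a1, b1]
  refine (TB.pow (h.small (a / m) (b / m)) (by positivity) a2 b2 le_rfl m).mono ?_
  have e1 : |a / m| * R + |b / m| * R = (|a| + |b|) * R / m := by
    rw [abs_div, abs_div, Nat.abs_cast]; ring
  rw [e1, one_pow]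
  have e2 : (|a| + |b|) * R / m ≤ R := by
    rw [div_le_iff₀ hm0]
    have : |a| + |b| ≤ m := by linarith
    nlinarith
  calc (m : ℝ) * 1 * ((|a| + |b|) * R / m * Real.exp ((|a| + |b|) * R / m) * M)
      = (|a| + |b|) * (R * Real.exp ((|a| + |b|) * R / m) * M) := by field_simp
    _ ≤ _ := by gcongr

/-- the trace of the difference of the exponentials, as a series -/
theorem Pert.trace (h : Pert e X₁ Y₁ X₂ Y₂ M R) (t : ℕ → ℕ → ℂ)
    (ht : ∀ k l : ℕ, HasSum (fun i => inner ℂ (e i) ((X₂ ^ k * Y₂ ^ l - X₁ ^ k * Y₁ ^ l) (e i)))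
      (t k l)) (a b : ℝ) (s : ℂ) (hs : HasSum (fun p : ℕ × ℕ => cc a b p * t p.1 p.2) s) :
    HasSum (fun i => inner ℂ (e i) ((cfc (ee a b) (NN X₂ Y₂) - cfc (ee a b) (NN X₁ Y₁)) (e i)))
      s := by
  have hR0 : 0 ≤ R := by linarith [h.hR]
  have hM := h.hM
  set F : (ℕ × ℕ) × ι → ℂ := fun q => inner ℂ (e q.2)
    ((cc a b q.1 • (X₂ ^ q.1.1 * Y₂ ^ q.1.2 - X₁ ^ q.1.1 * Y₁ ^ q.1.2)) (e q.2)) with hF
  have hb : ∀ (p : ℕ × ℕ) (u : Finset ι), ∑ i ∈ u, ‖F (p, i)‖ ≤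
      uu (|a| * R) (|b| * R) p * ((p.1 : ℝ) + p.2) * M := by
    intro p u
    have h1 := h.term a b p 1 1 u
    have h2 : ‖(1 : H →L[ℂ] H)‖ ≤ 1 := ContinuousLinearMap.norm_id_le
    have h3 := uu_nonneg (u := |a| * R) (v := |b| * R) (by positivity) (by positivity) p
    calc ∑ i ∈ u, ‖F (p, i)‖ ≤ uu (|a| * R) (|b| * R) p * ((p.1 : ℝ) + p.2) * M *
          ‖(1 : H →L[ℂ] H)‖ * ‖(1 : H →L[ℂ] H)‖ := h1
      _ ≤ uu (|a| * R) (|b| * R) p * ((p.1 : ℝ) + p.2) * M * 1 * 1 := by gcongr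
      _ = _ := by ring
  have hsum : Summable F := by
    refine Summable.of_norm ?_
    rw [summable_prod_of_nonneg (fun _ => norm_nonneg _)]
    have h1 : ∀ p, Summable fun i => ‖F (p, i)‖ := fun p =>
      summable_of_sum_le (fun _ => norm_nonneg _) (hb p)
    refine ⟨h1, ?_⟩
    refine Summable.of_nonneg_of_le (fun p => tsum_nonneg fun _ => norm_nonneg _) (fun p => ?_)
      ((hs_uu (u := |a| * R) (v := |b| * R) (by positivity) (by positivity)).summable.mul_right M)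
    exact (h1 p).tsum_le_of_sum_le (hb p)
  have hpt : ∀ p : ℕ × ℕ, HasSum (fun i => F (p, i)) (cc a b p * t p.1 p.2) := by
    intro p
    have h1 := (ht p.1 p.2).mul_left (cc a b p)
    refine h1.congr_fun ?_ |> id
    intro i
    rw [hF]
    simp only [ContinuousLinearMap.smul_apply, inner_smul_right]
  have h1 := hsum.hasSum.prod_fiberwise hpt
  have h2 : ∑' q, F q = s := h1.unique hs
  have h3 : HasSum (fun q : ι × (ℕ × ℕ) => F (q.2, q.1)) s := by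
    rw [← h2]
    exact (Equiv.prodComm ι (ℕ × ℕ)).hasSum_iff.mpr hsum.hasSum
  refine h3.prod_fiberwise fun i => ?_
  have h4 := h.hs a b
  have hcont : Continuous fun T : H →L[ℂ] H => inner ℂ (e i) (T (e i)) := by fun_prop
  have h5 := h4.map (AddMonoidHom.mk' (fun T : H →L[ℂ] H => inner ℂ (e i) (T (e i))) (by
    intro T T'
    rw [ContinuousLinearMap.add_apply, inner_add_right])) hcont
  exact h5

end FAux

end Pool.FR
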