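import Pool.Agent.Work.FiniteRankNormal.Interface

open Matrix
open scoped ComplexConjugate

namespace Pool.FR

namespace FDAux

variable {n : ℕ}

theorem isU_mul {U V : Mat n} (hU : IsU U) (hV : IsU V) : IsU (U * V) := by
  constructor
  · rw [conjTranspose_mul]
    calc Vᴴ * Uᴴ * (U * V) = Vᴴ * (Uᴴ * U) * V := by simp only [Matrix.mul_assoc]
      _ = 1 := by rw [hU.1, Matrix.mul_one, hV.1]
  · rw [conjTranspose_mul]
    calc U * V * (Vᴴ * Uᴴ) = U * (V * Vᴴ) * Uᴴ := by simp only [Matrix.mul_assoc]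
      _ = 1 := by rw [hV.2, Matrix.mul_one, hU.2]

theorem isU_ct {U : Mat n} (hU : IsU U) : IsU Uᴴ := by
  refine ⟨?_, ?_⟩
  · rw [conjTranspose_conjTranspose]; exact hU.2
  · rw [conjTranspose_conjTranspose]; exact hU.1

theorem isU_diag {d : Fin n → ℂ} (hd : ∀ i, conj (d i) * d i = 1) : IsU (diagonal d) := by
  constructor
  · rw [diagonal_conjTranspose, diagonal_mul_diagonal, ← diagonal_one]
    congr 1
    ext i
    simpa using hd i
  · rw [diagonal_conjTranspose, diagonal_mul_diagonal, ← diagonal_one]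
    congr 1
    ext i
    have := hd i
    simpa [mul_comm] using this

/-- shifted diagonalised matrix -/
theorem sub_smul_eq {A UA : Mat n} {α : Fin n → ℂ} (hU : IsU UA) (hA : A = UA * diagonal α * UAᴴ)
    (z : ℂ) : A - z • (1 : Mat n) = UA * diagonal (fun i => α i - z) * UAᴴ := by
  have h1 : (diagonal (fun i => α i - z) : Mat n) = diagonal α - z • (1 : Mat n) := by
    ext i j
    by_cases h : i = j
    · subst h; simp
    · simp [h]
  rw [h1, Matrix.mul_sub, Matrix.sub_mul, ← hA]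
  congr 1
  rw [Matrix.mul_smul, Matrix.mul_one, Matrix.smul_mul, hU.2]

theorem inv_eq {A UA : Mat n} {α : Fin n → ℂ} (hU : IsU UA) (hA : A = UA * diagonal α * UAᴴ)
    (z : ℂ) (hz : ∀ i, α i ≠ z) :
    (A - z • (1 : Mat n))⁻¹ = UA * diagonal (fun i => (α i - z)⁻¹) * UAᴴ := by
  apply Matrix.inv_eq_right_inv
  rw [sub_smul_eq hU hA]
  calc UA * diagonal (fun i => α i - z) * UAᴴ * (UA * diagonal (fun i => (α i - z)⁻¹) * UAᴴ)
      = UA * (diagonal (fun i => α i - z) * (UAᴴ * UA) * diagonal (fun i => (α i - z)⁻¹)) * UAᴴ := by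
        simp only [Matrix.mul_assoc]
    _ = UA * 1 * UAᴴ := by
        rw [hU.1, Matrix.mul_one, diagonal_mul_diagonal]
        congr 2
        rw [← diagonal_one]
        congr 1
        ext i
        exact mul_inv_cancel₀ (sub_ne_zero.mpr (hz i))
    _ = 1 := by rw [Matrix.mul_one, hU.2]

theorem ct_eq {A UA : Mat n} {α : Fin n → ℂ} (hU : IsU UA) (hA : A = UA * diagonal α * UAᴴ)
    (z : ℂ) : (A - z • (1 : Mat n))ᴴ = UA * diagonal (fun i => conj (α i - z)) * UAᴴ := by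
  rw [sub_smul_eq hU hA, conjTranspose_mul, conjTranspose_mul, conjTranspose_conjTranspose,
    diagonal_conjTranspose, Matrix.mul_assoc]
  rfl

theorem ctinv_eq {A UA : Mat n} {α : Fin n → ℂ} (hU : IsU UA) (hA : A = UA * diagonal α * UAᴴ)
    (z : ℂ) (hz : ∀ i, α i ≠ z) :
    ((A - z • (1 : Mat n))ᴴ)⁻¹ = UA * diagonal (fun i => (conj (α i - z))⁻¹) * UAᴴ := by
  apply Matrix.inv_eq_right_inv
  rw [ct_eq hU hA]
  calc UA * diagonal (fun i => conj (α i - z)) * UAᴴ * (UA * diagonal (fun i => (conj (α i - z))⁻¹) * UAᴴ)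
      = UA * (diagonal (fun i => conj (α i - z)) * (UAᴴ * UA) * diagonal (fun i => (conj (α i - z))⁻¹)) * UAᴴ := by
        simp only [Matrix.mul_assoc]
    _ = UA * 1 * UAᴴ := by
        rw [hU.1, Matrix.mul_one, diagonal_mul_diagonal]
        congr 2
        rw [← diagonal_one]
        congr 1
        ext i
        have : conj (α i - z) ≠ 0 := by
          rw [Ne, map_eq_zero]
          exact sub_ne_zero.mpr (hz i)
        exact mul_inv_cancel₀ this
    _ = 1 := by rw [Matrix.mul_one, hU.2]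

/-- the unitary matrix in explicit form -/
theorem Vz_eq {A B UA UB : Mat n} {α β : Fin n → ℂ} (hUA : IsU UA) (hUB : IsU UB)
    (hA : A = UA * diagonal α * UAᴴ) (hB : B = UB * diagonal β * UBᴴ)
    (z : ℂ) (hα : ∀ i, α i ≠ z) (hβ : ∀ i, β i ≠ z) :
    Vz A B z = (UA * diagonal (fun i => conj (α i - z) * (α i - z)⁻¹) * UAᴴ) *
      (UB * diagonal (fun i => (β i - z) * (conj (β i - z))⁻¹) * UBᴴ) := by
  unfold Vz
  rw [ct_eq hUA hA, inv_eq hUA hA z hα, ctinv_eq hUB hB z hβ, sub_smul_eq hUB hB]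
  have h1 : UA * diagonal (fun i => conj (α i - z)) * UAᴴ * (UA * diagonal (fun i => (α i - z)⁻¹) * UAᴴ)
      = UA * diagonal (fun i => conj (α i - z) * (α i - z)⁻¹) * UAᴴ := by
    calc _ = UA * (diagonal (fun i => conj (α i - z)) * (UAᴴ * UA) * diagonal (fun i => (α i - z)⁻¹)) * UAᴴ := by
          simp only [Matrix.mul_assoc]
      _ = _ := by rw [hUA.1, Matrix.mul_one, diagonal_mul_diagonal]
  rw [h1]
  rw [Matrix.mul_assoc (UA * diagonal (fun i => conj (α i - z) * (α i - z)⁻¹) * UAᴴ)]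
  congr 1
  calc _ = UB * (diagonal (fun i => (β i - z)) * (UBᴴ * UB) * diagonal (fun i => (conj (β i - z))⁻¹)) * UBᴴ := by
        simp only [Matrix.mul_assoc]
    _ = _ := by rw [hUB.1, Matrix.mul_one, diagonal_mul_diagonal]

theorem Vz_isU {A B UA UB : Mat n} {α β : Fin n → ℂ} (hUA : IsU UA) (hUB : IsU UB)
    (hA : A = UA * diagonal α * UAᴴ) (hB : B = UB * diagonal β * UBᴴ)
    (z : ℂ) (hα : ∀ i, α i ≠ z) (hβ : ∀ i, β i ≠ z) : IsU (Vz A B z) := by
  rw [Vz_eq hUA hUB hA hB z hα hβ]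
  apply isU_mul
  · apply isU_mul _ (isU_ct hUA)
    apply isU_mul hUA
    apply isU_diag
    intro i
    have h1 : α i - z ≠ 0 := sub_ne_zero.mpr (hα i)
    have h2 : conj (α i - z) ≠ 0 := by rwa [Ne, map_eq_zero]
    rw [map_mul, map_inv₀, Complex.conj_conj]
    field_simp
  · apply isU_mul _ (isU_ct hUB)
    apply isU_mul hUB
    apply isU_diag
    intro i
    have h1 : β i - z ≠ 0 := sub_ne_zero.mpr (hβ i)
    have h2 : conj (β i - z) ≠ 0 := by rwa [Ne, map_eq_zero]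
    rw [map_mul, map_inv₀, Complex.conj_conj]
    field_simp

theorem det_conj {U : Mat n} (hU : IsU U) (M : Mat n) : (U * M * Uᴴ).det = M.det := by
  rw [det_mul, det_mul]
  have : U.det * Uᴴ.det = 1 := by rw [← det_mul, hU.2, det_one]
  calc U.det * M.det * Uᴴ.det = M.det * (U.det * Uᴴ.det) := by ring
    _ = M.det := by rw [this, mul_one]

theorem Vz_det {A B UA UB : Mat n} {α β : Fin n → ℂ} (hUA : IsU UA) (hUB : IsU UB)
    (hA : A = UA * diagonal α * UAᴴ) (hB : B = UB * diagonal β * UBᴴ)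
    (z : ℂ) (hα : ∀ i, α i ≠ z) (hβ : ∀ i, β i ≠ z) :
    (Vz A B z).det = (∏ i, (conj (α i - z) * (α i - z)⁻¹)) * ∏ i, ((β i - z) * (conj (β i - z))⁻¹) := by
  rw [Vz_eq hUA hUB hA hB z hα hβ, det_mul, det_conj hUA, det_conj hUB, det_diagonal, det_diagonal]

/-- algebra: `V - 1 = a⁻¹ (aᴴ D - a Dᴴ) (bᴴ)⁻¹` -/
theorem Vz_sub_one {A B UA UB : Mat n} {α β : Fin n → ℂ} (hUA : IsU UA) (hUB : IsU UB)
    (hA : A = UA * diagonal α * UAᴴ) (hB : B = UB * diagonal β * UBᴴ)
    (z : ℂ) (hα : ∀ i, α i ≠ z) (hβ : ∀ i, β i ≠ z) :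
    Vz A B z - 1 = (A - z • (1 : Mat n))⁻¹ *
      ((A - z • (1 : Mat n))ᴴ * (B - A) - (A - z • (1 : Mat n)) * (B - A)ᴴ) *
        ((B - z • (1 : Mat n))ᴴ)⁻¹ := by
  obtain ⟨a, ha⟩ : ∃ a, a = A - z • (1 : Mat n) := ⟨_, rfl⟩
  obtain ⟨b, hb⟩ : ∃ b, b = B - z • (1 : Mat n) := ⟨_, rfl⟩
  have hai : a⁻¹ * a = 1 := by
    rw [ha, inv_eq hUA hA z hα, sub_smul_eq hUA hA]
    calc _ = UA * (diagonal (fun i => (α i - z)⁻¹) * (UAᴴ * UA) * diagonal (fun i => (α i - z))) * UAᴴ := by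
          simp only [Matrix.mul_assoc]
      _ = UA * 1 * UAᴴ := by
          rw [hUA.1, Matrix.mul_one, diagonal_mul_diagonal]
          congr 2
          rw [← diagonal_one]
          congr 1
          ext i
          exact inv_mul_cancel₀ (sub_ne_zero.mpr (hα i))
      _ = 1 := by rw [Matrix.mul_one, hUA.2]
  have hai' : a * a⁻¹ = 1 := mul_eq_one_comm.mp hai
  have hbi : bᴴ * (bᴴ)⁻¹ = 1 := by
    rw [hb, ctinv_eq hUB hB z hβ, ct_eq hUB hB]
    calc _ = UB * (diagonal (fun i => conj (β i - z)) * (UBᴴ * UB) * diagonal (fun i => (conj (β i - z))⁻¹)) * UBᴴ := by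
          simp only [Matrix.mul_assoc]
      _ = UB * 1 * UBᴴ := by
          rw [hUB.1, Matrix.mul_one, diagonal_mul_diagonal]
          congr 2
          rw [← diagonal_one]
          congr 1
          ext i
          have : conj (β i - z) ≠ 0 := by
            rw [Ne, map_eq_zero]
            exact sub_ne_zero.mpr (hβ i)
          exact mul_inv_cancel₀ this
      _ = 1 := by rw [Matrix.mul_one, hUB.2]
  have hcomm : aᴴ * a = a * aᴴ := by
    rw [ha, ct_eq hUA hA, sub_smul_eq hUA hA]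
    calc _ = UA * (diagonal (fun i => conj (α i - z)) * (UAᴴ * UA) * diagonal (fun i => (α i - z))) * UAᴴ := by
          simp only [Matrix.mul_assoc]
      _ = UA * (diagonal (fun i => (α i - z)) * (UAᴴ * UA) * diagonal (fun i => conj (α i - z))) * UAᴴ := by
          rw [hUA.1, Matrix.mul_one, Matrix.mul_one, diagonal_mul_diagonal, diagonal_mul_diagonal]
          congr 3
          ext i
          ring
      _ = _ := by simp only [Matrix.mul_assoc]
  have hc2 : aᴴ * a⁻¹ = a⁻¹ * aᴴ := by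
    calc aᴴ * a⁻¹ = (a⁻¹ * a) * (aᴴ * a⁻¹) := by rw [hai, Matrix.one_mul]
      _ = a⁻¹ * (a * aᴴ) * a⁻¹ := by simp only [Matrix.mul_assoc]
      _ = a⁻¹ * (aᴴ * a) * a⁻¹ := by rw [hcomm]
      _ = a⁻¹ * aᴴ * (a * a⁻¹) := by simp only [Matrix.mul_assoc]
      _ = a⁻¹ * aᴴ := by rw [hai', Matrix.mul_one]
  have hba : B - A = b - a := by rw [ha, hb]; abel
  have hK : aᴴ * (b - a) - a * (b - a)ᴴ = aᴴ * b - a * bᴴ := by
    rw [conjTranspose_sub, Matrix.mul_sub, Matrix.mul_sub, hcomm]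
    abel
  unfold Vz
  rw [← ha, ← hb, hba, hK, hc2, Matrix.mul_sub, Matrix.sub_mul]
  have e1 : a⁻¹ * (aᴴ * b) * (bᴴ)⁻¹ = a⁻¹ * aᴴ * b * (bᴴ)⁻¹ := by simp only [Matrix.mul_assoc]
  have e2 : a⁻¹ * (a * bᴴ) * (bᴴ)⁻¹ = 1 := by
    calc a⁻¹ * (a * bᴴ) * (bᴴ)⁻¹ = (a⁻¹ * a) * (bᴴ * (bᴴ)⁻¹) := by simp only [Matrix.mul_assoc]
      _ = 1 := by rw [hai, hbi, Matrix.one_mul]
  rw [e1, e2]

theorem rank_two {r : ℕ} (P Q : Matrix (Fin n) (Fin r) ℂ) (R S : Matrix (Fin r) (Fin n) ℂ) :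
    (P * R + Q * S).rank ≤ 2 * r := by
  rw [← Matrix.fromCols_mul_fromRows]
  calc _ ≤ (Matrix.fromCols P Q).rank := Matrix.rank_mul_le_left _ _
    _ ≤ Fintype.card (Fin r ⊕ Fin r) := Matrix.rank_le_card_width _
    _ = 2 * r := by simp; ring

/-- general line -/
theorem line (hL : Stmt_L) (hP : Stmt_P) {r N N' : ℕ} {A B UA UB : Mat n} {α β : Fin n → ℂ}
    {X Y : Matrix (Fin n) (Fin r) ℂ}
    (hUA : IsU UA) (hUB : IsU UB)
    (hA : A = UA * diagonal α * UAᴴ) (hB : B = UB * diagonal β * UBᴴ) (hD : B - A = X * Yᴴ)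
    (z₀ ω : ℂ) (hα : ∀ (t : ℝ) i, α i ≠ z₀ + t * ω) (hβ : ∀ (t : ℝ) i, β i ≠ z₀ + t * ω)
    (c : Fin N → ℂ) (s : Fin N → ℝ) (l u : Fin N' → ℝ)
    (hiff : ∀ t : ℝ, (∃ i, t ∈ Set.Icc (l i) (u i)) ↔ ∃ i, ‖z₀ + t * ω - c i‖ ≤ s i)
    (hden : ∀ z : ℂ, (∀ i, s i < ‖z - c i‖) → ∀ ρ : ℝ, 0 < ρ →
      ∑ i ∈ Finset.univ.filter (fun i => ‖α i - z‖ ≤ ρ), wt UA X Y i +
        ∑ j ∈ Finset.univ.filter (fun j => ‖β j - z‖ ≤ ρ), wt UB X Y j ≤ ρ / 40)
    (θ : ℂ → ℝ) (hθ0 : ∀ z, (∃ i, ‖z - c i‖ ≤ s i) → θ z = th0 (Vz A B z))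
    (hθp : ∀ z, (¬ ∃ i, ‖z - c i‖ ≤ s i) → θ z = thp (Vz A B z))
    (φ : ℝ → ℝ) (hφ : Continuous φ)
    (hφe : ∀ t : ℝ, Complex.exp (φ t * Complex.I) =
      (∏ i, (conj (α i - (z₀ + t * ω)) * (α i - (z₀ + t * ω))⁻¹)) *
        ∏ i, ((β i - (z₀ + t * ω)) * (conj (β i - (z₀ + t * ω)))⁻¹))
    (M : ℕ) (t : ℕ → ℝ) (ht : StrictMono t) :
    ∑ k ∈ Finset.range M, |(φ (t (k + 1)) - φ (t k)) -
      (θ (z₀ + t (k + 1) * ω) - θ (z₀ + t k * ω))| ≤ 48 * Real.pi * r * N' := by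
  have hcont : Continuous (fun t : ℝ => Vz A B (z₀ + t * ω)) := by
    have : (fun t : ℝ => Vz A B (z₀ + t * ω)) = fun t : ℝ =>
        (UA * diagonal (fun i => conj (α i - (z₀ + t * ω)) * (α i - (z₀ + t * ω))⁻¹) * UAᴴ) *
      (UB * diagonal (fun i => (β i - (z₀ + t * ω)) * (conj (β i - (z₀ + t * ω)))⁻¹) * UBᴴ) := by
      ext1 t
      exact Vz_eq hUA hUB hA hB _ (hα t) (hβ t)
    rw [this]
    have hz : Continuous (fun t : ℝ => z₀ + (t : ℂ) * ω) := by fun_prop
    have hd1 : Continuous (fun t : ℝ => (diagonal (fun i => conj (α i - (z₀ + t * ω)) * (α i - (z₀ + t * ω))⁻¹) : Mat n)) := by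
      apply Continuous.matrix_diagonal
      apply continuous_pi
      intro i
      apply Continuous.mul
      · exact Complex.continuous_conj.comp (continuous_const.sub hz)
      · exact (continuous_const.sub hz).inv₀ (fun t => sub_ne_zero.mpr (hα t i))
    have hd2 : Continuous (fun t : ℝ => (diagonal (fun i => (β i - (z₀ + t * ω)) * (conj (β i - (z₀ + t * ω)))⁻¹) : Mat n)) := by
      apply Continuous.matrix_diagonal
      apply continuous_pi
      intro i
      apply Continuous.mul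
      · exact (continuous_const.sub hz)
      · apply (Complex.continuous_conj.comp (continuous_const.sub hz)).inv₀
        intro t
        show conj (β i - (z₀ + t * ω)) ≠ 0
        rw [Ne, map_eq_zero]
        exact sub_ne_zero.mpr (hβ t i)
    exact ((continuous_const.matrix_mul hd1).matrix_mul continuous_const).matrix_mul
      ((continuous_const.matrix_mul hd2).matrix_mul continuous_const)
  have key := hL n r N' (fun t : ℝ => Vz A B (z₀ + t * ω))
    (fun t : ℝ => (A - (z₀ + t * ω) • (1 : Mat n))⁻¹)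
    (fun t : ℝ => ((B - (z₀ + t * ω) • (1 : Mat n))ᴴ)⁻¹)
    ((A - z₀ • (1 : Mat n))ᴴ * (B - A) - (A - z₀ • (1 : Mat n)) * (B - A)ᴴ)
    (-(conj ω • (B - A)) + ω • (B - A)ᴴ) φ (fun t => θ (z₀ + t * ω)) l u hcont
    (fun t => Vz_isU hUA hUB hA hB _ (hα t) (hβ t)) ?_ ?_ ?_ ?_ hφ ?_ ?_ ?_ ?_ M t ht
  · exact key
  · intro t
    rw [inv_eq hUA hA _ (hα t)]
    rw [Matrix.isUnit_iff_isUnit_det, det_conj hUA, det_diagonal]
    rw [isUnit_iff_ne_zero, Finset.prod_ne_zero_iff]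
    intro i _
    exact inv_ne_zero (sub_ne_zero.mpr (hα t i))
  · intro t
    rw [ctinv_eq hUB hB _ (hβ t)]
    rw [Matrix.isUnit_iff_isUnit_det, det_conj hUB, det_diagonal]
    rw [isUnit_iff_ne_zero, Finset.prod_ne_zero_iff]
    intro i _
    apply inv_ne_zero
    rw [Ne, map_eq_zero]
    exact (sub_ne_zero.mpr (hβ t i))
  · intro t
    rw [Vz_sub_one hUA hUB hA hB _ (hα t) (hβ t)]
    congr 2
    have e1 : (A - (z₀ + t * ω) • (1 : Mat n)) = (A - z₀ • (1 : Mat n)) - ((t : ℂ) * ω) • 1 := by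
      rw [add_smul]; abel
    rw [e1]
    rw [conjTranspose_sub, conjTranspose_smul, conjTranspose_one, Matrix.sub_mul, Matrix.sub_mul]
    have e2 : star ((t : ℂ) * ω) = (t : ℂ) * conj ω := by
      rw [star_mul']
      simp
    rw [e2]
    simp only [Matrix.smul_mul, Matrix.one_mul, smul_add, smul_neg, smul_smul]
    abel
  · intro t
    have e0 : ((A - z₀ • (1 : Mat n))ᴴ * (B - A) - (A - z₀ • (1 : Mat n)) * (B - A)ᴴ) +
        (t : ℂ) • (-(conj ω • (B - A)) + ω • (B - A)ᴴ) =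
        (((A - z₀ • (1 : Mat n))ᴴ - ((t : ℂ) * conj ω) • 1) * X) * Yᴴ +
        ((-(A - z₀ • (1 : Mat n)) + ((t : ℂ) * ω) • 1) * Y) * Xᴴ := by
      rw [hD]
      have : (X * Yᴴ)ᴴ = Y * Xᴴ := by rw [conjTranspose_mul, conjTranspose_conjTranspose]
      rw [this]
      simp only [Matrix.sub_mul, Matrix.add_mul, Matrix.neg_mul, Matrix.smul_mul, Matrix.one_mul,
        smul_add, smul_neg, smul_smul, Matrix.mul_assoc]
      abel
    rw [e0]
    exact rank_two _ _ _ _
  · intro t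
    rw [hφe t, Vz_det hUA hUB hA hB _ (hα t) (hβ t)]
  · intro t hti
    have hno : ¬ ∃ i, ‖z₀ + t * ω - c i‖ ≤ s i := by
      rw [← hiff t]
      push Not
      exact hti
    apply hP n r A B UA UB α β X Y hUA hUB hA hB hD _ (hα t) (hβ t)
    apply hden
    push Not at hno
    exact hno
  · intro t hti
    exact hθ0 _ ((hiff t).mp hti)
  · intro t hti
    apply hθp
    rw [← hiff t]
    exact hti

theorem exp_two_arctan (t : ℝ) : Complex.exp ((2 * Real.arctan t : ℝ) * Complex.I) =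
    (1 + t * Complex.I) * (1 - t * Complex.I)⁻¹ := by
  have hc : Complex.exp ((Real.arctan t : ℝ) * Complex.I) =
      (1 / Real.sqrt (1 + t ^ 2) : ℝ) * (1 + t * Complex.I) := by
    rw [Complex.exp_mul_I, ← Complex.ofReal_cos, ← Complex.ofReal_sin, Real.cos_arctan,
      Real.sin_arctan]
    push_cast
    ring
  have hp : (0 : ℝ) < 1 + t ^ 2 := by positivity
  have hne : (1 - t * Complex.I) ≠ 0 := by
    intro h
    have := congrArg Complex.re h
    simp at this
  have h2 : ((2 * Real.arctan t : ℝ) : ℂ) * Complex.I = (Real.arctan t : ℝ) * Complex.I + (Real.arctan t : ℝ) * Complex.I := by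
    push_cast; ring
  rw [h2, Complex.exp_add, hc]
  have hs : ((1 / Real.sqrt (1 + t ^ 2) : ℝ) : ℂ) * ((1 / Real.sqrt (1 + t ^ 2) : ℝ) : ℂ) = ((1 + t ^ 2 : ℝ) : ℂ)⁻¹ := by
    rw [← Complex.ofReal_mul, ← Complex.ofReal_inv]
    congr 1
    rw [div_mul_div_comm, one_mul, Real.mul_self_sqrt hp.le, one_div]
  have h3 : ((1 + t ^ 2 : ℝ) : ℂ) = (1 + t * Complex.I) * (1 - t * Complex.I) := by
    push_cast
    have : Complex.I ^ 2 = -1 := Complex.I_sq
    linear_combination (t : ℂ) ^ 2 * this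
  have hne2 : (1 + t * Complex.I) ≠ 0 := by
    intro h
    have := congrArg Complex.re h
    simp at this
  calc _ = (((1 / Real.sqrt (1 + t ^ 2) : ℝ) : ℂ) * ((1 / Real.sqrt (1 + t ^ 2) : ℝ) : ℂ)) *
      (1 + t * Complex.I) * (1 + t * Complex.I) := by ring
    _ = _ := by
      rw [hs, h3]
      field_simp

/-- vertical: `w / conj w = exp (2 i arctan (v/u))` -/
theorem vert (w : ℂ) (hu : w.re ≠ 0) :
    w * (conj w)⁻¹ = Complex.exp ((2 * Real.arctan (w.im / w.re) : ℝ) * Complex.I) := by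
  rw [exp_two_arctan]
  have h1 : w = (w.re : ℂ) * (1 + (w.im / w.re : ℝ) * Complex.I) := by
    have hu' : (w.re : ℂ) ≠ 0 := by exact_mod_cast hu
    push_cast
    rw [mul_add, mul_one, ← mul_assoc, mul_div_cancel₀ _ hu']
    exact (Complex.re_add_im w).symm
  have h2 : conj w = (w.re : ℂ) * (1 - (w.im / w.re : ℝ) * Complex.I) := by
    conv_lhs => rw [h1]
    simp only [map_mul, map_add, map_one, Complex.conj_ofReal, Complex.conj_I]
    ring
  have hu' : (w.re : ℂ) ≠ 0 := by exact_mod_cast hu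
  generalize (w.im / w.re : ℝ) = q at h1 h2 ⊢
  generalize (w.re : ℂ) = p at h1 h2 hu'
  rw [h2, h1, mul_inv]
  calc p * (1 + (q : ℂ) * Complex.I) * (p⁻¹ * (1 - (q : ℂ) * Complex.I)⁻¹) =
      (p * p⁻¹) * ((1 + (q : ℂ) * Complex.I) * (1 - (q : ℂ) * Complex.I)⁻¹) := by ring
    _ = _ := by rw [mul_inv_cancel₀ hu', one_mul]

/-- horizontal: `w / conj w = - exp (-2 i arctan (u/v))` -/
theorem horiz (w : ℂ) (hv : w.im ≠ 0) :
    w * (conj w)⁻¹ = -Complex.exp ((-(2 * Real.arctan (w.re / w.im)) : ℝ) * Complex.I) := by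
  have h0 : (-(2 * Real.arctan (w.re / w.im)) : ℝ) = 2 * Real.arctan (-(w.re / w.im)) := by
    rw [Real.arctan_neg]; ring
  rw [h0, exp_two_arctan]
  have hv' : (w.im : ℂ) ≠ 0 := by exact_mod_cast hv
  have hI : Complex.I ^ 2 = -1 := Complex.I_sq
  have h1 : w = (w.im : ℂ) * Complex.I * (1 + ((-(w.re / w.im) : ℝ) : ℂ) * Complex.I) := by
    push_cast
    have : (w.im : ℂ) * Complex.I * (1 + -((w.re : ℂ) / (w.im : ℂ)) * Complex.I) =
        (w.im : ℂ) * Complex.I - ((w.im : ℂ) * ((w.re : ℂ) / (w.im : ℂ))) * Complex.I ^ 2 := by ring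
    rw [this, hI, mul_div_cancel₀ _ hv']
    conv_lhs => rw [← Complex.re_add_im w]
    ring
  have h2 : conj w = -((w.im : ℂ) * Complex.I * (1 - ((-(w.re / w.im) : ℝ) : ℂ) * Complex.I)) := by
    conv_lhs => rw [h1]
    simp only [map_mul, map_add, map_one, Complex.conj_ofReal, Complex.conj_I]
    ring
  have hII : (w.im : ℂ) * Complex.I ≠ 0 := mul_ne_zero hv' Complex.I_ne_zero
  generalize (-(w.re / w.im) : ℝ) = q at h1 h2 ⊢
  generalize (w.im : ℂ) * Complex.I = p at h1 h2 hII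
  rw [h2, h1, inv_neg, mul_inv]
  calc p * (1 + (q : ℂ) * Complex.I) * -(p⁻¹ * (1 - (q : ℂ) * Complex.I)⁻¹) =
      -((p * p⁻¹) * ((1 + (q : ℂ) * Complex.I) * (1 - (q : ℂ) * Complex.I)⁻¹)) := by ring
    _ = _ := by rw [mul_inv_cancel₀ hII, one_mul]

theorem expV (α β : Fin n → ℂ) (x y : ℝ) (hα : ∀ i, (α i).re ≠ x) (hβ : ∀ i, (β i).re ≠ x) :
    Complex.exp (phiV α β x y * Complex.I) =
      (∏ i, (conj (α i - (⟨x, y⟩ : ℂ)) * (α i - (⟨x, y⟩ : ℂ))⁻¹)) *
        ∏ i, ((β i - (⟨x, y⟩ : ℂ)) * (conj (β i - (⟨x, y⟩ : ℂ)))⁻¹) := by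
  have h1 : ∀ i, (β i - (⟨x, y⟩ : ℂ)) * (conj (β i - (⟨x, y⟩ : ℂ)))⁻¹ =
      Complex.exp ((2 * Real.arctan (((β i).im - y) / ((β i).re - x)) : ℝ) * Complex.I) := by
    intro i
    rw [vert _ (by simpa using sub_ne_zero.mpr (hβ i))]
    simp
  have h2 : ∀ i, conj (α i - (⟨x, y⟩ : ℂ)) * (α i - (⟨x, y⟩ : ℂ))⁻¹ =
      Complex.exp (-((2 * Real.arctan (((α i).im - y) / ((α i).re - x)) : ℝ) * Complex.I)) := by
    intro i
    rw [Complex.exp_neg]
    have := vert (α i - (⟨x, y⟩ : ℂ)) (by simpa using sub_ne_zero.mpr (hα i))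
    have h3 : Complex.exp ((2 * Real.arctan (((α i).im - y) / ((α i).re - x)) : ℝ) * Complex.I) =
        (α i - (⟨x, y⟩ : ℂ)) * (conj (α i - (⟨x, y⟩ : ℂ)))⁻¹ := by
      rw [this]; simp
    rw [h3, mul_inv, inv_inv, mul_comm]
  rw [Finset.prod_congr rfl (fun i _ => h1 i), Finset.prod_congr rfl (fun i _ => h2 i),
    ← Complex.exp_sum, ← Complex.exp_sum, ← Complex.exp_add]
  congr 1
  unfold phiV
  push_cast
  rw [Finset.sum_neg_distrib]
  simp only [Finset.mul_sum, Finset.sum_mul, sub_mul]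
  ring

theorem expH (α β : Fin n → ℂ) (x y : ℝ) (hα : ∀ i, (α i).im ≠ y) (hβ : ∀ i, (β i).im ≠ y) :
    Complex.exp (phiH α β y x * Complex.I) =
      (∏ i, (conj (α i - (⟨x, y⟩ : ℂ)) * (α i - (⟨x, y⟩ : ℂ))⁻¹)) *
        ∏ i, ((β i - (⟨x, y⟩ : ℂ)) * (conj (β i - (⟨x, y⟩ : ℂ)))⁻¹) := by
  have h1 : ∀ i, (β i - (⟨x, y⟩ : ℂ)) * (conj (β i - (⟨x, y⟩ : ℂ)))⁻¹ =
      (-1) * Complex.exp (-((2 * Real.arctan (((β i).re - x) / ((β i).im - y)) : ℝ) * Complex.I)) := by
    intro i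
    rw [horiz _ (by simpa using sub_ne_zero.mpr (hβ i))]
    simp
  have h2 : ∀ i, conj (α i - (⟨x, y⟩ : ℂ)) * (α i - (⟨x, y⟩ : ℂ))⁻¹ =
      (-1) * Complex.exp (((2 * Real.arctan (((α i).re - x) / ((α i).im - y)) : ℝ) * Complex.I)) := by
    intro i
    have := horiz (α i - (⟨x, y⟩ : ℂ)) (by simpa using sub_ne_zero.mpr (hα i))
    have h4 : conj (α i - (⟨x, y⟩ : ℂ)) * (α i - (⟨x, y⟩ : ℂ))⁻¹ = ((α i - (⟨x, y⟩ : ℂ)) * (conj (α i - (⟨x, y⟩ : ℂ)))⁻¹)⁻¹ := by
      rw [mul_inv, inv_inv, mul_comm]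
    rw [h4, this, inv_neg, ← Complex.exp_neg]
    simp
  rw [Finset.prod_congr rfl (fun i _ => h1 i), Finset.prod_congr rfl (fun i _ => h2 i),
    Finset.prod_mul_distrib, Finset.prod_mul_distrib,
    ← Complex.exp_sum, ← Complex.exp_sum]
  have e : ∀ a b c : ℂ, a * b * (a * c) = (a * a) * (b * c) := by intros; ring
  rw [e, ← Finset.prod_mul_distrib, ← Complex.exp_add]
  simp only [mul_neg, mul_one, neg_neg, Finset.prod_const_one, one_mul]
  congr 1
  unfold phiH
  push_cast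
  rw [Finset.sum_neg_distrib]
  simp only [Finset.mul_sum, Finset.sum_mul, sub_mul]
  ring

theorem wt_sum {r : ℕ} {U : Mat n} (hU : IsU U) (X Y : Matrix (Fin n) (Fin r) ℂ) :
    ∑ i, wt U X Y i = ∑ i, ∑ k, (‖X i k‖ ^ 2 + ‖Y i k‖ ^ 2) := by
  have key : ∀ Z : Matrix (Fin n) (Fin r) ℂ, ∑ i, ∑ k, ‖(Uᴴ * Z) i k‖ ^ 2 = ∑ i, ∑ k, ‖Z i k‖ ^ 2 := by
    intro Z
    have h1 : ∀ W : Matrix (Fin n) (Fin r) ℂ, ((∑ i, ∑ k, ‖W i k‖ ^ 2 : ℝ) : ℂ) = (Wᴴ * W).trace := by
      intro W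
      rw [Matrix.trace, Finset.sum_comm]
      push_cast
      apply Finset.sum_congr rfl
      intro k _
      rw [Matrix.diag_apply, Matrix.mul_apply]
      apply Finset.sum_congr rfl
      intro i _
      rw [conjTranspose_apply, Complex.star_def, Complex.conj_mul']
    have h2 : ((∑ i, ∑ k, ‖(Uᴴ * Z) i k‖ ^ 2 : ℝ) : ℂ) = ((∑ i, ∑ k, ‖Z i k‖ ^ 2 : ℝ) : ℂ) := by
      rw [h1, h1, conjTranspose_mul, conjTranspose_conjTranspose]
      congr 1
      calc Zᴴ * U * (Uᴴ * Z) = Zᴴ * (U * Uᴴ) * Z := by simp only [Matrix.mul_assoc]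
        _ = Zᴴ * Z := by rw [hU.2, Matrix.mul_one]
    exact_mod_cast h2
  unfold wt
  simp only [Finset.sum_add_distrib]
  rw [key X, key Y]

theorem wt_nonneg {r : ℕ} {U : Mat n} (X Y : Matrix (Fin n) (Fin r) ℂ) (i : Fin n) :
    0 ≤ wt U X Y i := by
  unfold wt
  positivity

/-- chords of the balls hit by a line: `q` is the fixed coordinate, `a i, b i` are the fixed and
moving coordinates of the centres -/
theorem chords {N : ℕ} (q : ℝ) (a b s : Fin N → ℝ) (hs : ∀ i, 0 < s i) :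
    ∃ l u : Fin (Finset.univ.filter (fun i => |q - a i| ≤ s i)).card → ℝ,
      ∀ t : ℝ, (∃ i, t ∈ Set.Icc (l i) (u i)) ↔ ∃ i, (q - a i) ^ 2 + (t - b i) ^ 2 ≤ s i ^ 2 := by
  obtain ⟨S, hS⟩ : ∃ S, S = Finset.univ.filter (fun i => |q - a i| ≤ s i) := ⟨_, rfl⟩
  rw [← hS]
  obtain ⟨e, he⟩ : ∃ e, e = S.equivFin.symm := ⟨_, rfl⟩
  refine ⟨fun i => b (e i) - Real.sqrt (s (e i) ^ 2 - (q - a (e i)) ^ 2),
    fun i => b (e i) + Real.sqrt (s (e i) ^ 2 - (q - a (e i)) ^ 2), ?_⟩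
  intro t
  constructor
  · rintro ⟨i, h1, h2⟩
    refine ⟨e i, ?_⟩
    have hmem : |q - a (e i)| ≤ s (e i) := by
      have h0 := (e i).2
      have h1 : (e i : Fin N) ∈ Finset.univ.filter (fun i => |q - a i| ≤ s i) := by
        rw [← hS]; exact h0
      exact (Finset.mem_filter.mp h1).2
    have hq : (q - a (e i)) ^ 2 ≤ s (e i) ^ 2 := by
      rw [← sq_abs (q - a (e i))]
      exact pow_le_pow_left₀ (abs_nonneg _) hmem 2
    have h3 : |t - b (e i)| ≤ Real.sqrt (s (e i) ^ 2 - (q - a (e i)) ^ 2) := by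
      rw [abs_le]
      constructor <;> linarith
    have h4 : (t - b (e i)) ^ 2 ≤ s (e i) ^ 2 - (q - a (e i)) ^ 2 := by
      rw [← sq_abs (t - b (e i))]
      calc |t - b (e i)| ^ 2 ≤ Real.sqrt (s (e i) ^ 2 - (q - a (e i)) ^ 2) ^ 2 :=
            pow_le_pow_left₀ (abs_nonneg _) h3 2
        _ = _ := Real.sq_sqrt (by linarith)
    linarith
  · rintro ⟨i, hi⟩
    have hq : |q - a i| ≤ s i := by
      apply abs_le_of_sq_le_sq _ (hs i).le
      nlinarith [sq_nonneg (t - b i)]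
    have hmem : i ∈ S := by rw [hS, Finset.mem_filter]; exact ⟨Finset.mem_univ _, hq⟩
    refine ⟨S.equivFin ⟨i, hmem⟩, ?_⟩
    have hei : e (S.equivFin ⟨i, hmem⟩) = ⟨i, hmem⟩ := by rw [he]; simp
    have h4 : |t - b i| ≤ Real.sqrt (s i ^ 2 - (q - a i) ^ 2) := by
      apply Real.le_sqrt_of_sq_le
      rw [sq_abs]
      linarith
    rw [abs_le] at h4
    rw [Set.mem_Icc]
    simp only [hei]
    constructor <;> linarith

end FDAux

open FDAux in
theorem stmt_FD (hL : Stmt_L) (hP : Stmt_P) (hV : Stmt_V) (hG : Stmt_G) : Stmt_FD := by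
  refine ⟨48 * Real.pi * 400, by positivity, ?_⟩
  intro n r A B UA UB α β X Y hUA hUB hA hB hD K f hf
  classical
  obtain ⟨N, c, s, hs, hsum, hden⟩ := hV (n + n) (Fin.append α β)
    (Fin.append (wt UA X Y) (wt UB X Y)) (by
      intro i
      refine Fin.addCases (fun j => ?_) (fun j => ?_) i
      · rw [Fin.append_left]; exact wt_nonneg X Y j
      · rw [Fin.append_right]; exact wt_nonneg X Y j)
  have hsum' : ∑ i, s i ≤ 400 * ∑ i, ∑ k, (‖X i k‖ ^ 2 + ‖Y i k‖ ^ 2) := by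
    rw [Fin.sum_univ_add] at hsum
    simp only [Fin.append_left, Fin.append_right] at hsum
    rw [wt_sum hUA, wt_sum hUB] at hsum
    linarith
  have hden' : ∀ z : ℂ, (∀ i, s i < ‖z - c i‖) → ∀ ρ : ℝ, 0 < ρ →
      ∑ i ∈ Finset.univ.filter (fun i => ‖α i - z‖ ≤ ρ), wt UA X Y i +
        ∑ j ∈ Finset.univ.filter (fun j => ‖β j - z‖ ≤ ρ), wt UB X Y j ≤ ρ / 40 := by
    intro z hz ρ hρ
    have := hden z hz ρ hρ
    rw [Finset.sum_filter, Fin.sum_univ_add] at this
    simp only [Fin.append_left, Fin.append_right] at this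
    rw [Finset.sum_filter, Finset.sum_filter]
    exact this
  set θ : ℂ → ℝ := fun z => if ∃ i, ‖z - c i‖ ≤ s i then th0 (Vz A B z) else thp (Vz A B z) with hθ
  have hθ0 : ∀ z, (∃ i, ‖z - c i‖ ≤ s i) → θ z = th0 (Vz A B z) := by
    intro z hz
    rw [hθ]; simp only [hz, if_true]
  have hθp : ∀ z, (¬ ∃ i, ‖z - c i‖ ≤ s i) → θ z = thp (Vz A B z) := by
    intro z hz
    rw [hθ]; simp only [hz, if_false]
  have hnorm : ∀ (z w : ℂ) (ρ : ℝ), 0 < ρ → (‖z - w‖ ≤ ρ ↔ (z.re - w.re) ^ 2 + (z.im - w.im) ^ 2 ≤ ρ ^ 2) := by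
    intro z w ρ hρ
    have h1 : (z.re - w.re) ^ 2 + (z.im - w.im) ^ 2 = ‖z - w‖ ^ 2 := by
      rw [← Complex.normSq_eq_norm_sq, Complex.normSq_apply]
      simp; ring
    rw [h1]
    constructor
    · intro h; exact pow_le_pow_left₀ (norm_nonneg _) h 2
    · intro h; exact le_of_sq_le_sq h hρ.le
  have hmain := hG n N α β θ c s (48 * Real.pi * r) (by positivity) hs ?_ ?_ K f hf
  · calc _ ≤ 48 * Real.pi * r * K * ∑ i, s i := hmain
      _ ≤ 48 * Real.pi * r * K * (400 * ∑ i, ∑ k, (‖X i k‖ ^ 2 + ‖Y i k‖ ^ 2)) := by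
        apply mul_le_mul_of_nonneg_left hsum'
        positivity
      _ = _ := by ring
  · -- vertical
    intro x hxα hxβ M t ht
    obtain ⟨l, u, hlu⟩ := chords x (fun i => (c i).re) (fun i => (c i).im) s hs
    have hz : ∀ t : ℝ, ((⟨x, t⟩ : ℂ)) = (x : ℂ) + t * Complex.I := by
      intro t
      apply Complex.ext <;> simp
    have := line hL hP hUA hUB hA hB hD (x : ℂ) Complex.I
      (by intro t i h
          apply hxα i
          have := congrArg Complex.re h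
          simpa using this)
      (by intro t i h
          apply hxβ i
          have := congrArg Complex.re h
          simpa using this) c s l u
      (by intro t
          rw [hlu t]
          apply exists_congr
          intro i
          rw [hnorm _ _ _ (hs i)]
          simp) hden' θ hθ0 hθp (phiV α β x)
      (by unfold phiV
          apply Continuous.sub
          · apply continuous_const.mul
            apply continuous_finsetSum
            intro j _
            exact Real.continuous_arctan.comp (by fun_prop)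
          · apply continuous_const.mul
            apply continuous_finsetSum
            intro j _
            exact Real.continuous_arctan.comp (by fun_prop))
      (by intro t
          rw [expV α β x t hxα hxβ, hz]) M t ht
    simp only [hz]
    exact this
  · -- horizontal
    intro y hyα hyβ M t ht
    obtain ⟨l, u, hlu⟩ := chords y (fun i => (c i).im) (fun i => (c i).re) s hs
    have hz : ∀ t : ℝ, ((⟨t, y⟩ : ℂ)) = (y * Complex.I : ℂ) + t * 1 := by
      intro t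
      apply Complex.ext <;> simp
    have := line hL hP hUA hUB hA hB hD (y * Complex.I : ℂ) 1
      (by intro t i h
          apply hyα i
          have := congrArg Complex.im h
          simpa using this)
      (by intro t i h
          apply hyβ i
          have := congrArg Complex.im h
          simpa using this) c s l u
      (by intro t
          rw [hlu t]
          apply exists_congr
          intro i
          rw [hnorm _ _ _ (hs i)]
          simp [add_comm]) hden' θ hθ0 hθp (phiH α β y)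
      (by unfold phiH
          apply Continuous.sub
          · apply continuous_const.mul
            apply continuous_finsetSum
            intro j _
            exact Real.continuous_arctan.comp (by fun_prop)
          · apply continuous_const.mul
            apply continuous_finsetSum
            intro j _
            exact Real.continuous_arctan.comp (by fun_prop))
      (by intro t
          rw [expH α β t y hyα hyβ, hz]) M t ht
    simp only [hz]
    exact this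

end Pool.FR
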