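import Pool.Agent.Work.FiniteRankNormal.FC

/-!
# Block F, part E: measures, Fourier inversion
-/

open Matrix MeasureTheory
open scoped ComplexOrder Nat SchwartzMap FourierTransform LineDeriv

namespace Pool.FR

namespace FAux

section Meas

variable {μ : Measure ℂ} [IsFiniteMeasure μ] {R : ℝ}

theorem ae_bound (hμ : μ (Metric.closedBall 0 R)ᶜ = 0) : ∀ᵐ z ∂μ, ‖z‖ ≤ max R 1 := by
  have h1 : ∀ᵐ z ∂μ, z ∈ Metric.closedBall (0 : ℂ) R := by
    rw [ae_iff]
    exact hμ
  filter_upwards [h1] with z hz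
  rw [mem_closedBall_zero_iff] at hz
  exact hz.trans (le_max_left _ _)

theorem hs_x (hμ : μ (Metric.closedBall 0 R)ᶜ = 0) (a b : ℝ) :
    HasSum (fun p : ℕ × ℕ => ∫ z : ℂ, cc a b p * ((p.1 : ℂ) * (z.re : ℂ) ^ (p.1 - 1) *
      (z.im : ℂ) ^ p.2) ∂μ) (∫ z : ℂ, Complex.I * a * ee a b z ∂μ) := by
  set R' := max R 1 with hR'
  have hR1 : 1 ≤ R' := le_max_right _ _
  have hR0 : 0 ≤ R' := by linarith
  refine hasSum_integral_of_dominated_convergence
    (bound := fun p _ => uu (|a| * R') (|b| * R') p * ((p.1 : ℝ) + p.2)) ?_ ?_ ?_ ?_ ?_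
  · intro p
    have : Continuous fun z : ℂ => cc a b p * ((p.1 : ℂ) * (z.re : ℂ) ^ (p.1 - 1) *
      (z.im : ℂ) ^ p.2) := by fun_prop
    exact this.aestronglyMeasurable
  · intro p
    filter_upwards [ae_bound hμ] with z hz
    have h1 : |z.re| ≤ R' := (Complex.abs_re_le_norm z).trans hz
    have h2 : |z.im| ≤ R' := (Complex.abs_im_le_norm z).trans hz
    rw [norm_mul, norm_cc, uu_mul, norm_mul, norm_mul, norm_pow, norm_pow, Complex.norm_real,
      Complex.norm_real, Real.norm_eq_abs, Real.norm_eq_abs, Complex.norm_natCast]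
    have h3 := uu_nonneg (abs_nonneg a) (abs_nonneg b) p
    have h4 : |z.re| ^ (p.1 - 1) ≤ R' ^ p.1 :=
      (pow_le_pow_left₀ (abs_nonneg _) h1 _).trans (pow_le_pow_right₀ hR1 (Nat.sub_le _ _))
    have h5 : |z.im| ^ p.2 ≤ R' ^ p.2 := pow_le_pow_left₀ (abs_nonneg _) h2 _
    calc uu |a| |b| p * ((p.1 : ℝ) * |z.re| ^ (p.1 - 1) * |z.im| ^ p.2)
        ≤ uu |a| |b| p * ((p.1 : ℝ) * R' ^ p.1 * R' ^ p.2) := by gcongr
      _ ≤ uu |a| |b| p * (((p.1 : ℝ) + p.2) * R' ^ p.1 * R' ^ p.2) := by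
          gcongr
          have : (0 : ℝ) ≤ p.2 := by positivity
          linarith
      _ = _ := by ring
  · exact Filter.Eventually.of_forall fun _ => (hs_uu (by positivity) (by positivity)).summable
  · exact integrable_const _
  · filter_upwards [ae_bound hμ] with z hz
    have h1 := hs_dexp (Complex.I * a) (z.re : ℂ)
    have h2 := hs_exp (Complex.I * b * z.im)
    have h3 := h1.mul h2 (by
      refine Summable.of_norm ?_
      refine Summable.of_nonneg_of_le (fun _ => norm_nonneg _) (fun p => ?_)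
        (hs_uu (u := |a| * R') (v := |b| * R') (by positivity) (by positivity)).summable
      rw [norm_mul, norm_mul, norm_div, norm_div, norm_pow, norm_pow, norm_mul, norm_mul, norm_mul,
        norm_mul, norm_pow, Complex.norm_I, one_mul, one_mul, Complex.norm_real,
        Complex.norm_real, Complex.norm_real, Complex.norm_real, Real.norm_eq_abs,
        Real.norm_eq_abs, Real.norm_eq_abs, Real.norm_eq_abs, Complex.norm_natCast,
        Complex.norm_natCast, Complex.norm_natCast]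
      have k1 : |z.re| ≤ R' := (Complex.abs_re_le_norm z).trans hz
      have k2 : |z.im| ≤ R' := (Complex.abs_im_le_norm z).trans hz
      have h4 : |z.re| ^ (p.1 - 1) ≤ R' ^ p.1 :=
        (pow_le_pow_left₀ (abs_nonneg _) k1 _).trans (pow_le_pow_right₀ hR1 (Nat.sub_le _ _))
      calc |a| ^ p.1 / (p.1 ! : ℝ) * ((p.1 : ℝ) * |z.re| ^ (p.1 - 1)) *
            ((|b| * |z.im|) ^ p.2 / (p.2 ! : ℝ))
          ≤ |a| ^ p.1 / (p.1 ! : ℝ) * (((p.1 : ℝ) + p.2) * R' ^ p.1) *
            ((|b| * R') ^ p.2 / (p.2 ! : ℝ)) := by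
            gcongr
            have : (0 : ℝ) ≤ p.2 := by positivity
            linarith
        _ = _ := by unfold uu; rw [mul_pow |a|]; ring)
    have e1 : Complex.I * a * ee a b z = Complex.I * a * Complex.exp (Complex.I * a * z.re) *
        Complex.exp (Complex.I * b * z.im) := by unfold ee; ring
    rw [e1]
    refine h3.congr_fun ?_ |> id
    intro p
    unfold cc
    rw [mul_pow (Complex.I * (b : ℂ))]
    ring

theorem hs_y (hμ : μ (Metric.closedBall 0 R)ᶜ = 0) (a b : ℝ) :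
    HasSum (fun p : ℕ × ℕ => ∫ z : ℂ, cc a b p * ((p.2 : ℂ) * (z.re : ℂ) ^ p.1 *
      (z.im : ℂ) ^ (p.2 - 1)) ∂μ) (∫ z : ℂ, Complex.I * b * ee a b z ∂μ) := by
  set R' := max R 1 with hR'
  have hR1 : 1 ≤ R' := le_max_right _ _
  have hR0 : 0 ≤ R' := by linarith
  refine hasSum_integral_of_dominated_convergence
    (bound := fun p _ => uu (|a| * R') (|b| * R') p * ((p.1 : ℝ) + p.2)) ?_ ?_ ?_ ?_ ?_
  · intro p
    have : Continuous fun z : ℂ => cc a b p * ((p.2 : ℂ) * (z.re : ℂ) ^ p.1 *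
      (z.im : ℂ) ^ (p.2 - 1)) := by fun_prop
    exact this.aestronglyMeasurable
  · intro p
    filter_upwards [ae_bound hμ] with z hz
    have h1 : |z.re| ≤ R' := (Complex.abs_re_le_norm z).trans hz
    have h2 : |z.im| ≤ R' := (Complex.abs_im_le_norm z).trans hz
    rw [norm_mul, norm_cc, uu_mul, norm_mul, norm_mul, norm_pow, norm_pow, Complex.norm_real,
      Complex.norm_real, Real.norm_eq_abs, Real.norm_eq_abs, Complex.norm_natCast]
    have h3 := uu_nonneg (abs_nonneg a) (abs_nonneg b) p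
    have h4 : |z.im| ^ (p.2 - 1) ≤ R' ^ p.2 :=
      (pow_le_pow_left₀ (abs_nonneg _) h2 _).trans (pow_le_pow_right₀ hR1 (Nat.sub_le _ _))
    have h5 : |z.re| ^ p.1 ≤ R' ^ p.1 := pow_le_pow_left₀ (abs_nonneg _) h1 _
    calc uu |a| |b| p * ((p.2 : ℝ) * |z.re| ^ p.1 * |z.im| ^ (p.2 - 1))
        ≤ uu |a| |b| p * ((p.2 : ℝ) * R' ^ p.1 * R' ^ p.2) := by gcongr
      _ ≤ uu |a| |b| p * (((p.1 : ℝ) + p.2) * R' ^ p.1 * R' ^ p.2) := by
          gcongr
          have : (0 : ℝ) ≤ p.1 := by positivity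
          linarith
      _ = _ := by ring
  · exact Filter.Eventually.of_forall fun _ => (hs_uu (by positivity) (by positivity)).summable
  · exact integrable_const _
  · filter_upwards [ae_bound hμ] with z hz
    have h1 := hs_exp (Complex.I * a * z.re)
    have h2 := hs_dexp (Complex.I * b) (z.im : ℂ)
    have h3 := h1.mul h2 (by
      refine Summable.of_norm ?_
      refine Summable.of_nonneg_of_le (fun _ => norm_nonneg _) (fun p => ?_)
        (hs_uu (u := |a| * R') (v := |b| * R') (by positivity) (by positivity)).summable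
      rw [norm_mul, norm_mul, norm_div, norm_div, norm_pow, norm_pow, norm_mul, norm_mul, norm_mul,
        norm_mul, norm_pow, Complex.norm_I, one_mul, one_mul, Complex.norm_real,
        Complex.norm_real, Complex.norm_real, Complex.norm_real, Real.norm_eq_abs,
        Real.norm_eq_abs, Real.norm_eq_abs, Real.norm_eq_abs, Complex.norm_natCast,
        Complex.norm_natCast, Complex.norm_natCast]
      have k1 : |z.re| ≤ R' := (Complex.abs_re_le_norm z).trans hz
      have k2 : |z.im| ≤ R' := (Complex.abs_im_le_norm z).trans hz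
      have h4 : |z.im| ^ (p.2 - 1) ≤ R' ^ p.2 :=
        (pow_le_pow_left₀ (abs_nonneg _) k2 _).trans (pow_le_pow_right₀ hR1 (Nat.sub_le _ _))
      calc (|a| * |z.re|) ^ p.1 / (p.1 ! : ℝ) *
            (|b| ^ p.2 / (p.2 ! : ℝ) * ((p.2 : ℝ) * |z.im| ^ (p.2 - 1)))
          ≤ (|a| * R') ^ p.1 / (p.1 ! : ℝ) *
            (|b| ^ p.2 / (p.2 ! : ℝ) * (((p.1 : ℝ) + p.2) * R' ^ p.2)) := by
            gcongr
            have : (0 : ℝ) ≤ p.1 := by positivity
            linarith
        _ = _ := by unfold uu; rw [mul_pow |b|]; ring)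
    have e1 : Complex.I * b * ee a b z = Complex.exp (Complex.I * a * z.re) *
        (Complex.I * b * Complex.exp (Complex.I * b * z.im)) := by unfold ee; ring
    rw [e1]
    refine h3.congr_fun ?_ |> id
    intro p
    unfold cc
    rw [mul_pow (Complex.I * (a : ℂ))]
    ring

end Meas

/-! ### Fourier inversion -/

theorem exp_eq_ee (ξ z : ℂ) : Complex.exp (((2 * Real.pi * inner ℝ ξ z : ℝ) : ℂ) * Complex.I) =
    ee (2 * Real.pi * ξ.re) (2 * Real.pi * ξ.im) z := by
  unfold ee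
  rw [← Complex.exp_add]
  congr 1
  rw [Complex.inner]
  simp only [Complex.mul_re, Complex.conj_re, Complex.conj_im]
  push_cast
  ring

theorem inv1 (g : 𝓢(ℂ, ℂ)) (z : ℂ) : g z = ∫ ξ : ℂ, (𝓕 g) ξ *
    ee (2 * Real.pi * ξ.re) (2 * Real.pi * ξ.im) z := by
  have h1 : g = 𝓕⁻ (𝓕 g) := (FourierTransform.fourierInv_fourier_eq g).symm
  conv_lhs => rw [h1]
  rw [SchwartzMap.fourierInv_coe, Real.fourierInv_eq']
  refine integral_congr_ae (Filter.Eventually.of_forall fun ξ => ?_)
  simp only [smul_eq_mul]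
  rw [exp_eq_ee, mul_comm]

theorem inv2 (g : 𝓢(ℂ, ℂ)) (m z : ℂ) : fderiv ℝ g z m = ∫ ξ : ℂ,
    (𝓕 g) ξ * (2 * Real.pi * Complex.I * (inner ℝ ξ m : ℝ)) *
      ee (2 * Real.pi * ξ.re) (2 * Real.pi * ξ.im) z := by
  have h1 : fderiv ℝ g z m = (∂_{m} g : 𝓢(ℂ, ℂ)) z :=
    (SchwartzMap.lineDerivOp_apply_eq_fderiv m g z).symm
  rw [h1, inv1]
  refine integral_congr_ae (Filter.Eventually.of_forall fun ξ => ?_)
  simp only
  rw [SchwartzMap.fourier_lineDerivOp_eq]
  have h2 : (fun x : ℂ => (inner ℝ x m : ℝ)).HasTemperateGrowth :=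
    ((innerSL ℝ).flip m).hasTemperateGrowth
  rw [SchwartzMap.smul_apply, SchwartzMap.smulLeftCLM_apply_apply h2]
  simp only [smul_eq_mul, Complex.real_smul]
  ring

end FAux

end Pool.FR
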