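import Pool.Agent.Work.FiniteRankNormal.Interface

open Matrix

namespace Pool.FR

namespace GAux

/-- Heaviside -/
noncomputable def Hv (u : ℝ) : ℝ := if 0 < u then 1 else 0

theorem arctan_sum {u v : ℝ} (hu : u ≠ 0) (hv : v ≠ 0) :
    Real.arctan (v / u) + Real.arctan (u / v) = Real.pi / 2 * ((2 * Hv u - 1) * (2 * Hv v - 1)) := by
  have hinv : u / v = (v / u)⁻¹ := by rw [inv_div]
  rcases lt_or_gt_of_ne hu with h1 | h1 <;> rcases lt_or_gt_of_ne hv with h2 | h2
  · have hp : 0 < v / u := div_pos_of_neg_of_neg h2 h1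
    rw [hinv, Real.arctan_inv_of_pos hp]
    simp only [Hv, not_lt.mpr h1.le, not_lt.mpr h2.le, if_false]
    ring
  · have hp : v / u < 0 := div_neg_of_pos_of_neg h2 h1
    rw [hinv, Real.arctan_inv_of_neg hp]
    simp only [Hv, not_lt.mpr h1.le, h2, if_false, if_true]
    ring
  · have hp : v / u < 0 := div_neg_of_neg_of_pos h2 h1
    rw [hinv, Real.arctan_inv_of_neg hp]
    simp only [Hv, not_lt.mpr h2.le, h1, if_false, if_true]
    ring
  · have hp : 0 < v / u := div_pos h2 h1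
    rw [hinv, Real.arctan_inv_of_pos hp]
    simp only [Hv, h1, h2, if_true]
    ring

/-- cell identity for one point -/
theorem cell_one {p q x x' y y' : ℝ} (h1 : p ≠ x) (h2 : p ≠ x') (h3 : q ≠ y) (h4 : q ≠ y') :
    (-2 * Real.arctan ((p - x') / (q - y)) - -2 * Real.arctan ((p - x) / (q - y))) +
    (2 * Real.arctan ((q - y') / (p - x')) - 2 * Real.arctan ((q - y) / (p - x'))) -
    (-2 * Real.arctan ((p - x') / (q - y')) - -2 * Real.arctan ((p - x) / (q - y'))) -
    (2 * Real.arctan ((q - y') / (p - x)) - 2 * Real.arctan ((q - y) / (p - x))) =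
    4 * Real.pi * ((Hv (p - x) - Hv (p - x')) * (Hv (q - y) - Hv (q - y'))) := by
  have a1 := arctan_sum (sub_ne_zero.mpr h1) (sub_ne_zero.mpr h3)
  have a2 := arctan_sum (sub_ne_zero.mpr h2) (sub_ne_zero.mpr h3)
  have a3 := arctan_sum (sub_ne_zero.mpr h1) (sub_ne_zero.mpr h4)
  have a4 := arctan_sum (sub_ne_zero.mpr h2) (sub_ne_zero.mpr h4)
  linear_combination 2 * a1 - 2 * a2 - 2 * a3 + 2 * a4

/-- telescoping with zero boundary values -/
theorem abel (F a : ℕ → ℝ) (M : ℕ) (h0 : a 0 = 0) (hM : a M = 0) :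
    ∑ l ∈ Finset.range M, F l * (a l - a (l + 1)) = ∑ l ∈ Finset.range M, (F (l + 1) - F l) * a (l + 1) := by
  have h : ∀ l, F l * (a l - a (l + 1)) = (F l * a l - F (l + 1) * a (l + 1)) + (F (l + 1) - F l) * a (l + 1) := by
    intro l; ring
  rw [Finset.sum_congr rfl (fun l _ => h l), Finset.sum_add_distrib, Finset.sum_range_sub' (fun l => F l * a l), h0, hM]
  ring

/-- number of grid lines that meet an interval -/
theorem count_le (y0 h q s : ℝ) (hh : 0 < h) (hs : 0 ≤ s) (M : ℕ) :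
    h * ((Finset.range M).filter (fun l => |y0 + ((l + 1 : ℕ) : ℝ) * h - q| ≤ s)).card ≤ 2 * s + h := by
  set T := (Finset.range M).filter (fun l => |y0 + ((l + 1 : ℕ) : ℝ) * h - q| ≤ s) with hT
  rcases T.eq_empty_or_nonempty with he | hne
  · rw [he]; simp; positivity
  · set m := T.min' hne with hm
    have hmT : m ∈ T := T.min'_mem hne
    have hsub : T ⊆ Finset.Icc m (m + ⌊2 * s / h⌋₊) := by
      intro l hl
      rw [Finset.mem_Icc]
      refine ⟨T.min'_le l hl, ?_⟩
      rw [hT, Finset.mem_filter] at hl hmT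
      have hml : m ≤ l := T.min'_le l (by rw [hT, Finset.mem_filter]; exact hl)
      have h1 := abs_le.mp hl.2
      have h2 := abs_le.mp hmT.2
      have h3 : ((l : ℝ) - m) * h ≤ 2 * s := by
        push_cast at h1 h2
        nlinarith [h1.2, h2.1]
      have h4 : ((l - m : ℕ) : ℝ) ≤ 2 * s / h := by
        rw [Nat.cast_sub hml, le_div_iff₀ hh]
        exact h3
      have h5 : l - m ≤ ⌊2 * s / h⌋₊ := Nat.le_floor h4
      omega
    have hcard : T.card ≤ ⌊2 * s / h⌋₊ + 1 := by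
      calc T.card ≤ (Finset.Icc m (m + ⌊2 * s / h⌋₊)).card := Finset.card_le_card hsub
        _ = _ := by rw [Nat.card_Icc]; omega
    have h6 : (T.card : ℝ) ≤ 2 * s / h + 1 := by
      calc (T.card : ℝ) ≤ ((⌊2 * s / h⌋₊ + 1 : ℕ) : ℝ) := by exact_mod_cast hcard
        _ = (⌊2 * s / h⌋₊ : ℝ) + 1 := by push_cast; ring
        _ ≤ _ := by
          have := Nat.floor_le (show 0 ≤ 2 * s / h by positivity)
          linarith
    calc h * T.card ≤ h * (2 * s / h + 1) := mul_le_mul_of_nonneg_left h6 hh.le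
      _ = 2 * s + h := by field_simp

/-- choice of a generic offset -/
theorem generic (L h : ℝ) (hh : 0 < h) {n : ℕ} (a : Fin n → ℝ) :
    ∃ x0 : ℝ, -L - h < x0 ∧ x0 < -L ∧ ∀ i (k : ℕ), a i ≠ x0 + k * h := by
  have hinf : (Set.Ioo (-L - h) (-L)).Infinite := Set.Ioo_infinite (by linarith)
  have hcount : (⋃ i : Fin n, Set.range (fun k : ℕ => a i - k * h)).Countable := by
    apply Set.countable_iUnion
    intro i
    exact Set.countable_range _
  have hunc : ¬ (Set.Ioo (-L - h) (-L)).Countable := by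
    intro hc
    have := Cardinal.mk_Ioo_real (show -L - h < -L by linarith)
    have h2 : Cardinal.mk (Set.Ioo (-L - h) (-L)) ≤ Cardinal.aleph0 := by
      exact Cardinal.mk_le_aleph0_iff.mpr hc.to_subtype
    rw [this] at h2
    exact absurd h2 (not_le.mpr Cardinal.aleph0_lt_continuum)
  have hne : (Set.Ioo (-L - h) (-L) \ ⋃ i : Fin n, Set.range (fun k : ℕ => a i - k * h)).Nonempty := by
    by_contra hcon
    rw [Set.not_nonempty_iff_eq_empty, Set.sdiff_eq_empty] at hcon
    exact hunc (hcount.mono hcon)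
  obtain ⟨x0, hx, hx2⟩ := hne
  refine ⟨x0, hx.1, hx.2, ?_⟩
  intro i k hk
  apply hx2
  rw [Set.mem_iUnion]
  exact ⟨i, k, by simp only; linarith⟩

/-- one dimensional partition -/
theorem part_one (x0 h p : ℝ) (M : ℕ) (h0 : x0 < p) (hM : p < x0 + M * h) :
    ∑ k ∈ Finset.range M, (Hv (p - (x0 + (k : ℕ) * h)) - Hv (p - (x0 + ((k + 1 : ℕ) : ℝ) * h))) = 1 := by
  rw [Finset.sum_range_sub' (fun k : ℕ => Hv (p - (x0 + (k : ℝ) * h)))]
  have e1 : Hv (p - (x0 + ((0 : ℕ) : ℝ) * h)) = 1 := by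
    unfold Hv
    rw [if_pos]
    push_cast
    linarith
  have e2 : Hv (p - (x0 + (M : ℝ) * h)) = 0 := by
    unfold Hv
    rw [if_neg]
    linarith
  rw [e1, e2]
  ring

theorem diff_nonneg (x0 h p : ℝ) (hh : 0 < h) (k : ℕ) :
    0 ≤ (Hv (p - (x0 + (k : ℕ) * h)) - Hv (p - (x0 + ((k + 1 : ℕ) : ℝ) * h))) := by
  unfold Hv
  push_cast
  split_ifs with h1 h2 h2
  · norm_num
  · norm_num
  · exfalso; apply h1; nlinarith
  · norm_num

theorem diff_ne (x0 h p : ℝ) (k : ℕ)
    (hne : (Hv (p - (x0 + (k : ℕ) * h)) - Hv (p - (x0 + ((k + 1 : ℕ) : ℝ) * h))) ≠ 0) (hh : 0 < h) :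
    |p - (x0 + (k : ℕ) * h + h / 2)| ≤ h / 2 := by
  unfold Hv at hne
  push_cast at hne
  split_ifs at hne with h1 h2 h2
  · simp at hne
  · rw [abs_le]; constructor <;> linarith
  · exfalso; apply h1; nlinarith
  · simp at hne

/-- averaging a Lipschitz function over the cells -/
theorem cell_avg (x0 y0 h : ℝ) (hh : 0 < h) (M : ℕ) (w : ℂ) (K : NNReal) (f : ℂ → ℝ)
    (hf : LipschitzWith K f)
    (hx0 : x0 < w.re) (hxM : w.re < x0 + M * h) (hy0 : y0 < w.im) (hyM : w.im < y0 + M * h) :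
    |∑ k ∈ Finset.range M, ∑ l ∈ Finset.range M, f ⟨x0 + k * h + h / 2, y0 + l * h + h / 2⟩ *
      ((Hv (w.re - (x0 + (k : ℕ) * h)) - Hv (w.re - (x0 + ((k + 1 : ℕ) : ℝ) * h))) *
        (Hv (w.im - (y0 + (l : ℕ) * h)) - Hv (w.im - (y0 + ((l + 1 : ℕ) : ℝ) * h)))) - f w| ≤ K * h := by
  set A : ℕ → ℝ := fun k => Hv (w.re - (x0 + (k : ℕ) * h)) - Hv (w.re - (x0 + ((k + 1 : ℕ) : ℝ) * h)) with hA
  set B : ℕ → ℝ := fun l => Hv (w.im - (y0 + (l : ℕ) * h)) - Hv (w.im - (y0 + ((l + 1 : ℕ) : ℝ) * h)) with hB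
  have hA1 : ∑ k ∈ Finset.range M, A k = 1 := part_one x0 h w.re M hx0 hxM
  have hB1 : ∑ k ∈ Finset.range M, B k = 1 := part_one y0 h w.im M hy0 hyM
  have hAn : ∀ k, 0 ≤ A k := fun k => diff_nonneg x0 h w.re hh k
  have hBn : ∀ k, 0 ≤ B k := fun k => diff_nonneg y0 h w.im hh k
  have hAB : ∑ k ∈ Finset.range M, ∑ l ∈ Finset.range M, A k * B l = 1 := by
    rw [← Finset.sum_mul_sum, hA1, hB1, one_mul]
  have hfw : f w = ∑ k ∈ Finset.range M, ∑ l ∈ Finset.range M, f w * (A k * B l) := by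
    have e : ∑ k ∈ Finset.range M, ∑ l ∈ Finset.range M, f w * (A k * B l) =
        f w * ∑ k ∈ Finset.range M, ∑ l ∈ Finset.range M, A k * B l := by
      simp only [Finset.mul_sum]
    rw [e, hAB, mul_one]
  have hterm : ∀ k l : ℕ, |f ⟨x0 + k * h + h / 2, y0 + l * h + h / 2⟩ * (A k * B l) - f w * (A k * B l)|
      ≤ (K * h) * (A k * B l) := by
    intro k l
    rw [← sub_mul, abs_mul, abs_of_nonneg (mul_nonneg (hAn k) (hBn l))]
    by_cases hk : A k = 0
    · rw [hk]; simp
    by_cases hl : B l = 0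
    · rw [hl]; simp
    apply mul_le_mul_of_nonneg_right _ (mul_nonneg (hAn k) (hBn l))
    have h1 := diff_ne x0 h w.re k hk hh
    have h2 := diff_ne y0 h w.im l hl hh
    have h3 := hf.dist_le_mul (⟨x0 + k * h + h / 2, y0 + l * h + h / 2⟩ : ℂ) w
    rw [Real.dist_eq] at h3
    apply h3.trans
    apply mul_le_mul_of_nonneg_left _ K.2
    rw [dist_comm, dist_eq_norm]
    calc ‖w - (⟨x0 + k * h + h / 2, y0 + l * h + h / 2⟩ : ℂ)‖
        ≤ |(w - (⟨x0 + k * h + h / 2, y0 + l * h + h / 2⟩ : ℂ)).re| +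
          |(w - (⟨x0 + k * h + h / 2, y0 + l * h + h / 2⟩ : ℂ)).im| := Complex.norm_le_abs_re_add_abs_im _
      _ ≤ h / 2 + h / 2 := by
        apply add_le_add
        · simpa using h1
        · simpa using h2
      _ = h := by ring
  calc _ = |∑ k ∈ Finset.range M, ∑ l ∈ Finset.range M,
        (f ⟨x0 + k * h + h / 2, y0 + l * h + h / 2⟩ * (A k * B l) - f w * (A k * B l))| := by
        conv_lhs => rw [hfw]
        simp only [Finset.sum_sub_distrib]
        rfl
    _ ≤ ∑ k ∈ Finset.range M, ∑ l ∈ Finset.range M, (K * h) * (A k * B l) := by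
        apply (Finset.abs_sum_le_sum_abs _ _).trans
        apply Finset.sum_le_sum
        intro k _
        apply (Finset.abs_sum_le_sum_abs _ _).trans
        apply Finset.sum_le_sum
        intro l _
        exact hterm k l
    _ = K * h := by
        simp only [← Finset.mul_sum]
        simp only [← Finset.mul_sum] at hAB
        rw [hAB, mul_one]

/-- the flux estimate in one family of lines: `J l k` is the flux of the edge `k` in line `l` -/
theorem flux_bound (M N : ℕ) (F J : ℕ → ℕ → ℝ) (y0 h C : ℝ) (K : NNReal) (hh : 0 < h) (hC : 0 ≤ C)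
    (q s : Fin N → ℝ) (hs : ∀ i, 0 < s i)
    (hF : ∀ k l, |F k (l + 1) - F k l| ≤ K * h)
    (hJ : ∀ l : ℕ, ∑ k ∈ Finset.range M, |J k l| ≤
      C * (Finset.univ.filter (fun i => |y0 + (l : ℝ) * h - q i| ≤ s i)).card)
    (h0 : ∀ i, y0 < q i - s i) (hM : ∀ i, q i + s i < y0 + M * h) :
    |∑ k ∈ Finset.range M, ∑ l ∈ Finset.range M, F k l * (J k l - J k (l + 1))| ≤
      K * C * ∑ i, (2 * s i + h) := by
  have hJ0 : ∀ l : ℕ, (∀ i, s i < |y0 + (l : ℝ) * h - q i|) → ∀ k ∈ Finset.range M, J k l = 0 := by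
    intro l hl k hk
    have h1 := hJ l
    have h2 : Finset.univ.filter (fun i => |y0 + (l : ℝ) * h - q i| ≤ s i) = ∅ := by
      rw [Finset.filter_eq_empty_iff]
      intro i _
      exact not_le.mpr (hl i)
    rw [h2] at h1
    simp only [Finset.card_empty, Nat.cast_zero, mul_zero] at h1
    have h3 := (Finset.sum_eq_zero_iff_of_nonneg (fun k _ => abs_nonneg (J k l))).mp
      (le_antisymm h1 (Finset.sum_nonneg (fun k _ => abs_nonneg (J k l)))) k hk
    exact abs_eq_zero.mp h3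
  have hz0 : ∀ k ∈ Finset.range M, J k 0 = 0 := by
    apply hJ0
    intro i
    have := h0 i
    rw [abs_of_neg (by push_cast; linarith [hs i])]
    push_cast
    linarith
  have hzM : ∀ k ∈ Finset.range M, J k M = 0 := by
    apply hJ0
    intro i
    have := hM i
    rw [abs_of_pos (by linarith [hs i])]
    linarith
  calc _ = |∑ k ∈ Finset.range M, ∑ l ∈ Finset.range M, (F k (l + 1) - F k l) * J k (l + 1)| := by
        congr 1
        apply Finset.sum_congr rfl
        intro k hk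
        exact abel (F k) (J k) M (hz0 k hk) (hzM k hk)
    _ ≤ ∑ k ∈ Finset.range M, ∑ l ∈ Finset.range M, (K * h) * |J k (l + 1)| := by
        apply (Finset.abs_sum_le_sum_abs _ _).trans
        apply Finset.sum_le_sum
        intro k _
        apply (Finset.abs_sum_le_sum_abs _ _).trans
        apply Finset.sum_le_sum
        intro l _
        rw [abs_mul]
        exact mul_le_mul_of_nonneg_right (hF k l) (abs_nonneg _)
    _ = (K * h) * ∑ l ∈ Finset.range M, ∑ k ∈ Finset.range M, |J k (l + 1)| := by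
        rw [Finset.sum_comm]
        simp only [← Finset.mul_sum]
    _ ≤ (K * h) * ∑ l ∈ Finset.range M, C * (Finset.univ.filter (fun i => |y0 + ((l + 1 : ℕ) : ℝ) * h - q i| ≤ s i)).card := by
        apply mul_le_mul_of_nonneg_left _ (mul_nonneg K.2 hh.le)
        apply Finset.sum_le_sum
        intro l _
        exact hJ (l + 1)
    _ = K * C * ∑ i, h * ((Finset.range M).filter (fun l => |y0 + ((l + 1 : ℕ) : ℝ) * h - q i| ≤ s i)).card := by
        have e : ∑ l ∈ Finset.range M, ((Finset.univ.filter (fun i => |y0 + ((l + 1 : ℕ) : ℝ) * h - q i| ≤ s i)).card : ℝ)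
            = ∑ i, (((Finset.range M).filter (fun l => |y0 + ((l + 1 : ℕ) : ℝ) * h - q i| ≤ s i)).card : ℝ) := by
          simp only [Finset.card_filter]
          push_cast
          rw [Finset.sum_comm]
        rw [← Finset.mul_sum, e, ← Finset.mul_sum]
        ring
    _ ≤ K * C * ∑ i, (2 * s i + h) := by
        apply mul_le_mul_of_nonneg_left _ (mul_nonneg K.2 hC)
        apply Finset.sum_le_sum
        intro i _
        exact count_le y0 h (q i) (s i) hh (hs i).le M

end GAux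

open GAux in
theorem stmt_G : Stmt_G := by
  intro n N α β θ c s C hC hs hV hH K f hf
  -- a big square
  obtain ⟨L, hL0, hLα, hLβ, hLc⟩ : ∃ L : ℝ, 0 < L ∧ (∀ i, ‖α i‖ < L) ∧ (∀ i, ‖β i‖ < L) ∧
      (∀ i, ‖c i‖ + s i < L) := by
    refine ⟨1 + ∑ i, ‖α i‖ + ∑ i, ‖β i‖ + ∑ i, (‖c i‖ + s i), ?_, ?_, ?_, ?_⟩
    · have h1 : 0 ≤ ∑ i, ‖α i‖ := Finset.sum_nonneg fun i _ => norm_nonneg _
      have h2 : 0 ≤ ∑ i, ‖β i‖ := Finset.sum_nonneg fun i _ => norm_nonneg _
      have h3 : 0 ≤ ∑ i, (‖c i‖ + s i) := Finset.sum_nonneg fun i _ => add_nonneg (norm_nonneg _) (hs i).le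
      linarith
    · intro i
      have h1 : ‖α i‖ ≤ ∑ i, ‖α i‖ := Finset.single_le_sum (fun i _ => norm_nonneg (α i)) (Finset.mem_univ i)
      have h2 : 0 ≤ ∑ i, ‖β i‖ := Finset.sum_nonneg fun i _ => norm_nonneg _
      have h3 : 0 ≤ ∑ i, (‖c i‖ + s i) := Finset.sum_nonneg fun i _ => add_nonneg (norm_nonneg _) (hs i).le
      linarith
    · intro i
      have h1 : 0 ≤ ∑ i, ‖α i‖ := Finset.sum_nonneg fun i _ => norm_nonneg _
      have h2 : ‖β i‖ ≤ ∑ i, ‖β i‖ := Finset.single_le_sum (fun i _ => norm_nonneg (β i)) (Finset.mem_univ i)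
      have h3 : 0 ≤ ∑ i, (‖c i‖ + s i) := Finset.sum_nonneg fun i _ => add_nonneg (norm_nonneg _) (hs i).le
      linarith
    · intro i
      have h1 : 0 ≤ ∑ i, ‖α i‖ := Finset.sum_nonneg fun i _ => norm_nonneg _
      have h2 : 0 ≤ ∑ i, ‖β i‖ := Finset.sum_nonneg fun i _ => norm_nonneg _
      have h3 : ‖c i‖ + s i ≤ ∑ i, (‖c i‖ + s i) :=
        Finset.single_le_sum (f := fun i => ‖c i‖ + s i) (fun i _ => add_nonneg (norm_nonneg _) (hs i).le) (Finset.mem_univ i)
      linarith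
  -- estimate with mesh h
  have main : ∀ h : ℝ, 0 < h → |∑ j, f (β j) - ∑ i, f (α i)| ≤
      C * K * ∑ i, s i + h * (K * C * N + 2 * n * K) := by
    intro h hh
    obtain ⟨x0, hx1, hx2, hxg⟩ := generic L h hh (Fin.append (fun i => (α i).re) (fun i => (β i).re))
    obtain ⟨y0, hy1, hy2, hyg⟩ := generic L h hh (Fin.append (fun i => (α i).im) (fun i => (β i).im))
    have hxα : ∀ i (k : ℕ), (α i).re ≠ x0 + k * h := by
      intro i k
      have := hxg (Fin.castAdd n i) k
      rwa [Fin.append_left] at this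
    have hxβ : ∀ i (k : ℕ), (β i).re ≠ x0 + k * h := by
      intro i k
      have := hxg (Fin.natAdd n i) k
      rwa [Fin.append_right] at this
    have hyα : ∀ i (k : ℕ), (α i).im ≠ y0 + k * h := by
      intro i k
      have := hyg (Fin.castAdd n i) k
      rwa [Fin.append_left] at this
    have hyβ : ∀ i (k : ℕ), (β i).im ≠ y0 + k * h := by
      intro i k
      have := hyg (Fin.natAdd n i) k
      rwa [Fin.append_right] at this
    obtain ⟨M, hM⟩ := exists_nat_gt ((2 * L + 2 * h) / h)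
    rw [div_lt_iff₀ hh] at hM
    have hxM : L < x0 + M * h := by linarith
    have hyM : L < y0 + M * h := by linarith
    have hmono : ∀ z0 : ℝ, StrictMono (fun k : ℕ => z0 + (k : ℝ) * h) := by
      intro z0
      apply strictMono_nat_of_lt_succ
      intro k
      push_cast
      linarith
    -- edge fluxes
    set F : ℕ → ℕ → ℝ := fun k l => f ⟨x0 + k * h + h / 2, y0 + l * h + h / 2⟩ with hFdef
    set JH : ℕ → ℕ → ℝ := fun k l =>
      (phiH α β (y0 + l * h) (x0 + ((k + 1 : ℕ) : ℝ) * h) - phiH α β (y0 + l * h) (x0 + (k : ℕ) * h)) -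
        (θ ⟨x0 + ((k + 1 : ℕ) : ℝ) * h, y0 + l * h⟩ - θ ⟨x0 + (k : ℕ) * h, y0 + l * h⟩) with hJH
    set JV : ℕ → ℕ → ℝ := fun l k =>
      (phiV α β (x0 + k * h) (y0 + ((l + 1 : ℕ) : ℝ) * h) - phiV α β (x0 + k * h) (y0 + (l : ℕ) * h)) -
        (θ ⟨x0 + k * h, y0 + ((l + 1 : ℕ) : ℝ) * h⟩ - θ ⟨x0 + k * h, y0 + (l : ℕ) * h⟩) with hJV
    have hre : ∀ z : ℂ, |z.re| ≤ ‖z‖ := Complex.abs_re_le_norm
    have him : ∀ z : ℂ, |z.im| ≤ ‖z‖ := Complex.abs_im_le_norm
    have hFy : ∀ k l, |F k (l + 1) - F k l| ≤ K * h := by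
      intro k l
      have h3 := hf.dist_le_mul (⟨x0 + k * h + h / 2, y0 + ((l + 1 : ℕ) : ℝ) * h + h / 2⟩ : ℂ)
        ⟨x0 + k * h + h / 2, y0 + l * h + h / 2⟩
      rw [Real.dist_eq, dist_eq_norm] at h3
      refine h3.trans (mul_le_mul_of_nonneg_left ?_ K.2)
      refine (Complex.norm_le_abs_re_add_abs_im _).trans ?_
      simp only [Complex.sub_re, Complex.sub_im]
      push_cast
      rw [show x0 + k * h + h / 2 - (x0 + k * h + h / 2) = 0 by ring,
        show y0 + ((l : ℝ) + 1) * h + h / 2 - (y0 + l * h + h / 2) = h by ring]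
      rw [abs_zero, zero_add, abs_of_pos hh]
    have hFx : ∀ l k, |F (k + 1) l - F k l| ≤ K * h := by
      intro l k
      have h3 := hf.dist_le_mul (⟨x0 + ((k + 1 : ℕ) : ℝ) * h + h / 2, y0 + l * h + h / 2⟩ : ℂ)
        ⟨x0 + k * h + h / 2, y0 + l * h + h / 2⟩
      rw [Real.dist_eq, dist_eq_norm] at h3
      refine h3.trans (mul_le_mul_of_nonneg_left ?_ K.2)
      refine (Complex.norm_le_abs_re_add_abs_im _).trans ?_
      simp only [Complex.sub_re, Complex.sub_im]
      push_cast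
      rw [show y0 + l * h + h / 2 - (y0 + l * h + h / 2) = 0 by ring,
        show x0 + ((k : ℝ) + 1) * h + h / 2 - (x0 + k * h + h / 2) = h by ring]
      rw [abs_zero, add_zero, abs_of_pos hh]
    have hJHb : ∀ l : ℕ, ∑ k ∈ Finset.range M, |JH k l| ≤
        C * (Finset.univ.filter (fun i => |y0 + (l : ℝ) * h - (c i).im| ≤ s i)).card := by
      intro l
      have := hH (y0 + l * h) (fun i => hyα i l) (fun i => hyβ i l) M (fun k => x0 + (k : ℝ) * h) (hmono x0)
      exact this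
    have hJVb : ∀ k : ℕ, ∑ l ∈ Finset.range M, |JV l k| ≤
        C * (Finset.univ.filter (fun i => |x0 + (k : ℝ) * h - (c i).re| ≤ s i)).card := by
      intro k
      have := hV (x0 + k * h) (fun i => hxα i k) (fun i => hxβ i k) M (fun l => y0 + (l : ℝ) * h) (hmono y0)
      exact this
    have bH := flux_bound M N F JH y0 h C K hh hC (fun i => (c i).im) s hs hFy hJHb
      (by
        intro i
        have h1 := hLc i
        have h2 := abs_le.mp (him (c i))
        linarith [h2.1])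
      (by
        intro i
        have h1 := hLc i
        have h2 := abs_le.mp (him (c i))
        linarith [h2.2])
    have bV := flux_bound M N (fun l k => F k l) JV x0 h C K hh hC (fun i => (c i).re) s hs hFx hJVb
      (by
        intro i
        have h1 := hLc i
        have h2 := abs_le.mp (hre (c i))
        linarith [h2.1])
      (by
        intro i
        have h1 := hLc i
        have h2 := abs_le.mp (hre (c i))
        linarith [h2.2])
    -- cell identity
    have cell : ∀ k l : ℕ, JH k l - JH k (l + 1) + (JV l (k + 1) - JV l k) =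
        4 * Real.pi * (∑ j, ((Hv ((β j).re - (x0 + (k : ℕ) * h)) - Hv ((β j).re - (x0 + ((k + 1 : ℕ) : ℝ) * h))) *
          (Hv ((β j).im - (y0 + (l : ℕ) * h)) - Hv ((β j).im - (y0 + ((l + 1 : ℕ) : ℝ) * h)))) -
          ∑ i, ((Hv ((α i).re - (x0 + (k : ℕ) * h)) - Hv ((α i).re - (x0 + ((k + 1 : ℕ) : ℝ) * h))) *
          (Hv ((α i).im - (y0 + (l : ℕ) * h)) - Hv ((α i).im - (y0 + ((l + 1 : ℕ) : ℝ) * h))))) := by
      intro k l
      have hb : ∀ j, _ := fun j => cell_one (hxβ j k) (hxβ j (k + 1)) (hyβ j l) (hyβ j (l + 1))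
      have ha : ∀ j, _ := fun j => cell_one (hxα j k) (hxα j (k + 1)) (hyα j l) (hyα j (l + 1))
      have sb := Finset.sum_congr (rfl : (Finset.univ : Finset (Fin n)) = Finset.univ) (fun j _ => hb j)
      have sa := Finset.sum_congr (rfl : (Finset.univ : Finset (Fin n)) = Finset.univ) (fun j _ => ha j)
      rw [mul_sub, Finset.mul_sum, Finset.mul_sum, ← sb, ← sa]
      rw [hJH, hJV]
      simp only [phiH, phiV]
      simp only [Finset.sum_sub_distrib, Finset.sum_add_distrib, ← Finset.mul_sum]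
      ring
    -- sum
    have sumid : ∑ k ∈ Finset.range M, ∑ l ∈ Finset.range M, F k l * (JH k l - JH k (l + 1)) -
        ∑ l ∈ Finset.range M, ∑ k ∈ Finset.range M, F k l * (JV l k - JV l (k + 1)) =
        4 * Real.pi * (∑ j, ∑ k ∈ Finset.range M, ∑ l ∈ Finset.range M, F k l *
          ((Hv ((β j).re - (x0 + (k : ℕ) * h)) - Hv ((β j).re - (x0 + ((k + 1 : ℕ) : ℝ) * h))) *
          (Hv ((β j).im - (y0 + (l : ℕ) * h)) - Hv ((β j).im - (y0 + ((l + 1 : ℕ) : ℝ) * h)))) -
          ∑ i, ∑ k ∈ Finset.range M, ∑ l ∈ Finset.range M, F k l *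
          ((Hv ((α i).re - (x0 + (k : ℕ) * h)) - Hv ((α i).re - (x0 + ((k + 1 : ℕ) : ℝ) * h))) *
          (Hv ((α i).im - (y0 + (l : ℕ) * h)) - Hv ((α i).im - (y0 + ((l + 1 : ℕ) : ℝ) * h))))) := by
      have e1 : ∑ l ∈ Finset.range M, ∑ k ∈ Finset.range M, F k l * (JV l k - JV l (k + 1)) =
          ∑ k ∈ Finset.range M, ∑ l ∈ Finset.range M, F k l * (JV l k - JV l (k + 1)) := Finset.sum_comm
      rw [e1, ← Finset.sum_sub_distrib]
      have e2 : ∀ G : Fin n → ℕ → ℕ → ℝ, ∑ j, ∑ k ∈ Finset.range M, ∑ l ∈ Finset.range M, F k l * G j k l =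
          ∑ k ∈ Finset.range M, ∑ l ∈ Finset.range M, F k l * ∑ j, G j k l := by
        intro G
        rw [Finset.sum_comm]
        apply Finset.sum_congr rfl
        intro k _
        rw [Finset.sum_comm]
        apply Finset.sum_congr rfl
        intro l _
        rw [Finset.mul_sum]
      rw [e2, e2, ← Finset.sum_sub_distrib, Finset.mul_sum]
      apply Finset.sum_congr rfl
      intro k _
      rw [← Finset.sum_sub_distrib, ← Finset.sum_sub_distrib, Finset.mul_sum]
      apply Finset.sum_congr rfl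
      intro l _
      have := cell k l
      linear_combination F k l * this
    have avgβ : ∀ j, _ := fun j => cell_avg x0 y0 h hh M (β j) K f hf
      (by have h1 := hLβ j; have h2 := abs_le.mp (hre (β j)); linarith [h2.1])
      (by have h1 := hLβ j; have h2 := abs_le.mp (hre (β j)); linarith [h2.2])
      (by have h1 := hLβ j; have h2 := abs_le.mp (him (β j)); linarith [h2.1])
      (by have h1 := hLβ j; have h2 := abs_le.mp (him (β j)); linarith [h2.2])
    have avgα : ∀ j, _ := fun j => cell_avg x0 y0 h hh M (α j) K f hf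
      (by have h1 := hLα j; have h2 := abs_le.mp (hre (α j)); linarith [h2.1])
      (by have h1 := hLα j; have h2 := abs_le.mp (hre (α j)); linarith [h2.2])
      (by have h1 := hLα j; have h2 := abs_le.mp (him (α j)); linarith [h2.1])
      (by have h1 := hLα j; have h2 := abs_le.mp (him (α j)); linarith [h2.2])
    set Sβ : Fin n → ℝ := fun j => ∑ k ∈ Finset.range M, ∑ l ∈ Finset.range M, F k l *
          ((Hv ((β j).re - (x0 + (k : ℕ) * h)) - Hv ((β j).re - (x0 + ((k + 1 : ℕ) : ℝ) * h))) *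
          (Hv ((β j).im - (y0 + (l : ℕ) * h)) - Hv ((β j).im - (y0 + ((l + 1 : ℕ) : ℝ) * h)))) with hSβ
    set Sα : Fin n → ℝ := fun i => ∑ k ∈ Finset.range M, ∑ l ∈ Finset.range M, F k l *
          ((Hv ((α i).re - (x0 + (k : ℕ) * h)) - Hv ((α i).re - (x0 + ((k + 1 : ℕ) : ℝ) * h))) *
          (Hv ((α i).im - (y0 + (l : ℕ) * h)) - Hv ((α i).im - (y0 + ((l + 1 : ℕ) : ℝ) * h)))) with hSα
    have hβ' : |∑ j, Sβ j - ∑ j, f (β j)| ≤ n * (K * h) := by
      rw [← Finset.sum_sub_distrib]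
      apply (Finset.abs_sum_le_sum_abs _ _).trans
      calc _ ≤ ∑ j : Fin n, (K : ℝ) * h := Finset.sum_le_sum (fun j _ => avgβ j)
        _ = _ := by rw [Finset.sum_const, Finset.card_univ, Fintype.card_fin, nsmul_eq_mul]
    have hα' : |∑ j, Sα j - ∑ j, f (α j)| ≤ n * (K * h) := by
      rw [← Finset.sum_sub_distrib]
      apply (Finset.abs_sum_le_sum_abs _ _).trans
      calc _ ≤ ∑ j : Fin n, (K : ℝ) * h := Finset.sum_le_sum (fun j _ => avgα j)
        _ = _ := by rw [Finset.sum_const, Finset.card_univ, Fintype.card_fin, nsmul_eq_mul]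
    have hflux : 4 * Real.pi * |∑ j, Sβ j - ∑ i, Sα i| ≤ 2 * (K * C * ∑ i, (2 * s i + h)) := by
      have h1 : 4 * Real.pi * |∑ j, Sβ j - ∑ i, Sα i| = |4 * Real.pi * (∑ j, Sβ j - ∑ i, Sα i)| := by
        rw [abs_mul, abs_of_pos (by positivity : (0:ℝ) < 4 * Real.pi)]
      rw [h1, ← sumid]
      apply (abs_sub _ _).trans
      linarith [bH, bV]
    have hpi : 3 < Real.pi := Real.pi_gt_three
    have hS0 : 0 ≤ K * C * ∑ i, (2 * s i + h) := by
      apply mul_nonneg (mul_nonneg K.2 hC)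
      apply Finset.sum_nonneg
      intro i _
      have := hs i
      positivity
    have hflux2 : |∑ j, Sβ j - ∑ i, Sα i| ≤ (K * C * ∑ i, (2 * s i + h)) / 2 := by
      have h0 : 0 ≤ |∑ j, Sβ j - ∑ i, Sα i| := abs_nonneg _
      nlinarith
    have hsumh : ∑ i, (2 * s i + h) = 2 * ∑ i, s i + N * h := by
      rw [Finset.sum_add_distrib, ← Finset.mul_sum, Finset.sum_const, Finset.card_univ,
        Fintype.card_fin, nsmul_eq_mul]
    have hKCN : 0 ≤ (K : ℝ) * C * N * h := by
      have := K.2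
      positivity
    rw [hsumh] at hflux2
    have t1 := abs_le.mp hβ'
    have t2 := abs_le.mp hα'
    have t3 := abs_le.mp hflux2
    rw [abs_le]
    constructor
    · nlinarith [t1.1, t1.2, t2.1, t2.2, t3.1, t3.2]
    · nlinarith [t1.1, t1.2, t2.1, t2.2, t3.1, t3.2]
  apply le_of_forall_pos_le_add
  intro ε hε
  have hD : 0 ≤ (K : ℝ) * C * N + 2 * n * K := by
    have := K.2
    positivity
  have := main (ε / (K * C * N + 2 * n * K + 1)) (by positivity)
  apply this.trans
  gcongr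
  rw [div_mul_eq_mul_div, div_le_iff₀ (by positivity)]
  nlinarith

end Pool.FR
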