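import Pool.Agent.Work.FiniteRankNormal.Interface

open Matrix MeasureTheory Filter Topology
open scoped ComplexOrder

namespace Pool.FR
namespace LAux

theorem locmono {h : ℝ → ℝ} (H : ∀ c, (∀ᶠ s in 𝓝[>] c, h c ≤ h s) ∧
    (∀ᶠ s in 𝓝[<] c, h s ≤ h c)) : Monotone h := by
  intro a b hab
  set S : Set ℝ := {t | t ∈ Set.Icc a b ∧ ∀ x ∈ Set.Icc a t, h a ≤ h x} with hS
  have haS : a ∈ S := by
    refine ⟨⟨le_refl _, hab⟩, fun x hx => ?_⟩
    rw [le_antisymm hx.2 hx.1]
  have hbd : BddAbove S := ⟨b, fun t ht => ht.1.2⟩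
  set T := sSup S with hT
  have haT : a ≤ T := le_csSup hbd haS
  have hTb : T ≤ b := csSup_le ⟨a, haS⟩ fun t ht => ht.1.2
  have h1 : ∀ x, a ≤ x → x < T → h a ≤ h x := by
    intro x hax hxT
    obtain ⟨t, ht, hxt⟩ := exists_lt_of_lt_csSup ⟨a, haS⟩ hxT
    exact ht.2 x ⟨hax, hxt.le⟩
  have h2 : h a ≤ h T := by
    rcases haT.eq_or_lt with he | hlt
    · rw [← he]
    · obtain ⟨s, hs1, hs2⟩ := ((H T).2.and (Ioo_mem_nhdsLT hlt)).exists
      exact (h1 s hs2.1.le hs2.2).trans hs1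
  rcases hTb.eq_or_lt with he | hlt
  · rw [← he]; exact h2
  · exfalso
    obtain ⟨u, hu, hsub⟩ := (mem_nhdsGT_iff_exists_Ioo_subset).1 (H T).1
    have hu' : T < u := hu
    have hlt2 : T < min ((T + u) / 2) b := lt_min (by linarith) hlt
    have hmem : min ((T + u) / 2) b ∈ S := by
      refine ⟨⟨haT.trans hlt2.le, min_le_right _ _⟩, fun x hx => ?_⟩
      rcases lt_trichotomy x T with hx1 | hx1 | hx1
      · exact h1 x hx.1 hx1
      · rw [hx1]; exact h2
      · refine h2.trans (hsub ⟨hx1, ?_⟩)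
        have := hx.2.trans (min_le_left _ _)
        linarith
    exact absurd (le_csSup hbd hmem) (not_le.2 hlt2)

theorem sum_finrank_le {E : Type} [AddCommGroup E] [Module ℂ E] [FiniteDimensional ℂ E]
    {ι : Type} [Fintype ι] (M : ι → Submodule ℂ E) (h : iSupIndep M) :
    ∑ i, Module.finrank ℂ (M i) ≤ Module.finrank ℂ E := by
  classical
  rw [← Module.finrank_directSum (R := ℂ) (fun i => M i)]
  exact LinearMap.finrank_le_finrank_of_injective h.dfinsupp_lsum_injective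

theorem core {V E : Type} [AddCommGroup V] [Module ℂ V] [FiniteDimensional ℂ V]
    [AddCommGroup E] [Module ℂ E] [FiniteDimensional ℂ E] (f : ℝ → (V →ₗ[ℂ] V)) (g : E →ₗ[ℂ] V)
    (π : V →ₗ[ℂ] E) (A : Module.End ℂ E) (t₀ : ℝ)
    (hft : ∀ t, π ∘ₗ (f t) ∘ₗ g = LinearMap.id + ((t - t₀ : ℝ) : ℂ) • A) (c : ℝ)
    (hne : c ≠ t₀) :
    Module.finrank ℂ E ≤ Module.finrank ℂ (LinearMap.range (f c)) +
      Module.finrank ℂ (A.eigenspace (-((c - t₀ : ℝ) : ℂ)⁻¹)) := by
  have hne' : ((c - t₀ : ℝ) : ℂ) ≠ 0 := by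
    rw [Ne, Complex.ofReal_eq_zero, sub_eq_zero]; exact hne
  have hk1 : LinearMap.ker (π ∘ₗ (f c) ∘ₗ g) ≤ A.eigenspace (-((c - t₀ : ℝ) : ℂ)⁻¹) := by
    intro v hv
    rw [LinearMap.mem_ker, hft] at hv
    rw [Module.End.mem_eigenspace_iff]
    simp only [LinearMap.add_apply, LinearMap.id_apply, LinearMap.smul_apply] at hv
    have h1 : ((c - t₀ : ℝ) : ℂ) • A v = -v := by
      rw [add_comm] at hv
      exact eq_neg_of_add_eq_zero_left hv
    have h2 : A v = ((c - t₀ : ℝ) : ℂ)⁻¹ • (((c - t₀ : ℝ) : ℂ) • A v) := by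
      rw [smul_smul, inv_mul_cancel₀ hne', one_smul]
    rw [h2, h1, smul_neg, neg_smul]
  have hk2 := (π ∘ₗ (f c) ∘ₗ g).finrank_range_add_finrank_ker
  have hk3 : Module.finrank ℂ (LinearMap.range (π ∘ₗ (f c) ∘ₗ g)) ≤
      Module.finrank ℂ (LinearMap.range (f c)) := by
    have h1 : LinearMap.range (π ∘ₗ (f c) ∘ₗ g) ≤ (LinearMap.range (f c)).map π := by
      rintro _ ⟨v, rfl⟩
      exact ⟨f c (g v), ⟨g v, rfl⟩, rfl⟩
    exact (Submodule.finrank_mono h1).trans (Submodule.finrank_map_le π _)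
  have hk4 := Submodule.finrank_mono hk1
  rw [← hk2]
  exact Nat.add_le_add hk3 hk4

theorem core2 {V E : Type} [AddCommGroup V] [Module ℂ V] [FiniteDimensional ℂ V]
    [AddCommGroup E] [Module ℂ E] [FiniteDimensional ℂ E] (f : ℝ → (V →ₗ[ℂ] V)) (g : E →ₗ[ℂ] V)
    (π : V →ₗ[ℂ] E) (A : Module.End ℂ E) (t₀ : ℝ)
    (hft : ∀ t, π ∘ₗ (f t) ∘ₗ g = LinearMap.id + ((t - t₀ : ℝ) : ℂ) • A)
    (rk : ℝ → ℕ) (hrk : ∀ c, Module.finrank ℂ (LinearMap.range (f c)) = rk c)
    (h0 : Module.finrank ℂ E = rk t₀) :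
    ∃ Z : Finset ℝ, (∀ t : ℝ, t ∉ Z → rk t₀ ≤ rk t) ∧ ∑ c ∈ Z, (rk t₀ - rk c) ≤ rk t₀ := by
  classical
  have hker : ∀ c, rk c < rk t₀ → rk t₀ - rk c ≤
      Module.finrank ℂ (A.eigenspace (-((c - t₀ : ℝ) : ℂ)⁻¹)) := by
    intro c hc
    have hne : c ≠ t₀ := by rintro rfl; exact lt_irrefl _ hc
    have := core f g π A t₀ hft c hne
    rw [h0, hrk] at this
    omega
  have hfin : {c : ℝ | rk c < rk t₀}.Finite := by
    refine Set.Finite.of_finite_image (f := fun c : ℝ => -((c - t₀ : ℝ) : ℂ)⁻¹)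
      (A.finite_hasEigenvalue.subset ?_) ?_
    · rintro _ ⟨c, hc, rfl⟩
      have h2 := hker c hc
      change A.HasEigenvalue _
      rw [Module.End.hasEigenvalue_iff]
      intro h0
      rw [h0, finrank_bot] at h2
      have hc' : rk c < rk t₀ := hc
      omega
    · intro c _ d _ hcd
      have h1 : ((c - t₀ : ℝ) : ℂ) = ((d - t₀ : ℝ) : ℂ) := inv_injective (neg_injective hcd)
      have h2 := Complex.ofReal_injective h1
      linarith
  refine ⟨hfin.toFinset, ?_, ?_⟩
  · intro t ht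
    rw [Set.Finite.mem_toFinset] at ht
    exact not_lt.1 ht
  · have hind : iSupIndep (fun c : hfin.toFinset => A.eigenspace (-((c.1 - t₀ : ℝ) : ℂ)⁻¹)) := by
      refine A.eigenspaces_iSupIndep.comp ?_
      intro c d hcd
      have h1 : ((c.1 - t₀ : ℝ) : ℂ) = ((d.1 - t₀ : ℝ) : ℂ) := inv_injective (neg_injective hcd)
      have h2 := Complex.ofReal_injective h1
      exact Subtype.ext (by linarith)
    have h3 := sum_finrank_le _ hind
    rw [h0] at h3
    refine le_trans ?_ h3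
    rw [← Finset.sum_coe_sort]
    refine Finset.sum_le_sum fun c _ => hker c.1 ?_
    have h4 := c.2
    rw [Set.Finite.mem_toFinset] at h4
    exact h4

theorem pencil {n : ℕ} (K₀ K₁ : Mat n) : ∃ (ρ : ℕ) (Z : Finset ℝ),
    (∀ t : ℝ, (K₀ + (t : ℂ) • K₁).rank ≤ ρ) ∧ (∃ t : ℝ, (K₀ + (t : ℂ) • K₁).rank = ρ) ∧
    (∀ t : ℝ, t ∉ Z → (K₀ + (t : ℂ) • K₁).rank = ρ) ∧
    ∑ c ∈ Z, (ρ - (K₀ + (c : ℂ) • K₁).rank) ≤ ρ := by
  classical
  have hbd : BddAbove (Set.range fun t : ℝ => (K₀ + (t : ℂ) • K₁).rank) := ⟨n, by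
    rintro _ ⟨t, rfl⟩
    exact (rank_le_width _)⟩
  obtain ⟨t₀, ht₀⟩ := Nat.sSup_mem (Set.range_nonempty _) hbd
  have hmax : ∀ t : ℝ, (K₀ + (t : ℂ) • K₁).rank ≤ (K₀ + (t₀ : ℂ) • K₁).rank := fun t => by
    simp only at ht₀
    rw [ht₀]; exact le_csSup hbd ⟨t, rfl⟩
  obtain ⟨g, hg⟩ := LinearMap.exists_rightInverse_of_surjective
    (K₀ + (t₀ : ℂ) • K₁).mulVecLin.rangeRestrict (LinearMap.range_rangeRestrict _)
  obtain ⟨π, hπ⟩ := LinearMap.exists_leftInverse_of_injective
    (LinearMap.range (K₀ + (t₀ : ℂ) • K₁).mulVecLin).subtype (Submodule.ker_subtype _)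
  obtain ⟨Z, hZ1, hZ2⟩ := core2 (fun t : ℝ => (K₀ + (t : ℂ) • K₁).mulVecLin) g π
    (π ∘ₗ K₁.mulVecLin ∘ₗ g) t₀ (by
      intro t
      ext v : 1
      have e1 : (K₀ + (t : ℂ) • K₁).mulVecLin (g v) = (K₀ + (t₀ : ℂ) • K₁).mulVecLin (g v) +
          ((t - t₀ : ℝ) : ℂ) • K₁.mulVecLin (g v) := by
        simp only [Matrix.mulVecLin_apply, Matrix.add_mulVec, Matrix.smul_mulVec]
        push_cast
        rw [sub_smul]
        abel
      have e2 : (K₀ + (t₀ : ℂ) • K₁).mulVecLin (g v) =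
          (LinearMap.range (K₀ + (t₀ : ℂ) • K₁).mulVecLin).subtype v := by
        have := congrArg (fun L => (L v : Fin n → ℂ)) hg
        simpa using this
      have e3 : π ((LinearMap.range (K₀ + (t₀ : ℂ) • K₁).mulVecLin).subtype v) = v := by
        have := LinearMap.congr_fun hπ v
        simpa using this
      simp only [LinearMap.comp_apply, LinearMap.add_apply, LinearMap.id_apply,
        LinearMap.smul_apply]
      rw [e1, map_add, map_smul, e2, e3]) (fun t : ℝ => (K₀ + (t : ℂ) • K₁).rank) (fun c => rfl) rfl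
  exact ⟨_, Z, hmax, ⟨t₀, rfl⟩, fun t ht => le_antisymm (hmax t) (hZ1 t ht), hZ2⟩

/-- values in `2 π ℤ` -/
def Q2 (x : ℝ) : Prop := ∃ m : ℤ, x = 2 * Real.pi * m

theorem Q2.sub {x y : ℝ} (hx : Q2 x) (hy : Q2 y) : Q2 (x - y) := by
  obtain ⟨a, rfl⟩ := hx
  obtain ⟨b, rfl⟩ := hy
  exact ⟨a - b, by push_cast; ring⟩

theorem Q2.round {x : ℝ} (hx : Q2 x) {d : ℕ} (h : |x| ≤ 2 * Real.pi * d + Real.pi) :
    |x| ≤ 2 * Real.pi * d := by
  obtain ⟨m, rfl⟩ := hx
  have hpi := Real.pi_pos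
  rw [abs_mul, abs_of_pos (by positivity : (0 : ℝ) < 2 * Real.pi)] at h ⊢
  have h1 : |(m : ℝ)| < d + 1 := by
    by_contra hc
    push Not at hc
    nlinarith
  have h2 : |(m : ℝ)| = ((|m| : ℤ) : ℝ) := by push_cast; rfl
  rw [h2] at h1 ⊢
  have h3 : |m| < (d : ℤ) + 1 := by exact_mod_cast h1
  have h4 : |m| ≤ (d : ℤ) := by omega
  have h5 : ((|m| : ℤ) : ℝ) ≤ d := by exact_mod_cast h4
  exact mul_le_mul_of_nonneg_left h5 (by positivity)

/-- a function with values in `2 π ℤ` with finitely many jumps -/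
theorem jumps (g : ℝ → ℝ) (hg : ∀ t, Q2 (g t)) (Z : Finset ℝ) (δ : ℝ → ℕ)
    (hloc : ∀ c, ∀ᶠ t in 𝓝 c, |g t - g c| ≤ 2 * Real.pi * δ c + Real.pi)
    (hZ : ∀ c, c ∉ Z → δ c = 0) (M : ℕ) (t : ℕ → ℝ) (ht : StrictMono t) :
    ∑ k ∈ Finset.range M, |g (t (k + 1)) - g (t k)| ≤ 4 * Real.pi * ∑ c ∈ Z, (δ c : ℝ) := by
  classical
  have hpi := Real.pi_pos
  set D : ℝ → ℝ := fun s => ∑ c ∈ Z, 2 * Real.pi * δ c *
    ((if c ≤ s then 1 else 0) + (if c < s then 1 else 0)) with hD
  have hloc' : ∀ c, ∀ᶠ s in 𝓝 c, |g s - g c| ≤ 2 * Real.pi * δ c := fun c =>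
    (hloc c).mono fun s hs => ((hg s).sub (hg c)).round hs
  have hD1 : ∀ a b : ℝ, a < b → ∀ c : ℝ, (c = a ∨ c = b) → D a + 2 * Real.pi * δ c ≤ D b := by
    intro a b hab c hc
    by_cases hcZ : c ∈ Z
    · have h1 : 2 * Real.pi * δ c = ∑ x ∈ Z, (if x = c then 2 * Real.pi * (δ x : ℝ) else 0) := by
        rw [Finset.sum_ite_eq' Z c, if_pos hcZ]
      rw [h1, hD]
      simp only
      rw [← Finset.sum_add_distrib]
      refine Finset.sum_le_sum fun x _ => ?_
      have hx0 : (0 : ℝ) ≤ 2 * Real.pi * δ x := by positivity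
      by_cases hxc : x = c
      · rw [if_pos hxc]
        subst hxc
        rcases hc with rfl | rfl
        · rw [if_pos le_rfl, if_neg (lt_irrefl _), if_pos hab.le, if_pos hab]
          linarith
        · rw [if_neg (not_le.2 hab), if_neg (not_lt.2 hab.le), if_pos le_rfl,
            if_neg (lt_irrefl _)]
          linarith
      · rw [if_neg hxc, add_zero]
        refine mul_le_mul_of_nonneg_left ?_ hx0
        refine add_le_add ?_ ?_
        · split_ifs with h2 h3 h3 <;> first | exact le_rfl | exact zero_le_one | exact absurd (h2.trans hab.le) h3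
        · split_ifs with h2 h3 h3 <;> first | exact le_rfl | exact zero_le_one | exact absurd (h2.trans hab) h3
    · rw [hZ c hcZ]
      simp only [Nat.cast_zero, mul_zero, add_zero]
      refine Finset.sum_le_sum fun x _ => ?_
      have hx0 : (0 : ℝ) ≤ 2 * Real.pi * δ x := by positivity
      refine mul_le_mul_of_nonneg_left ?_ hx0
      refine add_le_add ?_ ?_
      · split_ifs with h2 h3 h3 <;> first | exact le_rfl | exact zero_le_one | exact absurd (h2.trans hab.le) h3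
      · split_ifs with h2 h3 h3 <;> first | exact le_rfl | exact zero_le_one | exact absurd (h2.trans hab) h3
  have hm1 : Monotone (fun s => D s + g s) := by
    refine locmono fun c => ⟨?_, ?_⟩
    · filter_upwards [self_mem_nhdsWithin, nhdsWithin_le_nhds (hloc' c)] with s hs1 hs2
      have h1 := hD1 c s hs1 c (Or.inl rfl)
      have h2 := (abs_le.1 hs2).1
      linarith
    · filter_upwards [self_mem_nhdsWithin, nhdsWithin_le_nhds (hloc' c)] with s hs1 hs2
      have h1 := hD1 s c hs1 c (Or.inr rfl)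
      have h2 := (abs_le.1 hs2).2
      linarith
  have hm2 : Monotone (fun s => D s - g s) := by
    refine locmono fun c => ⟨?_, ?_⟩
    · filter_upwards [self_mem_nhdsWithin, nhdsWithin_le_nhds (hloc' c)] with s hs1 hs2
      have h1 := hD1 c s hs1 c (Or.inl rfl)
      have h2 := (abs_le.1 hs2).2
      linarith
    · filter_upwards [self_mem_nhdsWithin, nhdsWithin_le_nhds (hloc' c)] with s hs1 hs2
      have h1 := hD1 s c hs1 c (Or.inr rfl)
      have h2 := (abs_le.1 hs2).1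
      linarith
  have h3 : ∑ k ∈ Finset.range M, |g (t (k + 1)) - g (t k)| ≤
      ∑ k ∈ Finset.range M, (D (t (k + 1)) - D (t k)) := by
    refine Finset.sum_le_sum fun k _ => ?_
    have hk : t k ≤ t (k + 1) := (ht (Nat.lt_succ_self k)).le
    have h4 := hm1 hk
    have h5 := hm2 hk
    simp only at h4 h5
    rw [abs_le]
    constructor <;> linarith
  rw [Finset.sum_range_sub (fun k => D (t k))] at h3
  have h6 : 0 ≤ D (t 0) := Finset.sum_nonneg fun x _ => by
    have : (0 : ℝ) ≤ (if x ≤ t 0 then 1 else 0) + (if x < t 0 then 1 else 0) := by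
      split_ifs <;> norm_num
    positivity
  have h7 : D (t M) ≤ 4 * Real.pi * ∑ c ∈ Z, (δ c : ℝ) := by
    rw [Finset.mul_sum]
    refine Finset.sum_le_sum fun x _ => ?_
    have hx0 : (0 : ℝ) ≤ 2 * Real.pi * δ x := by positivity
    have h8 : (if x ≤ t M then (1 : ℝ) else 0) + (if x < t M then 1 else 0) ≤ 2 := by
      split_ifs <;> norm_num
    have := mul_le_mul_of_nonneg_left h8 hx0
    linarith
  linarith

/-- a continuous function with values in `2 π ℤ` on an interval has equal values at the ends -/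
theorem const_of_cont {ψ : ℝ → ℝ} {a b : ℝ} (hab : a ≤ b) (hc : ContinuousOn ψ (Set.Icc a b))
    (hq : ∀ t, Q2 (ψ t)) : ψ a = ψ b := by
  have hpi := Real.pi_pos
  have key : ∀ (f : ℝ → ℝ), ContinuousOn f (Set.Icc a b) → (∀ t, Q2 (f t)) → ¬ f a < f b := by
    intro f hf hfq hlt
    obtain ⟨m, hm⟩ := hfq a
    obtain ⟨m', hm'⟩ := hfq b
    have h1 : m < m' := by
      have h2 : 2 * Real.pi * (m : ℝ) < 2 * Real.pi * m' := by rw [← hm, ← hm']; exact hlt
      have h3 : (m : ℝ) < m' := lt_of_mul_lt_mul_left h2 (by positivity)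
      exact_mod_cast h3
    have h2 : (m : ℝ) + 1 ≤ m' := by exact_mod_cast h1
    have h3 : f a + Real.pi ∈ Set.Icc (f a) (f b) := by
      constructor
      · linarith
      · rw [hm, hm']
        nlinarith
    obtain ⟨t, _, ht⟩ := intermediate_value_Icc hab hf h3
    obtain ⟨k, hk⟩ := hfq t
    rw [hk, hm] at ht
    have h4 : (2 : ℝ) * k = 2 * m + 1 := by
      have h5 : Real.pi * (2 * k) = Real.pi * (2 * m + 1) := by linarith
      exact mul_left_cancel₀ hpi.ne' h5
    have h5 : (2 : ℤ) * k = 2 * m + 1 := by exact_mod_cast h4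
    omega
  rcases lt_trichotomy (ψ a) (ψ b) with h | h | h
  · exact absurd h (key ψ hc hq)
  · exact h
  · refine absurd (neg_lt_neg h) (key (fun t => - ψ t) hc.neg fun t => ?_)
    obtain ⟨m, hm⟩ := hq t
    exact ⟨-m, by simp only [hm]; push_cast; ring⟩

theorem q2_of_exp {x y : ℝ} (h : Complex.exp (x * Complex.I) = Complex.exp (y * Complex.I)) :
    Q2 (x - y) := by
  obtain ⟨m, hm⟩ := Complex.exp_eq_exp_iff_exists_int.1 h
  refine ⟨m, ?_⟩
  have h1 : ((x : ℂ) - y) * Complex.I = ((2 * Real.pi * m : ℝ) : ℂ) * Complex.I := by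
    push_cast
    linear_combination hm
  have h2 := mul_right_cancel₀ Complex.I_ne_zero h1
  exact_mod_cast h2

theorem sum_ind_le_one (M : ℕ) (t : ℕ → ℝ) (ht : StrictMono t) (x : ℝ) :
    ∑ k ∈ Finset.range M, (if t k < x ∧ x ≤ t (k + 1) then (1 : ℝ) else 0) ≤ 1 := by
  classical
  rw [← Finset.sum_filter, Finset.sum_const, nsmul_eq_mul, mul_one]
  have : (Finset.filter (fun k => t k < x ∧ x ≤ t (k + 1)) (Finset.range M)).card ≤ 1 := by
    rw [Finset.card_le_one]
    intro a ha b hb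
    have ha' := (Finset.mem_filter.1 ha).2
    have hb' := (Finset.mem_filter.1 hb).2
    have h1 : t a < t (b + 1) := ha'.1.trans_le hb'.2
    have h2 : t b < t (a + 1) := hb'.1.trans_le ha'.2
    have h3 := ht.lt_iff_lt.1 h1
    have h4 := ht.lt_iff_lt.1 h2
    omega
  exact_mod_cast this

theorem sum_ind_le_one' (M : ℕ) (t : ℕ → ℝ) (ht : StrictMono t) (x : ℝ) :
    ∑ k ∈ Finset.range M, (if t k ≤ x ∧ x < t (k + 1) then (1 : ℝ) else 0) ≤ 1 := by
  classical
  rw [← Finset.sum_filter, Finset.sum_const, nsmul_eq_mul, mul_one]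
  have : (Finset.filter (fun k => t k ≤ x ∧ x < t (k + 1)) (Finset.range M)).card ≤ 1 := by
    rw [Finset.card_le_one]
    intro a ha b hb
    have ha' := (Finset.mem_filter.1 ha).2
    have hb' := (Finset.mem_filter.1 hb).2
    have h1 : t a < t (b + 1) := ha'.1.trans_lt hb'.2
    have h2 : t b < t (a + 1) := hb'.1.trans_lt ha'.2
    have h3 := ht.lt_iff_lt.1 h1
    have h4 := ht.lt_iff_lt.1 h2
    omega
  exact_mod_cast this

end LAux

open LAux in
theorem stmt_L (hU : Stmt_U) : Stmt_L := by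
  classical
  obtain ⟨hU1, hU2, hU3, hU4⟩ := hU
  intro n r N V P Q K₀ K₁ φ θ l u hVc hVU hP hQ hfac hrk hφ hdet hsm hin hout M t ht
  have hpi := Real.pi_pos
  have hrank : ∀ s : ℝ, (V s - 1).rank = (K₀ + (s : ℂ) • K₁).rank := by
    intro s
    rw [hfac s, rank_mul_eq_left_of_isUnit_det _ _ ((Matrix.isUnit_iff_isUnit_det _).1 (hQ s)),
      rank_mul_eq_right_of_isUnit_det _ _ ((Matrix.isUnit_iff_isUnit_det _).1 (hP s))]
  obtain ⟨ρ, Z, hZ1, ⟨t₁, ht₁⟩, hZ2, hZ3⟩ := pencil K₀ K₁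
  have hρ : ρ ≤ 2 * r := by rw [← ht₁]; exact hrk t₁
  -- the lift minus th0
  have hg : ∀ s, Q2 (φ s - th0 (V s)) := fun s =>
    q2_of_exp ((hdet s).trans (hU1 n (V s) (hVU s)).1.symm)
  have hψ : ∀ s, Q2 (φ s - thp (V s)) := fun s =>
    q2_of_exp ((hdet s).trans (hU1 n (V s) (hVU s)).2.symm)
  have hj := jumps (fun s => φ s - th0 (V s)) hg Z
    (fun c => ρ - (K₀ + (c : ℂ) • K₁).rank) (by
      intro c
      have h1 := hU3 n ρ V hVc hVU (fun s => by rw [hrank]; exact hZ1 s) c (Real.pi / 2)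
        (by positivity)
      have h2 : ∀ᶠ s in 𝓝 c, |φ s - φ c| < Real.pi / 2 := by
        have := Metric.tendsto_nhds.1 (hφ.tendsto c) (Real.pi / 2) (by positivity)
        simpa [Real.dist_eq] using this
      filter_upwards [h1, h2] with s hs1 hs2
      rw [hrank] at hs1
      have h3 : ((ρ - (K₀ + (c : ℂ) • K₁).rank : ℕ) : ℝ) =
          (ρ : ℝ) - ((K₀ + (c : ℂ) • K₁).rank : ℝ) := Nat.cast_sub (hZ1 c)
      rw [h3]
      have h4 : (φ s - th0 (V s)) - (φ c - th0 (V c)) =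
        (φ s - φ c) - (th0 (V s) - th0 (V c)) := by ring
      rw [h4]
      refine (abs_sub _ _).trans ?_
      linarith) (fun c hc => by simp only [hZ2 c hc, Nat.sub_self]) M t ht
  have hj' : ∑ k ∈ Finset.range M, |(φ (t (k + 1)) - th0 (V (t (k + 1)))) -
      (φ (t k) - th0 (V (t k)))| ≤ 8 * Real.pi * r := by
    refine hj.trans ?_
    have h1 : ∑ c ∈ Z, ((ρ - (K₀ + (c : ℂ) • K₁).rank : ℕ) : ℝ) ≤ ρ := by exact_mod_cast hZ3
    have h2 : (ρ : ℝ) ≤ 2 * r := by exact_mod_cast hρ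
    have h3 := mul_le_mul_of_nonneg_left (h1.trans h2) (by positivity : (0 : ℝ) ≤ 4 * Real.pi)
    linarith
  -- difference of theta and th0
  set e : ℝ → ℝ := fun s => θ s - th0 (V s) with he
  have he0 : ∀ s, (∃ i, s ∈ Set.Icc (l i) (u i)) → e s = 0 := fun s hs => by
    rw [he]; simp only; rw [hin s hs, sub_self]
  have he1 : ∀ s, |e s| ≤ 4 * Real.pi * r := by
    intro s
    by_cases hs : ∃ i, s ∈ Set.Icc (l i) (u i)
    · rw [he0 s hs, abs_zero]; positivity
    · rw [he]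
      simp only
      rw [hout s hs, abs_sub_comm]
      refine (hU2 n (V s) (hVU s)).trans ?_
      rw [hrank]
      have : ((K₀ + (s : ℂ) • K₁).rank : ℝ) ≤ 2 * r := by exact_mod_cast hrk s
      have := mul_le_mul_of_nonneg_left this (by positivity : (0 : ℝ) ≤ 2 * Real.pi)
      linarith
  -- intervals outside
  have hfree : ∀ a b : ℝ, a ≤ b → (∀ s ∈ Set.Icc a b, ¬ ∃ i, s ∈ Set.Icc (l i) (u i)) →
      (φ b - φ a) - (θ b - θ a) = 0 := by
    intro a b hab hs
    have h1 : ∀ s ∈ Set.Icc a b, ContinuousAt (fun t => thp (V t)) s := by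
      intro s hs'
      refine hU4 n V hVc hVU s fun v hv hVv => ?_
      have h2 := hsm s (fun i hi => hs s hs' ⟨i, hi⟩) (-1) v hv (by rw [hVv, neg_one_smul])
      norm_num at h2
    have h2 : ContinuousOn (fun t => φ t - thp (V t)) (Set.Icc a b) := fun s hs' =>
      (hφ.continuousAt.sub (h1 s hs')).continuousWithinAt
    have h3 := const_of_cont hab h2 hψ
    rw [hout a (hs a ⟨le_rfl, hab⟩), hout b (hs b ⟨hab, le_rfl⟩)]
    linarith
  rcases Nat.eq_zero_or_pos N with hN | hN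
  · subst hN
    refine le_of_eq ?_
    rw [Nat.cast_zero, mul_zero]
    refine Finset.sum_eq_zero fun k _ => ?_
    rw [abs_eq_zero]
    exact hfree _ _ (ht (Nat.lt_succ_self k)).le (fun s _ ⟨i, _⟩ => i.elim0)
  · have hterm : ∀ k, |(φ (t (k + 1)) - φ (t k)) - (θ (t (k + 1)) - θ (t k))| ≤
        |(φ (t (k + 1)) - th0 (V (t (k + 1)))) - (φ (t k) - th0 (V (t k)))| +
        ((∑ i, 4 * Real.pi * r * (if t k < l i ∧ l i ≤ t (k + 1) then (1 : ℝ) else 0)) +
        ∑ i, 4 * Real.pi * r * (if t k ≤ u i ∧ u i < t (k + 1) then (1 : ℝ) else 0)) := by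
      intro k
      have hnn : ∀ (p : Fin N → Prop) [DecidablePred p],
          0 ≤ ∑ i, 4 * Real.pi * r * (if p i then (1 : ℝ) else 0) := fun p _ =>
        Finset.sum_nonneg fun i _ => by
          have : (0 : ℝ) ≤ if p i then (1 : ℝ) else 0 := by split_ifs <;> norm_num
          positivity
      have hle : ∀ (p : Fin N → Prop) [DecidablePred p] (i : Fin N), p i →
          4 * Real.pi * r ≤ ∑ i, 4 * Real.pi * r * (if p i then (1 : ℝ) else 0) := by
        intro p _ i hi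
        have h1 := Finset.single_le_sum (f := fun i => 4 * Real.pi * r * (if p i then (1 : ℝ) else 0))
          (s := Finset.univ) (fun i _ => by
            have : (0 : ℝ) ≤ if p i then (1 : ℝ) else 0 := by split_ifs <;> norm_num
            positivity) (Finset.mem_univ i)
        simp only [if_pos hi, mul_one] at h1
        exact h1
      by_cases hcase : ∀ s ∈ Set.Icc (t k) (t (k + 1)), ¬ ∃ i, s ∈ Set.Icc (l i) (u i)
      · rw [hfree _ _ (ht (Nat.lt_succ_self k)).le hcase, abs_zero]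
        have h1 := hnn (fun i => t k < l i ∧ l i ≤ t (k + 1))
        have h2 := hnn (fun i => t k ≤ u i ∧ u i < t (k + 1))
        have h3 := abs_nonneg ((φ (t (k + 1)) - th0 (V (t (k + 1)))) - (φ (t k) - th0 (V (t k))))
        linarith
      · push Not at hcase
        obtain ⟨s, hs1, i, hs2⟩ := hcase
        have h1 : |e (t k)| ≤
            ∑ i, 4 * Real.pi * r * (if t k < l i ∧ l i ≤ t (k + 1) then (1 : ℝ) else 0) := by
          by_cases h2 : ∃ i, t k ∈ Set.Icc (l i) (u i)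
          · rw [he0 _ h2, abs_zero]
            exact hnn (fun i => t k < l i ∧ l i ≤ t (k + 1))
          · refine (he1 _).trans (hle (fun i => t k < l i ∧ l i ≤ t (k + 1)) i ⟨?_, ?_⟩)
            · by_contra hc
              push Not at hc
              exact h2 ⟨i, hc, hs1.1.trans hs2.2⟩
            · exact hs2.1.trans hs1.2
        have h2 : |e (t (k + 1))| ≤
            ∑ i, 4 * Real.pi * r * (if t k ≤ u i ∧ u i < t (k + 1) then (1 : ℝ) else 0) := by
          by_cases h2 : ∃ i, t (k + 1) ∈ Set.Icc (l i) (u i)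
          · rw [he0 _ h2, abs_zero]
            exact hnn (fun i => t k ≤ u i ∧ u i < t (k + 1))
          · refine (he1 _).trans (hle (fun i => t k ≤ u i ∧ u i < t (k + 1)) i ⟨?_, ?_⟩)
            · exact hs1.1.trans hs2.2
            · by_contra hc
              push Not at hc
              exact h2 ⟨i, hs2.1.trans hs1.2, hc⟩
        have h3 : (φ (t (k + 1)) - φ (t k)) - (θ (t (k + 1)) - θ (t k)) =
            ((φ (t (k + 1)) - th0 (V (t (k + 1)))) - (φ (t k) - th0 (V (t k)))) +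
            (e (t k) - e (t (k + 1))) := by
          rw [he]; ring
        rw [h3]
        refine (abs_add_le _ _).trans (add_le_add le_rfl ?_)
        exact (abs_sub _ _).trans (add_le_add h1 h2)
    refine (Finset.sum_le_sum fun k _ => hterm k).trans ?_
    rw [Finset.sum_add_distrib, Finset.sum_add_distrib]
    have hA : ∑ k ∈ Finset.range M, ∑ i, 4 * Real.pi * r *
        (if t k < l i ∧ l i ≤ t (k + 1) then (1 : ℝ) else 0) ≤ 4 * Real.pi * r * N := by
      rw [Finset.sum_comm]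
      have : ∀ i : Fin N, ∑ k ∈ Finset.range M, 4 * Real.pi * r *
          (if t k < l i ∧ l i ≤ t (k + 1) then (1 : ℝ) else 0) ≤ 4 * Real.pi * r := by
        intro i
        rw [← Finset.mul_sum]
        have := mul_le_mul_of_nonneg_left (sum_ind_le_one M t ht (l i))
          (by positivity : (0 : ℝ) ≤ 4 * Real.pi * r)
        linarith
      refine (Finset.sum_le_sum fun i _ => this i).trans (le_of_eq ?_)
      rw [Finset.sum_const, Finset.card_univ, Fintype.card_fin, nsmul_eq_mul]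
      ring
    have hB : ∑ k ∈ Finset.range M, ∑ i, 4 * Real.pi * r *
        (if t k ≤ u i ∧ u i < t (k + 1) then (1 : ℝ) else 0) ≤ 4 * Real.pi * r * N := by
      rw [Finset.sum_comm]
      have : ∀ i : Fin N, ∑ k ∈ Finset.range M, 4 * Real.pi * r *
          (if t k ≤ u i ∧ u i < t (k + 1) then (1 : ℝ) else 0) ≤ 4 * Real.pi * r := by
        intro i
        rw [← Finset.mul_sum]
        have := mul_le_mul_of_nonneg_left (sum_ind_le_one' M t ht (u i))
          (by positivity : (0 : ℝ) ≤ 4 * Real.pi * r)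
        linarith
      refine (Finset.sum_le_sum fun i _ => this i).trans (le_of_eq ?_)
      rw [Finset.sum_const, Finset.card_univ, Fintype.card_fin, nsmul_eq_mul]
      ring
    have hN1 : (1 : ℝ) ≤ N := by exact_mod_cast hN
    have hr0 : (0 : ℝ) ≤ Real.pi * r := by positivity
    have h9 : Real.pi * r ≤ Real.pi * r * N := le_mul_of_one_le_right hr0 hN1
    nlinarith [hj', hA, hB]

end Pool.FR
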