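import Pool.Agent.Work.FiniteRankNormal.Interface

/-!
# Block P: smallness of the phases
-/

open Matrix MeasureTheory
open scoped ComplexOrder

namespace Pool.FR

namespace PAux

theorem step1 {P s y u w : ℝ} (hP : 0 ≤ P) (hP' : 0 < P + s ^ 2) (hy : P = 0 → y = 0) :
    s * u * ((y + s * w) / (P + s ^ 2)) + 1 / 2 * ((y + s * w) ^ 2 / (P + s ^ 2)) ≤
      1 / 2 * (y ^ 2 / P) + u ^ 2 + w ^ 2 := by
  set A := (y + s * w) / (P + s ^ 2) with hA
  have h1 : y + s * w = (P + s ^ 2) * A := by rw [hA]; field_simp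
  have h2 : (y + s * w) ^ 2 / (P + s ^ 2) = (P + s ^ 2) * A ^ 2 := by
    rw [hA]; field_simp
  have h3 : 2 * y * A - P * A ^ 2 ≤ y ^ 2 / P := by
    rcases eq_or_lt_of_le hP with h | h
    · rw [← h, hy h.symm]; simp
    · rw [le_div_iff₀ h]
      nlinarith [sq_nonneg (y - P * A)]
  rw [h2]
  have h4 : y = (P + s ^ 2) * A - s * w := by linarith
  have h5 : s * A * (u + w) ≤ 1 / 2 * (s * A) ^ 2 + 1 / 2 * (u + w) ^ 2 := by
    nlinarith [sq_nonneg (s * A - (u + w))]
  have h6 : 1 / 2 * (u + w) ^ 2 ≤ u ^ 2 + w ^ 2 := by nlinarith [sq_nonneg (u - w)]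
  have h7 : 2 * y * A = 2 * (P + s ^ 2) * A ^ 2 - 2 * (s * w * A) := by rw [h4]; ring
  nlinarith

/-- A discrete Hardy inequality. -/
theorem hardy {ι : Type} [Fintype ι] [DecidableEq ι] (r m u w : ι → ℝ) (c : ℝ) (hc : 0 ≤ c)
    (hr : ∀ k, 0 < r k) (hm : ∀ k, 0 ≤ m k) (hu : ∀ k, 0 ≤ u k) (hw : ∀ k, 0 ≤ w k)
    (h : ∀ s : ℝ, 0 < s → ∑ k ∈ Finset.univ.filter (fun k => r k ≤ s), m k ≤ c * s)
    (T : Finset ι) :
    ∑ k ∈ T, ∑ l ∈ T, √(m k) * √(m l) * u k * w l / max (r k) (r l) +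
      c / 2 * ((∑ k ∈ T, √(m k) * u k) ^ 2 / (∑ k ∈ T, m k) +
        (∑ k ∈ T, √(m k) * w k) ^ 2 / (∑ k ∈ T, m k)) ≤
      2 * c * (∑ k ∈ T, u k ^ 2 + ∑ k ∈ T, w k ^ 2) := by
  induction T using Finset.induction_on_max_value (f := r) with
  | empty => simp
  | insert a T haT hmax ih =>
    set x := ∑ k ∈ T, √(m k) * u k with hx
    set y := ∑ k ∈ T, √(m k) * w k with hy
    set P := ∑ k ∈ T, m k with hP
    have hP0 : 0 ≤ P := Finset.sum_nonneg fun k _ => hm k
    have hx0 : 0 ≤ x := Finset.sum_nonneg fun k _ => mul_nonneg (Real.sqrt_nonneg _) (hu k)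
    have hy0 : 0 ≤ y := Finset.sum_nonneg fun k _ => mul_nonneg (Real.sqrt_nonneg _) (hw k)
    have hs : √(m a) ^ 2 = m a := Real.sq_sqrt (hm a)
    have hs0 : 0 ≤ √(m a) := Real.sqrt_nonneg _
    have hra := hr a
    rw [Finset.sum_insert haT, Finset.sum_insert haT, Finset.sum_insert haT,
      Finset.sum_insert haT, Finset.sum_insert haT, Finset.sum_insert haT,
      Finset.sum_insert (f := fun k => w k ^ 2) haT, ← hx, ← hy, ← hP]
    have e1 : ∑ k ∈ T, ∑ l ∈ insert a T, √(m k) * √(m l) * u k * w l / max (r k) (r l) =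
        √(m a) * w a * x / r a +
          ∑ k ∈ T, ∑ l ∈ T, √(m k) * √(m l) * u k * w l / max (r k) (r l) := by
      rw [hx, Finset.mul_sum, Finset.sum_div, ← Finset.sum_add_distrib]
      refine Finset.sum_congr rfl fun k hk => ?_
      rw [Finset.sum_insert haT, max_eq_right (hmax k hk)]
      ring
    have e2 : √(m a) * √(m a) * u a * w a / max (r a) (r a) +
        ∑ l ∈ T, √(m a) * √(m l) * u a * w l / max (r a) (r l) =
        √(m a) * u a * (y + √(m a) * w a) / r a := by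
      rw [max_self, mul_add, hy, Finset.mul_sum, add_div, Finset.sum_div, add_comm]
      congr 1
      · refine Finset.sum_congr rfl fun k hk => ?_
        rw [max_eq_left (hmax k hk)]
        ring
      · ring
    rw [e1, e2]
    have hPP : m a + P ≤ c * r a := by
      refine le_trans ?_ (h (r a) hra)
      rw [hP, ← Finset.sum_insert haT]
      refine Finset.sum_le_sum_of_subset_of_nonneg ?_ fun k _ _ => hm k
      intro k hk
      rw [Finset.mem_filter]
      refine ⟨Finset.mem_univ _, ?_⟩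
      rcases Finset.mem_insert.mp hk with rfl | hk
      · exact le_rfl
      · exact hmax k hk
    have hz : P = 0 → x = 0 ∧ y = 0 := by
      intro h0
      have h1 : ∀ k ∈ T, m k = 0 :=
        (Finset.sum_eq_zero_iff_of_nonneg fun k _ => hm k).mp h0
      constructor
      · exact Finset.sum_eq_zero fun k hk => by rw [h1 k hk]; simp
      · exact Finset.sum_eq_zero fun k hk => by rw [h1 k hk]; simp
    rcases eq_or_lt_of_le (hm a) with hma | hma
    · rw [← hma]
      simp only [Real.sqrt_zero, zero_mul, zero_div, add_zero, zero_add]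
      have h1 := mul_nonneg hc (sq_nonneg (u a))
      have h2 := mul_nonneg hc (sq_nonneg (w a))
      linarith
    · have hPs : 0 < P + √(m a) ^ 2 := by rw [hs]; linarith
      have k1 := step1 (y := y) (u := u a) (w := w a) hP0 hPs (fun h0 => (hz h0).2)
      have k2 := step1 (y := x) (u := w a) (w := u a) hP0 hPs (fun h0 => (hz h0).1)
      have hinv : 1 / r a ≤ c / (P + √(m a) ^ 2) := by
        rw [div_le_div_iff₀ hra hPs, hs]
        linarith
      have b1 : √(m a) * u a * (y + √(m a) * w a) / r a ≤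
          c * (√(m a) * u a * ((y + √(m a) * w a) / (P + √(m a) ^ 2))) := by
        have hn : 0 ≤ √(m a) * u a * (y + √(m a) * w a) :=
          mul_nonneg (mul_nonneg hs0 (hu a)) (add_nonneg hy0 (mul_nonneg hs0 (hw a)))
        calc √(m a) * u a * (y + √(m a) * w a) / r a
            = √(m a) * u a * (y + √(m a) * w a) * (1 / r a) := by ring
          _ ≤ √(m a) * u a * (y + √(m a) * w a) * (c / (P + √(m a) ^ 2)) := by gcongr
          _ = _ := by ring
      have b2 : √(m a) * w a * x / r a ≤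
          c * (√(m a) * w a * ((x + √(m a) * u a) / (P + √(m a) ^ 2))) := by
        have hn : 0 ≤ √(m a) * w a * (x + √(m a) * u a) :=
          mul_nonneg (mul_nonneg hs0 (hw a)) (add_nonneg hx0 (mul_nonneg hs0 (hu a)))
        have hle : √(m a) * w a * x ≤ √(m a) * w a * (x + √(m a) * u a) := by
          have := mul_nonneg hs0 (hu a)
          have := hw a
          gcongr
          linarith
        calc √(m a) * w a * x / r a
            ≤ √(m a) * w a * (x + √(m a) * u a) / r a := by gcongr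
          _ = √(m a) * w a * (x + √(m a) * u a) * (1 / r a) := by ring
          _ ≤ √(m a) * w a * (x + √(m a) * u a) * (c / (P + √(m a) ^ 2)) := by gcongr
          _ = _ := by ring
      have e3 : m a + P = P + √(m a) ^ 2 := by rw [hs]; ring
      have e4 : √(m a) * u a + x = x + √(m a) * u a := by ring
      have e5 : √(m a) * w a + y = y + √(m a) * w a := by ring
      rw [e3, e4, e5]
      have c1 := mul_le_mul_of_nonneg_left k1 hc
      have c2 := mul_le_mul_of_nonneg_left k2 hc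
      linarith

/-- The kernel bound for nonnegative vectors. -/
theorem kernel {n : ℕ} (a b m m' p w : Fin n → ℝ) (ha : ∀ i, 0 < a i) (hb : ∀ j, 0 < b j)
    (hm : ∀ i, 0 ≤ m i) (hm' : ∀ j, 0 ≤ m' j) (hp : ∀ i, 0 ≤ p i) (hw : ∀ j, 0 ≤ w j)
    (h : ∀ s : ℝ, 0 < s → ∑ i ∈ Finset.univ.filter (fun i => a i ≤ s), m i +
      ∑ j ∈ Finset.univ.filter (fun j => b j ≤ s), m' j ≤ s / 40) :
    ∑ i, ∑ j, √(m i) * √(m' j) / max (a i) (b j) * (p i * w j) ≤
      1 / 20 * (∑ i, p i ^ 2 + ∑ j, w j ^ 2) := by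
  have key := hardy (Sum.elim a b) (Sum.elim m m') (Sum.elim p 0) (Sum.elim 0 w) (1 / 40)
    (by norm_num) (by rintro (i | j) <;> simp [ha, hb]) (by rintro (i | j) <;> simp [hm, hm'])
    (by rintro (i | j) <;> simp [hp]) (by rintro (i | j) <;> simp [hw]) (by
      intro s hs
      have e : ∑ k ∈ Finset.univ.filter (fun k : Fin n ⊕ Fin n => Sum.elim a b k ≤ s),
          Sum.elim m m' k = ∑ i ∈ Finset.univ.filter (fun i => a i ≤ s), m i +
          ∑ j ∈ Finset.univ.filter (fun j => b j ≤ s), m' j := by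
        rw [Finset.sum_filter, Finset.sum_filter, Finset.sum_filter, Fintype.sum_sum_type]
        simp
      rw [e]
      have := h s hs
      linarith) Finset.univ
  simp only [Fintype.sum_sum_type, Sum.elim_inl, Sum.elim_inr, Pi.zero_apply, mul_zero, zero_mul,
    zero_div, Finset.sum_const_zero, add_zero, zero_add, ne_eq, OfNat.ofNat_ne_zero,
    not_false_eq_true, zero_pow] at key
  have hn1 : 0 ≤ (∑ i, √(m i) * p i) ^ 2 / (∑ i, m i + ∑ j, m' j) :=
    div_nonneg (sq_nonneg _) (add_nonneg (Finset.sum_nonneg fun i _ => hm i)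
      (Finset.sum_nonneg fun j _ => hm' j))
  have hn2 : 0 ≤ (∑ j, √(m' j) * w j) ^ 2 / (∑ i, m i + ∑ j, m' j) :=
    div_nonneg (sq_nonneg _) (add_nonneg (Finset.sum_nonneg fun i _ => hm i)
      (Finset.sum_nonneg fun j _ => hm' j))
  have e : ∑ i, ∑ j, √(m i) * √(m' j) / max (a i) (b j) * (p i * w j) =
      ∑ i, ∑ j, √(m i) * √(m' j) * p i * w j / max (a i) (b j) := by
    refine Finset.sum_congr rfl fun i _ => Finset.sum_congr rfl fun j _ => ?_
    ring
  rw [e]
  linarith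

/-- Entries of the mixed matrix. -/
theorem entry {n r : ℕ} {UA UB A B : Mat n} {α β : Fin n → ℂ}
    {X Y : Matrix (Fin n) (Fin r) ℂ} (hUA : IsU UA) (hUB : IsU UB)
    (hA : A = UA * diagonal α * UAᴴ) (hB : B = UB * diagonal β * UBᴴ) (hD : B - A = X * Yᴴ)
    (i j : Fin n) : (UAᴴ * UB) i j * (β j - α i) = ∑ k, (UAᴴ * X) i k * star ((UBᴴ * Y) j k) := by
  have h1 : UAᴴ * (B - A) * UB = UAᴴ * UB * diagonal β - diagonal α * (UAᴴ * UB) := by
    rw [hA, hB, mul_sub, sub_mul]
    congr 1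
    · calc UAᴴ * (UB * diagonal β * UBᴴ) * UB = UAᴴ * UB * diagonal β * (UBᴴ * UB) := by
            simp only [Matrix.mul_assoc]
        _ = _ := by rw [hUB.1, Matrix.mul_one]
    · calc UAᴴ * (UA * diagonal α * UAᴴ) * UB = (UAᴴ * UA) * diagonal α * (UAᴴ * UB) := by
            simp only [Matrix.mul_assoc]
        _ = _ := by rw [hUA.1, Matrix.one_mul]
  have h2 : UAᴴ * (B - A) * UB = (UAᴴ * X) * (UBᴴ * Y)ᴴ := by
    rw [hD, Matrix.conjTranspose_mul, Matrix.conjTranspose_conjTranspose]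
    simp only [Matrix.mul_assoc]
  have h3 := congrFun (congrFun (h1.symm.trans h2) i) j
  have h4 : ((UAᴴ * X) * (UBᴴ * Y)ᴴ) i j = ∑ k, (UAᴴ * X) i k * star ((UBᴴ * Y) j k) := by
    rw [Matrix.mul_apply]
    rfl
  rw [Matrix.sub_apply, Matrix.mul_diagonal, Matrix.diagonal_mul, h4] at h3
  rw [← h3]
  ring

theorem entry' {n r : ℕ} {UA UB A B : Mat n} {α β : Fin n → ℂ}
    {X Y : Matrix (Fin n) (Fin r) ℂ} (hUA : IsU UA) (hUB : IsU UB)
    (hA : A = UA * diagonal α * UAᴴ) (hB : B = UB * diagonal β * UBᴴ) (hD : B - A = X * Yᴴ)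
    (i j : Fin n) : (UAᴴ * UB) i j * (star (β j) - star (α i)) =
      ∑ k, (UAᴴ * Y) i k * star ((UBᴴ * X) j k) := by
  refine entry (A := Aᴴ) (B := Bᴴ) (α := star α) (β := star β) hUA hUB ?_ ?_ ?_ i j
  · rw [hA]
    simp only [Matrix.conjTranspose_mul, Matrix.conjTranspose_conjTranspose,
      Matrix.diagonal_conjTranspose, Matrix.mul_assoc]
  · rw [hB]
    simp only [Matrix.conjTranspose_mul, Matrix.conjTranspose_conjTranspose,
      Matrix.diagonal_conjTranspose, Matrix.mul_assoc]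
  · rw [← Matrix.conjTranspose_sub, hD]
    simp only [Matrix.conjTranspose_mul, Matrix.conjTranspose_conjTranspose]

theorem cs {r : ℕ} (x y x' y' : Fin r → ℂ) :
    ‖∑ k, x k * star (y' k)‖ + ‖∑ k, y k * star (x' k)‖ ≤
      √(∑ k, (‖x k‖ ^ 2 + ‖y k‖ ^ 2)) * √(∑ k, (‖x' k‖ ^ 2 + ‖y' k‖ ^ 2)) := by
  have h1 : ‖∑ k, x k * star (y' k)‖ + ‖∑ k, y k * star (x' k)‖ ≤
      ∑ k : Fin r ⊕ Fin r, Sum.elim (fun k => ‖x k‖) (fun k => ‖y k‖) k *
        Sum.elim (fun k => ‖y' k‖) (fun k => ‖x' k‖) k := by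
    rw [Fintype.sum_sum_type]
    refine add_le_add ((norm_sum_le _ _).trans (le_of_eq ?_))
      ((norm_sum_le _ _).trans (le_of_eq ?_))
    · refine Finset.sum_congr rfl fun k _ => ?_
      rw [norm_mul, norm_star]; rfl
    · refine Finset.sum_congr rfl fun k _ => ?_
      rw [norm_mul, norm_star]; rfl
  refine h1.trans ((Real.sum_mul_le_sqrt_mul_sqrt _ _ _).trans (le_of_eq ?_))
  rw [Fintype.sum_sum_type, Fintype.sum_sum_type]
  simp only [Sum.elim_inl, Sum.elim_inr]
  rw [← Finset.sum_add_distrib, ← Finset.sum_add_distrib]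
  congr 2
  refine Finset.sum_congr rfl fun k _ => ?_
  ring

theorem scal {g a b : ℂ} {E : ℝ} (ha : a ≠ 0) (hb : b ≠ 0)
    (h : ‖g * (b - a)‖ + ‖g * (star b - star a)‖ ≤ E) :
    ‖g * (b / star b - a / star a)‖ ≤ E / max ‖a‖ ‖b‖ := by
  have ha' : 0 < ‖a‖ := norm_pos_iff.mpr ha
  have hb' : 0 < ‖b‖ := norm_pos_iff.mpr hb
  have hsa : star a ≠ 0 := by simpa using ha
  have hsb : star b ≠ 0 := by simpa using hb
  have e : g * (b / star b - a / star a) = g * (b * star a - a * star b) / (star a * star b) := by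
    field_simp
  have hE : 0 ≤ E := le_trans (by positivity) h
  have h1 : ‖g * (b * star a - a * star b)‖ ≤ ‖a‖ * E := by
    have : g * (b * star a - a * star b) = star a * (g * (b - a)) - a * (g * (star b - star a)) := by
      ring
    rw [this]
    calc ‖star a * (g * (b - a)) - a * (g * (star b - star a))‖
        ≤ ‖star a * (g * (b - a))‖ + ‖a * (g * (star b - star a))‖ := norm_sub_le _ _
      _ = ‖a‖ * (‖g * (b - a)‖ + ‖g * (star b - star a)‖) := by
          rw [norm_mul, norm_mul a, norm_star]; ring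
      _ ≤ _ := by gcongr
  have h2 : ‖g * (b * star a - a * star b)‖ ≤ ‖b‖ * E := by
    have : g * (b * star a - a * star b) = star b * (g * (b - a)) - b * (g * (star b - star a)) := by
      ring
    rw [this]
    calc ‖star b * (g * (b - a)) - b * (g * (star b - star a))‖
        ≤ ‖star b * (g * (b - a))‖ + ‖b * (g * (star b - star a))‖ := norm_sub_le _ _
      _ = ‖b‖ * (‖g * (b - a)‖ + ‖g * (star b - star a)‖) := by
          rw [norm_mul, norm_mul b, norm_star]; ring
      _ ≤ _ := by gcongr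
  rw [e, norm_div, norm_mul (star a), norm_star, norm_star]
  rcases le_total ‖a‖ ‖b‖ with hab | hab
  · rw [max_eq_right hab, div_le_div_iff₀ (by positivity) hb']
    calc ‖g * (b * star a - a * star b)‖ * ‖b‖ ≤ ‖a‖ * E * ‖b‖ := by gcongr
      _ = _ := by ring
  · rw [max_eq_left hab, div_le_div_iff₀ (by positivity) ha']
    calc ‖g * (b * star a - a * star b)‖ * ‖a‖ ≤ ‖b‖ * E * ‖a‖ := by gcongr
      _ = _ := by ring

/-- Unitary matrices preserve the sum of squares. -/
theorem norm_pres {n : ℕ} {U : Mat n} (hU : IsU U) (v : Fin n → ℂ) :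
    ∑ i, ‖(Uᴴ *ᵥ v) i‖ ^ 2 = ∑ i, ‖v i‖ ^ 2 := by
  have key : ∀ w : Fin n → ℂ, ((∑ i, ‖w i‖ ^ 2 : ℝ) : ℂ) = star w ⬝ᵥ w := by
    intro w
    rw [dotProduct]
    push_cast
    refine Finset.sum_congr rfl fun i _ => ?_
    rw [Pi.star_apply, ← Complex.conj_mul']
    rfl
  have h : ((∑ i, ‖(Uᴴ *ᵥ v) i‖ ^ 2 : ℝ) : ℂ) = ((∑ i, ‖v i‖ ^ 2 : ℝ) : ℂ) := by
    rw [key, key, Matrix.star_mulVec, Matrix.conjTranspose_conjTranspose,
      ← Matrix.dotProduct_mulVec, Matrix.mulVec_mulVec, hU.2, Matrix.one_mulVec]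
  exact_mod_cast h

theorem dd {n : ℕ} {U : Mat n} (hU : IsU U) (x y : Fin n → ℂ) :
    (U * diagonal x * Uᴴ) * (U * diagonal y * Uᴴ) = U * diagonal (x * y) * Uᴴ := by
  calc (U * diagonal x * Uᴴ) * (U * diagonal y * Uᴴ)
      = U * diagonal x * (Uᴴ * U) * diagonal y * Uᴴ := by simp only [Matrix.mul_assoc]
    _ = U * (diagonal x * diagonal y) * Uᴴ := by
        rw [hU.1, Matrix.mul_one]; simp only [Matrix.mul_assoc]
    _ = _ := by
        rw [Matrix.diagonal_mul_diagonal]; rfl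

theorem shift {n : ℕ} {U A : Mat n} (hU : IsU U) {α : Fin n → ℂ} (hA : A = U * diagonal α * Uᴴ)
    (z : ℂ) : A - z • (1 : Mat n) = U * diagonal (fun i => α i - z) * Uᴴ := by
  have h1 : (diagonal (fun i => α i - z) : Mat n) = diagonal α - z • (1 : Mat n) := by
    ext i j
    by_cases h : i = j
    · subst h; simp
    · simp [h]
  rw [h1, mul_sub, sub_mul, ← hA, Matrix.mul_smul, Matrix.smul_mul, Matrix.mul_one, hU.2]

theorem invd {n : ℕ} {U : Mat n} (hU : IsU U) {a : Fin n → ℂ} (ha : ∀ i, a i ≠ 0) :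
    (U * diagonal a * Uᴴ)⁻¹ = U * diagonal (fun i => (a i)⁻¹) * Uᴴ := by
  apply Matrix.inv_eq_right_inv
  rw [dd hU]
  have : (a * fun i => (a i)⁻¹) = (fun _ => 1 : Fin n → ℂ) := by
    funext i
    simp [ha i]
  rw [this]
  have h1 : (diagonal (fun _ => 1 : Fin n → ℂ) : Mat n) = 1 := Matrix.diagonal_one
  rw [h1, Matrix.mul_one, hU.2]

theorem herm {n : ℕ} (U : Mat n) (a : Fin n → ℂ) :
    (U * diagonal a * Uᴴ)ᴴ = U * diagonal (fun i => star (a i)) * Uᴴ := by
  simp only [Matrix.conjTranspose_mul, Matrix.conjTranspose_conjTranspose,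
    Matrix.diagonal_conjTranspose, Matrix.mul_assoc]
  rfl

theorem vz_eq {n : ℕ} {A B UA UB : Mat n} {α β : Fin n → ℂ} (hUA : IsU UA) (hUB : IsU UB)
    (hA : A = UA * diagonal α * UAᴴ) (hB : B = UB * diagonal β * UBᴴ) (z : ℂ)
    (hα : ∀ i, α i ≠ z) (hβ : ∀ j, β j ≠ z) :
    Vz A B z = UA * diagonal (fun i => star (α i - z) / (α i - z)) * UAᴴ *
      (UB * diagonal (fun j => (β j - z) / star (β j - z)) * UBᴴ) := by
  have ha : ∀ i, α i - z ≠ 0 := fun i => sub_ne_zero.mpr (hα i)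
  have hb : ∀ i, β i - z ≠ 0 := fun i => sub_ne_zero.mpr (hβ i)
  have hb' : ∀ i, star (β i - z) ≠ 0 := fun i => star_ne_zero.mpr (hb i)
  rw [Vz, shift hUA hA, shift hUB hB, herm, herm, invd hUA ha, invd hUB hb', dd hUA,
    Matrix.mul_assoc _ _ (UB * diagonal (fun i => (star (β i - z))⁻¹) * UBᴴ), dd hUB]
  rfl

end PAux

open PAux in
theorem stmt_P : Stmt_P := by
  intro n r A B UA UB α β X Y hUA hUB hA hB hD z hα hβ hdens μ v hv hV
  have ha : ∀ i, α i - z ≠ 0 := fun i => sub_ne_zero.mpr (hα i)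
  have hb : ∀ i, β i - z ≠ 0 := fun i => sub_ne_zero.mpr (hβ i)
  have hsa : ∀ i, star (α i - z) ≠ 0 := fun i => star_ne_zero.mpr (ha i)
  set p : Fin n → ℂ := UAᴴ *ᵥ v with hp
  set w : Fin n → ℂ := UBᴴ *ᵥ v with hw
  set G : Mat n := UAᴴ * UB with hG
  have hpw : p = G *ᵥ w := by
    rw [hp, hG, hw, Matrix.mulVec_mulVec, Matrix.mul_assoc, hUB.2, Matrix.mul_one]
  have h1 : (diagonal (fun i => star (α i - z) / (α i - z)) : Mat n) *ᵥ
      (G *ᵥ ((diagonal (fun j => (β j - z) / star (β j - z)) : Mat n) *ᵥ w)) = μ • p := by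
    have e1 : UAᴴ *ᵥ (Vz A B z *ᵥ v) = μ • p := by
      rw [hV, Matrix.mulVec_smul]
    rw [← e1, vz_eq hUA hUB hA hB z hα hβ, hG, hw]
    simp only [Matrix.mulVec_mulVec]
    congr 1
    calc diagonal (fun i => star (α i - z) / (α i - z)) * (UAᴴ * UB *
          ((diagonal (fun j => (β j - z) / star (β j - z)) : Mat n) * UBᴴ))
        = 1 * (diagonal (fun i => star (α i - z) / (α i - z)) * (UAᴴ * UB *
          ((diagonal (fun j => (β j - z) / star (β j - z)) : Mat n) * UBᴴ))) := by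
          rw [Matrix.one_mul]
      _ = _ := by
          rw [← hUA.1]
          simp only [Matrix.mul_assoc]
  set y : Fin n → ℂ := fun i => ∑ j, G i j *
    ((β j - z) / star (β j - z) - (α i - z) / star (α i - z)) * w j with hy
  have hyp : ∀ i, y i = (α i - z) / star (α i - z) * ((μ - 1) * p i) := by
    intro i
    have h2 := congrFun h1 i
    rw [Matrix.mulVec_diagonal, Matrix.mulVec, dotProduct] at h2
    have h3 : p i = ∑ j, G i j * w j := by
      rw [hpw, Matrix.mulVec, dotProduct]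
    have h4 : y i = ∑ j, G i j * ((diagonal (fun j => (β j - z) / star (β j - z)) : Mat n) *ᵥ w) j -
        (α i - z) / star (α i - z) * ∑ j, G i j * w j := by
      rw [hy, Finset.mul_sum, ← Finset.sum_sub_distrib]
      refine Finset.sum_congr rfl fun j _ => ?_
      rw [Matrix.mulVec_diagonal]
      ring
    rw [Pi.smul_apply, smul_eq_mul] at h2
    rw [h4, ← h3]
    have h5 : ∑ j, G i j * ((diagonal (fun j => (β j - z) / star (β j - z)) : Mat n) *ᵥ w) j =
        (α i - z) / star (α i - z) * (μ * p i) := by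
      rw [← h2]
      have := ha i
      have := hsa i
      field_simp
    rw [h5]
    ring
  have hyn : ∀ i, ‖y i‖ = ‖μ - 1‖ * ‖p i‖ := by
    intro i
    rw [hyp, norm_mul, norm_div, norm_star, div_self (norm_ne_zero_iff.mpr (ha i)), one_mul,
      norm_mul]
  set S := ∑ i, ‖v i‖ ^ 2 with hS
  have hS0 : 0 < S := by
    obtain ⟨i, hi⟩ := Function.ne_iff.mp hv
    have : 0 < ‖v i‖ ^ 2 := by
      have := norm_pos_iff.mpr hi
      positivity
    exact lt_of_lt_of_le this (Finset.single_le_sum (f := fun i => ‖v i‖ ^ 2)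
      (fun i _ => sq_nonneg _) (Finset.mem_univ i))
  have hSp : ∑ i, ‖p i‖ ^ 2 = S := norm_pres hUA v
  have hSw : ∑ i, ‖w i‖ ^ 2 = S := norm_pres hUB v
  have hSy : ∑ i, ‖y i‖ ^ 2 = ‖μ - 1‖ ^ 2 * S := by
    rw [← hSp, Finset.mul_sum]
    refine Finset.sum_congr rfl fun i _ => ?_
    rw [hyn]; ring
  have hker := kernel (fun i => ‖α i - z‖) (fun j => ‖β j - z‖) (fun i => wt UA X Y i)
    (fun j => wt UB X Y j) (fun i => ‖y i‖) (fun j => ‖w j‖)
    (fun i => norm_pos_iff.mpr (ha i)) (fun j => norm_pos_iff.mpr (hb j))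
    (fun i => Finset.sum_nonneg fun k _ => by positivity)
    (fun j => Finset.sum_nonneg fun k _ => by positivity)
    (fun i => norm_nonneg _) (fun j => norm_nonneg _) hdens
  have hle : ∑ i, ‖y i‖ ^ 2 ≤ ∑ i, ∑ j, √(wt UA X Y i) * √(wt UB X Y j) /
      max ‖α i - z‖ ‖β j - z‖ * (‖y i‖ * ‖w j‖) := by
    refine Finset.sum_le_sum fun i _ => ?_
    have h2 : ‖y i‖ ≤ ∑ j, √(wt UA X Y i) * √(wt UB X Y j) /
        max ‖α i - z‖ ‖β j - z‖ * ‖w j‖ := by
      rw [hy]
      refine (norm_sum_le _ _).trans (Finset.sum_le_sum fun j _ => ?_)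
      rw [norm_mul]
      refine mul_le_mul_of_nonneg_right ?_ (norm_nonneg _)
      apply scal (ha i) (hb j)
      have e1 : (β j - z) - (α i - z) = β j - α i := by ring
      have e2 : star (β j - z) - star (α i - z) = star (β j) - star (α i) := by
        rw [star_sub, star_sub]; ring
      rw [e1, e2, hG, entry hUA hUB hA hB hD, entry' hUA hUB hA hB hD]
      refine (cs _ _ _ _).trans (le_of_eq ?_)
      rw [wt, wt]
    calc ‖y i‖ ^ 2 = ‖y i‖ * ‖y i‖ := by ring
      _ ≤ ‖y i‖ * ∑ j, √(wt UA X Y i) * √(wt UB X Y j) /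
        max ‖α i - z‖ ‖β j - z‖ * ‖w j‖ := by gcongr
      _ = _ := by
        rw [Finset.mul_sum]
        refine Finset.sum_congr rfl fun j _ => ?_
        ring
  have h2 := hle.trans hker
  rw [hSy, hSw] at h2
  have h3 : ‖μ - 1‖ ^ 2 ≤ 1 / 19 := by
    have h4 : (19 * ‖μ - 1‖ ^ 2 - 1) * S ≤ 0 := by linarith
    have h5 : 19 * ‖μ - 1‖ ^ 2 - 1 ≤ 0 := by
      by_contra hne
      push Not at hne
      have := mul_pos hne hS0
      linarith
    linarith
  have h6 := norm_nonneg (μ - 1)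
  nlinarith

end Pool.FR
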