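import Pool.Agent.Work.FiniteRankNormal.Interface

open Matrix MeasureTheory Filter Topology
open scoped ComplexOrder NNReal

namespace Pool.FR
namespace RAux

/-- Riesz representation of a positive functional on a compact space -/
theorem riesz {K : Type} [TopologicalSpace K] [CompactSpace K] [T2Space K] [MeasurableSpace K]
    [BorelSpace K] (Λ : C(K, ℝ) →ₗ[ℝ] ℝ) (hpos : ∀ h : C(K, ℝ), (∀ x, 0 ≤ h x) → 0 ≤ Λ h) :
    ∃ μ : Measure K, IsFiniteMeasure μ ∧ ∀ h : C(K, ℝ), ∫ x, h x ∂μ = Λ h := by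
  let Λ' : CompactlySupportedContinuousMap K ℝ →ₚ[ℝ] ℝ :=
  { toFun g := Λ g.toContinuousMap
    map_add' g g' := by
      rw [← map_add]
      rfl
    map_smul' c g := by
      rw [RingHom.id_apply, ← map_smul]
      rfl
    monotone' g g' hgg' := by
      have h1 : 0 ≤ Λ (g'.toContinuousMap - g.toContinuousMap) :=
        hpos _ fun x => by
          have := hgg' x
          simpa using this
      rw [map_sub] at h1
      linarith }
  refine ⟨RealRMK.rieszMeasure Λ', inferInstance, fun h => ?_⟩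
  let h' : CompactlySupportedContinuousMap K ℝ :=
  { toFun := h
    hasCompactSupport' := HasCompactSupport.of_compactSpace _ }
  exact RealRMK.integral_rieszMeasure Λ' h'

/-- the positive cone -/
def pcone (K : Type) [TopologicalSpace K] : PointedCone ℝ (Fin 4 → C(K, ℝ)) where
  carrier := {h | ∀ i x, 0 ≤ h i x}
  add_mem' := fun {a b} ha hb i x => add_nonneg (ha i x) (hb i x)
  zero_mem' := fun i x => le_refl _
  smul_mem' := fun c h hh i x => by
    change 0 ≤ (c : ℝ) * h i x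
    exact mul_nonneg c.2 (hh i x)

theorem mem_pcone {K : Type} [TopologicalSpace K] {h : Fin 4 → C(K, ℝ)} :
    h ∈ pcone K ↔ ∀ i x, 0 ≤ h i x := Iff.rfl

/-- four positive functionals -/
theorem four {K : Type} [TopologicalSpace K] [CompactSpace K] [Nonempty K]
    {V : Type} [AddCommGroup V] [Module ℝ V] (A B : V →ₗ[ℝ] C(K, ℝ)) (τ : V →ₗ[ℝ] ℝ) (M : ℝ)
    (hM : 0 ≤ M) (h : ∀ v, |τ v| ≤ M * (‖A v‖ + ‖B v‖)) :
    ∃ Λ : Fin 4 → (C(K, ℝ) →ₗ[ℝ] ℝ), (∀ i (h : C(K, ℝ)), (∀ x, 0 ≤ h x) → 0 ≤ Λ i h) ∧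
      (∀ i, Λ i 1 ≤ M) ∧
      ∀ v, τ v = Λ 0 (A v) - Λ 1 (A v) + Λ 2 (B v) - Λ 3 (B v) := by
  classical
  let one : ℝ →ₗ[ℝ] C(K, ℝ) := LinearMap.toSpanSingleton ℝ C(K, ℝ) 1
  have hone : ∀ (c : ℝ) (x : K), one c x = c := fun c x => by
    simp [one, LinearMap.toSpanSingleton_apply]
  let fV : (V × ℝ × ℝ) →ₗ[ℝ] V := LinearMap.fst ℝ V (ℝ × ℝ)
  let fc : (V × ℝ × ℝ) →ₗ[ℝ] ℝ := LinearMap.fst ℝ ℝ ℝ ∘ₗ LinearMap.snd ℝ V (ℝ × ℝ)
  let fd : (V × ℝ × ℝ) →ₗ[ℝ] ℝ := LinearMap.snd ℝ ℝ ℝ ∘ₗ LinearMap.snd ℝ V (ℝ × ℝ)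
  let L : (V × ℝ × ℝ) →ₗ[ℝ] (Fin 4 → C(K, ℝ)) := LinearMap.pi
    ![A ∘ₗ fV + one ∘ₗ fc, -(A ∘ₗ fV) + one ∘ₗ fc, B ∘ₗ fV + one ∘ₗ fd, -(B ∘ₗ fV) + one ∘ₗ fd]
  let T : (V × ℝ × ℝ) →ₗ[ℝ] ℝ := τ ∘ₗ fV + M • fc + M • fd
  have hL0 : ∀ u x, L u 0 x = A u.1 x + u.2.1 := fun u x => by
    simp [L, fV, fc, hone]
  have hL1 : ∀ u x, L u 1 x = -A u.1 x + u.2.1 := fun u x => by
    simp [L, fV, fc, hone]
  have hL2 : ∀ u x, L u 2 x = B u.1 x + u.2.2 := fun u x => by
    simp [L, fV, fd, hone]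
  have hL3 : ∀ u x, L u 3 x = -B u.1 x + u.2.2 := fun u x => by
    simp [L, fV, fd, hone]
  have hT : ∀ u, T u = τ u.1 + M * u.2.1 + M * u.2.2 := fun u => by
    simp [T, fV, fc, fd]
  have hpos : ∀ u, L u ∈ pcone K → 0 ≤ T u := by
    intro u hu
    rw [mem_pcone] at hu
    obtain ⟨x₀⟩ := ‹Nonempty K›
    have hc0 : 0 ≤ u.2.1 := by
      have h1 := hu 0 x₀
      have h2 := hu 1 x₀
      rw [hL0] at h1
      rw [hL1] at h2
      linarith
    have hd0 : 0 ≤ u.2.2 := by
      have h1 := hu 2 x₀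
      have h2 := hu 3 x₀
      rw [hL2] at h1
      rw [hL3] at h2
      linarith
    have hA : ‖A u.1‖ ≤ u.2.1 := by
      rw [ContinuousMap.norm_le _ hc0]
      intro x
      have h1 := hu 0 x
      have h2 := hu 1 x
      rw [hL0] at h1
      rw [hL1] at h2
      rw [Real.norm_eq_abs, abs_le]
      constructor <;> linarith
    have hB : ‖B u.1‖ ≤ u.2.2 := by
      rw [ContinuousMap.norm_le _ hd0]
      intro x
      have h1 := hu 2 x
      have h2 := hu 3 x
      rw [hL2] at h1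
      rw [hL3] at h2
      rw [Real.norm_eq_abs, abs_le]
      constructor <;> linarith
    have h1 := (abs_le.1 (h u.1)).1
    have h2 := mul_le_mul_of_nonneg_left (add_le_add hA hB) hM
    rw [hT]
    linarith
  have hker : LinearMap.ker L ≤ LinearMap.ker T := by
    intro u hu
    rw [LinearMap.mem_ker] at hu ⊢
    have h1 : 0 ≤ T u := hpos u (by rw [hu]; exact (pcone K).zero_mem)
    have h2 : 0 ≤ T (-u) := hpos (-u) (by rw [map_neg, hu, neg_zero]; exact (pcone K).zero_mem)
    rw [map_neg] at h2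
    linarith
  obtain ⟨F, hF⟩ : T ∈ LinearMap.range L.dualMap := by
    rw [LinearMap.range_dualMap_eq_dualAnnihilator_ker]
    rw [Submodule.mem_dualAnnihilator]
    exact fun u hu => hker hu
  have hF' : ∀ u, F (L u) = T u := fun u => by rw [← hF]; rfl
  let f : (Fin 4 → C(K, ℝ)) →ₗ.[ℝ] ℝ := ⟨LinearMap.range L, F.domRestrict (LinearMap.range L)⟩
  obtain ⟨g, hg1, hg2⟩ := riesz_extension (pcone K) f (by
    rintro ⟨_, u, rfl⟩ hu
    change 0 ≤ F (L u)
    rw [hF']
    exact hpos u hu) (by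
    intro y
    refine ⟨⟨L (0, ∑ i, ‖y i‖, ∑ i, ‖y i‖), ⟨_, rfl⟩⟩, ?_⟩
    rw [mem_pcone]
    intro i x
    have h1 : -(∑ i, ‖y i‖) ≤ y i x := by
      have h2 := (abs_le.1 ((Real.norm_eq_abs _).symm.le.trans ((y i).norm_coe_le_norm x))).1
      have h3 := Finset.single_le_sum (f := fun i => ‖y i‖) (s := Finset.univ)
        (fun i _ => norm_nonneg _) (Finset.mem_univ i)
      linarith
    change 0 ≤ L (0, ∑ i, ‖y i‖, ∑ i, ‖y i‖) i x + y i x
    fin_cases i
    · have := hL0 (0, ∑ i, ‖y i‖, ∑ i, ‖y i‖) x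
      simp only [map_zero, ContinuousMap.zero_apply] at this
      change 0 ≤ L (0, ∑ i, ‖y i‖, ∑ i, ‖y i‖) 0 x + _
      rw [this]; linarith [h1]
    · have := hL1 (0, ∑ i, ‖y i‖, ∑ i, ‖y i‖) x
      simp only [map_zero, ContinuousMap.zero_apply] at this
      change 0 ≤ L (0, ∑ i, ‖y i‖, ∑ i, ‖y i‖) 1 x + _
      rw [this]; linarith [h1]
    · have := hL2 (0, ∑ i, ‖y i‖, ∑ i, ‖y i‖) x
      simp only [map_zero, ContinuousMap.zero_apply] at this
      change 0 ≤ L (0, ∑ i, ‖y i‖, ∑ i, ‖y i‖) 2 x + _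
      rw [this]; linarith [h1]
    · have := hL3 (0, ∑ i, ‖y i‖, ∑ i, ‖y i‖) x
      simp only [map_zero, ContinuousMap.zero_apply] at this
      change 0 ≤ L (0, ∑ i, ‖y i‖, ∑ i, ‖y i‖) 3 x + _
      rw [this]; linarith [h1])
  have hgL : ∀ u, g (L u) = T u := fun u => by
    rw [← hF' u]
    exact hg1 ⟨L u, ⟨u, rfl⟩⟩
  have hsum : ∀ y : Fin 4 → C(K, ℝ), g y = ∑ i, g (Pi.single i (y i)) := fun y => by
    rw [← map_sum, Finset.univ_sum_single]
  have hpos' : ∀ i (h : C(K, ℝ)), (∀ x, 0 ≤ h x) → 0 ≤ g (Pi.single i h) := by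
    intro i h hh
    refine hg2 _ (mem_pcone.2 fun j x => ?_)
    by_cases hij : j = i
    · subst hij
      rw [Pi.single_eq_same]; exact hh x
    · rw [Pi.single_eq_of_ne hij]; exact le_refl _
  refine ⟨fun i => g ∘ₗ LinearMap.single ℝ (fun _ => C(K, ℝ)) i, fun i h hh => hpos' i h hh,
    ?_, ?_⟩
  · have h1 : g (Pi.single 0 1) + g (Pi.single 1 1) = M := by
      have h2 := hgL (0, 1, 0)
      rw [hT, hsum, Fin.sum_univ_four] at h2
      have e0 : L (0, 1, 0) 0 = 1 := by ext x; rw [hL0]; simp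
      have e1 : L (0, 1, 0) 1 = 1 := by ext x; rw [hL1]; simp
      have e2 : L (0, 1, 0) 2 = 0 := by ext x; rw [hL2]; simp
      have e3 : L (0, 1, 0) 3 = 0 := by ext x; rw [hL3]; simp
      rw [e0, e1, e2, e3] at h2
      simp only [Pi.single_zero, map_zero, add_zero, zero_add, mul_one, mul_zero] at h2
      exact h2
    have h1' : g (Pi.single 2 1) + g (Pi.single 3 1) = M := by
      have h2 := hgL (0, 0, 1)
      rw [hT, hsum, Fin.sum_univ_four] at h2
      have e0 : L (0, 0, 1) 0 = 0 := by ext x; rw [hL0]; simp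
      have e1 : L (0, 0, 1) 1 = 0 := by ext x; rw [hL1]; simp
      have e2 : L (0, 0, 1) 2 = 1 := by ext x; rw [hL2]; simp
      have e3 : L (0, 0, 1) 3 = 1 := by ext x; rw [hL3]; simp
      rw [e0, e1, e2, e3] at h2
      simp only [Pi.single_zero, map_zero, add_zero, zero_add, mul_one, mul_zero] at h2
      exact h2
    have hp : ∀ i, 0 ≤ g (Pi.single i 1) := fun i => hpos' i 1 fun x => zero_le_one
    intro i
    change g (Pi.single i 1) ≤ M
    fin_cases i
    · exact (by linarith [hp 1] : g (Pi.single 0 1) ≤ M)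
    · exact (by linarith [hp 0] : g (Pi.single 1 1) ≤ M)
    · exact (by linarith [hp 3] : g (Pi.single 2 1) ≤ M)
    · exact (by linarith [hp 2] : g (Pi.single 3 1) ≤ M)
  · intro v
    have h2 := hgL (v, 0, 0)
    rw [hT, hsum, Fin.sum_univ_four] at h2
    have e0 : L (v, 0, 0) 0 = A v := by ext x; rw [hL0]; simp
    have e1 : L (v, 0, 0) 1 = -A v := by ext x; rw [hL1]; simp
    have e2 : L (v, 0, 0) 2 = B v := by ext x; rw [hL2]; simp
    have e3 : L (v, 0, 0) 3 = -B v := by ext x; rw [hL3]; simp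
    rw [e0, e1, e2, e3, Pi.single_neg, Pi.single_neg, map_neg, map_neg] at h2
    simp only [mul_zero, add_zero] at h2
    rw [← h2]
    change _ = g (Pi.single 0 (A v)) - g (Pi.single 1 (A v)) + g (Pi.single 2 (B v)) -
      g (Pi.single 3 (B v))
    ring

/-- the point `(re z, im z)` -/
def pt (z : ℂ) : Fin 2 → ℝ := ![z.re, z.im]

theorem continuous_pt : Continuous pt := by
  unfold pt
  refine continuous_pi fun i => ?_
  fin_cases i
  · exact Complex.continuous_re
  · exact Complex.continuous_im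

theorem hasFDerivAt_eval (p : MvPolynomial (Fin 2) ℝ) (z : ℂ) :
    HasFDerivAt (fun z : ℂ => MvPolynomial.eval (pt z) p)
      (MvPolynomial.eval (pt z) (MvPolynomial.pderiv 0 p) • Complex.reCLM +
        MvPolynomial.eval (pt z) (MvPolynomial.pderiv 1 p) • Complex.imCLM) z := by
  induction p using MvPolynomial.induction_on with
  | C a =>
    have e : (fun z : ℂ => MvPolynomial.eval (pt z) (MvPolynomial.C a)) = fun _ => a := by
      funext z
      rw [MvPolynomial.eval_C]
    rw [e, MvPolynomial.pderiv_C, MvPolynomial.pderiv_C, map_zero, zero_smul, zero_smul, add_zero]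
    exact hasFDerivAt_const a z
  | add p q hp hq =>
    have e : (fun z : ℂ => MvPolynomial.eval (pt z) (p + q)) =
        fun z => MvPolynomial.eval (pt z) p + MvPolynomial.eval (pt z) q := by
      funext z
      rw [map_add]
    rw [e]
    refine (hp.add hq).congr_fderiv ?_
    rw [map_add, map_add, map_add, map_add]
    simp only [add_smul]
    abel
  | mul_X p i hp =>
    have hX : HasFDerivAt (fun z : ℂ => pt z i)
        ((if i = 0 then (1 : ℝ) else 0) • Complex.reCLM + (if i = 1 then (1 : ℝ) else 0) • Complex.imCLM)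
        z := by
      fin_cases i
      · have h := Complex.reCLM.hasFDerivAt (x := z)
        simp only [Fin.zero_eta, Fin.isValue, ↓reduceIte, one_smul, zero_ne_one, zero_smul, add_zero]
        exact h
      · have h := Complex.imCLM.hasFDerivAt (x := z)
        simp only [Fin.mk_one, Fin.isValue, ↓reduceIte, one_smul, one_ne_zero, zero_smul, zero_add]
        exact h
    have e : (fun z : ℂ => MvPolynomial.eval (pt z) (p * MvPolynomial.X i)) =
        fun z => MvPolynomial.eval (pt z) p * pt z i := by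
      funext z
      rw [map_mul, MvPolynomial.eval_X]
    rw [e]
    have h1 := hp.mul hX
    refine h1.congr_fderiv ?_
    have e1 : ∀ j, MvPolynomial.eval (pt z) (MvPolynomial.pderiv j (p * MvPolynomial.X i)) =
        MvPolynomial.eval (pt z) (MvPolynomial.pderiv j p) * pt z i +
          MvPolynomial.eval (pt z) p * (if i = j then 1 else 0) := by
      intro j
      rw [MvPolynomial.pderiv_mul, map_add, map_mul, map_mul, MvPolynomial.eval_X,
        MvPolynomial.pderiv_X]
      congr 2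
      by_cases hij : i = j
      · subst hij
        simp
      · rw [if_neg hij, Pi.single_eq_of_ne hij, map_zero]
    rw [e1, e1]
    ext v
    simp only [_root_.add_apply, _root_.smul_apply, smul_eq_mul]
    ring

theorem lip (p : MvPolynomial (Fin 2) ℝ) (S : Set ℂ) (hS : Convex ℝ S) (K : ℝ≥0)
    (h : ∀ z ∈ S, |MvPolynomial.eval (pt z) (MvPolynomial.pderiv 0 p)| +
      |MvPolynomial.eval (pt z) (MvPolynomial.pderiv 1 p)| ≤ K) :
    LipschitzOnWith K (fun z : ℂ => MvPolynomial.eval (pt z) p) S := by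
  refine hS.lipschitzOnWith_of_nnnorm_hasFDerivWithin_le
    (fun z _ => (hasFDerivAt_eval p z).hasFDerivWithinAt) fun z hz => ?_
  rw [← NNReal.coe_le_coe, coe_nnnorm]
  refine le_trans ?_ (h z hz)
  refine ContinuousLinearMap.opNorm_le_bound _ (by positivity) fun v => ?_
  simp only [_root_.add_apply, _root_.smul_apply, smul_eq_mul, Complex.reCLM_apply,
    Complex.imCLM_apply, Real.norm_eq_abs]
  refine (abs_add_le _ _).trans ?_
  rw [abs_mul, abs_mul, add_mul]
  exact add_le_add (mul_le_mul_of_nonneg_left (Complex.abs_re_le_norm v) (abs_nonneg _))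
    (mul_le_mul_of_nonneg_left (Complex.abs_im_le_norm v) (abs_nonneg _))

end RAux

open RAux in
theorem stmt_R : Stmt_R := by
  classical
  intro R M t hR hM h
  -- the compact space
  have hKc : IsCompact (Metric.closedBall (0 : ℂ) R) := isCompact_closedBall 0 R
  have : CompactSpace (Metric.closedBall (0 : ℂ) R) := isCompact_iff_compactSpace.1 hKc
  have : Nonempty (Metric.closedBall (0 : ℂ) R) := ⟨⟨0, Metric.mem_closedBall_self hR⟩⟩
  let ev : MvPolynomial (Fin 2) ℝ →ₗ[ℝ] C(Metric.closedBall (0 : ℂ) R, ℝ) :=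
  { toFun p := ⟨fun z => MvPolynomial.eval (pt z) p,
      (MvPolynomial.continuous_eval p).comp (continuous_pt.comp continuous_subtype_val)⟩
    map_add' p q := by
      ext z
      simp
    map_smul' c p := by
      ext z
      simp }
  have hev : ∀ p z, ev p z = MvPolynomial.eval (pt z) p := fun p z => rfl
  let τ : MvPolynomial (Fin 2) ℝ →ₗ[ℝ] ℝ :=
    (MvPolynomial.basisMonomials (Fin 2) ℝ).constr ℝ (fun m => t (m 0) (m 1))
  have hτm : ∀ m : Fin 2 →₀ ℕ, τ (MvPolynomial.monomial m 1) = t (m 0) (m 1) := by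
    intro m
    have h1 := (MvPolynomial.basisMonomials (Fin 2) ℝ).constr_basis ℝ
      (fun m => t (m 0) (m 1)) m
    rw [MvPolynomial.coe_basisMonomials] at h1
    exact h1
  have hτ : ∀ p : MvPolynomial (Fin 2) ℝ, τ p = ∑ m ∈ p.support, p.coeff m * t (m 0) (m 1) := by
    intro p
    conv_lhs => rw [p.as_sum]
    rw [map_sum]
    refine Finset.sum_congr rfl fun m _ => ?_
    have h1 : MvPolynomial.monomial m (p.coeff m) = p.coeff m • MvPolynomial.monomial m (1 : ℝ) := by
      rw [MvPolynomial.smul_monomial, smul_eq_mul, mul_one]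
    rw [h1, map_smul, hτm, smul_eq_mul]
  have hbound : ∀ p, |τ p| ≤ M * (‖(ev ∘ₗ (MvPolynomial.pderiv 0).toLinearMap) p‖ +
      ‖(ev ∘ₗ (MvPolynomial.pderiv 1).toLinearMap) p‖) := by
    intro p
    rw [hτ]
    have h1 := h p ⟨‖(ev ∘ₗ (MvPolynomial.pderiv 0).toLinearMap) p‖ +
      ‖(ev ∘ₗ (MvPolynomial.pderiv 1).toLinearMap) p‖, by positivity⟩
      (lip p _ (convex_closedBall 0 R) _ fun z hz => by
        refine add_le_add ?_ ?_
        · have := ((ev ∘ₗ (MvPolynomial.pderiv 0).toLinearMap) p).norm_coe_le_norm ⟨z, hz⟩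
          rw [Real.norm_eq_abs] at this
          exact this
        · have := ((ev ∘ₗ (MvPolynomial.pderiv 1).toLinearMap) p).norm_coe_le_norm ⟨z, hz⟩
          rw [Real.norm_eq_abs] at this
          exact this)
    exact h1
  obtain ⟨Λ, hΛ1, hΛ2, hΛ3⟩ := four (ev ∘ₗ (MvPolynomial.pderiv 0).toLinearMap)
    (ev ∘ₗ (MvPolynomial.pderiv 1).toLinearMap) τ M hM hbound
  choose ν hν1 hν2 using fun i => riesz (Λ i) (hΛ1 i)
  have hint : ∀ (i : Fin 4) (f : ℂ → ℝ) (hf : Continuous f),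
      ∫ z, f z ∂((ν i).map Subtype.val) = Λ i ⟨fun z => f z, hf.comp continuous_subtype_val⟩ := by
    intro i f hf
    rw [integral_map (by fun_prop) hf.aestronglyMeasurable]
    exact hν2 i ⟨fun z => f z, hf.comp continuous_subtype_val⟩
  refine ⟨fun i => (ν i).map Subtype.val, fun i => ?_, fun i => ?_, fun i => ?_, ?_⟩
  · have := hν1 i
    exact inferInstance
  · rw [Measure.map_apply (by fun_prop) hKc.measurableSet.compl]
    simp
  · have := hν1 i
    have h1 := hν2 i 1
    simp only [ContinuousMap.one_apply, integral_const, smul_eq_mul, mul_one] at h1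
    rw [Measure.map_apply (by fun_prop) MeasurableSet.univ, Set.preimage_univ]
    rw [Measure.real] at h1
    rw [h1]
    exact hΛ2 i
  · intro k k'
    let m : Fin 2 →₀ ℕ := Finsupp.single 0 k + Finsupp.single 1 k'
    have hm0 : m 0 = k := by simp [m]
    have hm1 : m 1 = k' := by simp [m]
    have h1 := hΛ3 (MvPolynomial.monomial m 1)
    rw [hτm, hm0, hm1] at h1
    rw [h1]
    have hA : ∀ (i : Fin 4), Λ i ((ev ∘ₗ (MvPolynomial.pderiv 0).toLinearMap)
        (MvPolynomial.monomial m 1)) =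
        ∫ z : ℂ, (k : ℝ) * z.re ^ (k - 1) * z.im ^ k' ∂((ν i).map Subtype.val) := by
      intro i
      rw [hint i (fun z : ℂ => (k : ℝ) * z.re ^ (k - 1) * z.im ^ k') (by fun_prop)]
      congr 1
      ext z
      change MvPolynomial.eval (pt z) (MvPolynomial.pderiv 0 (MvPolynomial.monomial m 1)) = _
      rw [MvPolynomial.pderiv_monomial, MvPolynomial.eval_monomial, hm0, one_mul,
        Finsupp.prod_fintype _ _ (fun i => pow_zero _), Fin.prod_univ_two]
      simp [m, pt]
      ring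
    have hB : ∀ (i : Fin 4), Λ i ((ev ∘ₗ (MvPolynomial.pderiv 1).toLinearMap)
        (MvPolynomial.monomial m 1)) =
        ∫ z : ℂ, (k' : ℝ) * z.re ^ k * z.im ^ (k' - 1) ∂((ν i).map Subtype.val) := by
      intro i
      rw [hint i (fun z : ℂ => (k' : ℝ) * z.re ^ k * z.im ^ (k' - 1)) (by fun_prop)]
      congr 1
      ext z
      change MvPolynomial.eval (pt z) (MvPolynomial.pderiv 1 (MvPolynomial.monomial m 1)) = _
      rw [MvPolynomial.pderiv_monomial, MvPolynomial.eval_monomial, hm1, one_mul,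
        Finsupp.prod_fintype _ _ (fun i => pow_zero _), Fin.prod_univ_two]
      simp [m, pt]
      ring
    rw [hA, hA, hB, hB]

end Pool.FR
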