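import Pool.Agent.Work.FiniteRankNormal.Interface

/-!
# Block T (helper75): exact finite models for moments.
-/

open Matrix
open scoped ComplexOrder

namespace Pool.FR.T_

/-- Caratheodory -/
theorem hull_eq {E : Type*} [NormedAddCommGroup E] [NormedSpace ℝ E]
    [FiniteDimensional ℝ E] (s : Set E) :
    convexHull ℝ s = ⋃ n ∈ Finset.range (Module.finrank ℝ E + 2),
      (fun p : (Fin n → ℝ) × (Fin n → E) => ∑ i, p.1 i • p.2 i) ''
        (stdSimplex ℝ (Fin n) ×ˢ Set.pi Set.univ fun _ => s) := by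
    apply Set.Subset.antisymm
    · intro x hx
      rw [convexHull_eq_union] at hx
      simp only [Set.mem_iUnion] at hx
      obtain ⟨t, hts, hai, hx⟩ := hx
      rw [Finset.mem_convexHull] at hx
      obtain ⟨w, hw0, hw1, hx⟩ := hx
      rw [Finset.centerMass_eq_of_sum_1 _ _ hw1] at hx
      have hcard := hai.card_le_finrank_succ
      rw [Fintype.card_coe] at hcard
      have hfr : Module.finrank ℝ (vectorSpan ℝ (Set.range ((↑) : t → E))) ≤ Module.finrank ℝ E :=
        Submodule.finrank_le _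
      simp only [Set.mem_iUnion]
      refine ⟨t.card, Finset.mem_range.2 (by omega), ?_⟩
      set e := t.equivFin with he
      refine ⟨(fun i => w (e.symm i : E), fun i => (e.symm i : E)), ⟨⟨?_, ?_⟩, ?_⟩, ?_⟩
      · exact fun i => hw0 _ (e.symm i).2
      · have h1 : ∑ i, w (e.symm i : E) = ∑ y : t, w (y : E) := Equiv.sum_comp e.symm fun y => w (y : E)
        simp only
        rw [h1, Finset.sum_coe_sort t w]
        exact hw1
      · intro i _
        exact hts (e.symm i).2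
      · have h1 : ∑ i, w (e.symm i : E) • (e.symm i : E) = ∑ y : t, w (y : E) • (y : E) :=
          Equiv.sum_comp e.symm fun y => w (y : E) • (y : E)
        simp only
        rw [h1, Finset.sum_coe_sort t (fun y => w y • y)]
        exact hx
    · intro x hx
      simp only [Set.mem_iUnion] at hx
      obtain ⟨n, -, ⟨w, z⟩, ⟨⟨hw0, hw1⟩, hz⟩, rfl⟩ := hx
      exact (convex_convexHull ℝ s).sum_mem (fun i _ => hw0 i) hw1
        fun i _ => subset_convexHull ℝ s (hz i (Set.mem_univ i))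

/-- convex hulls of compact sets in finite dimensional spaces are compact -/
theorem compact_convexHull {E : Type*} [NormedAddCommGroup E] [NormedSpace ℝ E]
    [FiniteDimensional ℝ E] {s : Set E} (hs : IsCompact s) : IsCompact (convexHull ℝ s) := by
  rw [hull_eq]
  apply Finset.isCompact_biUnion
  intro n _
  apply IsCompact.image
  · exact (isCompact_stdSimplex ℝ (Fin n)).prod (isCompact_univ_pi fun _ => hs)
  · fun_prop

/-- finite partitions of unity -/
theorem part {σ : Set ℂ} (hσ : IsCompact σ) (U : ℂ → Set ℂ) (hU : ∀ z ∈ σ, IsOpen (U z) ∧ z ∈ U z) :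
    ∃ (n : ℕ) (c : Fin n → ℂ) (φ : Fin n → ℂ → ℝ), (∀ i, c i ∈ σ) ∧ (∀ i, Continuous (φ i)) ∧
      (∀ i z, 0 ≤ φ i z) ∧ (∀ z ∈ σ, ∑ i, φ i z = 1) ∧ ∀ i z, φ i z ≠ 0 → z ∈ U (c i) := by
  obtain ⟨t, ht, hcov⟩ := hσ.elim_nhds_subcover U fun z hz => (hU z hz).1.mem_nhds (hU z hz).2
  set e := t.equivFin with he
  obtain ⟨f, hf⟩ := PartitionOfUnity.exists_isSubordinate (X := ℂ) (s := σ) hσ.isClosed
    (fun i : Fin t.card => U (e.symm i)) (fun i => (hU _ (ht _ (e.symm i).2)).1) (by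
      intro z hz
      obtain ⟨y, hy, hzy⟩ := Set.mem_iUnion₂.1 (hcov hz)
      refine Set.mem_iUnion.2 ⟨e ⟨y, hy⟩, ?_⟩
      simpa using hzy)
  refine ⟨t.card, fun i => (e.symm i : ℂ), fun i z => f i z, fun i => ht _ (e.symm i).2,
    fun i => (f i).continuous, fun i z => f.nonneg i z, fun z hz => ?_, fun i z hz => ?_⟩
  · have := f.sum_eq_one hz
    rwa [finsum_eq_sum_of_fintype] at this
  · exact hf i (subset_tsupport _ hz)

open scoped MatrixOrder in
theorem psd_factor {d : ℕ} (hd : 0 < d) {W : Mat d} (hW : W.PosSemidef) :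
    ∃ B : Fin d → Fin d → ℂ, ∑ q, ∑ i, ‖B q i‖ ^ 2 = 1 ∧ 0 ≤ W.trace.re ∧
      ∀ i j, W i j = (W.trace.re : ℂ) * ∑ q, star (B q i) * B q j := by
  obtain ⟨B0, hB0⟩ : ∃ B0 : Mat d, W = star B0 * B0 :=
    CStarAlgebra.nonneg_iff_eq_star_mul_self.mp hW.nonneg
  have hent : ∀ i j, W i j = ∑ q, star (B0 q i) * B0 q j := by
    intro i j
    rw [hB0, Matrix.star_eq_conjTranspose, Matrix.mul_apply]
    rfl
  have htr : W.trace = ((∑ q, ∑ i, ‖B0 q i‖ ^ 2 : ℝ) : ℂ) := by
    rw [Matrix.trace]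
    push_cast
    rw [Finset.sum_comm]
    apply Finset.sum_congr rfl
    intro i _
    rw [Matrix.diag_apply, hent]
    apply Finset.sum_congr rfl
    intro q _
    exact RCLike.conj_mul (B0 q i)
  set τ : ℝ := ∑ q, ∑ i, ‖B0 q i‖ ^ 2 with hτ
  have hτ0 : 0 ≤ τ := Finset.sum_nonneg fun q _ => Finset.sum_nonneg fun i _ => by positivity
  have hre : W.trace.re = τ := by rw [htr, Complex.ofReal_re]
  rcases hτ0.eq_or_lt with h0 | h0
  · refine ⟨fun q i => if q = ⟨0, hd⟩ ∧ i = ⟨0, hd⟩ then 1 else 0, ?_, by rw [hre]; exact hτ0, ?_⟩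
    · rw [Finset.sum_eq_single ⟨0, hd⟩, Finset.sum_eq_single ⟨0, hd⟩]
      · simp
      · intro b _ hb; simp [hb]
      · simp
      · intro b _ hb; simp [hb]
      · simp
    · intro i j
      rw [hre, ← h0, hent]
      have hz : ∀ q i, B0 q i = 0 := by
        intro q i
        have h1 := (Finset.sum_eq_zero_iff_of_nonneg (fun q _ => Finset.sum_nonneg fun i _ => by
          positivity)).1 (hτ.symm.trans h0.symm) q (Finset.mem_univ q)
        have h2 := (Finset.sum_eq_zero_iff_of_nonneg (fun i _ => by positivity)).1 h1 i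
          (Finset.mem_univ i)
        simpa using h2
      simp [hz]
  · have hs : (0 : ℝ) < Real.sqrt τ := Real.sqrt_pos.2 h0
    have hss : Real.sqrt τ * Real.sqrt τ = τ := Real.mul_self_sqrt hτ0
    refine ⟨fun q i => ((Real.sqrt τ : ℝ) : ℂ)⁻¹ * B0 q i, ?_, by rw [hre]; exact hτ0, ?_⟩
    · have : ∀ q i, ‖((Real.sqrt τ : ℝ) : ℂ)⁻¹ * B0 q i‖ ^ 2 = τ⁻¹ * ‖B0 q i‖ ^ 2 := by
        intro q i
        rw [norm_mul, norm_inv, Complex.norm_real, Real.norm_of_nonneg hs.le, mul_pow, inv_pow, sq,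
          hss]
      simp only [this, ← Finset.mul_sum]
      rw [← hτ, inv_mul_cancel₀ h0.ne']
    · intro i j
      rw [hre, hent, Finset.mul_sum]
      apply Finset.sum_congr rfl
      intro q _
      have hsc : ((Real.sqrt τ : ℝ) : ℂ) ≠ 0 := by exact_mod_cast hs.ne'
      have hst : ((Real.sqrt τ : ℝ) : ℂ) * ((Real.sqrt τ : ℝ) : ℂ) = (τ : ℂ) := by
        exact_mod_cast hss
      rw [star_mul', ← hst]
      have : star (((Real.sqrt τ : ℝ) : ℂ)⁻¹) = ((Real.sqrt τ : ℝ) : ℂ)⁻¹ := by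
        rw [star_inv₀]
        congr 1
        exact Complex.conj_ofReal _
      rw [this]
      field_simp

/-- the moments of a point mass `λ` with weight `Bᴴ B` -/
noncomputable def mv (n d : ℕ) (p : ℂ × (Fin d → Fin d → ℂ)) :
    Fin n → Fin n → Fin d → Fin d → ℂ :=
  fun k k' i j => (((p.1.re : ℂ) ^ (k : ℕ)) * ((p.1.im : ℂ) ^ (k' : ℕ))) *
    ∑ q, star (p.2 q i) * p.2 q j

theorem mv_cont (n d : ℕ) : Continuous (mv n d) := by
  unfold mv
  fun_prop

/-- point masses in the disc of radius `r` -/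
def SS (n d : ℕ) (r : ℝ) : Set (Fin n → Fin n → Fin d → Fin d → ℂ) :=
  mv n d '' (Metric.closedBall 0 r ×ˢ {B | ∑ q, ∑ i, ‖B q i‖ ^ 2 = 1})

theorem SS_compact (n d : ℕ) (r : ℝ) : IsCompact (SS n d r) := by
  apply IsCompact.image _ (mv_cont n d)
  apply (isCompact_closedBall _ _).prod
  apply Metric.isCompact_of_isClosed_isBounded
  · apply isClosed_eq _ continuous_const
    fun_prop
  · rw [Metric.isBounded_iff_subset_closedBall (0 : Fin d → Fin d → ℂ)]
    refine ⟨1, fun B hB => ?_⟩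
    rw [mem_closedBall_zero_iff, pi_norm_le_iff_of_nonneg zero_le_one]
    intro q
    rw [pi_norm_le_iff_of_nonneg zero_le_one]
    intro i
    have h1 : ‖B q i‖ ^ 2 ≤ 1 := by
      rw [← (show ∑ q, ∑ i, ‖B q i‖ ^ 2 = 1 from hB)]
      calc ‖B q i‖ ^ 2 ≤ ∑ i, ‖B q i‖ ^ 2 :=
            Finset.single_le_sum (f := fun i => ‖B q i‖ ^ 2) (fun _ _ => by positivity)
              (Finset.mem_univ i)
        _ ≤ ∑ q, ∑ i, ‖B q i‖ ^ 2 :=
            Finset.single_le_sum (f := fun q => ∑ i, ‖B q i‖ ^ 2)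
              (fun _ _ => Finset.sum_nonneg fun _ _ => by positivity) (Finset.mem_univ q)
    nlinarith [norm_nonneg (B q i)]

universe v

section op
variable {H : Type v} [NormedAddCommGroup H] [InnerProductSpace ℂ H] [CompleteSpace H]
  {X Y : H →L[ℂ] H}

theorem normal_of (hX : IsSelfAdjoint X) (hY : IsSelfAdjoint Y) (hXY : X * Y = Y * X) :
    IsStarNormal (X + Complex.I • Y) := by
  constructor
  have e : star (X + Complex.I • Y) = X - Complex.I • Y := by
    rw [star_add, star_smul, hX.star_eq, hY.star_eq, Complex.star_def, Complex.conj_I, neg_smul,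
      sub_eq_add_neg]
  rw [e]
  change (X - Complex.I • Y) * (X + Complex.I • Y) = (X + Complex.I • Y) * (X - Complex.I • Y)
  rw [mul_add, sub_mul, sub_mul, add_mul, mul_sub, mul_sub]
  simp only [smul_mul_assoc, mul_smul_comm, hXY]

theorem cfc_re (hX : IsSelfAdjoint X) (hY : IsSelfAdjoint Y) (hXY : X * Y = Y * X) :
    cfc (fun z : ℂ => (z.re : ℂ)) (X + Complex.I • Y) = X := by
  have hN := normal_of hX hY hXY
  have e : star (X + Complex.I • Y) = X - Complex.I • Y := by
    rw [star_add, star_smul, hX.star_eq, hY.star_eq, Complex.star_def, Complex.conj_I, neg_smul,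
      sub_eq_add_neg]
  have h1 : (fun z : ℂ => (z.re : ℂ)) = fun z : ℂ => (1 / 2 : ℂ) * (z + star z) := by
    funext z
    rw [Complex.star_def, Complex.add_conj]
    push_cast; ring
  rw [h1, cfc_const_mul (1 / 2 : ℂ) (fun z => z + star z) _ (by fun_prop),
    cfc_add _ (fun z => z) (fun z => star z) (by fun_prop) (by fun_prop), cfc_id' ℂ (X + Complex.I • Y),
    cfc_star_id (R := ℂ) (a := X + Complex.I • Y), e]
  rw [show X + Complex.I • Y + (X - Complex.I • Y) = (2 : ℂ) • X by rw [two_smul]; abel, smul_smul]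
  norm_num

theorem cfc_im (hX : IsSelfAdjoint X) (hY : IsSelfAdjoint Y) (hXY : X * Y = Y * X) :
    cfc (fun z : ℂ => (z.im : ℂ)) (X + Complex.I • Y) = Y := by
  have hN := normal_of hX hY hXY
  have e : star (X + Complex.I • Y) = X - Complex.I • Y := by
    rw [star_add, star_smul, hX.star_eq, hY.star_eq, Complex.star_def, Complex.conj_I, neg_smul,
      sub_eq_add_neg]
  have h1 : (fun z : ℂ => (z.im : ℂ)) = fun z : ℂ => (-Complex.I / 2 : ℂ) * (z - star z) := by
    funext z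
    rw [Complex.star_def, Complex.sub_conj]
    have := Complex.I_mul_I
    push_cast
    linear_combination (z.im : ℂ) * this
  rw [h1, cfc_const_mul (-Complex.I / 2 : ℂ) (fun z => z - star z) _ (by fun_prop),
    cfc_sub (fun z => z) (fun z => star z) _ (by fun_prop) (by fun_prop), cfc_id' ℂ (X + Complex.I • Y),
    cfc_star_id (R := ℂ) (a := X + Complex.I • Y), e]
  rw [show X + Complex.I • Y - (X - Complex.I • Y) = (2 * Complex.I : ℂ) • Y by
    rw [mul_smul, two_smul]; abel, smul_smul]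
  have : (-Complex.I / 2 * (2 * Complex.I) : ℂ) = 1 := by
    have := Complex.I_mul_I
    linear_combination -this
  rw [this, one_smul]

theorem cfc_mon (hX : IsSelfAdjoint X) (hY : IsSelfAdjoint Y) (hXY : X * Y = Y * X) (k k' : ℕ) :
    cfc (fun z : ℂ => (z.re : ℂ) ^ k * (z.im : ℂ) ^ k') (X + Complex.I • Y) = X ^ k * Y ^ k' := by
  have hN := normal_of hX hY hXY
  rw [cfc_mul (fun z : ℂ => (z.re : ℂ) ^ k) (fun z : ℂ => (z.im : ℂ) ^ k') _ (by fun_prop)
    (by fun_prop), cfc_pow (fun z : ℂ => (z.re : ℂ)) k _ (by fun_prop) hN,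
    cfc_pow (fun z : ℂ => (z.im : ℂ)) k' _ (by fun_prop) hN, cfc_re hX hY hXY, cfc_im hX hY hXY]

theorem gram_eq {N : H →L[ℂ] H} (hN : IsStarNormal N) {φ : ℂ → ℝ} (hφ : Continuous φ)
    (h0 : ∀ z, 0 ≤ φ z) : ∃ T : H →L[ℂ] H, ∀ x y : H,
      inner ℂ (T x) (T y) = inner ℂ x (cfc (fun z => (φ z : ℂ)) N y) := by
  refine ⟨cfc (fun z => ((Real.sqrt (φ z) : ℝ) : ℂ)) N, fun x y => ?_⟩
  set T := cfc (fun z => ((Real.sqrt (φ z) : ℝ) : ℂ)) N with hT
  have hc : Continuous fun z => ((Real.sqrt (φ z) : ℝ) : ℂ) := by fun_prop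
  have h1 : star T = T := by
    rw [hT, ← cfc_star]
    congr 1
    funext z
    exact Complex.conj_ofReal _
  have h2 : T * T = cfc (fun z => (φ z : ℂ)) N := by
    rw [hT, ← cfc_mul (fun z => ((Real.sqrt (φ z) : ℝ) : ℂ)) (fun z => ((Real.sqrt (φ z) : ℝ) : ℂ)) N
      hc.continuousOn hc.continuousOn]
    congr 1
    funext z
    rw [← Complex.ofReal_mul, Real.mul_self_sqrt (h0 z)]
  rw [← h2]
  have h3 : ContinuousLinearMap.adjoint T = T := h1
  change inner ℂ (T x) (T y) = inner ℂ x (T (T y))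
  calc inner ℂ (T x) (T y) = inner ℂ x (ContinuousLinearMap.adjoint T (T y)) :=
        (ContinuousLinearMap.adjoint_inner_right T x (T y)).symm
    _ = inner ℂ x (T (T y)) := by rw [h3]

theorem approx (hX : IsSelfAdjoint X) (hY : IsSelfAdjoint Y) (hXY : X * Y = Y * X) {d : ℕ}
    (hd : 0 < d) (l : Fin d → H) (hl : Orthonormal ℂ l) (n : ℕ) {η : ℝ} (hη : 0 < η) :
    ∃ p ∈ convexHull ℝ (SS n d ‖X + Complex.I • Y‖), ∀ (k k' : Fin n) (i j : Fin d),
      ‖(d : ℂ) * p k k' i j - inner ℂ (l i) ((X ^ (k : ℕ) * Y ^ (k' : ℕ)) (l j))‖ ≤ η := by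
  have hN := normal_of hX hY hXY
  set N := X + Complex.I • Y with hNdef
  have hHne : Nontrivial H := by
    have h1 : l ⟨0, hd⟩ ≠ 0 := hl.ne_zero _
    exact ⟨⟨l ⟨0, hd⟩, 0, h1⟩⟩
  set f : ℂ → Fin n → Fin n → ℂ := fun z k k' => (z.re : ℂ) ^ (k : ℕ) * (z.im : ℂ) ^ (k' : ℕ) with hf
  have hfc : Continuous f := by rw [hf]; fun_prop
  obtain ⟨n0, c, φ, hc, hφ, hφ0, hφ1, hφU⟩ := part (spectrum.isCompact N (𝕜 := ℂ))
    (fun z => {w | ‖f w - f z‖ < η}) (fun z _ => ⟨isOpen_lt (by fun_prop) continuous_const, by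
      simp [hη]⟩)
  set P : Fin n0 → H →L[ℂ] H := fun a => cfc (fun z => (φ a z : ℂ)) N with hP
  have hφc : ∀ a, Continuous fun z => (φ a z : ℂ) := fun a => by
    have := hφ a
    fun_prop
  choose T hT using fun a => gram_eq hN (hφ a) (hφ0 a)
  have hPSD : ∀ a, (Matrix.gram ℂ fun i => T a (l i)).PosSemidef := fun a =>
    Matrix.posSemidef_gram _ _
  choose B hB1 hB2 hB3 using fun a => psd_factor hd (hPSD a)
  set τ : Fin n0 → ℝ := fun a => (Matrix.gram ℂ fun i => T a (l i)).trace.re with hτ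
  have hsum : ∀ u : Fin n0 → ℂ, ∑ a, u a • P a = cfc (fun z => ∑ a, u a * (φ a z : ℂ)) N := by
    intro u
    have h1 : (fun z => ∑ a, u a * (φ a z : ℂ)) = ∑ a, fun z => u a * (φ a z : ℂ) := by
      funext z; simp
    rw [h1, cfc_sum_univ (fun a z => u a * (φ a z : ℂ)) N
      (fun a => ((continuous_const.mul (hφc a))).continuousOn)]
    apply Finset.sum_congr rfl
    intro a _
    rw [cfc_const_mul (u a) (fun z => (φ a z : ℂ)) N (hφc a).continuousOn]
  have hone : ∑ a, P a = 1 := by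
    have h1 := hsum fun _ => 1
    simp only [one_smul, one_mul] at h1
    rw [h1, ← cfc_one (R := ℂ) (a := N)]
    apply cfc_congr
    intro z hz
    have := hφ1 z hz
    simp only [Pi.one_apply]
    exact_mod_cast this
  have hτsum : ∑ a, τ a = d := by
    have h1 : ∑ a, (Matrix.gram ℂ fun i => T a (l i)).trace = (d : ℂ) := by
      simp only [Matrix.trace, Matrix.diag_apply, Matrix.gram_apply, hT]
      rw [Finset.sum_comm]
      have h2 : ∀ i, ∑ a, inner ℂ (l i) ((P a) (l i)) = (1 : ℂ) := by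
        intro i
        rw [← inner_sum]
        have h3 : ∑ a, (P a) (l i) = l i := by
          rw [← _root_.sum_apply, hone]; rfl
        rw [h3, inner_self_eq_norm_sq_to_K, hl.1 i]
        simp
      simp only [hP] at h2
      rw [Finset.sum_congr rfl fun i _ => h2 i]
      simp
    have h2 := congrArg Complex.re h1
    rw [Complex.re_sum] at h2
    simpa using h2
  have hdr : (0 : ℝ) < d := by exact_mod_cast hd
  refine ⟨∑ a, (τ a / d) • mv n d (c a, B a), ?_, ?_⟩
  · apply (convex_convexHull ℝ _).sum_mem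
    · exact fun a _ => div_nonneg (hB2 a) hdr.le
    · rw [← Finset.sum_div, hτsum, div_self hdr.ne']
    · intro a _
      apply subset_convexHull
      refine ⟨(c a, B a), ⟨?_, hB1 a⟩, rfl⟩
      exact spectrum.subset_closedBall_norm N (hc a)
  · intro k k' i j
    have e1 : (d : ℂ) * (∑ a, (τ a / d) • mv n d (c a, B a)) k k' i j =
        inner ℂ (l i) ((cfc (fun z => ∑ a, f (c a) k k' * (φ a z : ℂ)) N) (l j)) := by
      rw [← hsum, _root_.sum_apply, inner_sum]
      simp only [Finset.sum_apply, Pi.smul_apply]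
      rw [Finset.mul_sum]
      apply Finset.sum_congr rfl
      intro a _
      have h2 := hB3 a i j
      rw [Matrix.gram_apply, hT] at h2
      rw [_root_.smul_apply, inner_smul_right]
      simp only [hP]
      rw [h2, Complex.real_smul]
      simp only [mv, hf, hτ]
      push_cast
      have hdc : (d : ℂ) ≠ 0 := by exact_mod_cast hd.ne'
      field_simp
    rw [e1, ← cfc_mon hX hY hXY (k : ℕ) (k' : ℕ), ← hNdef, ← inner_sub_right,
      ← _root_.sub_apply, ← cfc_sub (fun z => ∑ a, f (c a) k k' * (φ a z : ℂ))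
        (fun z : ℂ => (z.re : ℂ) ^ (k : ℕ) * (z.im : ℂ) ^ (k' : ℕ)) N
        (by
          apply Continuous.continuousOn
          apply continuous_finsetSum
          exact fun a _ => continuous_const.mul (hφc a)) (by fun_prop)]
    have hnorm : ‖cfc (fun z => ∑ a, f (c a) k k' * (φ a z : ℂ) -
        (z.re : ℂ) ^ (k : ℕ) * (z.im : ℂ) ^ (k' : ℕ)) N‖ ≤ η := by
      apply norm_cfc_le hη.le
      intro z hz
      have h1 : (z.re : ℂ) ^ (k : ℕ) * (z.im : ℂ) ^ (k' : ℕ) =
          ∑ a, f z k k' * (φ a z : ℂ) := by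
        rw [← Finset.mul_sum]
        have : (∑ a, (φ a z : ℂ)) = 1 := by exact_mod_cast hφ1 z hz
        rw [this, mul_one]
      rw [h1, ← Finset.sum_sub_distrib]
      refine (norm_sum_le _ _).trans ?_
      have h2 : ∀ a, ‖f (c a) k k' * (φ a z : ℂ) - f z k k' * (φ a z : ℂ)‖ ≤ η * φ a z := by
        intro a
        rw [← sub_mul, norm_mul, Complex.norm_real, Real.norm_of_nonneg (hφ0 a z)]
        by_cases h0 : φ a z = 0
        · rw [h0]; simp
        · apply mul_le_mul_of_nonneg_right _ (hφ0 a z)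
          have h3 : ‖f z - f (c a)‖ < η := hφU a z h0
          have h4 : ‖(f z - f (c a)) k k'‖ ≤ ‖f z - f (c a)‖ :=
            (norm_le_pi_norm _ k').trans (norm_le_pi_norm _ k)
          rw [← norm_neg]
          have h5 : -(f (c a) k k' - f z k k') = (f z - f (c a)) k k' := by
            simp
          rw [h5]
          exact h4.trans h3.le
      refine (Finset.sum_le_sum fun a _ => h2 a).trans ?_
      rw [← Finset.mul_sum, hφ1 z hz, mul_one]
    refine (norm_inner_le_norm _ _).trans ?_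
    rw [hl.1 i, one_mul]
    refine (ContinuousLinearMap.le_opNorm _ _).trans ?_
    rw [hl.1 j, mul_one]
    exact hnorm

/-- exact moments -/
theorem exact (hX : IsSelfAdjoint X) (hY : IsSelfAdjoint Y) (hXY : X * Y = Y * X) {d : ℕ}
    (hd : 0 < d) (l : Fin d → H) (hl : Orthonormal ℂ l) (n : ℕ) :
    ∃ (m : ℕ) (x y : Fin m → ℝ) (B : Fin m → Mat d),
      (∀ a, ‖(⟨x a, y a⟩ : ℂ)‖ ≤ ‖X + Complex.I • Y‖) ∧
      ∀ k k' : ℕ, k < n → k' < n →
        ∑ a, ((x a : ℂ) ^ k * (y a : ℂ) ^ k') • ((B a)ᴴ * B a) =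
          Matrix.of (fun i j => inner ℂ (l i) ((X ^ k * Y ^ k') (l j))) := by
  have hdc : (d : ℂ) ≠ 0 := by exact_mod_cast hd.ne'
  set M : Fin n → Fin n → Fin d → Fin d → ℂ := fun k k' i j =>
    (d : ℂ)⁻¹ * inner ℂ (l i) ((X ^ (k : ℕ) * Y ^ (k' : ℕ)) (l j)) with hM
  have hmem : M ∈ convexHull ℝ (SS n d ‖X + Complex.I • Y‖) := by
    rw [← (compact_convexHull (SS_compact n d ‖X + Complex.I • Y‖)).isClosed.closure_eq]
    rw [Metric.mem_closure_iff]
    intro ε hε
    obtain ⟨p, hp, hp2⟩ := approx hX hY hXY hd l hl n (half_pos hε)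
    refine ⟨p, hp, ?_⟩
    refine lt_of_le_of_lt ?_ (half_lt_self hε)
    rw [dist_pi_le_iff (half_pos hε).le]
    intro k
    rw [dist_pi_le_iff (half_pos hε).le]
    intro k'
    rw [dist_pi_le_iff (half_pos hε).le]
    intro i
    rw [dist_pi_le_iff (half_pos hε).le]
    intro j
    rw [dist_comm, dist_eq_norm]
    have e : p k k' i j - M k k' i j =
        (d : ℂ)⁻¹ * ((d : ℂ) * p k k' i j - inner ℂ (l i) ((X ^ (k : ℕ) * Y ^ (k' : ℕ)) (l j))) := by
      rw [hM]; field_simp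
    rw [e, norm_mul, norm_inv, Complex.norm_natCast]
    have h1 : ((d : ℝ))⁻¹ ≤ 1 := inv_le_one_of_one_le₀ (by exact_mod_cast hd)
    calc _ ≤ 1 * (ε / 2) := mul_le_mul h1 (hp2 k k' i j) (norm_nonneg _) zero_le_one
      _ = ε / 2 := one_mul _
  rw [hull_eq] at hmem
  simp only [Set.mem_iUnion] at hmem
  obtain ⟨m, -, ⟨w, z⟩, ⟨⟨hw0, hw1⟩, hz⟩, hsum⟩ := hmem
  have hz' : ∀ a, ∃ q : ℂ × (Fin d → Fin d → ℂ), q ∈ Metric.closedBall (0 : ℂ)
      ‖X + Complex.I • Y‖ ×ˢ {B | ∑ q, ∑ i, ‖B q i‖ ^ 2 = 1} ∧ mv n d q = z a :=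
    fun a => hz a (Set.mem_univ a)
  choose q hq1 hq2 using hz'
  simp only at hw0 hsum
  refine ⟨m, fun a => (q a).1.re, fun a => (q a).1.im,
    fun a => ((Real.sqrt (d * w a) : ℝ) : ℂ) • Matrix.of (q a).2, fun a => ?_, ?_⟩
  · have := (hq1 a).1
    rw [mem_closedBall_zero_iff] at this
    exact this
  · intro k k' hk hk'
    ext i j
    have h1 := congrFun (congrFun (congrFun (congrFun hsum ⟨k, hk⟩) ⟨k', hk'⟩) i) j
    simp only [Finset.sum_apply, Pi.smul_apply] at h1
    rw [hM] at h1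
    rw [Matrix.sum_apply, Matrix.of_apply]
    have h2 : inner ℂ (l i) ((X ^ k * Y ^ k') (l j)) =
        (d : ℂ) * ∑ a, w a • z a ⟨k, hk⟩ ⟨k', hk'⟩ i j := by
      rw [h1]; field_simp
    rw [h2, Finset.mul_sum]
    apply Finset.sum_congr rfl
    intro a _
    rw [← hq2 a, Matrix.smul_apply, Matrix.conjTranspose_smul, Matrix.smul_mul, Matrix.mul_smul,
      smul_smul, Matrix.smul_apply, Matrix.mul_apply]
    simp only [mv, Matrix.conjTranspose_apply, Matrix.of_apply, smul_eq_mul, Complex.real_smul]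
    have h3 : star ((Real.sqrt (d * w a) : ℝ) : ℂ) * ((Real.sqrt (d * w a) : ℝ) : ℂ) =
        (d : ℂ) * (w a : ℂ) := by
      rw [Complex.star_def, Complex.conj_ofReal, ← Complex.ofReal_mul,
        Real.mul_self_sqrt (mul_nonneg (Nat.cast_nonneg d) (hw0 a))]
      push_cast; ring
    rw [h3]
    ring

end op

end Pool.FR.T_

namespace Pool.FR

universe v

open T_ in
theorem stmt_T : Stmt_T.{v} := by
  intro H _ _ _ X Y hX hY hXY d l hl δX δY E hE Nn
  rcases Nat.eq_zero_or_pos d with h0 | hd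
  · subst h0
    refine ⟨0, fun a => a.elim0, fun a => a.elim0, fun a => a.elim0, fun a => a.elim0,
      fun a => a.elim0, fun a => a.elim0, fun k k' _ _ => ?_⟩
    ext i
    exact i.elim0
  obtain ⟨m, x, y, B, hxy, hmom⟩ := exact hX hY hXY hd l hl (Nn + 3)
  set W : Fin m → Mat d := fun a => (B a)ᴴ * B a with hW
  have hPSD : ∀ a, (W a).PosSemidef := fun a => posSemidef_conjTranspose_mul_self _
  set R : Fin m → Mat d := fun a => (x a : ℂ) • δY - (y a : ℂ) • δX - E with hR
  -- linear relations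
  have hlin : ∀ k k' : ℕ, k < Nn + 2 → k' < Nn + 2 →
      ∑ a, ((x a : ℂ) ^ k * (y a : ℂ) ^ k') • (W a * R a) = 0 := by
    intro k k' hk hk'
    have e1 : ∑ a, ((x a : ℂ) ^ k * (y a : ℂ) ^ k') • (W a * R a) =
        (∑ a, ((x a : ℂ) ^ (k + 1) * (y a : ℂ) ^ k') • W a) * δY -
        (∑ a, ((x a : ℂ) ^ k * (y a : ℂ) ^ (k' + 1)) • W a) * δX -
        (∑ a, ((x a : ℂ) ^ k * (y a : ℂ) ^ k') • W a) * E := by
      rw [Finset.sum_mul, Finset.sum_mul, Finset.sum_mul, ← Finset.sum_sub_distrib,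
        ← Finset.sum_sub_distrib]
      apply Finset.sum_congr rfl
      intro a _
      rw [hR]
      simp only [Matrix.mul_sub, Matrix.mul_smul, Matrix.smul_mul, smul_sub, smul_smul]
      congr 2
      · congr 1; ring
      · congr 1; ring
    rw [e1, hmom (k + 1) k' (by omega) (by omega), hmom k (k' + 1) (by omega) (by omega),
      hmom k k' (by omega) (by omega)]
    ext i j
    rw [Matrix.sub_apply, Matrix.sub_apply, Matrix.mul_apply, Matrix.mul_apply, Matrix.mul_apply,
      Matrix.zero_apply]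
    simp only [Matrix.of_apply]
    have hs : ∀ (A : H →L[ℂ] H) (D : Mat d),
        ∑ p, inner ℂ (l i) (A (l p)) * D p j = inner ℂ (l i) (A (∑ p, D p j • l p)) := by
      intro A D
      rw [map_sum, inner_sum]
      apply Finset.sum_congr rfl
      intro p _
      rw [map_smul, inner_smul_right, mul_comm]
    rw [hs, hs, hs]
    have c1 : X ^ (k + 1) * Y ^ k' = (X ^ k * Y ^ k') * X := by
      rw [pow_succ, mul_assoc, mul_assoc]
      congr 1
      exact (show Commute X Y from hXY).pow_right k'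
    have c2 : X ^ k * Y ^ (k' + 1) = (X ^ k * Y ^ k') * Y := by
      rw [pow_succ, mul_assoc]
    rw [c1, c2]
    change inner ℂ (l i) ((X ^ k * Y ^ k') (X (∑ p, δY p j • l p))) -
      inner ℂ (l i) ((X ^ k * Y ^ k') (Y (∑ p, δX p j • l p))) -
      inner ℂ (l i) ((X ^ k * Y ^ k') (∑ p, E p j • l p)) = 0
    rw [← inner_sub_right, ← map_sub, hE j, sub_self]
  have h00 := hlin 0 0 (by omega) (by omega)
  have h10 := hlin 1 0 (by omega) (by omega)
  have h01 := hlin 0 1 (by omega) (by omega)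
  simp only [pow_zero, pow_one, mul_one, one_mul, one_smul] at h00 h10 h01
  have hq : ∑ a, (R a)ᴴ * W a * R a = 0 := by
    have e1 : ∀ a, (R a)ᴴ * W a * R a = δYᴴ * ((x a : ℂ) • (W a * R a)) -
        δXᴴ * ((y a : ℂ) • (W a * R a)) - Eᴴ * (W a * R a) := by
      intro a
      rw [mul_assoc]
      set Z := W a * R a
      rw [hR]
      simp only [Matrix.conjTranspose_sub, Matrix.conjTranspose_smul, Complex.star_def,
        Complex.conj_ofReal, Matrix.sub_mul, Matrix.smul_mul, Matrix.mul_smul]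
    rw [Finset.sum_congr rfl fun a _ => e1 a, Finset.sum_sub_distrib, Finset.sum_sub_distrib,
      ← Finset.mul_sum, ← Finset.mul_sum, ← Finset.mul_sum, h00, h10, h01]
    simp
  have hPSD2 : ∀ a, ((R a)ᴴ * W a * R a).PosSemidef := fun a =>
    (hPSD a).conjTranspose_mul_mul_same (R a)
  have htr : ∑ a, ((R a)ᴴ * W a * R a).trace = 0 := by
    rw [← Matrix.trace_sum, hq, Matrix.trace_zero]
  have hzero : ∀ a, W a * R a = 0 := by
    intro a
    have h1 := (Finset.sum_eq_zero_iff_of_nonneg fun a _ => (hPSD2 a).trace_nonneg).1 htr a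
      (Finset.mem_univ a)
    have h2 := (hPSD2 a).trace_eq_zero_iff.1 h1
    have h3 : (B a * R a)ᴴ * (B a * R a) = 0 := by
      rw [Matrix.conjTranspose_mul]
      rw [hW] at h2
      simp only at h2
      rw [← h2]
      simp only [Matrix.mul_assoc]
    have h4 := Matrix.conjTranspose_mul_self_eq_zero.1 h3
    rw [hW]
    simp only
    rw [Matrix.mul_assoc, h4, Matrix.mul_zero]
  exact ⟨m, x, y, W, hxy, hPSD, hzero, fun k k' hk hk' => hmom k k' (by omega) (by omega)⟩

end Pool.FR
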