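import Pool.Agent.Work.FiniteRankNormal.Interface

open Matrix Filter Topology
open scoped ComplexConjugate

namespace Pool.FR

namespace UAux

variable {n : ℕ}

theorem charpoly_diagU {W V : Mat n} {lam : Fin n → ℂ} (hW : IsU W) (hV : V = W * diagonal lam * Wᴴ) :
    V.charpoly.roots = Finset.univ.val.map lam := by
  have h1 : V.charpoly = (diagonal lam).charpoly := by
    rw [hV, Matrix.charpoly_mul_comm, ← Matrix.mul_assoc, hW.1, Matrix.one_mul]
  rw [h1, Matrix.charpoly_diagonal]
  have : ∏ i, (Polynomial.X - Polynomial.C (lam i)) =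
      ((Finset.univ.val.map lam).map (fun a => Polynomial.X - Polynomial.C a)).prod := by
    rw [Multiset.map_map]
    rfl
  rw [this, Polynomial.roots_multiset_prod_X_sub_C]

theorem th0_diagU {W V : Mat n} {lam : Fin n → ℂ} (hW : IsU W) (hV : V = W * diagonal lam * Wᴴ) :
    th0 V = ∑ i, arg0 (lam i) := by
  unfold th0
  rw [charpoly_diagU hW hV, Multiset.map_map]
  rfl

theorem thp_diagU {W V : Mat n} {lam : Fin n → ℂ} (hW : IsU W) (hV : V = W * diagonal lam * Wᴴ) :
    thp V = ∑ i, (lam i).arg := by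
  unfold thp
  rw [charpoly_diagU hW hV, Multiset.map_map]
  rfl

theorem det_diagU {W V : Mat n} {lam : Fin n → ℂ} (hW : IsU W) (hV : V = W * diagonal lam * Wᴴ) :
    V.det = ∏ i, lam i := by
  rw [hV, det_mul, det_mul, det_diagonal]
  have : W.det * Wᴴ.det = 1 := by rw [← det_mul, hW.2, det_one]
  calc _ = (∏ i, lam i) * (W.det * Wᴴ.det) := by ring
    _ = _ := by rw [this, mul_one]

theorem norm_diagU {W V : Mat n} {lam : Fin n → ℂ} (hW : IsU W) (hV : V = W * diagonal lam * Wᴴ)
    (hVU : IsU V) (i : Fin n) : ‖lam i‖ = 1 := by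
  have h1 : (diagonal lam : Mat n) = Wᴴ * V * W := by
    rw [hV]
    calc diagonal lam = (Wᴴ * W) * diagonal lam * (Wᴴ * W) := by rw [hW.1, Matrix.one_mul, Matrix.mul_one]
      _ = _ := by simp only [Matrix.mul_assoc]
  have h2 : (diagonal lam : Mat n)ᴴ * diagonal lam = 1 := by
    rw [h1, conjTranspose_mul, conjTranspose_mul, conjTranspose_conjTranspose]
    calc Wᴴ * (Vᴴ * W) * (Wᴴ * V * W) = Wᴴ * Vᴴ * (W * Wᴴ) * V * W := by simp only [Matrix.mul_assoc]
      _ = Wᴴ * (Vᴴ * V) * W := by rw [hW.2, Matrix.mul_one]; simp only [Matrix.mul_assoc]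
      _ = 1 := by rw [hVU.1, Matrix.mul_one, hW.1]
  have h3 := congrFun (congrFun h2 i) i
  rw [diagonal_conjTranspose, diagonal_mul_diagonal, diagonal_apply_eq, one_apply_eq] at h3
  have h4 : conj (lam i) * lam i = 1 := h3
  rw [Complex.conj_mul'] at h4
  have h5 : ‖lam i‖ ^ 2 = 1 := by exact_mod_cast h4
  have h6 : (‖lam i‖ - 1) * (‖lam i‖ + 1) = 0 := by ring_nf; linarith
  rcases mul_eq_zero.mp h6 with h | h
  · linarith
  · have := norm_nonneg (lam i); linarith

theorem rank_diagU {W V : Mat n} {lam : Fin n → ℂ} (hW : IsU W) (hV : V = W * diagonal lam * Wᴴ) :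
    (V - 1).rank = (Finset.univ.filter (fun i => lam i ≠ 1)).card := by
  classical
  have hdW : IsUnit W.det := by
    rw [isUnit_iff_ne_zero]
    intro h
    have : W.det * Wᴴ.det = 1 := by rw [← det_mul, hW.2, det_one]
    rw [h, zero_mul] at this
    exact zero_ne_one this
  have hdW' : IsUnit Wᴴ.det := by
    rw [isUnit_iff_ne_zero]
    intro h
    have : W.det * Wᴴ.det = 1 := by rw [← det_mul, hW.2, det_one]
    rw [h, mul_zero] at this
    exact zero_ne_one this
  have h1 : V - 1 = W * diagonal (fun i => lam i - 1) * Wᴴ := by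
    have h2 : (diagonal (fun i => lam i - 1) : Mat n) = diagonal lam - 1 := by
      ext i j
      by_cases h : i = j
      · subst h; simp
      · simp [h]
    rw [h2, Matrix.mul_sub, Matrix.sub_mul, ← hV, Matrix.mul_one, hW.2]
  rw [h1, Matrix.rank_mul_eq_left_of_isUnit_det _ _ hdW', Matrix.rank_mul_eq_right_of_isUnit_det _ _ hdW,
    Matrix.rank_diagonal, Fintype.card_subtype]
  congr 1
  ext i
  simp [sub_eq_zero]

theorem normal_of_isU {V : Mat n} (hV : IsU V) : V * Vᴴ = Vᴴ * V := by rw [hV.1, hV.2]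

theorem arg0_mem (z : ℂ) : 0 ≤ arg0 z ∧ arg0 z < 2 * Real.pi := by
  unfold arg0
  have h1 := Complex.neg_pi_lt_arg z
  have h2 := Complex.arg_le_pi z
  have hp := Real.pi_pos
  split_ifs with h
  · constructor <;> linarith
  · push Not at h
    constructor <;> linarith

theorem exp_arg {z : ℂ} (hz : ‖z‖ = 1) : Complex.exp (z.arg * Complex.I) = z := by
  have := Complex.norm_mul_exp_arg_mul_I z
  rwa [hz, Complex.ofReal_one, one_mul] at this

theorem exp_arg0 {z : ℂ} (hz : ‖z‖ = 1) : Complex.exp (arg0 z * Complex.I) = z := by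
  unfold arg0
  split_ifs with h
  · push_cast
    rw [add_mul, Complex.exp_add, exp_arg hz, Complex.exp_two_pi_mul_I, mul_one]
  · exact exp_arg hz

theorem abs_sub_arg (z : ℂ) : |arg0 z - z.arg| ≤ if z ≠ 1 then 2 * Real.pi else 0 := by
  have hp := Real.pi_pos
  by_cases h1 : z = 1
  · subst h1
    simp [arg0]
  · rw [if_pos h1]
    unfold arg0
    split_ifs with h
    · rw [add_sub_cancel_left, abs_of_pos (by positivity)]
    · rw [sub_self, abs_zero]; positivity

/-- uniqueness of the phase in `[0, 2π]` -/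
theorem phase_unique {z : ℂ} (hz : ‖z‖ = 1) {τ : ℝ} (h0 : 0 ≤ τ) (h1 : τ ≤ 2 * Real.pi)
    (he : Complex.exp (τ * Complex.I) = z) : τ = arg0 z ∨ (z = 1 ∧ τ = 2 * Real.pi) := by
  have hm := arg0_mem z
  have h2 : Complex.exp (τ * Complex.I) = Complex.exp (arg0 z * Complex.I) := by
    rw [he, exp_arg0 hz]
  rw [Complex.exp_eq_exp_iff_exists_int] at h2
  obtain ⟨k, hk⟩ := h2
  have hk2 : τ = arg0 z + k * (2 * Real.pi) := by
    have : ((τ : ℂ)) * Complex.I = ((arg0 z + k * (2 * Real.pi) : ℝ) : ℂ) * Complex.I := by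
      rw [hk]; push_cast; ring
    have := mul_right_cancel₀ Complex.I_ne_zero this
    exact_mod_cast this
  have hp := Real.pi_pos
  have hk3 : (-1 : ℝ) < k := by
    by_contra hcon
    push Not at hcon
    nlinarith
  have hk4 : (k : ℝ) ≤ 1 := by
    by_contra hcon
    push Not at hcon
    nlinarith
  have hk5 : (-1 : ℤ) < k := by exact_mod_cast hk3
  have hk6 : k ≤ 1 := by exact_mod_cast hk4
  have hk7 : k = 0 ∨ k = 1 := by omega
  rcases hk7 with h | h
  · left; rw [hk2, h]; simp
  · right
    rw [h] at hk2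
    have h8 : τ = 2 * Real.pi := by
      push_cast at hk2
      linarith [hm.1]
    refine ⟨?_, h8⟩
    rw [← he, h8]
    push_cast
    exact Complex.exp_two_pi_mul_I

theorem tendsto_conj {Wf : ℕ → Mat n} {lf : ℕ → Fin n → ℂ} {W : Mat n} {lam : Fin n → ℂ}
    (hW : Tendsto Wf atTop (𝓝 W)) (hl : Tendsto lf atTop (𝓝 lam)) :
    Tendsto (fun m => Wf m * diagonal (lf m) * (Wf m)ᴴ) atTop (𝓝 (W * diagonal lam * Wᴴ)) := by
  have h1 : Tendsto (fun m => (diagonal (lf m) : Mat n)) atTop (𝓝 (diagonal lam)) :=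
    (continuous_id.matrix_diagonal.tendsto lam).comp hl
  have h2 : Tendsto (fun m => (Wf m)ᴴ) atTop (𝓝 Wᴴ) :=
    (continuous_id.matrix_conjTranspose.tendsto W).comp hW
  have h3 : Tendsto (fun m => Wf m * diagonal (lf m)) atTop (𝓝 (W * diagonal lam)) := hW.mul h1
  exact h3.mul h2

/-- compactness -/
theorem compact_seq (hS : Stmt_S) (V : ℝ → Mat n) (hc : Continuous V) (hU : ∀ t, IsU (V t))
    (c : ℝ) (t : ℕ → ℝ) (ht : Tendsto t atTop (𝓝 c)) :
    ∃ (φ : ℕ → ℕ) (Wm : ℕ → Mat n) (lm : ℕ → Fin n → ℂ) (W : Mat n) (lam : Fin n → ℂ) (τ : Fin n → ℝ),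
      StrictMono φ ∧ (∀ m, IsU (Wm m)) ∧ (∀ m, V (t (φ m)) = Wm m * diagonal (lm m) * (Wm m)ᴴ) ∧
      IsU W ∧ V c = W * diagonal lam * Wᴴ ∧ (∀ i, Tendsto (fun m => lm m i) atTop (𝓝 (lam i))) ∧
      (∀ i, Tendsto (fun m => arg0 (lm m i)) atTop (𝓝 (τ i))) := by
  have hch : ∀ m : ℕ, ∃ (W : Mat n) (l : Fin n → ℂ), IsU W ∧ V (t m) = W * diagonal l * Wᴴ :=
    fun m => hS n (V (t m)) (normal_of_isU (hU (t m)))
  choose Wf lf hWf hVf using hch
  -- compact set
  have hK1 : IsCompact {W : Mat n | IsU W} := by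
    have hsub : {W : Mat n | IsU W} ⊆ Set.pi Set.univ (fun _ => Set.pi Set.univ (fun _ => Metric.closedBall (0 : ℂ) 1)) := by
      intro W hW i _ j _
      rw [mem_closedBall_zero_iff]
      have h1 := congrFun (congrFun hW.1 j) j
      rw [Matrix.mul_apply, one_apply_eq] at h1
      have h2 : ∑ k, ‖W k j‖ ^ 2 = 1 := by
        have : ((∑ k, ‖W k j‖ ^ 2 : ℝ) : ℂ) = 1 := by
          rw [← h1]
          push_cast
          apply Finset.sum_congr rfl
          intro k _
          rw [conjTranspose_apply, Complex.star_def, Complex.conj_mul']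
        exact_mod_cast this
      have h3 : ‖W i j‖ ^ 2 ≤ 1 := by
        rw [← h2]
        exact Finset.single_le_sum (f := fun k => ‖W k j‖ ^ 2) (fun k _ => sq_nonneg _) (Finset.mem_univ i)
      exact (sq_le_one_iff₀ (norm_nonneg _)).mp h3
    have hcomp : IsCompact (Set.pi Set.univ (fun _ : Fin n => Set.pi Set.univ (fun _ : Fin n => Metric.closedBall (0 : ℂ) 1)) : Set (Fin n → Fin n → ℂ)) :=
      isCompact_univ_pi fun _ => isCompact_univ_pi fun _ => isCompact_closedBall _ _
    have hclosed : IsClosed {W : Mat n | IsU W} := by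
      have e : {W : Mat n | IsU W} = {W : Mat n | Wᴴ * W = 1} ∩ {W : Mat n | W * Wᴴ = 1} := rfl
      rw [e]
      apply IsClosed.inter
      · exact isClosed_eq (continuous_id.matrix_conjTranspose.matrix_mul continuous_id) continuous_const
      · exact isClosed_eq (continuous_id.matrix_mul continuous_id.matrix_conjTranspose) continuous_const
    exact hcomp.of_isClosed_subset hclosed hsub
  have hK2 : IsCompact (Set.pi Set.univ (fun _ : Fin n => Metric.closedBall (0 : ℂ) 1)) :=
    isCompact_univ_pi fun _ => isCompact_closedBall _ _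
  have hK3 : IsCompact (Set.pi Set.univ (fun _ : Fin n => Set.Icc (0 : ℝ) (2 * Real.pi))) :=
    isCompact_univ_pi fun _ => isCompact_Icc
  have hK := hK1.prod (hK2.prod hK3)
  have : FirstCountableTopology (Mat n) := inferInstanceAs (FirstCountableTopology (Fin n → Fin n → ℂ))
  obtain ⟨⟨W, lam, τ⟩, hmem, φ, hφ, hlim⟩ := hK.tendsto_subseq
    (x := fun m => (Wf m, lf m, fun i => arg0 (lf m i))) (by
      intro m
      refine ⟨hWf m, ?_, ?_⟩
      · intro i _
        rw [mem_closedBall_zero_iff, norm_diagU (hWf m) (hVf m) (hU _) i]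
      · intro i _
        have := arg0_mem (lf m i)
        exact ⟨this.1, this.2.le⟩)
  have hW1 : Tendsto (fun m => Wf (φ m)) atTop (𝓝 W) := by
    have := (continuous_fst.tendsto _).comp hlim
    exact this
  have hl1 : Tendsto (fun m => lf (φ m)) atTop (𝓝 lam) := by
    have := ((continuous_fst.comp continuous_snd).tendsto _).comp hlim
    exact this
  have ht1 : Tendsto (fun m => (fun i => arg0 (lf (φ m) i))) atTop (𝓝 τ) := by
    have := ((continuous_snd.comp continuous_snd).tendsto _).comp hlim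
    exact this
  refine ⟨φ, fun m => Wf (φ m), fun m => lf (φ m), W, lam, τ, hφ, fun m => hWf _, fun m => hVf _,
    hmem.1, ?_, ?_, ?_⟩
  · have h1 : Tendsto (fun m => V (t (φ m))) atTop (𝓝 (V c)) :=
      (hc.tendsto c).comp (ht.comp hφ.tendsto_atTop)
    have h2 : Tendsto (fun m => Wf (φ m) * diagonal (lf (φ m)) * (Wf (φ m))ᴴ) atTop
        (𝓝 (W * diagonal lam * Wᴴ)) := tendsto_conj hW1 hl1
    have h3 : (fun m => V (t (φ m))) = (fun m => Wf (φ m) * diagonal (lf (φ m)) * (Wf (φ m))ᴴ) := by
      ext1 m; exact hVf _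
    rw [h3] at h1
    exact tendsto_nhds_unique h1 h2
  · intro i
    exact (tendsto_pi_nhds.mp hl1) i
  · intro i
    exact (tendsto_pi_nhds.mp ht1) i

end UAux

open UAux in
theorem stmt_U (hS : Stmt_S) : Stmt_U := by
  refine ⟨?_, ?_, ?_, ?_⟩
  · intro n V hV
    obtain ⟨W, lam, hW, hVW⟩ := hS n V (normal_of_isU hV)
    have hn := norm_diagU hW hVW hV
    rw [th0_diagU hW hVW, thp_diagU hW hVW, det_diagU hW hVW]
    constructor
    · push_cast
      rw [Finset.sum_mul, Complex.exp_sum]
      exact Finset.prod_congr rfl fun i _ => exp_arg0 (hn i)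
    · push_cast
      rw [Finset.sum_mul, Complex.exp_sum]
      exact Finset.prod_congr rfl fun i _ => exp_arg (hn i)
  · intro n V hV
    obtain ⟨W, lam, hW, hVW⟩ := hS n V (normal_of_isU hV)
    rw [th0_diagU hW hVW, thp_diagU hW hVW, rank_diagU hW hVW, ← Finset.sum_sub_distrib]
    apply (Finset.abs_sum_le_sum_abs _ _).trans
    calc ∑ i, |arg0 (lam i) - (lam i).arg| ≤ ∑ i, (if lam i ≠ 1 then 2 * Real.pi else 0) :=
          Finset.sum_le_sum fun i _ => abs_sub_arg (lam i)
      _ = _ := by
          rw [← Finset.sum_filter, Finset.sum_const, nsmul_eq_mul]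
          ring
  · intro n ρ V hVc hVU hrk c ε hε
    by_contra hcon
    rw [Filter.not_eventually] at hcon
    obtain ⟨t, ht, hbad⟩ := Filter.exists_seq_forall_of_frequently hcon
    obtain ⟨φ, Wm, lm, W, lam, τ, hφ, hWm, hVm, hW, hVW, hlam, hτ⟩ :=
      compact_seq hS V hVc hVU c t ht
    have hn := norm_diagU hW hVW (hVU c)
    have hnm := fun m => norm_diagU (hWm m) (hVm m) (hVU _)
    -- limits of the phases
    have hτ0 : ∀ i, 0 ≤ τ i := fun i =>
      ge_of_tendsto (hτ i) (Eventually.of_forall fun m => (arg0_mem _).1)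
    have hτ1 : ∀ i, τ i ≤ 2 * Real.pi := fun i =>
      le_of_tendsto (hτ i) (Eventually.of_forall fun m => (arg0_mem _).2.le)
    have hτe : ∀ i, Complex.exp (τ i * Complex.I) = lam i := by
      intro i
      have h1 : Tendsto (fun m => Complex.exp (arg0 (lm m i) * Complex.I)) atTop
          (𝓝 (Complex.exp (τ i * Complex.I))) := by
        have hcont : Continuous (fun x : ℝ => Complex.exp (x * Complex.I)) := by fun_prop
        exact (hcont.tendsto _).comp (hτ i)
      have h2 : (fun m => Complex.exp (arg0 (lm m i) * Complex.I)) = fun m => lm m i := by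
        ext1 m; exact exp_arg0 (hnm m i)
      rw [h2] at h1
      exact tendsto_nhds_unique h1 (hlam i)
    have huniq := fun i => phase_unique (hn i) (hτ0 i) (hτ1 i) (hτe i)
    -- counting
    set T := Finset.univ.filter (fun i => lam i = 1 ∧ τ i = 2 * Real.pi) with hT
    set S := Finset.univ.filter (fun i => lam i ≠ 1) with hSdef
    have hcard : T.card + S.card ≤ ρ := by
      have hev : ∀ᶠ m in atTop, ∀ i, (i ∈ T ∨ i ∈ S) → lm m i ≠ 1 := by
        rw [Filter.eventually_all]
        intro i
        by_cases hiT : i ∈ T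
        · rw [hT, Finset.mem_filter] at hiT
          have h1 := hτ i
          rw [hiT.2.2] at h1
          have h2 : ∀ᶠ m in atTop, Real.pi < arg0 (lm m i) :=
            h1.eventually (lt_mem_nhds (by linarith [Real.pi_pos]))
          filter_upwards [h2] with m hm _ hcon1
          rw [hcon1] at hm
          simp [arg0] at hm
          linarith [Real.pi_pos]
        · by_cases hiS : i ∈ S
          · rw [hSdef, Finset.mem_filter] at hiS
            have h2 : ∀ᶠ m in atTop, lm m i ≠ 1 := (hlam i).eventually (isOpen_ne.mem_nhds hiS.2)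
            filter_upwards [h2] with m hm _
            exact hm
          · exact Eventually.of_forall fun m h => absurd h (by tauto)
      obtain ⟨m, hm⟩ := hev.exists
      have hdis : Disjoint T S := by
        rw [Finset.disjoint_left]
        intro i hi hi2
        rw [hT, Finset.mem_filter] at hi
        rw [hSdef, Finset.mem_filter] at hi2
        exact hi2.2 hi.2.1
      rw [← Finset.card_union_of_disjoint hdis]
      calc (T ∪ S).card ≤ (Finset.univ.filter (fun i => lm m i ≠ 1)).card := by
            apply Finset.card_le_card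
            intro i hi
            rw [Finset.mem_filter]
            exact ⟨Finset.mem_univ _, hm i (Finset.mem_union.mp hi)⟩
        _ = (V (t (φ m)) - 1).rank := (rank_diagU (hWm m) (hVm m)).symm
        _ ≤ ρ := hrk _
    have hdiff : ∑ i, τ i - th0 (V c) = 2 * Real.pi * T.card := by
      rw [th0_diagU hW hVW, ← Finset.sum_sub_distrib]
      have : ∀ i, τ i - arg0 (lam i) = if (lam i = 1 ∧ τ i = 2 * Real.pi) then 2 * Real.pi else 0 := by
        intro i
        rcases huniq i with h | h
        · by_cases hc2 : (lam i = 1 ∧ τ i = 2 * Real.pi)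
          · exfalso
            have := (arg0_mem (lam i)).2
            rw [← h, hc2.2] at this
            exact lt_irrefl _ this
          · rw [if_neg hc2, h, sub_self]
        · rw [if_pos h, h.1, h.2]
          simp [arg0]
      rw [Finset.sum_congr rfl fun i _ => this i, ← Finset.sum_filter, Finset.sum_const,
        nsmul_eq_mul]
      ring
    have hlim : Tendsto (fun m => th0 (V (t (φ m)))) atTop (𝓝 (∑ i, τ i)) := by
      have : (fun m => th0 (V (t (φ m)))) = fun m => ∑ i, arg0 (lm m i) := by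
        ext1 m; exact th0_diagU (hWm m) (hVm m)
      rw [this]
      exact tendsto_finsetSum _ fun i _ => hτ i
    have hlim2 : Tendsto (fun m => |th0 (V (t (φ m))) - th0 (V c)|) atTop
        (𝓝 |∑ i, τ i - th0 (V c)|) := (hlim.sub_const _).abs
    have hge : 2 * Real.pi * ((ρ : ℝ) - (V c - 1).rank) + ε ≤ |∑ i, τ i - th0 (V c)| := by
      apply ge_of_tendsto hlim2
      apply Eventually.of_forall
      intro m
      exact (not_le.mp (hbad (φ m))).le
    rw [hdiff, abs_of_nonneg (by positivity), rank_diagU hW hVW] at hge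
    have hc3 : (T.card : ℝ) + S.card ≤ ρ := by exact_mod_cast hcard
    have hp := Real.pi_pos
    nlinarith
  · intro n V hVc hVU c hne
    rw [ContinuousAt, Metric.tendsto_nhds]
    intro ε hε
    by_contra hcon
    rw [Filter.not_eventually] at hcon
    obtain ⟨t, ht, hbad⟩ := Filter.exists_seq_forall_of_frequently hcon
    obtain ⟨φ, Wm, lm, W, lam, τ, hφ, hWm, hVm, hW, hVW, hlam, hτ⟩ :=
      compact_seq hS V hVc hVU c t ht
    have hn := norm_diagU hW hVW (hVU c)
    have hne1 : ∀ i, lam i ≠ -1 := by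
      intro i hi
      have hv : V c *ᵥ (W *ᵥ Pi.single i 1) = -(W *ᵥ Pi.single i 1) := by
        rw [Matrix.mulVec_mulVec, hVW]
        have : W * diagonal lam * Wᴴ * W = W * diagonal lam := by
          rw [Matrix.mul_assoc, hW.1, Matrix.mul_one]
        rw [this, ← Matrix.mulVec_mulVec]
        have h2 : diagonal lam *ᵥ Pi.single i 1 = -(Pi.single i (1 : ℂ)) := by
          ext j
          rw [Matrix.mulVec_diagonal]
          by_cases hij : j = i
          · subst hij; simp [hi]
          · simp [hij]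
        rw [h2, Matrix.mulVec_neg]
      refine hne (W *ᵥ Pi.single i 1) ?_ hv
      intro h0
      have h1 : Wᴴ *ᵥ (W *ᵥ Pi.single i 1) = Pi.single i (1 : ℂ) := by
        rw [Matrix.mulVec_mulVec, hW.1, Matrix.one_mulVec]
      rw [h0, Matrix.mulVec_zero] at h1
      have := congrFun h1 i
      simp at this
    have hlim : Tendsto (fun m => thp (V (t (φ m)))) atTop (𝓝 (thp (V c))) := by
      have : (fun m => thp (V (t (φ m)))) = fun m => ∑ i, (lm m i).arg := by
        ext1 m; exact thp_diagU (hWm m) (hVm m)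
      rw [this, thp_diagU hW hVW]
      apply tendsto_finsetSum _ fun i _ => ?_
      have hcA : ContinuousAt Complex.arg (lam i) := by
        apply Complex.continuousAt_arg
        rw [Complex.mem_slitPlane_iff]
        by_contra hcon2
        push Not at hcon2
        have h3 : (lam i).re ^ 2 = 1 := by
          have h4 : ‖lam i‖ ^ 2 = 1 := by rw [hn i]; norm_num
          rw [← Complex.normSq_eq_norm_sq, Complex.normSq_apply, hcon2.2] at h4
          nlinarith
        have h5 : (lam i).re = -1 := by nlinarith [hcon2.1]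
        apply hne1 i
        apply Complex.ext
        · simpa using h5
        · simpa using hcon2.2
      exact hcA.tendsto.comp (hlam i)
    rw [Metric.tendsto_atTop] at hlim
    obtain ⟨N, hN⟩ := hlim ε hε
    exact hbad (φ N) (hN N le_rfl)

end Pool.FR
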