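import Pool.Agent.Work.FiniteRankNormal.Interface

/-!
# Block V: covering of the places of high density
-/

open Matrix MeasureTheory
open scoped ComplexOrder

namespace Pool.FR

theorem stmt_V : Stmt_V := by
  classical
  intro n p w hw
  set mass : ℂ × ℝ → ℝ := fun a => ∑ i ∈ Finset.univ.filter (fun i => ‖p i - a.1‖ ≤ a.2), w i
    with hmass
  set t : Set (ℂ × ℝ) := {a | 0 < a.2 ∧ a.2 / 40 < mass a} with ht
  have hR : ∀ a ∈ t, a.2 ≤ 40 * ∑ i, w i := by
    intro a ha
    have h1 : mass a ≤ ∑ i, w i :=
      Finset.sum_le_sum_of_subset_of_nonneg (Finset.filter_subset _ _) fun i _ _ => hw i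
    have h2 := ha.2
    linarith
  obtain ⟨u, hut, hdisj, hcov⟩ := Vitali.exists_disjoint_subfamily_covering_enlargement_closedBall
    t (fun a => a.1) (fun a => a.2) _ hR 5 (by norm_num)
  have hex : ∀ a ∈ u, ∃ i, ‖p i - a.1‖ ≤ a.2 := by
    intro a ha
    by_contra hne
    push Not at hne
    have h1 : mass a = 0 := by
      rw [hmass]
      apply Finset.sum_eq_zero
      intro i hi
      exact absurd (Finset.mem_filter.mp hi).2 (not_le.mpr (hne i))
    have h2 := hut ha
    rw [ht, Set.mem_ofPred_eq, h1] at h2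
    linarith [h2.1, h2.2]
  have hfin : u.Finite := by
    have hfi : Finite u := by
      choose g hg using hex
      apply Finite.of_injective (fun a : u => g a.1 a.2)
      intro a b hab
      by_contra hne
      have hne' : a.1 ≠ b.1 := fun h => hne (Subtype.ext h)
      have h1 := hdisj a.2 b.2 hne'
      rw [Function.onFun, Set.disjoint_left] at h1
      apply h1 (a := p (g a.1 a.2))
      · rw [Metric.mem_closedBall, dist_eq_norm]; exact hg a.1 a.2
      · simp only at hab
        rw [Metric.mem_closedBall, dist_eq_norm, hab]; exact hg b.1 b.2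
    exact Set.toFinite u
  set uf := hfin.toFinset with huf
  have hmem : ∀ a, a ∈ uf ↔ a ∈ u := fun a => hfin.mem_toFinset
  have hsum : ∑ a ∈ uf, mass a ≤ ∑ i, w i := by
    rw [hmass]
    simp only
    rw [← Finset.sum_biUnion]
    · exact Finset.sum_le_sum_of_subset_of_nonneg (Finset.subset_univ _) fun i _ _ => hw i
    · intro a ha b hb hab
      rw [Function.onFun, Finset.disjoint_left]
      intro i hi hi'
      have h1 := hdisj ((hmem a).mp ha) ((hmem b).mp hb) hab
      rw [Function.onFun, Set.disjoint_left] at h1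
      apply h1 (a := p i)
      · rw [Metric.mem_closedBall, dist_eq_norm]; exact (Finset.mem_filter.mp hi).2
      · rw [Metric.mem_closedBall, dist_eq_norm]; exact (Finset.mem_filter.mp hi').2
  let e := uf.equivFin
  refine ⟨uf.card, fun i => (e.symm i).1.1, fun i => 5 * (e.symm i).1.2, ?_, ?_, ?_⟩
  · intro i
    have h1 := hut ((hmem _).mp (e.symm i).2)
    have := h1.1
    positivity
  · have h1 : ∑ i, 5 * (e.symm i).1.2 = ∑ a ∈ uf, 5 * a.2 := by
      rw [← Finset.sum_coe_sort uf (fun a => 5 * a.2)]
      exact Equiv.sum_comp e.symm (fun a : uf => 5 * a.1.2)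
    rw [h1]
    calc ∑ a ∈ uf, 5 * a.2 ≤ ∑ a ∈ uf, 200 * mass a := by
          refine Finset.sum_le_sum fun a ha => ?_
          have := (hut ((hmem a).mp ha)).2
          linarith
      _ = 200 * ∑ a ∈ uf, mass a := by rw [Finset.mul_sum]
      _ ≤ _ := by linarith
  · intro z hz ρ hρ
    by_contra hne
    rw [not_le] at hne
    have h1 : ((z, ρ) : ℂ × ℝ) ∈ t := ⟨hρ, hne⟩
    obtain ⟨b, hb, hsub⟩ := hcov _ h1
    have h2 : z ∈ Metric.closedBall b.1 (5 * b.2) := by
      apply hsub
      exact Metric.mem_closedBall_self hρ.le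
    rw [Metric.mem_closedBall, dist_eq_norm] at h2
    have h3 := hz (e ⟨b, (hmem b).mpr hb⟩)
    simp only [Equiv.symm_apply_apply] at h3
    linarith

end Pool.FR
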