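import Pool.Agent.Work.FiniteRankNormal.WA

open Matrix
open scoped ComplexConjugate

namespace Pool.FR

namespace WAux

/-- stacked square roots -/
def Jm {m d : ℕ} (V : Fin m → Mat d) : Matrix (Fin (m * d)) (Fin d) ℂ :=
  Matrix.of fun s j => V (finProdFinEquiv.symm s).1 (finProdFinEquiv.symm s).2 j

/-- block scalar matrices -/
def Dg {m : ℕ} (d : ℕ) (f : Fin m → ℂ) : Mat (m * d) :=
  diagonal fun s => f (finProdFinEquiv.symm s).1

theorem sum_prod {m d : ℕ} {A : Type*} [AddCommMonoid A] (F : Fin m → Fin d → A) :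
    ∑ s : Fin (m * d), F (finProdFinEquiv.symm s).1 (finProdFinEquiv.symm s).2 = ∑ a, ∑ b, F a b := by
  rw [← Fintype.sum_prod_type']
  exact Equiv.sum_comp finProdFinEquiv.symm (fun p : Fin m × Fin d => F p.1 p.2)

theorem Jm_Dg_Jm {m d : ℕ} (V : Fin m → Mat d) (f : Fin m → ℂ) :
    (Jm V)ᴴ * Dg d f * Jm V = ∑ a, f a • ((V a)ᴴ * V a) := by
  ext i j
  have e : ∀ s, ((Jm V)ᴴ * Dg d f) i s = star (V (finProdFinEquiv.symm s).1
      (finProdFinEquiv.symm s).2 i) * f (finProdFinEquiv.symm s).1 := by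
    intro s
    unfold Dg
    rw [Matrix.mul_diagonal]
    rfl
  have e2 : ∀ s, (Jm V) s j = V (finProdFinEquiv.symm s).1 (finProdFinEquiv.symm s).2 j :=
    fun s => rfl
  rw [Matrix.sum_apply, Matrix.mul_apply]
  simp only [e, e2]
  rw [sum_prod (fun a b => star (V a b i) * f a * V a b j)]
  apply Finset.sum_congr rfl
  intro a _
  rw [Matrix.smul_apply, Matrix.mul_apply, smul_eq_mul, Finset.mul_sum]
  apply Finset.sum_congr rfl
  intro b _
  rw [Matrix.conjTranspose_apply]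
  ring

theorem Dg_mul {m d : ℕ} (f g : Fin m → ℂ) : Dg d f * Dg d g = Dg d (fun a => f a * g a) := by
  unfold Dg
  rw [diagonal_mul_diagonal]

theorem Dg_pow {m d : ℕ} (f : Fin m → ℂ) (k : ℕ) : Dg d f ^ k = Dg d (fun a => f a ^ k) := by
  unfold Dg
  rw [diagonal_pow]
  rfl

theorem Dg_ct {m d : ℕ} (x : Fin m → ℝ) :
    (Dg d (fun a => (x a : ℂ)))ᴴ = Dg d (fun a => (x a : ℂ)) := by
  unfold Dg
  rw [diagonal_conjTranspose]
  congr 1
  ext s
  simp

theorem Jm_rel {m d : ℕ} (V : Fin m → Mat d) (x y : Fin m → ℂ) (δX δY E : Mat d)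
    (h : ∀ a, V a * (x a • δY - y a • δX - E) = 0) :
    Dg d x * Jm V * δY - Dg d y * Jm V * δX = Jm V * E := by
  rw [← sub_eq_zero]
  ext s j
  set a := (finProdFinEquiv.symm s).1 with ha
  set b := (finProdFinEquiv.symm s).2 with hb
  have h1 := congrFun (congrFun (h a) b) j
  rw [Matrix.mul_sub, Matrix.mul_sub, Matrix.mul_smul, Matrix.mul_smul] at h1
  simp only [Matrix.sub_apply, Matrix.smul_apply, smul_eq_mul, Matrix.mul_apply,
    Matrix.zero_apply] at h1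
  have e1 : (Dg d x * Jm V * δY) s j = x a * ∑ p, V a b p * δY p j := by
    rw [Matrix.mul_assoc]
    unfold Dg
    rw [Matrix.diagonal_mul, Matrix.mul_apply]
    rfl
  have e2 : (Dg d y * Jm V * δX) s j = y a * ∑ p, V a b p * δX p j := by
    rw [Matrix.mul_assoc]
    unfold Dg
    rw [Matrix.diagonal_mul, Matrix.mul_apply]
    rfl
  have e3 : (Jm V * E) s j = ∑ p, V a b p * E p j := by
    rw [Matrix.mul_apply]
    rfl
  rw [Matrix.sub_apply, Matrix.sub_apply, e1, e2, e3, Matrix.zero_apply]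
  exact h1

/-- the perturbed pair commutes -/
theorem comm_model {n d : ℕ} (X Y : Mat n) (J : Matrix (Fin n) (Fin d) ℂ) (δX δY E : Mat d)
    (hX : Xᴴ = X) (hY : Yᴴ = Y) (hc : X * Y = Y * X) (hδX : δXᴴ = δX) (hδY : δYᴴ = δY)
    (hJ : Jᴴ * J = 1) (hrel : X * J * δY - Y * J * δX = J * E)
    (hE : E - Eᴴ = -(δX * δY - δY * δX)) :
    (X + J * δX * Jᴴ) * (Y + J * δY * Jᴴ) = (Y + J * δY * Jᴴ) * (X + J * δX * Jᴴ) := by
  have hrel2 : δY * Jᴴ * X - δX * Jᴴ * Y = Eᴴ * Jᴴ := by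
    have := congrArg conjTranspose hrel
    simp only [conjTranspose_sub, conjTranspose_mul, hX, hY, hδX, hδY] at this
    simp only [Matrix.mul_assoc]
    exact this
  have e1 : J * δX * Jᴴ * (J * δY * Jᴴ) = J * (δX * δY) * Jᴴ := by
    calc J * δX * Jᴴ * (J * δY * Jᴴ) = J * δX * (Jᴴ * J) * δY * Jᴴ := by
          simp only [Matrix.mul_assoc]
      _ = J * (δX * δY) * Jᴴ := by rw [hJ, Matrix.mul_one]; simp only [Matrix.mul_assoc]
  have e2 : J * δY * Jᴴ * (J * δX * Jᴴ) = J * (δY * δX) * Jᴴ := by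
    calc J * δY * Jᴴ * (J * δX * Jᴴ) = J * δY * (Jᴴ * J) * δX * Jᴴ := by
          simp only [Matrix.mul_assoc]
      _ = J * (δY * δX) * Jᴴ := by rw [hJ, Matrix.mul_one]; simp only [Matrix.mul_assoc]
  rw [← sub_eq_zero]
  have e3 : (X + J * δX * Jᴴ) * (Y + J * δY * Jᴴ) - (Y + J * δY * Jᴴ) * (X + J * δX * Jᴴ) =
      (X * Y - Y * X) + (X * J * δY - Y * J * δX) * Jᴴ - J * (δY * Jᴴ * X - δX * Jᴴ * Y) +
        (J * δX * Jᴴ * (J * δY * Jᴴ) - J * δY * Jᴴ * (J * δX * Jᴴ)) := by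
    simp only [Matrix.add_mul, Matrix.mul_add, Matrix.sub_mul, Matrix.mul_sub, Matrix.mul_assoc]
    abel
  rw [e3, hrel, hrel2, e1, e2, hc, sub_self, zero_add]
  have e4 : J * E * Jᴴ - J * (Eᴴ * Jᴴ) + (J * (δX * δY) * Jᴴ - J * (δY * δX) * Jᴴ) =
      J * ((E - Eᴴ) + (δX * δY - δY * δX)) * Jᴴ := by
    simp only [Matrix.add_mul, Matrix.mul_add, Matrix.sub_mul, Matrix.mul_sub, Matrix.mul_assoc]
  rw [e4, hE, neg_add_cancel, Matrix.mul_zero, Matrix.zero_mul]

/-- powers of diagonalised matrices -/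
theorem diag_pow {n : ℕ} (U : Mat n) (hU : IsU U) (f : Fin n → ℂ) (k : ℕ) :
    (U * diagonal f * Uᴴ) ^ k = U * diagonal (fun i => f i ^ k) * Uᴴ := by
  induction k with
  | zero =>
    simp only [pow_zero]
    have : (diagonal fun _ : Fin n => (1 : ℂ)) = 1 := diagonal_one
    rw [this, Matrix.mul_one, hU.2]
  | succ k ih =>
    rw [pow_succ, ih]
    calc U * diagonal (fun i => f i ^ k) * Uᴴ * (U * diagonal f * Uᴴ)
        = U * (diagonal (fun i => f i ^ k) * (Uᴴ * U) * diagonal f) * Uᴴ := by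
          simp only [Matrix.mul_assoc]
      _ = U * diagonal (fun i => f i ^ (k + 1)) * Uᴴ := by
          rw [hU.1, Matrix.mul_one, diagonal_mul_diagonal]
          simp only [pow_succ]

theorem trace_diag {n : ℕ} (U : Mat n) (hU : IsU U) (f g : Fin n → ℂ) :
    trace ((U * diagonal f * Uᴴ) * (U * diagonal g * Uᴴ)) = ∑ i, f i * g i := by
  have e1 : (U * diagonal f * Uᴴ) * (U * diagonal g * Uᴴ) =
      U * (diagonal (fun i => f i * g i)) * Uᴴ := by
    calc (U * diagonal f * Uᴴ) * (U * diagonal g * Uᴴ)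
        = U * (diagonal f * (Uᴴ * U) * diagonal g) * Uᴴ := by simp only [Matrix.mul_assoc]
      _ = U * (diagonal (fun i => f i * g i)) * Uᴴ := by
          rw [hU.1, Matrix.mul_one, diagonal_mul_diagonal]
  rw [e1, Matrix.trace_mul_comm, ← Matrix.mul_assoc, hU.1, Matrix.one_mul, trace_diagonal]

/-- real and imaginary parts of a diagonalised matrix -/
theorem re_im_diag {n : ℕ} (X Y U : Mat n) (hX : Xᴴ = X) (hY : Yᴴ = Y) (β : Fin n → ℂ)
    (hB : X + Complex.I • Y = U * diagonal β * Uᴴ) :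
    X = U * diagonal (fun i => ((β i).re : ℂ)) * Uᴴ ∧
      Y = U * diagonal (fun i => ((β i).im : ℂ)) * Uᴴ := by
  have hB2 : X - Complex.I • Y = U * diagonal (fun i => conj (β i)) * Uᴴ := by
    have := congrArg conjTranspose hB
    rw [conjTranspose_add, conjTranspose_smul, hX, hY, conjTranspose_mul, conjTranspose_mul,
      conjTranspose_conjTranspose, diagonal_conjTranspose] at this
    have h2 : star Complex.I = -Complex.I := Complex.conj_I
    rw [h2, neg_smul, ← sub_eq_add_neg] at this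
    rw [this, Matrix.mul_assoc]
    rfl
  have hre : ((fun i => ((β i).re : ℂ)) : Fin n → ℂ) = fun i => (1 / 2 : ℂ) * (β i + conj (β i)) := by
    ext i
    rw [Complex.add_conj]
    push_cast
    ring
  have him : ((fun i => ((β i).im : ℂ)) : Fin n → ℂ) =
      fun i => (-Complex.I / 2 : ℂ) * (β i - conj (β i)) := by
    ext i
    rw [Complex.sub_conj]
    push_cast
    linear_combination ((β i).im : ℂ) * Complex.I_mul_I
  constructor
  · have h1 : X = (1 / 2 : ℂ) • ((X + Complex.I • Y) + (X - Complex.I • Y)) := by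
      have : (X + Complex.I • Y) + (X - Complex.I • Y) = (2 : ℂ) • X := by
        rw [two_smul]; abel
      rw [this, smul_smul]
      norm_num
    have h2 : (diagonal fun i => ((β i).re : ℂ)) =
        (1 / 2 : ℂ) • (diagonal β + diagonal (fun i => conj (β i))) := by
      rw [hre, diagonal_add, ← diagonal_smul]
      rfl
    rw [h2, Matrix.mul_smul, Matrix.smul_mul, Matrix.mul_add, Matrix.add_mul, ← hB, ← hB2]
    exact h1
  · have h1 : Y = (-Complex.I / 2 : ℂ) • ((X + Complex.I • Y) - (X - Complex.I • Y)) := by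
      have : (X + Complex.I • Y) - (X - Complex.I • Y) = (2 * Complex.I) • Y := by
        rw [mul_smul, two_smul]; abel
      rw [this, smul_smul]
      have h3 : (-Complex.I / 2 : ℂ) * (2 * Complex.I) = 1 := by
        linear_combination -Complex.I_mul_I
      rw [h3, one_smul]
    have h2 : (diagonal fun i => ((β i).im : ℂ)) =
        (-Complex.I / 2 : ℂ) • (diagonal β - diagonal (fun i => conj (β i))) := by
      rw [him, diagonal_sub, ← diagonal_smul]
      rfl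
    rw [h2, Matrix.mul_smul, Matrix.smul_mul, Matrix.mul_sub, Matrix.sub_mul, ← hB, ← hB2]
    exact h1

/-- Frobenius norm of `J * x` -/
theorem frob {n d r : ℕ} (J : Matrix (Fin n) (Fin d) ℂ) (hJ : Jᴴ * J = 1)
    (x : Matrix (Fin d) (Fin r) ℂ) (k : Fin r) :
    ∑ i, ‖(J * x) i k‖ ^ 2 = ∑ i, ‖x i k‖ ^ 2 := by
  have h1 : ∀ {p : ℕ} (A : Matrix (Fin p) (Fin r) ℂ), (Aᴴ * A) k k = ((∑ i, ‖A i k‖ ^ 2 : ℝ) : ℂ) := by
    intro p A
    rw [Matrix.mul_apply]
    push_cast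
    apply Finset.sum_congr rfl
    intro i _
    rw [conjTranspose_apply]
    exact Complex.conj_mul' _
  have h2 : (J * x)ᴴ * (J * x) = xᴴ * x := by
    rw [conjTranspose_mul]
    calc xᴴ * Jᴴ * (J * x) = xᴴ * (Jᴴ * J) * x := by simp only [Matrix.mul_assoc]
      _ = xᴴ * x := by rw [hJ, Matrix.mul_one]
  have h3 := h1 (J * x)
  rw [h2, h1 x] at h3
  exact_mod_cast h3.symm

/-- a unit vector is not shortened by more than ... : `|J^* v| ≤ |v|` -/
theorem jh_le {n d : ℕ} (J : Matrix (Fin n) (Fin d) ℂ) (hJ : Jᴴ * J = 1) (v : Fin n → ℂ) :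
    ∑ i, ‖(Jᴴ *ᵥ v) i‖ ^ 2 ≤ ∑ i, ‖v i‖ ^ 2 := by
  have h1 : ∀ {p : ℕ} (u : Fin p → ℂ), star u ⬝ᵥ u = ((∑ i, ‖u i‖ ^ 2 : ℝ) : ℂ) := by
    intro p u
    rw [dotProduct]
    push_cast
    apply Finset.sum_congr rfl
    intro i _
    rw [Pi.star_apply]
    exact Complex.conj_mul' _
  set w := Jᴴ *ᵥ v with hw
  set u := v - J *ᵥ w with hu
  have e1 : star (J *ᵥ w) ⬝ᵥ (J *ᵥ w) = star w ⬝ᵥ w := by
    rw [star_mulVec, ← dotProduct_mulVec, mulVec_mulVec, hJ, one_mulVec]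
  have e2 : star (J *ᵥ w) ⬝ᵥ v = star w ⬝ᵥ w := by
    rw [star_mulVec, ← dotProduct_mulVec]
  have e3 : star v ⬝ᵥ (J *ᵥ w) = star w ⬝ᵥ w := by
    have : star v ⬝ᵥ (J *ᵥ w) = star (Jᴴ *ᵥ v) ⬝ᵥ w := by
      rw [star_mulVec, conjTranspose_conjTranspose, ← dotProduct_mulVec]
    rw [this]
  have e4 : star u ⬝ᵥ u = star v ⬝ᵥ v - star w ⬝ᵥ w := by
    rw [hu, star_sub, sub_dotProduct, dotProduct_sub, dotProduct_sub, e1, e2, e3]
    ring
  rw [h1, h1, h1] at e4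
  have e5 : ∑ i, ‖u i‖ ^ 2 = ∑ i, ‖v i‖ ^ 2 - ∑ i, ‖w i‖ ^ 2 := by exact_mod_cast e4
  have e6 : 0 ≤ ∑ i, ‖u i‖ ^ 2 := Finset.sum_nonneg fun i _ => by positivity
  linarith

/-- bound for eigenvalues of a finite rank perturbation of a diagonal matrix -/
theorem eig_bound {n d : ℕ} (J : Matrix (Fin n) (Fin d) ℂ) (hJ : Jᴴ * J = 1) (δ : Mat d)
    (α : Fin n → ℂ) (R D : ℝ) (hD0 : 0 ≤ D) (hα : ∀ i, ‖α i‖ ≤ R)
    (hD : ∀ w : Fin d → ℂ, ‖star w ⬝ᵥ (δ *ᵥ w)‖ ≤ D * ∑ i, ‖w i‖ ^ 2)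
    (U : Mat n) (hU : IsU U) (β : Fin n → ℂ)
    (hB : diagonal α + J * δ * Jᴴ = U * diagonal β * Uᴴ) (j : Fin n) : ‖β j‖ ≤ R + D := by
  set v : Fin n → ℂ := fun i => U i j with hv
  have hv1 : ∑ i, ‖v i‖ ^ 2 = 1 := by
    have := congrFun (congrFun hU.1 j) j
    rw [Matrix.mul_apply, Matrix.one_apply_eq] at this
    have h2 : ∑ i, Uᴴ j i * U i j = ((∑ i, ‖v i‖ ^ 2 : ℝ) : ℂ) := by
      push_cast
      apply Finset.sum_congr rfl
      intro i _
      rw [conjTranspose_apply]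
      exact Complex.conj_mul' _
    rw [h2] at this
    exact_mod_cast this
  have hBv : (diagonal α + J * δ * Jᴴ) *ᵥ v = β j • v := by
    have hvU : v = U *ᵥ (Pi.single j 1) := by
      ext i
      simp [hv, Matrix.mulVec_single]
    rw [hB, hvU, mulVec_mulVec, Matrix.mul_assoc, Matrix.mul_assoc, hU.1, Matrix.mul_one,
      ← mulVec_mulVec]
    have : diagonal β *ᵥ (Pi.single j 1) = β j • (Pi.single j 1 : Fin n → ℂ) := by
      ext i
      rw [mulVec_diagonal]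
      by_cases h : i = j
      · subst h; simp
      · simp [h]
    rw [this, mulVec_smul]
  have h1 : star v ⬝ᵥ ((diagonal α + J * δ * Jᴴ) *ᵥ v) = β j := by
    rw [hBv, dotProduct_smul]
    have : star v ⬝ᵥ v = ((∑ i, ‖v i‖ ^ 2 : ℝ) : ℂ) := by
      rw [dotProduct]
      push_cast
      apply Finset.sum_congr rfl
      intro i _
      rw [Pi.star_apply]
      exact Complex.conj_mul' _
    rw [this, hv1]
    simp
  have h2 : star v ⬝ᵥ ((diagonal α + J * δ * Jᴴ) *ᵥ v) =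
      star v ⬝ᵥ (diagonal α *ᵥ v) + star (Jᴴ *ᵥ v) ⬝ᵥ (δ *ᵥ (Jᴴ *ᵥ v)) := by
    rw [add_mulVec, dotProduct_add]
    congr 1
    rw [star_mulVec, conjTranspose_conjTranspose, ← dotProduct_mulVec, mulVec_mulVec,
      mulVec_mulVec, Matrix.mul_assoc]
  have h3 : ‖star v ⬝ᵥ (diagonal α *ᵥ v)‖ ≤ R := by
    calc ‖star v ⬝ᵥ (diagonal α *ᵥ v)‖ ≤ ∑ i, ‖star v i * (diagonal α *ᵥ v) i‖ := norm_sum_le _ _
      _ ≤ ∑ i, R * ‖v i‖ ^ 2 := by
          apply Finset.sum_le_sum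
          intro i _
          rw [mulVec_diagonal, norm_mul, norm_mul, Pi.star_apply, norm_star]
          have := hα i
          have h0 := norm_nonneg (v i)
          nlinarith [mul_le_mul_of_nonneg_right this (mul_nonneg h0 h0)]
      _ = R := by rw [← Finset.mul_sum, hv1, mul_one]
  have h4 : ‖star (Jᴴ *ᵥ v) ⬝ᵥ (δ *ᵥ (Jᴴ *ᵥ v))‖ ≤ D := by
    calc ‖star (Jᴴ *ᵥ v) ⬝ᵥ (δ *ᵥ (Jᴴ *ᵥ v))‖ ≤ D * ∑ i, ‖(Jᴴ *ᵥ v) i‖ ^ 2 := hD _
      _ ≤ D * 1 := by
          gcongr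
          rw [← hv1]
          exact jh_le J hJ v
      _ = D := mul_one D
  rw [← h1, h2]
  exact (norm_add_le _ _).trans (add_le_add h3 h4)

end WAux

end Pool.FR
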