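import Pool.Agent.Work.FiniteRankNormal.WB
import Pool.Agent.Work.FiniteRankNormal.WC

open Matrix
open scoped ComplexConjugate ComplexOrder

namespace Pool.FR

universe v

namespace WAux

/-- compression in the matrix model -/
noncomputable def Mmat {n d : ℕ} (J : Matrix (Fin n) (Fin d) ℂ) : Mat n →+ Mat d where
  toFun T := Jᴴ * T * J
  map_zero' := by rw [Matrix.mul_zero, Matrix.zero_mul]
  map_add' S T := by rw [Matrix.mul_add, Matrix.add_mul]

theorem Mmat_apply {n d : ℕ} (J : Matrix (Fin n) (Fin d) ℂ) (T : Mat n) :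
    Mmat J T = Jᴴ * T * J := rfl

theorem Mmat_J {n d : ℕ} (J : Matrix (Fin n) (Fin d) ℂ) (A B : Mat n) (δ : Mat d) :
    Mmat J (A * (J * δ * Jᴴ) * B) = Mmat J A * δ * Mmat J B := by
  simp only [Mmat_apply, Matrix.mul_assoc]

theorem trace_J {n d : ℕ} (J : Matrix (Fin n) (Fin d) ℂ) (A B : Mat n) (δ : Mat d) :
    trace (A * (J * δ * Jᴴ) * B) = trace (δ * Mmat J (B * A)) := by
  rw [Mmat_apply]
  have e1 : A * (J * δ * Jᴴ) * B = (A * J) * (δ * (Jᴴ * B)) := by simp only [Matrix.mul_assoc]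
  rw [e1, Matrix.trace_mul_comm]
  simp only [Matrix.mul_assoc]

open scoped MatrixOrder Matrix.Norms.L2Operator in
theorem psd_fact {d : ℕ} {W : Mat d} (hW : W.PosSemidef) : ∃ V : Mat d, W = Vᴴ * V :=
  (CStarAlgebra.nonneg_iff_eq_star_mul_self (a := W)).mp (Matrix.nonneg_iff_posSemidef.mpr hW)

/-- the matrix model: final form -/
theorem matModel (hS : Stmt_S) {d : ℕ} (δX δY E : Mat d) (hδX : δXᴴ = δX) (hδY : δYᴴ = δY)
    (hE : E - Eᴴ = -(δX * δY - δY * δX)) (m : ℕ) (x y : Fin m → ℝ) (W : Fin m → Mat d)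
    (hW : ∀ a, (W a).PosSemidef)
    (hWR : ∀ a, W a * ((x a : ℂ) • δY - (y a : ℂ) • δX - E) = 0) (hW1 : ∑ a, W a = 1)
    (R D : ℝ) (hD0 : 0 ≤ D) (hR : ∀ a, ‖(⟨x a, y a⟩ : ℂ)‖ ≤ R)
    (hD : ∀ w : Fin d → ℂ, ‖star w ⬝ᵥ ((δX + Complex.I • δY) *ᵥ w)‖ ≤ D * ∑ i, ‖w i‖ ^ 2) :
    ∃ (n : ℕ) (X Y : Mat n) (J : Matrix (Fin n) (Fin d) ℂ) (U : Mat n) (α β : Fin n → ℂ),
      X * Y = Y * X ∧ Jᴴ * J = 1 ∧ IsU U ∧
      (∀ k k' : ℕ, Mmat J (X ^ k * Y ^ k') = ∑ a, ((x a : ℂ) ^ k * (y a : ℂ) ^ k') • W a) ∧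
      X + Complex.I • Y = 1 * diagonal α * (1 : Mat n)ᴴ ∧
      (X + J * δX * Jᴴ) + Complex.I • (Y + J * δY * Jᴴ) = U * diagonal β * Uᴴ ∧
      (∀ i, ‖α i‖ ≤ R) ∧ (∀ j, ‖β j‖ ≤ R + D) ∧
      (∀ k k' : ℕ, trace ((X + J * δX * Jᴴ) ^ k * (Y + J * δY * Jᴴ) ^ k' - X ^ k * Y ^ k') =
        ((∑ j, (β j).re ^ k * (β j).im ^ k' - ∑ i, (α i).re ^ k * (α i).im ^ k' : ℝ) : ℂ)) := by
  classical
  have hV : ∀ a, ∃ V : Mat d, W a = Vᴴ * V := fun a => psd_fact (hW a)
  choose V hV using hV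
  set X : Mat (m * d) := Dg d (fun a => (x a : ℂ)) with hX
  set Y : Mat (m * d) := Dg d (fun a => (y a : ℂ)) with hY
  set J := Jm V with hJ
  have hmom : ∀ k k' : ℕ, Mmat J (X ^ k * Y ^ k') = ∑ a, ((x a : ℂ) ^ k * (y a : ℂ) ^ k') • W a := by
    intro k k'
    rw [Mmat_apply, hX, hY, Dg_pow, Dg_pow, Dg_mul, hJ, Jm_Dg_Jm]
    exact Finset.sum_congr rfl fun a _ => by rw [hV a]
  have hJ1 : Jᴴ * J = 1 := by
    have := hmom 0 0
    rw [Mmat_apply] at this
    simp only [pow_zero, mul_one, one_smul, Matrix.mul_one] at this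
    rw [this, hW1]
  have hXh : Xᴴ = X := Dg_ct x
  have hYh : Yᴴ = Y := Dg_ct y
  have hc : X * Y = Y * X := by
    rw [hX, hY, Dg_mul, Dg_mul]
    congr 1
    ext a
    ring
  have hrel : X * J * δY - Y * J * δX = J * E := by
    apply Jm_rel
    intro a
    have h1 := hWR a
    rw [hV a] at h1
    rwa [Matrix.conjTranspose_mul_self_mul_eq_zero] at h1
  have hc2 := comm_model X Y J δX δY E hXh hYh hc hδX hδY hJ1 hrel hE
  set X2 := X + J * δX * Jᴴ with hX2
  set Y2 := Y + J * δY * Jᴴ with hY2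
  have hX2h : X2ᴴ = X2 := by
    rw [hX2, conjTranspose_add, conjTranspose_mul, conjTranspose_mul, conjTranspose_conjTranspose,
      hδX, hXh, Matrix.mul_assoc]
  have hY2h : Y2ᴴ = Y2 := by
    rw [hY2, conjTranspose_add, conjTranspose_mul, conjTranspose_mul, conjTranspose_conjTranspose,
      hδY, hYh, Matrix.mul_assoc]
  obtain ⟨U, β, hU, hβ⟩ := hS (m * d) (X2 + Complex.I • Y2) (by
    rw [conjTranspose_add, conjTranspose_smul, hX2h, hY2h]
    have h2 : star Complex.I = -Complex.I := Complex.conj_I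
    rw [h2]
    simp only [Matrix.add_mul, Matrix.mul_add, Matrix.smul_mul, Matrix.mul_smul, hc2]
    module)
  set α : Fin (m * d) → ℂ := fun s => ⟨x (finProdFinEquiv.symm s).1, y (finProdFinEquiv.symm s).1⟩ with hα
  have hA : X + Complex.I • Y = diagonal α := by
    rw [hX, hY]
    unfold Dg
    ext i j
    by_cases h : i = j
    · subst h
      simp only [Matrix.add_apply, Matrix.smul_apply, diagonal_apply_eq, smul_eq_mul, hα]
      apply Complex.ext <;> simp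
    · simp [h]
  refine ⟨m * d, X, Y, J, U, α, β, hc, hJ1, hU, hmom, ?_, hβ, fun s => hR _, ?_, ?_⟩
  · rw [hA, conjTranspose_one, Matrix.one_mul, Matrix.mul_one]
  · intro j
    refine eig_bound J hJ1 (δX + Complex.I • δY) α R D hD0 (fun s => hR _) hD U hU β ?_ j
    rw [← hβ, ← hA, hX2, hY2, Matrix.mul_add, Matrix.add_mul, Matrix.mul_smul, Matrix.smul_mul]
    module
  · intro k k'
    obtain ⟨hre, him⟩ := re_im_diag X2 Y2 U hX2h hY2h β hβ
    rw [trace_sub]
    have e1 : trace (X2 ^ k * Y2 ^ k') = ∑ j, ((β j).re : ℂ) ^ k * ((β j).im : ℂ) ^ k' := by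
      conv_lhs => rw [hre, him]
      rw [diag_pow U hU, diag_pow U hU, trace_diag U hU]
    have e2 : trace (X ^ k * Y ^ k') = ∑ s, ((α s).re : ℂ) ^ k * ((α s).im : ℂ) ^ k' := by
      rw [hX, hY, Dg_pow, Dg_pow, Dg_mul]
      unfold Dg
      rw [trace_diagonal]
    rw [e1, e2]
    push_cast
    rfl

variable {H : Type v} [NormedAddCommGroup H] [InnerProductSpace ℂ H]

theorem Jop_l {d : ℕ} (l : Fin d → H) (hl : Orthonormal ℂ l) (δ : Mat d) (j : Fin d) :
    Jop l δ (l j) = ∑ i, δ i j • l i := by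
  classical
  rw [Jop_apply]
  apply Finset.sum_congr rfl
  intro i _
  have h := orthonormal_iff_ite.mp hl
  rw [Finset.sum_eq_single j]
  · rw [h j j, if_pos rfl, mul_one]
  · intro p _ hp
    rw [h p j, if_neg hp, mul_zero, zero_smul]
  · intro h; exact absurd (Finset.mem_univ _) h

theorem Jop_T {d : ℕ} (l : Fin d → H) (δ : Mat d) (T : H →L[ℂ] H) (j : Fin d) :
    Jop l δ (T (l j)) = ∑ i, (δ * Mop l T) i j • l i := by
  rw [Jop_apply]
  apply Finset.sum_congr rfl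
  intro i _
  rw [← Finset.sum_smul, Matrix.mul_apply]
  rfl

theorem Jop_mul {d : ℕ} (l : Fin d → H) (hl : Orthonormal ℂ l) (δ ε : Mat d) :
    Jop l δ * Jop l ε = Jop l (δ * ε) := by
  ext h
  rw [mul_apply_eq_comp]
  have e1 : Jop l ε h = ∑ i, (∑ j, ε i j * inner ℂ (l j) h) • l i := by
    rw [Jop_apply]
    exact Finset.sum_congr rfl fun i _ => by rw [Finset.sum_smul]
  have e2 : ∀ p, inner ℂ (l p) (Jop l ε h) = ∑ j, ε p j * inner ℂ (l j) h := by
    intro p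
    rw [e1]
    exact hl.inner_right_fintype _ p
  rw [Jop_apply l δ, Jop_apply l (δ * ε)]
  apply Finset.sum_congr rfl
  intro i _
  rw [← Finset.sum_smul, ← Finset.sum_smul]
  congr 1
  simp only [e2, Matrix.mul_apply, Finset.mul_sum, Finset.sum_mul]
  rw [Finset.sum_comm]
  apply Finset.sum_congr rfl
  intro j _
  apply Finset.sum_congr rfl
  intro p _
  ring

theorem Mop_ct [CompleteSpace H] {d : ℕ} (l : Fin d → H) (T : H →L[ℂ] H) (hT : IsSelfAdjoint T) :
    (Mop l T)ᴴ = Mop l T := by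
  ext i j
  rw [conjTranspose_apply, Mop_apply, Mop_apply]
  have h1 : star (inner ℂ (l j) (T (l i))) = inner ℂ (T (l i)) (l j) := inner_conj_symm _ _
  rw [h1, ← ContinuousLinearMap.adjoint_inner_right]
  have h2 : ContinuousLinearMap.adjoint T = T := hT
  rw [h2]

end WAux

open WAux in
theorem stmt_W (hS : Stmt_S) (hFD : Stmt_FD) (hT : Stmt_T.{v}) : Stmt_W.{v} := by
  obtain ⟨C, hC, hFD⟩ := hFD
  refine ⟨C, hC, ?_⟩
  intro H _ _ _ X₁ Y₁ X₂ Y₂ hX1 hY1 hX2 hY2 hc1 hc2 r x y hD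
  obtain ⟨d, l, hl, hx, hy⟩ := exists_onb r x y
  set xc : Matrix (Fin d) (Fin r) ℂ := Matrix.of fun i k => inner ℂ (l i) (x k) with hxc
  set yc : Matrix (Fin d) (Fin r) ℂ := Matrix.of fun i k => inner ℂ (l i) (y k) with hyc
  have hJ : Jop l (xc * ycᴴ) = (X₂ + Complex.I • Y₂) - (X₁ + Complex.I • Y₁) := by
    rw [hD, hxc, hyc]
    exact Jop_xy l x y hx hy
  have hJ' : Jop l (yc * xcᴴ) = (X₂ - Complex.I • Y₂) - (X₁ - Complex.I • Y₁) := by
    have h1 : Jop l (yc * xcᴴ) = ∑ k, InnerProductSpace.rankOne ℂ (y k) (x k) := by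
      rw [hxc, hyc]
      exact Jop_xy l y x hy hx
    have h2 := congrArg star hD
    rw [star_sum] at h2
    have h3 : ∀ k, star (InnerProductSpace.rankOne ℂ (x k) (y k)) =
        InnerProductSpace.rankOne ℂ (y k) (x k) := by
      intro k
      rw [ContinuousLinearMap.star_eq_adjoint, InnerProductSpace.adjoint_rankOne]
    rw [Finset.sum_congr rfl fun k _ => h3 k] at h2
    rw [h1, ← h2, star_sub, star_add, star_add, star_smul, star_smul, hX1.star_eq, hY1.star_eq,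
      hX2.star_eq, hY2.star_eq]
    have h4 : star Complex.I = -Complex.I := Complex.conj_I
    rw [h4]
    module
  set δX : Mat d := (1 / 2 : ℂ) • (xc * ycᴴ + yc * xcᴴ) with hδX
  set δY : Mat d := (-Complex.I / 2 : ℂ) • (xc * ycᴴ - yc * xcᴴ) with hδY
  have hδ : δX + Complex.I • δY = xc * ycᴴ := by
    rw [hδX, hδY, smul_smul]
    have h3 : (Complex.I * (-Complex.I / 2) : ℂ) = 1 / 2 := by
      linear_combination (-1 / 2 : ℂ) * Complex.I_mul_I
    rw [h3]
    module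
  have hδXh : δXᴴ = δX := by
    rw [hδX, conjTranspose_smul, conjTranspose_add, conjTranspose_mul, conjTranspose_mul,
      conjTranspose_conjTranspose, conjTranspose_conjTranspose]
    have h4 : star (1 / 2 : ℂ) = 1 / 2 := by simp
    rw [h4, add_comm]
  have hδYh : δYᴴ = δY := by
    rw [hδY, conjTranspose_smul, conjTranspose_sub, conjTranspose_mul, conjTranspose_mul,
      conjTranspose_conjTranspose, conjTranspose_conjTranspose]
    have h4 : star (-Complex.I / 2 : ℂ) = Complex.I / 2 := by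
      simp
    rw [h4]
    module
  have hX : X₂ = X₁ + Jop l δX := by
    rw [hδX, Jop_smul, Jop_add, hJ, hJ']
    module
  have hY : Y₂ = Y₁ + Jop l δY := by
    rw [hδY, Jop_smul, Jop_sub, hJ, hJ']
    have h1 : X₂ + Complex.I • Y₂ - (X₁ + Complex.I • Y₁) - (X₂ - Complex.I • Y₂ - (X₁ - Complex.I • Y₁)) =
        (2 * Complex.I) • (Y₂ - Y₁) := by module
    rw [h1, smul_smul]
    have h3 : (-Complex.I / 2 : ℂ) * (2 * Complex.I) = 1 := by
      linear_combination -Complex.I_mul_I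
    rw [h3, one_smul]
    abel
  clear_value δX δY
  -- the relation
  set E : Mat d := δY * Mop l X₁ - δX * Mop l Y₁ - (δX * δY - δY * δX) with hEdef
  have hop : X₁ * Jop l δY - Y₁ * Jop l δX =
      Jop l δY * X₁ - Jop l δX * Y₁ - (Jop l (δX * δY) - Jop l (δY * δX)) := by
    have h1 := hc2
    rw [hX, hY] at h1
    rw [← Jop_mul l hl, ← Jop_mul l hl]
    have h2 : X₁ * Jop l δY - Y₁ * Jop l δX -
        (Jop l δY * X₁ - Jop l δX * Y₁ - (Jop l δX * Jop l δY - Jop l δY * Jop l δX)) =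
        ((X₁ + Jop l δX) * (Y₁ + Jop l δY) - (Y₁ + Jop l δY) * (X₁ + Jop l δX)) -
          (X₁ * Y₁ - Y₁ * X₁) := by noncomm_ring
    rw [← sub_eq_zero, h2, h1, hc1, sub_self, sub_self, sub_self]
  have hE1 : ∀ j, X₁ (∑ i, δY i j • l i) - Y₁ (∑ i, δX i j • l i) = ∑ i, E i j • l i := by
    intro j
    have h1 := congrArg (fun T : H →L[ℂ] H => T (l j)) hop
    simp only [_root_.sub_apply, mul_apply_eq_comp] at h1
    rw [Jop_l l hl, Jop_l l hl, Jop_l l hl, Jop_l l hl, Jop_T, Jop_T] at h1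
    rw [h1, hEdef]
    simp only [Matrix.sub_apply, sub_smul, Finset.sum_sub_distrib]
  have hE2 : E = Mop l X₁ * δY - Mop l Y₁ * δX := by
    ext i j
    have h1 := congrArg (fun h => inner ℂ (l i) h) (hE1 j)
    simp only [inner_sub_right, map_sum, map_smul, inner_sum, inner_smul_right] at h1
    have h2 : ∑ p, E p j * inner ℂ (l i) (l p) = E i j := by
      have h3 := hl.inner_right_fintype (fun p => E p j) i
      simp only [inner_sum, inner_smul_right] at h3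
      exact h3
    rw [h2] at h1
    rw [← h1, Matrix.sub_apply, Matrix.mul_apply, Matrix.mul_apply]
    congr 1
    · exact Finset.sum_congr rfl fun p _ => by rw [Mop_apply, mul_comm]
    · exact Finset.sum_congr rfl fun p _ => by rw [Mop_apply, mul_comm]
  have hE3 : E - Eᴴ = -(δX * δY - δY * δX) := by
    have h1 : Eᴴ = δY * Mop l X₁ - δX * Mop l Y₁ := by
      rw [hE2, conjTranspose_sub, conjTranspose_mul, conjTranspose_mul, hδXh, hδYh,
        Mop_ct l X₁ hX1, Mop_ct l Y₁ hY1]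
    rw [h1, hEdef]
    abel
  -- the model
  set N1 := X₁ + Complex.I • Y₁ with hN1
  set Dm := (X₂ + Complex.I • Y₂) - N1 with hDm
  have hmodel : ∀ Nn : ℕ, ∃ (n : ℕ) (α β : Fin n → ℂ), (∀ i, ‖α i‖ ≤ ‖N1‖) ∧
      (∀ j, ‖β j‖ ≤ ‖N1‖ + ‖Dm‖) ∧
      (∀ k k' : ℕ, k + k' ≤ Nn → cc (Mop l) δX δY X₁ Y₁ X₂ Y₂ k k' =
        ((∑ j, (β j).re ^ k * (β j).im ^ k' - ∑ i, (α i).re ^ k * (α i).im ^ k' : ℝ) : ℂ)) ∧
      ∀ (K : NNReal) (f : ℂ → ℝ), LipschitzWith K f →
        |∑ j, f (β j) - ∑ i, f (α i)| ≤ C * r * K * ∑ k, (‖x k‖ ^ 2 + ‖y k‖ ^ 2) := by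
    intro Nn
    obtain ⟨m, xx, yy, W, hb, hpsd, hWR, hmom⟩ := hT H X₁ Y₁ hX1 hY1 hc1 d l hl δX δY E hE1 Nn
    have hW1 : ∑ a, W a = 1 := by
      have := hmom 0 0 (Nat.zero_le _) (Nat.zero_le _)
      simp only [pow_zero, mul_one, one_smul] at this
      rw [this]
      ext i j
      have h := orthonormal_iff_ite.mp hl i j
      rw [Matrix.one_apply]
      exact h
    have hquad : ∀ w : Fin d → ℂ, ‖star w ⬝ᵥ ((δX + Complex.I • δY) *ᵥ w)‖ ≤ ‖Dm‖ * ∑ i, ‖w i‖ ^ 2 := by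
      intro w
      have h1 := norm_quad_le l hl (xc * ycᴴ) w
      rw [hJ] at h1
      rw [hδ]
      exact h1
    obtain ⟨n, X, Y, J, U, α, β, hXY, hJJ, hU, hmomM, hA, hB, hα, hβ, htr⟩ :=
      matModel hS δX δY E hδXh hδYh hE3 m xx yy W hpsd hWR hW1 ‖N1‖ ‖Dm‖ (norm_nonneg _) hb hquad
    refine ⟨n, α, β, hα, hβ, ?_, ?_⟩
    · intro k k' hk
      rw [← htr k k', hX, hY]
      rw [cc_eq (Mop l) (Mmat J) (Jop l) (fun δ => J * δ * Jᴴ) (Mop_mul_Jop_mul l) (Mmat_J J)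
        δX δY X₁ Y₁ X Y hc1 hXY Nn ?_ k k' hk]
      · exact (tr_cc (Mmat J) (fun δ => J * δ * Jᴴ) (fun T c => trace T = c) (trace_zero _ _)
          (fun a b x y ha hb => by rw [trace_add, ha, hb]) (trace_J J) δX δY X Y _ _ rfl rfl
          k k').symm
      · intro p q hp hq
        rw [hmomM p q, hmom p q hp hq]
        rfl
    · intro K f hf
      have h1 : IsU (1 : Mat n) := by
        constructor <;> rw [conjTranspose_one, Matrix.one_mul]
      have h2 := hFD n r (X + Complex.I • Y)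
        ((X + J * δX * Jᴴ) + Complex.I • (Y + J * δY * Jᴴ)) 1 U α β (J * xc) (J * yc) h1 hU hA hB
        (by
          rw [conjTranspose_mul]
          have e1 : J * xc * (ycᴴ * Jᴴ) = J * (xc * ycᴴ) * Jᴴ := by simp only [Matrix.mul_assoc]
          rw [e1, ← hδ, Matrix.mul_add, Matrix.add_mul, Matrix.mul_smul, Matrix.smul_mul]
          module) K f hf
      have h3 : ∑ i, ∑ k, (‖(J * xc) i k‖ ^ 2 + ‖(J * yc) i k‖ ^ 2) = ∑ k, (‖x k‖ ^ 2 + ‖y k‖ ^ 2) := by
        rw [Finset.sum_comm]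
        apply Finset.sum_congr rfl
        intro k _
        rw [Finset.sum_add_distrib, frob J hJJ, frob J hJJ, norm_sq_eq l hl (x k) (hx k),
          norm_sq_eq l hl (y k) (hy k)]
        rfl
      rw [h3] at h2
      exact h2
  have hreal : ∀ k k', ((cc (Mop l) δX δY X₁ Y₁ X₂ Y₂ k k').re : ℂ) =
      cc (Mop l) δX δY X₁ Y₁ X₂ Y₂ k k' := by
    intro k k'
    obtain ⟨n, α, β, _, _, h, _⟩ := hmodel (k + k')
    rw [h k k' le_rfl, Complex.ofReal_re]
  refine ⟨fun k k' => (cc (Mop l) δX δY X₁ Y₁ X₂ Y₂ k k').re, ?_, ?_⟩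
  · intro k k'
    rw [hreal k k']
    exact tr_cc (Mop l) (Jop l) HasTr hasTr_zero (fun a b x y ha hb => hasTr_add ha hb)
      (fun A B δ => hasTr_Jop l A B δ) δX δY X₁ Y₁ X₂ Y₂ hX hY k k'
  · intro p K hp
    obtain ⟨n, α, β, hα, hβ, hcc, hlip⟩ := hmodel p.totalDegree
    obtain ⟨f, hf, hfeq⟩ := hp.extend_real
    have h1 := hlip K f hf
    have hev : ∀ z : ℂ, MvPolynomial.eval ![z.re, z.im] p =
        ∑ m ∈ p.support, p.coeff m * (z.re ^ m 0 * z.im ^ m 1) := by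
      intro z
      rw [MvPolynomial.eval_eq']
      apply Finset.sum_congr rfl
      intro m _
      rw [Fin.prod_univ_two]
      rfl
    have h2 : ∑ m ∈ p.support, p.coeff m * (cc (Mop l) δX δY X₁ Y₁ X₂ Y₂ (m 0) (m 1)).re =
        ∑ j, f (β j) - ∑ i, f (α i) := by
      have e1 : ∀ j, f (β j) = ∑ m ∈ p.support, p.coeff m * ((β j).re ^ m 0 * (β j).im ^ m 1) := by
        intro j
        rw [← hev, ← hfeq (by rw [mem_closedBall_zero_iff]; exact hβ j)]
      have e2 : ∀ i, f (α i) = ∑ m ∈ p.support, p.coeff m * ((α i).re ^ m 0 * (α i).im ^ m 1) := by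
        intro i
        rw [← hev, ← hfeq (by
          rw [mem_closedBall_zero_iff]
          exact (hα i).trans (le_add_of_nonneg_right (norm_nonneg _)))]
      rw [Finset.sum_congr rfl fun j _ => e1 j, Finset.sum_congr rfl fun i _ => e2 i,
        Finset.sum_comm, Finset.sum_comm (s := Finset.univ) (t := p.support)
          (f := fun i m => p.coeff m * ((α i).re ^ m 0 * (α i).im ^ m 1)), ← Finset.sum_sub_distrib]
      apply Finset.sum_congr rfl
      intro m hm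
      have hdeg : m 0 + m 1 ≤ p.totalDegree := by
        have := MvPolynomial.le_totalDegree hm
        rwa [Finsupp.sum_fintype _ _ (fun _ => rfl), Fin.sum_univ_two] at this
      rw [hcc (m 0) (m 1) hdeg, Complex.ofReal_re, mul_sub, Finset.mul_sum, Finset.mul_sum]
    show |∑ m ∈ p.support, p.coeff m * (cc (Mop l) δX δY X₁ Y₁ X₂ Y₂ (m 0) (m 1)).re| ≤ _
    rw [h2]
    exact h1

end Pool.FR
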