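import Pool.Agent.Work.FiniteRankNormal.S
import Pool.Agent.Work.FiniteRankNormal.U
import Pool.Agent.Work.FiniteRankNormal.L
import Pool.Agent.Work.FiniteRankNormal.P
import Pool.Agent.Work.FiniteRankNormal.V
import Pool.Agent.Work.FiniteRankNormal.G
import Pool.Agent.Work.FiniteRankNormal.FD
import Pool.Agent.Work.FiniteRankNormal.T
import Pool.Agent.Work.FiniteRankNormal.W
import Pool.Agent.Work.FiniteRankNormal.R
import Pool.Agent.Work.FiniteRankNormal.F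

/-!
# Finite rank perturbations of normal operators: assembly
-/

open MeasureTheory
open scoped ComplexOrder InnerProductSpace

namespace Pool.FR

universe v

/-- the balanced representation of a finite rank operator -/
lemma balance {H : Type v} [NormedAddCommGroup H] [InnerProductSpace ℂ H] (u v : H) :
    ∃ u' v' : H, InnerProductSpace.rankOne ℂ u' v' = InnerProductSpace.rankOne ℂ u v ∧
      ‖u'‖ ^ 2 + ‖v'‖ ^ 2 = 2 * (‖u‖ * ‖v‖) := by
  by_cases hu : u = 0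
  · refine ⟨0, 0, ?_, ?_⟩
    · rw [hu]; simp
    · rw [hu]; simp
  by_cases hv : v = 0
  · refine ⟨0, 0, ?_, ?_⟩
    · rw [hv]; simp
    · rw [hv]; simp
  have hu' : 0 < ‖u‖ := norm_pos_iff.2 hu
  have hv' : 0 < ‖v‖ := norm_pos_iff.2 hv
  set a : ℝ := Real.sqrt (‖v‖ / ‖u‖) with ha
  set b : ℝ := Real.sqrt (‖u‖ / ‖v‖) with hb
  have ha2 : a ^ 2 = ‖v‖ / ‖u‖ := Real.sq_sqrt (by positivity)
  have hb2 : b ^ 2 = ‖u‖ / ‖v‖ := Real.sq_sqrt (by positivity)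
  have hab : a * b = 1 := by
    rw [ha, hb, ← Real.sqrt_mul (by positivity)]
    have : ‖v‖ / ‖u‖ * (‖u‖ / ‖v‖) = 1 := by field_simp
    rw [this, Real.sqrt_one]
  refine ⟨(a : ℂ) • u, (b : ℂ) • v, ?_, ?_⟩
  · ext z
    rw [InnerProductSpace.rankOne_apply, InnerProductSpace.rankOne_apply, inner_smul_left,
      smul_smul, Complex.conj_ofReal]
    congr 1
    have : (a : ℂ) * (b : ℂ) = 1 := by exact_mod_cast hab
    linear_combination (inner ℂ v z) * this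
  · rw [norm_smul, norm_smul, mul_pow, mul_pow, Complex.norm_real, Complex.norm_real,
      Real.norm_eq_abs, Real.norm_eq_abs, sq_abs, sq_abs, ha2, hb2]
    field_simp
    ring

theorem final (hW : Stmt_W.{v}) (hR : Stmt_R) (hF : Stmt_F.{v}) :
    ∃ C : ℝ, ∀ (H : Type v) [NormedAddCommGroup H] [InnerProductSpace ℂ H] [CompleteSpace H]
      (N₁ N₂ : H →L[ℂ] H), IsStarNormal N₁ → IsStarNormal N₂ →
      ∀ (r : ℕ) (x y : Fin r → H), N₂ - N₁ = ∑ k, InnerProductSpace.rankOne ℂ (x k) (y k) →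
      ∃ μ : Fin 4 → Measure ℂ, (∀ i, IsFiniteMeasure (μ i)) ∧
        (∀ i, (μ i Set.univ).toReal ≤ C * r * ∑ k, ‖x k‖ * ‖y k‖) ∧
        ∀ f : ℂ → ℂ, ContDiff ℝ (⊤ : ℕ∞) f → HasCompactSupport f →
          HasTr (cfc f N₂ - cfc f N₁)
            ((∫ z : ℂ, fderiv ℝ f z 1 ∂(μ 0)) - (∫ z : ℂ, fderiv ℝ f z 1 ∂(μ 1)) +
              (∫ z : ℂ, fderiv ℝ f z Complex.I ∂(μ 2)) -
              (∫ z : ℂ, fderiv ℝ f z Complex.I ∂(μ 3))) := by
  obtain ⟨C, hC0, hC⟩ := hW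
  refine ⟨2 * C, ?_⟩
  intro H _ _ _ N₁ N₂ h1 h2 r x y hD
  choose x' y' hxy hxy2 using fun k => balance (x k) (y k)
  have hre : ∀ N : H →L[ℂ] H, ((realPart N : H →L[ℂ] H)) + Complex.I • ((imaginaryPart N : H →L[ℂ] H)) = N :=
    fun N => realPart_add_I_smul_imaginaryPart N
  have hcom : ∀ N : H →L[ℂ] H, IsStarNormal N →
      (realPart N : H →L[ℂ] H) * (imaginaryPart N : H →L[ℂ] H) =
        (imaginaryPart N : H →L[ℂ] H) * (realPart N : H →L[ℂ] H) := by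
    intro N hN
    exact ((isStarNormal_iff_commute_realPart_imaginaryPart).1 hN).eq
  have hsum : ∑ k, (‖x' k‖ ^ 2 + ‖y' k‖ ^ 2) = 2 * ∑ k, ‖x k‖ * ‖y k‖ := by
    rw [Finset.mul_sum]
    exact Finset.sum_congr rfl fun k _ => hxy2 k
  have hD' : ((realPart N₂ : H →L[ℂ] H) + Complex.I • (imaginaryPart N₂ : H →L[ℂ] H)) -
      ((realPart N₁ : H →L[ℂ] H) + Complex.I • (imaginaryPart N₁ : H →L[ℂ] H)) =
      ∑ k, InnerProductSpace.rankOne ℂ (x' k) (y' k) := by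
    rw [hre, hre, hD]
    exact Finset.sum_congr rfl fun k _ => (hxy k).symm
  obtain ⟨t, ht1, ht2⟩ := hC H (realPart N₁) (imaginaryPart N₁) (realPart N₂) (imaginaryPart N₂)
    (realPart N₁).2 (imaginaryPart N₁).2 (realPart N₂).2 (imaginaryPart N₂).2 (hcom N₁ h1)
    (hcom N₂ h2) r x' y' hD'
  have hS0 : 0 ≤ ∑ k, ‖x k‖ * ‖y k‖ := Finset.sum_nonneg fun k _ => by positivity
  obtain ⟨μ, hμ1, hμ2, hμ3, hμ4⟩ := hR _ (2 * C * r * ∑ k, ‖x k‖ * ‖y k‖) t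
    (add_nonneg (norm_nonneg _) (norm_nonneg _)) (by positivity) (fun p K hp => by
      refine le_trans (ht2 p K hp) (le_of_eq ?_)
      rw [hsum]; ring)
  refine ⟨μ, hμ1, hμ3, fun f hf hfc => ?_⟩
  have h := hF H (realPart N₁) (imaginaryPart N₁) (realPart N₂) (imaginaryPart N₂)
    (realPart N₁).2 (imaginaryPart N₁).2 (realPart N₂).2 (imaginaryPart N₂).2 (hcom N₁ h1)
    (hcom N₂ h2) r x' y' hD' _ μ hμ1 hμ2 (fun k k' => by
      rw [← hμ4 k k']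
      exact ht1 k k') f hf hfc
  rw [hre, hre] at h
  exact h

/-- the finite dimensional theorem -/
theorem fd : Stmt_FD := stmt_FD (stmt_L (stmt_U stmt_S)) stmt_P stmt_V stmt_G

/-- the trace formula for finite rank perturbations -/
theorem main : ∃ C : ℝ, ∀ (H : Type v) [NormedAddCommGroup H] [InnerProductSpace ℂ H]
      [CompleteSpace H] (N₁ N₂ : H →L[ℂ] H), IsStarNormal N₁ → IsStarNormal N₂ →
      ∀ (r : ℕ) (x y : Fin r → H), N₂ - N₁ = ∑ k, InnerProductSpace.rankOne ℂ (x k) (y k) →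
      ∃ μ : Fin 4 → Measure ℂ, (∀ i, IsFiniteMeasure (μ i)) ∧
        (∀ i, (μ i Set.univ).toReal ≤ C * r * ∑ k, ‖x k‖ * ‖y k‖) ∧
        ∀ f : ℂ → ℂ, ContDiff ℝ (⊤ : ℕ∞) f → HasCompactSupport f →
          HasTr (cfc f N₂ - cfc f N₁)
            ((∫ z : ℂ, fderiv ℝ f z 1 ∂(μ 0)) - (∫ z : ℂ, fderiv ℝ f z 1 ∂(μ 1)) +
              (∫ z : ℂ, fderiv ℝ f z Complex.I ∂(μ 2)) -
              (∫ z : ℂ, fderiv ℝ f z Complex.I ∂(μ 3))) :=
  final (stmt_W stmt_S fd stmt_T) stmt_R stmt_F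

end Pool.FR
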