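import Mathlib

/-!
# Finite rank perturbations of normal operators: interface

Goal (MP_8c7e5b_an): for bounded normal operators `N₁, N₂` with `N₂ - N₁` of rank `≤ r` the trace
formula holds with finite measures of total mass `≤ C r ‖N₂ - N₁‖₁`.
See PROOF.md in this folder.
-/

open Matrix MeasureTheory
open scoped ComplexOrder

namespace Pool.FR

/-- square complex matrices -/
abbrev Mat (n : ℕ) := Matrix (Fin n) (Fin n) ℂ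

/-- unitary -/
def IsU {n : ℕ} (V : Mat n) : Prop := Vᴴ * V = 1 ∧ V * Vᴴ = 1

/-- argument in `[0, 2π)` -/
noncomputable def arg0 (z : ℂ) : ℝ := if z.arg < 0 then z.arg + 2 * Real.pi else z.arg

/-- sum of the phases in `[0, 2π)` of the eigenvalues -/
noncomputable def th0 {n : ℕ} (V : Mat n) : ℝ := (V.charpoly.roots.map arg0).sum

/-- sum of the phases in `(-π, π]` of the eigenvalues -/
noncomputable def thp {n : ℕ} (V : Mat n) : ℝ := (V.charpoly.roots.map Complex.arg).sum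

/-- BLOCK S: normal matrices are unitarily diagonalisable. -/
def Stmt_S : Prop := ∀ (n : ℕ) (A : Mat n), A * Aᴴ = Aᴴ * A →
  ∃ (U : Mat n) (α : Fin n → ℂ), IsU U ∧ A = U * diagonal α * Uᴴ

/-- BLOCK U: the two phase functions. -/
def Stmt_U : Prop :=
  (∀ (n : ℕ) (V : Mat n), IsU V →
      Complex.exp (th0 V * Complex.I) = V.det ∧ Complex.exp (thp V * Complex.I) = V.det) ∧
  (∀ (n : ℕ) (V : Mat n), IsU V → |th0 V - thp V| ≤ 2 * Real.pi * (V - 1).rank) ∧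
  (∀ (n ρ : ℕ) (V : ℝ → Mat n), Continuous V → (∀ t, IsU (V t)) → (∀ t, (V t - 1).rank ≤ ρ) →
      ∀ c : ℝ, ∀ ε > 0, ∀ᶠ t in nhds c,
        |th0 (V t) - th0 (V c)| ≤ 2 * Real.pi * ((ρ : ℝ) - (V c - 1).rank) + ε) ∧
  (∀ (n : ℕ) (V : ℝ → Mat n), Continuous V → (∀ t, IsU (V t)) →
      ∀ c : ℝ, (∀ (v : Fin n → ℂ), v ≠ 0 → V c *ᵥ v ≠ -v) → ContinuousAt (fun t => thp (V t)) c)

/-- BLOCK L: one line.  `V t - 1 = P t * (K₀ + t K₁) * Q t` with invertible `P t, Q t` and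
`rank (K₀ + t K₁) ≤ 2 r`; outside `N` closed intervals all eigenvalues of `V t` are within `1/2`
of `1`.  Then the corrected phase has total variation `≤ 48 π r N` along any increasing sequence. -/
def Stmt_L : Prop :=
  ∀ (n r N : ℕ) (V P Q : ℝ → Mat n) (K₀ K₁ : Mat n) (φ θ : ℝ → ℝ) (l u : Fin N → ℝ),
    Continuous V → (∀ t, IsU (V t)) → (∀ t, IsUnit (P t)) → (∀ t, IsUnit (Q t)) →
    (∀ t : ℝ, V t - 1 = P t * (K₀ + (t : ℂ) • K₁) * Q t) →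
    (∀ t : ℝ, (K₀ + (t : ℂ) • K₁).rank ≤ 2 * r) →
    Continuous φ → (∀ t, Complex.exp (φ t * Complex.I) = (V t).det) →
    (∀ t, (∀ i, t ∉ Set.Icc (l i) (u i)) →
      ∀ (μ : ℂ) (v : Fin n → ℂ), v ≠ 0 → V t *ᵥ v = μ • v → ‖μ - 1‖ ≤ 1 / 2) →
    (∀ t, (∃ i, t ∈ Set.Icc (l i) (u i)) → θ t = th0 (V t)) →
    (∀ t, (¬ ∃ i, t ∈ Set.Icc (l i) (u i)) → θ t = thp (V t)) →
    ∀ (M : ℕ) (t : ℕ → ℝ), StrictMono t →
      ∑ k ∈ Finset.range M, |(φ (t (k + 1)) - φ (t k)) - (θ (t (k + 1)) - θ (t k))|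
        ≤ 48 * Real.pi * r * N

/-- weight of the eigenvector `e_i` (column `i` of `U`) for the factors `X, Y` -/
noncomputable def wt {n r : ℕ} (U : Mat n) (X Y : Matrix (Fin n) (Fin r) ℂ) (i : Fin n) : ℝ :=
  ∑ k, (‖(Uᴴ * X) i k‖ ^ 2 + ‖(Uᴴ * Y) i k‖ ^ 2)

/-- the unitary matrix `V(z) = a^* a^{-1} b (b^*)^{-1}`, `a = A - z`, `b = B - z` -/
noncomputable def Vz {n : ℕ} (A B : Mat n) (z : ℂ) : Mat n :=
  (A - z • (1 : Mat n))ᴴ * (A - z • (1 : Mat n))⁻¹ * (B - z • (1 : Mat n)) *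
    ((B - z • (1 : Mat n))ᴴ)⁻¹

/-- BLOCK P: if the coupling has low density around `z` at all scales then all phases of `V(z)`
are small. -/
def Stmt_P : Prop :=
  ∀ (n r : ℕ) (A B UA UB : Mat n) (α β : Fin n → ℂ) (X Y : Matrix (Fin n) (Fin r) ℂ),
    IsU UA → IsU UB → A = UA * diagonal α * UAᴴ → B = UB * diagonal β * UBᴴ →
    B - A = X * Yᴴ →
    ∀ z : ℂ, (∀ i, α i ≠ z) → (∀ j, β j ≠ z) →
      (∀ s : ℝ, 0 < s →
        ∑ i ∈ Finset.univ.filter (fun i => ‖α i - z‖ ≤ s), wt UA X Y i +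
        ∑ j ∈ Finset.univ.filter (fun j => ‖β j - z‖ ≤ s), wt UB X Y j ≤ s / 40) →
      ∀ (μ : ℂ) (v : Fin n → ℂ), v ≠ 0 → Vz A B z *ᵥ v = μ • v → ‖μ - 1‖ ≤ 1 / 2

/-- BLOCK V: covering of the places of high density. -/
def Stmt_V : Prop :=
  ∀ (n : ℕ) (p : Fin n → ℂ) (w : Fin n → ℝ), (∀ i, 0 ≤ w i) →
    ∃ (N : ℕ) (c : Fin N → ℂ) (s : Fin N → ℝ), (∀ i, 0 < s i) ∧ ∑ i, s i ≤ 200 * ∑ i, w i ∧
      ∀ z : ℂ, (∀ i, s i < ‖z - c i‖) → ∀ ρ : ℝ, 0 < ρ →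
        ∑ i ∈ Finset.univ.filter (fun i => ‖p i - z‖ ≤ ρ), w i ≤ ρ / 40

/-- lift of the phase of `det V(x + i y)` along the vertical line with abscissa `x` -/
noncomputable def phiV {n : ℕ} (α β : Fin n → ℂ) (x y : ℝ) : ℝ :=
  2 * ∑ j, Real.arctan (((β j).im - y) / ((β j).re - x)) -
    2 * ∑ i, Real.arctan (((α i).im - y) / ((α i).re - x))

/-- lift of the phase of `det V(x + i y)` along the horizontal line with ordinate `y` -/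
noncomputable def phiH {n : ℕ} (α β : Fin n → ℂ) (y x : ℝ) : ℝ :=
  2 * ∑ i, Real.arctan (((α i).re - x) / ((α i).im - y)) -
    2 * ∑ j, Real.arctan (((β j).re - x) / ((β j).im - y))

/-- BLOCK G: grid summation. `θ` is any function on the plane. -/
def Stmt_G : Prop :=
  ∀ (n N : ℕ) (α β : Fin n → ℂ) (θ : ℂ → ℝ) (c : Fin N → ℂ) (s : Fin N → ℝ) (C : ℝ), 0 ≤ C →
    (∀ i, 0 < s i) →
    (∀ x : ℝ, (∀ i, (α i).re ≠ x) → (∀ j, (β j).re ≠ x) → ∀ (M : ℕ) (t : ℕ → ℝ), StrictMono t →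
      ∑ k ∈ Finset.range M, |(phiV α β x (t (k + 1)) - phiV α β x (t k)) -
        (θ (⟨x, t (k + 1)⟩ : ℂ) - θ (⟨x, t k⟩ : ℂ))|
        ≤ C * (Finset.univ.filter (fun i => |x - (c i).re| ≤ s i)).card) →
    (∀ y : ℝ, (∀ i, (α i).im ≠ y) → (∀ j, (β j).im ≠ y) → ∀ (M : ℕ) (t : ℕ → ℝ), StrictMono t →
      ∑ k ∈ Finset.range M, |(phiH α β y (t (k + 1)) - phiH α β y (t k)) -
        (θ (⟨t (k + 1), y⟩ : ℂ) - θ (⟨t k, y⟩ : ℂ))|
        ≤ C * (Finset.univ.filter (fun i => |y - (c i).im| ≤ s i)).card) →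
    ∀ (K : NNReal) (f : ℂ → ℝ), LipschitzWith K f →
      |∑ j, f (β j) - ∑ i, f (α i)| ≤ C * K * ∑ i, s i

/-- BLOCK FD: the finite dimensional theorem. -/
def Stmt_FD : Prop := ∃ C : ℝ, 0 ≤ C ∧
  ∀ (n r : ℕ) (A B UA UB : Mat n) (α β : Fin n → ℂ) (X Y : Matrix (Fin n) (Fin r) ℂ),
    IsU UA → IsU UB → A = UA * diagonal α * UAᴴ → B = UB * diagonal β * UBᴴ →
    B - A = X * Yᴴ →
    ∀ (K : NNReal) (f : ℂ → ℝ), LipschitzWith K f →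
      |∑ j, f (β j) - ∑ i, f (α i)| ≤ C * r * K * ∑ i, ∑ k, (‖X i k‖ ^ 2 + ‖Y i k‖ ^ 2)

section Operators

universe v

/-- the trace of `T` in every countable orthonormal basis is `c` (absolutely convergent) -/
def HasTr {H : Type v} [NormedAddCommGroup H] [InnerProductSpace ℂ H] (T : H →L[ℂ] H) (c : ℂ) :
    Prop :=
  ∀ (ι : Type) [Countable ι] (e : HilbertBasis ι ℂ H), HasSum (fun i => inner ℂ (e i) (T (e i))) c

/-- BLOCK T: exact finite models for the moments of a commuting pair compressed to a finite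
dimensional space, with the linear constraint that encodes normality of the perturbation. -/
def Stmt_T : Prop :=
  ∀ (H : Type v) [NormedAddCommGroup H] [InnerProductSpace ℂ H] [CompleteSpace H]
    (X Y : H →L[ℂ] H), IsSelfAdjoint X → IsSelfAdjoint Y → X * Y = Y * X →
    ∀ (d : ℕ) (l : Fin d → H), Orthonormal ℂ l →
    ∀ (δX δY E : Mat d),
      (∀ j, X (∑ i, δY i j • l i) - Y (∑ i, δX i j • l i) = ∑ i, E i j • l i) →
      ∀ Nn : ℕ, ∃ (m : ℕ) (x y : Fin m → ℝ) (W : Fin m → Mat d),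
        (∀ a, ‖(⟨x a, y a⟩ : ℂ)‖ ≤ ‖X + Complex.I • Y‖) ∧
        (∀ a, (W a).PosSemidef) ∧
        (∀ a, W a * ((x a : ℂ) • δY - (y a : ℂ) • δX - E) = 0) ∧
        ∀ k k' : ℕ, k ≤ Nn → k' ≤ Nn →
          ∑ a, ((x a : ℂ) ^ k * (y a : ℂ) ^ k') • W a =
            Matrix.of (fun i j => inner ℂ (l i) ((X ^ k * Y ^ k') (l j)))

/-- BLOCK W: traces of polynomials and the Lipschitz bound for them. -/
def Stmt_W : Prop := ∃ C : ℝ, 0 ≤ C ∧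
  ∀ (H : Type v) [NormedAddCommGroup H] [InnerProductSpace ℂ H] [CompleteSpace H]
    (X₁ Y₁ X₂ Y₂ : H →L[ℂ] H), IsSelfAdjoint X₁ → IsSelfAdjoint Y₁ → IsSelfAdjoint X₂ →
    IsSelfAdjoint Y₂ → X₁ * Y₁ = Y₁ * X₁ → X₂ * Y₂ = Y₂ * X₂ →
    ∀ (r : ℕ) (x y : Fin r → H),
      ((X₂ + Complex.I • Y₂) - (X₁ + Complex.I • Y₁) =
        ∑ k, InnerProductSpace.rankOne ℂ (x k) (y k)) →
      ∃ t : ℕ → ℕ → ℝ, (∀ k k', HasTr (X₂ ^ k * Y₂ ^ k' - X₁ ^ k * Y₁ ^ k') (t k k')) ∧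
        ∀ (p : MvPolynomial (Fin 2) ℝ) (K : NNReal),
          LipschitzOnWith K (fun z : ℂ => MvPolynomial.eval ![z.re, z.im] p)
            (Metric.closedBall 0 (‖X₁ + Complex.I • Y₁‖ +
              ‖(X₂ + Complex.I • Y₂) - (X₁ + Complex.I • Y₁)‖)) →
          |∑ m ∈ p.support, p.coeff m * t (m 0) (m 1)| ≤ C * r * K * ∑ k, (‖x k‖ ^ 2 + ‖y k‖ ^ 2)

/-- BLOCK R: Hahn-Banach and Riesz. -/
def Stmt_R : Prop :=
  ∀ (R M : ℝ) (t : ℕ → ℕ → ℝ), 0 ≤ R → 0 ≤ M →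
    (∀ (p : MvPolynomial (Fin 2) ℝ) (K : NNReal),
      LipschitzOnWith K (fun z : ℂ => MvPolynomial.eval ![z.re, z.im] p) (Metric.closedBall 0 R) →
      |∑ m ∈ p.support, p.coeff m * t (m 0) (m 1)| ≤ M * K) →
    ∃ μ : Fin 4 → Measure ℂ, (∀ i, IsFiniteMeasure (μ i)) ∧
      (∀ i, μ i (Metric.closedBall 0 R)ᶜ = 0) ∧
      (∀ i, (μ i Set.univ).toReal ≤ M) ∧
      ∀ k k' : ℕ, t k k' =
        (∫ z : ℂ, (k : ℝ) * z.re ^ (k - 1) * z.im ^ k' ∂(μ 0)) -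
        (∫ z : ℂ, (k : ℝ) * z.re ^ (k - 1) * z.im ^ k' ∂(μ 1)) +
        (∫ z : ℂ, (k' : ℝ) * z.re ^ k * z.im ^ (k' - 1) ∂(μ 2)) -
        (∫ z : ℂ, (k' : ℝ) * z.re ^ k * z.im ^ (k' - 1) ∂(μ 3))

/-- BLOCK F: from monomials to smooth functions. -/
def Stmt_F : Prop :=
  ∀ (H : Type v) [NormedAddCommGroup H] [InnerProductSpace ℂ H] [CompleteSpace H]
    (X₁ Y₁ X₂ Y₂ : H →L[ℂ] H), IsSelfAdjoint X₁ → IsSelfAdjoint Y₁ → IsSelfAdjoint X₂ →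
    IsSelfAdjoint Y₂ → X₁ * Y₁ = Y₁ * X₁ → X₂ * Y₂ = Y₂ * X₂ →
    ∀ (r : ℕ) (x y : Fin r → H),
      ((X₂ + Complex.I • Y₂) - (X₁ + Complex.I • Y₁) =
        ∑ k, InnerProductSpace.rankOne ℂ (x k) (y k)) →
      ∀ (R : ℝ) (μ : Fin 4 → Measure ℂ), (∀ i, IsFiniteMeasure (μ i)) →
        (∀ i, μ i (Metric.closedBall 0 R)ᶜ = 0) →
        (∀ k k' : ℕ, HasTr (X₂ ^ k * Y₂ ^ k' - X₁ ^ k * Y₁ ^ k')
          (((∫ z : ℂ, (k : ℝ) * z.re ^ (k - 1) * z.im ^ k' ∂(μ 0)) -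
            (∫ z : ℂ, (k : ℝ) * z.re ^ (k - 1) * z.im ^ k' ∂(μ 1)) +
            (∫ z : ℂ, (k' : ℝ) * z.re ^ k * z.im ^ (k' - 1) ∂(μ 2)) -
            (∫ z : ℂ, (k' : ℝ) * z.re ^ k * z.im ^ (k' - 1) ∂(μ 3)) : ℝ) : ℂ)) →
        ∀ f : ℂ → ℂ, ContDiff ℝ (⊤ : ℕ∞) f → HasCompactSupport f →
          HasTr (cfc f (X₂ + Complex.I • Y₂) - cfc f (X₁ + Complex.I • Y₁))
            ((∫ z : ℂ, fderiv ℝ f z 1 ∂(μ 0)) - (∫ z : ℂ, fderiv ℝ f z 1 ∂(μ 1)) +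
              (∫ z : ℂ, fderiv ℝ f z Complex.I ∂(μ 2)) - (∫ z : ℂ, fderiv ℝ f z Complex.I ∂(μ 3)))

end Operators

end Pool.FR
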