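import Pool.Agent.Work.FiniteRankNormal.Interface

open Matrix Module End
open scoped ComplexConjugate

namespace Pool.FR

namespace SAux

variable {E : Type*} [NormedAddCommGroup E] [InnerProductSpace ℂ E] [FiniteDimensional ℂ E]

variable {T S : E →ₗ[ℂ] E}

/-- normality in the form used here: `S` is the adjoint and commutes with `T` -/
theorem eig_adj (hadj : ∀ x y, inner ℂ (T x) y = inner ℂ x (S y)) (hc : ∀ x, T (S x) = S (T x))
    {μ : ℂ} {v : E} (hv : T v = μ • v) : S v = conj μ • v := by
  have hadj' : ∀ x y, inner ℂ (S x) y = inner ℂ x (T y) := by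
    intro x y
    rw [← inner_conj_symm, ← hadj, inner_conj_symm]
  have h1 : inner ℂ (S v - conj μ • v) (S v - conj μ • v) = 0 := by
    rw [inner_sub_left, inner_sub_right, inner_sub_right]
    have e1 : inner ℂ (S v) (S v) = inner ℂ (T v) (T v) := by
      rw [hadj', hc, ← hadj]
    have e2 : inner ℂ (S v) (conj μ • v) = inner ℂ (T v) (T v) := by
      rw [inner_smul_right, hadj', hv, inner_smul_right, inner_smul_left, inner_smul_right]
    have e3 : inner ℂ (conj μ • v) (S v) = inner ℂ (T v) (T v) := by
      rw [inner_smul_left, ← hadj, hv, Complex.conj_conj]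
      simp only [inner_smul_left, inner_smul_right]
    have e4 : inner ℂ (conj μ • v) (conj μ • v) = inner ℂ (T v) (T v) := by
      rw [hv]
      simp only [inner_smul_left, inner_smul_right, Complex.conj_conj]
      ring
    rw [e1, e2, e3, e4]
    ring
  rw [inner_self_eq_zero] at h1
  exact sub_eq_zero.mp h1

theorem orth_fam (hadj : ∀ x y, inner ℂ (T x) y = inner ℂ x (S y)) (hc : ∀ x, T (S x) = S (T x)) :
    OrthogonalFamily ℂ (fun μ => eigenspace T μ) fun μ => (eigenspace T μ).subtypeₗᵢ := by
  rintro μ ν hμν ⟨v, hv⟩ ⟨w, hw⟩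
  rw [mem_eigenspace_iff] at hv hw
  have hv' := eig_adj hadj hc hv
  have h : inner ℂ (T w) v = inner ℂ w (S v) := hadj w v
  rw [hw, hv', inner_smul_left, inner_smul_right] at h
  have h2 : (conj ν - conj μ) * inner ℂ w v = 0 := by rw [sub_mul, h, sub_self]
  rcases mul_eq_zero.mp h2 with h3 | h3
  · exfalso
    apply hμν
    have := sub_eq_zero.mp h3
    exact ((starRingEnd ℂ).injective this).symm
  · show inner ℂ v w = 0
    rw [← inner_conj_symm, h3, map_zero]

theorem sup_eq_bot (hadj : ∀ x y, inner ℂ (T x) y = inner ℂ x (S y))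
    (hc : ∀ x, T (S x) = S (T x)) : (⨆ μ, eigenspace T μ)ᗮ = ⊥ := by
  have hinv : ∀ v ∈ (⨆ μ, eigenspace T μ)ᗮ, T v ∈ (⨆ μ, eigenspace T μ)ᗮ := by
    intro v hv
    rw [← Submodule.iInf_orthogonal] at hv ⊢
    rw [Submodule.mem_iInf] at hv ⊢
    intro μ w hw
    have hw' : T w = μ • w := by rwa [mem_eigenspace_iff] at hw
    have hS := eig_adj hadj hc hw'
    have hadj' : inner ℂ (S w) v = inner ℂ w (T v) := by
      rw [← inner_conj_symm, ← hadj, inner_conj_symm]
    rw [← hadj', hS, inner_smul_left, hv μ w hw, mul_zero]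
  set p : Submodule ℂ E := (⨆ μ, eigenspace T μ)ᗮ with hp
  by_contra hne
  have : Nontrivial p := Submodule.nontrivial_iff_ne_bot.mpr hne
  obtain ⟨μ, hμ⟩ := Module.End.exists_eigenvalue (T.restrict hinv)
  obtain ⟨⟨v, hvp⟩, hv, hv0⟩ := hμ.exists_hasEigenvector
  rw [mem_eigenspace_iff] at hv
  have hv' : T v = μ • v := by
    have := congrArg Subtype.val hv
    simpa using this
  have h1 : v ∈ (⨆ μ, eigenspace T μ) := by
    apply Submodule.mem_iSup_of_mem μ
    rwa [mem_eigenspace_iff]
  have h2 : inner ℂ v v = (0 : ℂ) := hvp v h1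
  rw [inner_self_eq_zero] at h2
  apply hv0
  ext
  exact h2

end SAux

open SAux in
theorem stmt_S : Stmt_S := by
  intro n A hA
  classical
  set T : EuclideanSpace ℂ (Fin n) →ₗ[ℂ] EuclideanSpace ℂ (Fin n) := A.toEuclideanLin with hT
  set S : EuclideanSpace ℂ (Fin n) →ₗ[ℂ] EuclideanSpace ℂ (Fin n) := Aᴴ.toEuclideanLin with hS
  have hadj : ∀ x y, inner ℂ (T x) y = inner ℂ x (S y) := by
    intro x y
    have : S = LinearMap.adjoint T := by
      rw [hS, hT, Matrix.toEuclideanLin_conjTranspose_eq_adjoint]
    rw [this, LinearMap.adjoint_inner_right]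
  have hc : ∀ x, T (S x) = S (T x) := by
    intro x
    have h1 : T (S x) = (A * Aᴴ).toEuclideanLin x := by
      simp [hT, hS, Matrix.toLpLin_apply, Matrix.mulVec_mulVec]
    have h2 : S (T x) = (Aᴴ * A).toEuclideanLin x := by
      simp [hT, hS, Matrix.toLpLin_apply, Matrix.mulVec_mulVec]
    rw [h1, h2, hA]
  have hfam := orth_fam hadj hc
  have hfam' : OrthogonalFamily ℂ (fun μ : Eigenvalues T => eigenspace T μ) fun μ =>
      (eigenspace T μ).subtypeₗᵢ := hfam.comp Subtype.coe_injective
  have hint : DirectSum.IsInternal (fun μ : Eigenvalues T => eigenspace T μ) := by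
    rw [hfam'.isInternal_iff]
    have h1 := sup_eq_bot hadj hc
    have h2 : (⨆ μ : Eigenvalues T, eigenspace T μ) = ⨆ μ, eigenspace T μ := by
      apply le_antisymm
      · exact iSup_le fun μ => le_iSup (fun μ => eigenspace T μ) (μ : ℂ)
      · apply iSup_le
        intro μ
        by_cases h : eigenspace T μ = ⊥
        · rw [h]; exact bot_le
        · exact le_iSup (fun μ : Eigenvalues T => eigenspace T μ) ⟨μ, h⟩
    rw [h2, h1]
  have hn : Module.finrank ℂ (EuclideanSpace ℂ (Fin n)) = n := by simp
  set b := hint.subordinateOrthonormalBasis hn hfam' with hb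
  set al : Fin n → ℂ := fun i => ((hint.subordinateOrthonormalBasisIndex hn i hfam' : Eigenvalues T) : ℂ) with hal
  have hbv : ∀ i, T (b i) = al i • b i := by
    intro i
    have := hint.subordinateOrthonormalBasis_subordinate hn i hfam'
    rwa [mem_eigenspace_iff] at this
  refine ⟨Matrix.of fun i j => b j i, al, ?_, ?_⟩
  · have h1 : (Matrix.of fun i j => b j i : Mat n)ᴴ * (Matrix.of fun i j => b j i) = 1 := by
      ext i j
      have := b.orthonormal
      rw [orthonormal_iff_ite] at this
      have h := this i j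
      rw [Matrix.mul_apply, Matrix.one_apply, ← h, EuclideanSpace.inner_eq_star_dotProduct]
      simp [Matrix.conjTranspose_apply, dotProduct, mul_comm]
    exact ⟨h1, mul_eq_one_comm.mp h1⟩
  · have h1 : (Matrix.of fun i j => b j i : Mat n)ᴴ * (Matrix.of fun i j => b j i) = 1 := by
      ext i j
      have := b.orthonormal
      rw [orthonormal_iff_ite] at this
      have h := this i j
      rw [Matrix.mul_apply, Matrix.one_apply, ← h, EuclideanSpace.inner_eq_star_dotProduct]
      simp [Matrix.conjTranspose_apply, dotProduct, mul_comm]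
    have h2 := mul_eq_one_comm.mp h1
    have h3 : A * (Matrix.of fun i j => b j i : Mat n) = (Matrix.of fun i j => b j i) * diagonal al := by
      ext i j
      have := congrFun (congrArg WithLp.ofLp (hbv j)) i
      rw [hT, Matrix.toLpLin_apply] at this
      rw [Matrix.mul_apply, Matrix.mul_diagonal]
      simp only [Matrix.of_apply]
      simpa [Matrix.mulVec, dotProduct, mul_comm] using this
    rw [← h3, mul_assoc, h2, mul_one]

end Pool.FR
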