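import Pool.Agent.Work.FiniteRankNormal.Interface

open Matrix

namespace Pool.FR

namespace WAux

/-- telescoping of powers in a noncommutative ring -/
theorem tel {R : Type*} [Ring R] (a b : R) (k : ℕ) :
    b ^ k - a ^ k = ∑ i ∈ Finset.range k, a ^ i * (b - a) * b ^ (k - 1 - i) := by
  have h := Finset.sum_range_sub' (fun i => a ^ i * b ^ (k - i)) k
  simp only [pow_zero, one_mul, Nat.sub_zero, Nat.sub_self, mul_one] at h
  rw [← h]
  apply Finset.sum_congr rfl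
  intro i hi
  rw [Finset.mem_range] at hi
  obtain ⟨j, hj⟩ : ∃ j, k - 1 - i = j := ⟨_, rfl⟩
  have h1 : k - i = j + 1 := by omega
  have h2 : k - (i + 1) = j := by omega
  rw [hj, h1, h2, pow_succ' b j, pow_succ a i]
  noncomm_ring

/-- telescoping for products of two powers -/
theorem tel2 {R : Type*} [Ring R] (X₁ Y₁ X₂ Y₂ dX dY : R) (hX : X₂ = X₁ + dX) (hY : Y₂ = Y₁ + dY)
    (k k' : ℕ) :
    X₂ ^ k * Y₂ ^ k' - X₁ ^ k * Y₁ ^ k' =
      ∑ i ∈ Finset.range k, X₁ ^ i * dX * (X₂ ^ (k - 1 - i) * Y₂ ^ k') +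
      ∑ i ∈ Finset.range k', (X₁ ^ k * Y₁ ^ i) * dY * Y₂ ^ (k' - 1 - i) := by
  have e1 : X₂ ^ k * Y₂ ^ k' - X₁ ^ k * Y₁ ^ k' =
      (X₂ ^ k - X₁ ^ k) * Y₂ ^ k' + X₁ ^ k * (Y₂ ^ k' - Y₁ ^ k') := by noncomm_ring
  have hdX : X₂ - X₁ = dX := by rw [hX]; abel
  have hdY : Y₂ - Y₁ = dY := by rw [hY]; abel
  rw [e1, tel X₁ X₂ k, tel Y₁ Y₂ k', hdX, hdY, Finset.sum_mul, Finset.mul_sum]
  congr 1
  · apply Finset.sum_congr rfl
    intro i _
    simp only [mul_assoc]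
  · apply Finset.sum_congr rfl
    intro i _
    simp only [mul_assoc]

/-- the formula for the trace of `X₂ ^ k Y₂ ^ k' - X₁ ^ k Y₁ ^ k'` -/
noncomputable def cc {R : Type*} [Ring R] {d : ℕ} (M : R → Mat d) (δX δY : Mat d)
    (X₁ Y₁ X₂ Y₂ : R) (k k' : ℕ) : ℂ :=
  ∑ i ∈ Finset.range k, trace (δX * M (X₂ ^ (k - 1 - i) * Y₂ ^ k' * X₁ ^ i)) +
    ∑ i ∈ Finset.range k', trace (δY * M (Y₂ ^ (k' - 1 - i) * (X₁ ^ k * Y₁ ^ i)))

/-- abstract trace computation -/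
theorem tr_cc {R : Type*} [Ring R] {d : ℕ} (M : R → Mat d) (Jd : Mat d → R) (Tr : R → ℂ → Prop)
    (h0 : Tr 0 0) (hadd : ∀ a b x y, Tr a x → Tr b y → Tr (a + b) (x + y))
    (hJ : ∀ (A B : R) (δ : Mat d), Tr (A * Jd δ * B) (trace (δ * M (B * A))))
    (δX δY : Mat d) (X₁ Y₁ X₂ Y₂ : R) (hX : X₂ = X₁ + Jd δX) (hY : Y₂ = Y₁ + Jd δY) (k k' : ℕ) :
    Tr (X₂ ^ k * Y₂ ^ k' - X₁ ^ k * Y₁ ^ k') (cc M δX δY X₁ Y₁ X₂ Y₂ k k') := by
  have hsum : ∀ (n : ℕ) (f : ℕ → R) (g : ℕ → ℂ), (∀ i, Tr (f i) (g i)) →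
      Tr (∑ i ∈ Finset.range n, f i) (∑ i ∈ Finset.range n, g i) := by
    intro n f g hfg
    induction n with
    | zero => simpa using h0
    | succ n ih =>
      rw [Finset.sum_range_succ, Finset.sum_range_succ]
      exact hadd _ _ _ _ ih (hfg n)
  rw [tel2 X₁ Y₁ X₂ Y₂ (Jd δX) (Jd δY) hX hY k k']
  unfold cc
  apply hadd
  · apply hsum
    intro i
    exact hJ _ _ _
  · apply hsum
    intro i
    exact hJ _ _ _

/-- mixed moments are determined by the pure moments -/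
theorem mixed {R R' : Type*} [Ring R] [Ring R'] {d : ℕ} (M : R →+ Mat d) (M' : R' →+ Mat d)
    (Jd : Mat d → R) (Jd' : Mat d → R')
    (hM : ∀ (A B : R) (δ : Mat d), M (A * Jd δ * B) = M A * δ * M B)
    (hM' : ∀ (A B : R') (δ : Mat d), M' (A * Jd' δ * B) = M' A * δ * M' B)
    (δX δY : Mat d) (X₁ Y₁ : R) (X₁' Y₁' : R') (hc : X₁ * Y₁ = Y₁ * X₁)
    (hc' : X₁' * Y₁' = Y₁' * X₁') (Nn : ℕ)
    (hbase : ∀ k k' : ℕ, k ≤ Nn → k' ≤ Nn → M (X₁ ^ k * Y₁ ^ k') = M' (X₁' ^ k * Y₁' ^ k')) :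
    ∀ (w : List (Fin 4)) (k k' : ℕ), k + k' + w.length ≤ Nn →
      M (X₁ ^ k * Y₁ ^ k' * (w.map ![X₁, Y₁, X₁ + Jd δX, Y₁ + Jd δY]).prod) =
        M' (X₁' ^ k * Y₁' ^ k' * (w.map ![X₁', Y₁', X₁' + Jd' δX, Y₁' + Jd' δY]).prod) := by
  intro w
  induction w with
  | nil =>
    intro k k' h
    simp only [List.length_nil, add_zero] at h
    simp only [List.map_nil, List.prod_nil, mul_one]
    exact hbase k k' (by omega) (by omega)
  | cons c w ih =>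
    intro k k' h
    simp only [List.length_cons] at h
    set W := (w.map ![X₁, Y₁, X₁ + Jd δX, Y₁ + Jd δY]).prod with hW
    set W' := (w.map ![X₁', Y₁', X₁' + Jd' δX, Y₁' + Jd' δY]).prod with hW'
    have hcc : Commute X₁ Y₁ := hc
    have hcc' : Commute X₁' Y₁' := hc'
    have eX : M (X₁ ^ k * Y₁ ^ k' * (X₁ * W)) = M' (X₁' ^ k * Y₁' ^ k' * (X₁' * W')) := by
      have e1 : X₁ ^ k * Y₁ ^ k' * (X₁ * W) = X₁ ^ (k + 1) * Y₁ ^ k' * W := by
        have := (hcc.pow_right k').eq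
        rw [pow_succ X₁ k]
        calc X₁ ^ k * Y₁ ^ k' * (X₁ * W) = X₁ ^ k * (Y₁ ^ k' * X₁) * W := by
              simp only [mul_assoc]
          _ = X₁ ^ k * (X₁ * Y₁ ^ k') * W := by rw [this]
          _ = X₁ ^ k * X₁ * Y₁ ^ k' * W := by simp only [mul_assoc]
      have e2 : X₁' ^ k * Y₁' ^ k' * (X₁' * W') = X₁' ^ (k + 1) * Y₁' ^ k' * W' := by
        have := (hcc'.pow_right k').eq
        rw [pow_succ X₁' k]
        calc X₁' ^ k * Y₁' ^ k' * (X₁' * W') = X₁' ^ k * (Y₁' ^ k' * X₁') * W' := by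
              simp only [mul_assoc]
          _ = X₁' ^ k * (X₁' * Y₁' ^ k') * W' := by rw [this]
          _ = X₁' ^ k * X₁' * Y₁' ^ k' * W' := by simp only [mul_assoc]
      rw [e1, e2]
      exact ih (k + 1) k' (by omega)
    have eY : M (X₁ ^ k * Y₁ ^ k' * (Y₁ * W)) = M' (X₁' ^ k * Y₁' ^ k' * (Y₁' * W')) := by
      have e1 : X₁ ^ k * Y₁ ^ k' * (Y₁ * W) = X₁ ^ k * Y₁ ^ (k' + 1) * W := by
        rw [pow_succ Y₁ k']
        simp only [mul_assoc]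
      have e2 : X₁' ^ k * Y₁' ^ k' * (Y₁' * W') = X₁' ^ k * Y₁' ^ (k' + 1) * W' := by
        rw [pow_succ Y₁' k']
        simp only [mul_assoc]
      rw [e1, e2]
      exact ih k (k' + 1) (by omega)
    have eJ : ∀ δ : Mat d, M (X₁ ^ k * Y₁ ^ k' * (Jd δ * W)) =
        M' (X₁' ^ k * Y₁' ^ k' * (Jd' δ * W')) := by
      intro δ
      have h1 := hbase k k' (by omega) (by omega)
      have h2 := ih 0 0 (by omega)
      simp only [pow_zero, one_mul] at h2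
      rw [← mul_assoc, ← mul_assoc, hM, hM', h1, h2]
    rw [List.map_cons, List.prod_cons, List.map_cons, List.prod_cons]
    fin_cases c
    · exact eX
    · exact eY
    · show M (X₁ ^ k * Y₁ ^ k' * ((X₁ + Jd δX) * W)) =
        M' (X₁' ^ k * Y₁' ^ k' * ((X₁' + Jd' δX) * W'))
      rw [add_mul, add_mul, mul_add, mul_add, map_add, map_add, eX, eJ]
    · show M (X₁ ^ k * Y₁ ^ k' * ((Y₁ + Jd δY) * W)) =
        M' (X₁' ^ k * Y₁' ^ k' * ((Y₁' + Jd' δY) * W'))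
      rw [add_mul, add_mul, mul_add, mul_add, map_add, map_add, eY, eJ]

/-- the trace formulas of two models with the same pure moments agree -/
theorem cc_eq {R R' : Type*} [Ring R] [Ring R'] {d : ℕ} (M : R →+ Mat d) (M' : R' →+ Mat d)
    (Jd : Mat d → R) (Jd' : Mat d → R')
    (hM : ∀ (A B : R) (δ : Mat d), M (A * Jd δ * B) = M A * δ * M B)
    (hM' : ∀ (A B : R') (δ : Mat d), M' (A * Jd' δ * B) = M' A * δ * M' B)
    (δX δY : Mat d) (X₁ Y₁ : R) (X₁' Y₁' : R') (hc : X₁ * Y₁ = Y₁ * X₁)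
    (hc' : X₁' * Y₁' = Y₁' * X₁') (Nn : ℕ)
    (hbase : ∀ k k' : ℕ, k ≤ Nn → k' ≤ Nn → M (X₁ ^ k * Y₁ ^ k') = M' (X₁' ^ k * Y₁' ^ k'))
    (k k' : ℕ) (hk : k + k' ≤ Nn) :
    cc M δX δY X₁ Y₁ (X₁ + Jd δX) (Y₁ + Jd δY) k k' =
      cc M' δX δY X₁' Y₁' (X₁' + Jd' δX) (Y₁' + Jd' δY) k k' := by
  have key := mixed M M' Jd Jd' hM hM' δX δY X₁ Y₁ X₁' Y₁' hc hc' Nn hbase
  unfold cc
  congr 1
  · apply Finset.sum_congr rfl
    intro i hi
    rw [Finset.mem_range] at hi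
    have h := key (List.replicate (k - 1 - i) 2 ++ List.replicate k' 3 ++ List.replicate i 0) 0 0
      (by simp only [List.length_append, List.length_replicate]; omega)
    simp only [pow_zero, one_mul, List.map_append, List.map_replicate, List.prod_append,
      List.prod_replicate] at h
    have h' : M ((X₁ + Jd δX) ^ (k - 1 - i) * (Y₁ + Jd δY) ^ k' * X₁ ^ i) =
      M' ((X₁' + Jd' δX) ^ (k - 1 - i) * (Y₁' + Jd' δY) ^ k' * X₁' ^ i) := h
    rw [h']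
  · apply Finset.sum_congr rfl
    intro i hi
    rw [Finset.mem_range] at hi
    have h := key (List.replicate (k' - 1 - i) 3 ++ (List.replicate k 0 ++ List.replicate i 1)) 0 0
      (by simp only [List.length_append, List.length_replicate]; omega)
    simp only [pow_zero, one_mul, List.map_append, List.map_replicate, List.prod_append,
      List.prod_replicate] at h
    have h' : M ((Y₁ + Jd δY) ^ (k' - 1 - i) * (X₁ ^ k * Y₁ ^ i)) =
      M' ((Y₁' + Jd' δY) ^ (k' - 1 - i) * (X₁' ^ k * Y₁' ^ i)) := h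
    rw [h']

end WAux

end Pool.FR
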