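import Pool.Agent.Work.FiniteRankNormal.WA

open Matrix
open scoped ComplexConjugate

namespace Pool.FR

namespace WAux

universe v

variable {H : Type v} [NormedAddCommGroup H] [InnerProductSpace ℂ H]

/-- compression of an operator to the span of `l` -/
noncomputable def Mop {d : ℕ} (l : Fin d → H) : (H →L[ℂ] H) →+ Mat d where
  toFun T := Matrix.of fun i j => inner ℂ (l i) (T (l j))
  map_zero' := by ext i j; simp
  map_add' S T := by ext i j; simp [inner_add_right]

theorem Mop_apply {d : ℕ} (l : Fin d → H) (T : H →L[ℂ] H) (i j : Fin d) :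
    Mop l T i j = inner ℂ (l i) (T (l j)) := rfl

/-- the operator with matrix `δ` -/
noncomputable def Jop {d : ℕ} (l : Fin d → H) (δ : Mat d) : H →L[ℂ] H :=
  ∑ i, ∑ j, δ i j • InnerProductSpace.rankOne ℂ (l i) (l j)

theorem Jop_apply {d : ℕ} (l : Fin d → H) (δ : Mat d) (h : H) :
    Jop l δ h = ∑ i, ∑ j, (δ i j * inner ℂ (l j) h) • l i := by
  unfold Jop
  simp only [_root_.sum_apply, _root_.smul_apply,
    InnerProductSpace.rankOne_apply, smul_smul]

theorem Jop_add {d : ℕ} (l : Fin d → H) (δ ε : Mat d) : Jop l (δ + ε) = Jop l δ + Jop l ε := by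
  ext h
  simp only [Jop_apply, _root_.add_apply, Matrix.add_apply, add_mul, add_smul,
    Finset.sum_add_distrib]

theorem Jop_smul {d : ℕ} (l : Fin d → H) (c : ℂ) (δ : Mat d) : Jop l (c • δ) = c • Jop l δ := by
  ext h
  simp only [Jop_apply, _root_.smul_apply, Matrix.smul_apply, smul_eq_mul,
    Finset.smul_sum, smul_smul, mul_assoc]

theorem Jop_sub {d : ℕ} (l : Fin d → H) (δ ε : Mat d) : Jop l (δ - ε) = Jop l δ - Jop l ε := by
  rw [sub_eq_add_neg, Jop_add, ← neg_one_smul ℂ ε, Jop_smul, neg_one_smul, sub_eq_add_neg]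

theorem Mop_mul_Jop_mul {d : ℕ} (l : Fin d → H) (A B : H →L[ℂ] H) (δ : Mat d) :
    Mop l (A * Jop l δ * B) = Mop l A * δ * Mop l B := by
  ext p q
  rw [Mop_apply]
  simp only [mul_apply_eq_comp, Jop_apply, map_sum, map_smul, inner_sum,
    inner_smul_right]
  rw [Matrix.mul_apply]
  simp only [Matrix.mul_apply, Finset.sum_mul, Mop_apply]
  rw [Finset.sum_comm]
  apply Finset.sum_congr rfl
  intro j _
  apply Finset.sum_congr rfl
  intro i _
  ring

theorem hasTr_zero : HasTr (0 : H →L[ℂ] H) 0 := by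
  intro ι _ e
  simp only [_root_.zero_apply, inner_zero_right]
  exact hasSum_zero

theorem hasTr_add {S T : H →L[ℂ] H} {x y : ℂ} (hS : HasTr S x) (hT : HasTr T y) :
    HasTr (S + T) (x + y) := by
  intro ι _ e
  simp only [_root_.add_apply, inner_add_right]
  exact (hS ι e).add (hT ι e)

theorem hasTr_smul {T : H →L[ℂ] H} {y : ℂ} (c : ℂ) (hT : HasTr T y) :
    HasTr (c • T) (c * y) := by
  intro ι _ e
  simp only [_root_.smul_apply, inner_smul_right]
  exact (hT ι e).mul_left c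

theorem hasTr_sum {α : Type*} (s : Finset α) (T : α → H →L[ℂ] H) (y : α → ℂ)
    (hT : ∀ a ∈ s, HasTr (T a) (y a)) : HasTr (∑ a ∈ s, T a) (∑ a ∈ s, y a) := by
  classical
  induction s using Finset.induction_on with
  | empty => simpa using hasTr_zero
  | insert a s ha ih =>
    rw [Finset.sum_insert ha, Finset.sum_insert ha]
    exact hasTr_add (hT a (Finset.mem_insert_self a s))
      (ih fun b hb => hT b (Finset.mem_insert_of_mem hb))

theorem hasTr_rankOne [CompleteSpace H] (u v : H) (A B : H →L[ℂ] H) :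
    HasTr (A * InnerProductSpace.rankOne ℂ u v * B) (inner ℂ v ((B * A) u)) := by
  intro ι _ e
  have h := e.hasSum_inner_mul_inner (ContinuousLinearMap.adjoint B v) (A u)
  rw [ContinuousLinearMap.adjoint_inner_left] at h
  have h2 : inner ℂ v (B (A u)) = inner ℂ v ((B * A) u) := rfl
  rw [h2] at h
  refine h.congr_fun ?_
  intro i
  simp only [mul_apply_eq_comp, InnerProductSpace.rankOne_apply, map_smul,
    inner_smul_right, ContinuousLinearMap.adjoint_inner_left]

theorem hasTr_Jop [CompleteSpace H] {d : ℕ} (l : Fin d → H) (A B : H →L[ℂ] H) (δ : Mat d) :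
    HasTr (A * Jop l δ * B) (trace (δ * Mop l (B * A))) := by
  have e1 : A * Jop l δ * B = ∑ i, ∑ j, δ i j • (A * InnerProductSpace.rankOne ℂ (l i) (l j) * B) := by
    unfold Jop
    simp only [Finset.mul_sum, Finset.sum_mul, mul_smul_comm, smul_mul_assoc]
  have e2 : trace (δ * Mop l (B * A)) = ∑ i, ∑ j, δ i j * inner ℂ (l j) ((B * A) (l i)) := by
    simp only [Matrix.trace, Matrix.diag_apply, Matrix.mul_apply, Mop_apply]
  rw [e1, e2]
  apply hasTr_sum
  intro i _
  apply hasTr_sum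
  intro j _
  exact hasTr_smul _ (hasTr_rankOne _ _ _ _)

/-- existence of the orthonormal system -/
theorem exists_onb (r : ℕ) (x y : Fin r → H) : ∃ (d : ℕ) (l : Fin d → H), Orthonormal ℂ l ∧
    (∀ k, x k = ∑ i, inner ℂ (l i) (x k) • l i) ∧ (∀ k, y k = ∑ i, inner ℂ (l i) (y k) • l i) := by
  classical
  set L : Submodule ℂ H := Submodule.span ℂ (Set.range x ∪ Set.range y) with hL
  have hfin : FiniteDimensional ℂ L := by
    apply FiniteDimensional.span_of_finite
    exact (Set.finite_range x).union (Set.finite_range y)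
  set b := stdOrthonormalBasis ℂ L with hb
  refine ⟨Module.finrank ℂ L, fun i => (b i : H), ?_, ?_, ?_⟩
  · have h := b.orthonormal
    exact h.comp_linearIsometry L.subtypeₗᵢ
  · intro k
    have hk : x k ∈ L := Submodule.subset_span (Or.inl ⟨k, rfl⟩)
    have h := b.sum_repr' ⟨x k, hk⟩
    have h2 := congrArg (Subtype.val) h
    simp only [Submodule.coe_sum, Submodule.coe_smul, Submodule.coe_inner] at h2
    exact h2.symm
  · intro k
    have hk : y k ∈ L := Submodule.subset_span (Or.inr ⟨k, rfl⟩)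
    have h := b.sum_repr' ⟨y k, hk⟩
    have h2 := congrArg (Subtype.val) h
    simp only [Submodule.coe_sum, Submodule.coe_smul, Submodule.coe_inner] at h2
    exact h2.symm

/-- the operator `∑ |x_k><y_k|` in the basis -/
theorem Jop_xy {d r : ℕ} (l : Fin d → H) (x y : Fin r → H)
    (hx : ∀ k, x k = ∑ i, inner ℂ (l i) (x k) • l i)
    (hy : ∀ k, y k = ∑ i, inner ℂ (l i) (y k) • l i) :
    Jop l ((Matrix.of fun i k => inner ℂ (l i) (x k) : Matrix (Fin d) (Fin r) ℂ) *
      (Matrix.of fun i k => inner ℂ (l i) (y k) : Matrix (Fin d) (Fin r) ℂ)ᴴ) =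
      ∑ k, InnerProductSpace.rankOne ℂ (x k) (y k) := by
  ext h
  rw [Jop_apply]
  simp only [_root_.sum_apply, InnerProductSpace.rankOne_apply]
  have e1 : ∀ k, inner ℂ (y k) h • x k =
      ∑ i, ∑ j, ((inner ℂ (l i) (x k) * conj (inner ℂ (l j) (y k))) * inner ℂ (l j) h) • l i := by
    intro k
    have e2 : inner ℂ (y k) h = ∑ j, conj (inner ℂ (l j) (y k)) * inner ℂ (l j) h := by
      conv_lhs => rw [hy k]
      rw [sum_inner]
      apply Finset.sum_congr rfl
      intro j _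
      rw [inner_smul_left]
    conv_lhs => rw [hx k, e2]
    rw [Finset.smul_sum]
    apply Finset.sum_congr rfl
    intro i _
    rw [smul_smul, Finset.sum_mul, Finset.sum_smul]
    apply Finset.sum_congr rfl
    intro j _
    congr 1
    ring
  rw [Finset.sum_congr rfl fun k _ => e1 k]
  conv_rhs => rw [Finset.sum_comm]
  apply Finset.sum_congr rfl
  intro i _
  conv_rhs => rw [Finset.sum_comm]
  apply Finset.sum_congr rfl
  intro j _
  rw [← Finset.sum_smul]
  congr 1
  rw [Matrix.mul_apply, Finset.sum_mul]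
  rfl

theorem norm_sq_eq {d : ℕ} (l : Fin d → H) (hl : Orthonormal ℂ l) (x : H)
    (hx : x = ∑ i, inner ℂ (l i) x • l i) : ‖x‖ ^ 2 = ∑ i, ‖inner ℂ (l i) x‖ ^ 2 := by
  have h : inner ℂ x x = ∑ i, (conj (inner ℂ (l i) x) * inner ℂ (l i) x) := by
    conv_lhs => arg 2; rw [hx]
    conv_lhs => arg 3; rw [hx]
    rw [hl.inner_sum]
  have h2 : ((‖x‖ ^ 2 : ℝ) : ℂ) = ((∑ i, ‖inner ℂ (l i) x‖ ^ 2 : ℝ) : ℂ) := by
    have h3 := inner_self_eq_norm_sq_to_K (𝕜 := ℂ) x
    push_cast
    have h4 : ∀ i, conj (inner ℂ (l i) x) * inner ℂ (l i) x = ((‖inner ℂ (l i) x‖ : ℂ)) ^ 2 := by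
      intro i
      exact Complex.conj_mul' _
    rw [Finset.sum_congr rfl fun i _ => h4 i] at h
    rw [← h, h3]
    rfl
  exact_mod_cast h2

/-- quadratic form of `Jop` -/
theorem inner_Jop {d : ℕ} (l : Fin d → H) (hl : Orthonormal ℂ l) (δ : Mat d) (w : Fin d → ℂ) :
    inner ℂ (∑ i, w i • l i) (Jop l δ (∑ i, w i • l i)) = star w ⬝ᵥ (δ *ᵥ w) := by
  have e1 : ∀ j, inner ℂ (l j) (∑ i, w i • l i) = w j := fun j => hl.inner_right_fintype w j
  rw [Jop_apply]
  simp only [e1]
  have e2 : ∑ i, ∑ j, (δ i j * w j) • l i = ∑ i, (∑ j, δ i j * w j) • l i := by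
    apply Finset.sum_congr rfl
    intro i _
    rw [Finset.sum_smul]
  rw [e2, hl.inner_sum]
  rfl

theorem norm_quad_le {d : ℕ} (l : Fin d → H) (hl : Orthonormal ℂ l) (δ : Mat d) (w : Fin d → ℂ) :
    ‖star w ⬝ᵥ (δ *ᵥ w)‖ ≤ ‖Jop l δ‖ * ∑ i, ‖w i‖ ^ 2 := by
  rw [← inner_Jop l hl δ w]
  have h1 : ‖(∑ i, w i • l i : H)‖ ^ 2 = ∑ i, ‖w i‖ ^ 2 := by
    have e1 : ∀ j, inner ℂ (l j) (∑ i, w i • l i) = w j := fun j => hl.inner_right_fintype w j
    have := norm_sq_eq l hl (∑ i, w i • l i) (by simp only [e1])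
    simp only [e1] at this
    exact this
  calc ‖inner ℂ (∑ i, w i • l i) (Jop l δ (∑ i, w i • l i))‖
      ≤ ‖(∑ i, w i • l i : H)‖ * ‖Jop l δ (∑ i, w i • l i)‖ := norm_inner_le_norm _ _
    _ ≤ ‖(∑ i, w i • l i : H)‖ * (‖Jop l δ‖ * ‖(∑ i, w i • l i : H)‖) := by
        gcongr
        exact ContinuousLinearMap.le_opNorm _ _
    _ = ‖Jop l δ‖ * ‖(∑ i, w i • l i : H)‖ ^ 2 := by ring
    _ = ‖Jop l δ‖ * ∑ i, ‖w i‖ ^ 2 := by rw [h1]

end WAux

end Pool.FR
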